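import Pool.Agent.TW.StA

/-!
Theorem W, module TW_ALZ: elementary facts on vertices.
-/

open Filter Topology
open scoped BigOperators Real

namespace Pool.Agent.TW

open Pool.Agent.LibH11.Sliced Pool.Agent.MTR Pool.Agent.MTA Pool.Agent.UA Pool.Agent.UB
open Pool.Agent.TwoBr Pool.Agent.Mont Pool.Agent.TV
open Pool.Agent.TB hiding vec

namespace ALZX

lemma slp_int (V : ℤ × ℤ) (h : V.2 ≠ 0) : (∃ n : ℤ, slp V = n) ↔ V.2 ∣ V.1 := by
  have hq : (V.2 : ℚ) ≠ 0 := by exact_mod_cast h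
  constructor
  · rintro ⟨n, hn⟩
    unfold slp at hn
    rw [div_eq_iff hq] at hn
    refine ⟨n, ?_⟩
    have : V.1 = n * V.2 := by exact_mod_cast hn
    rw [this, mul_comm]
  · rintro ⟨n, hn⟩
    refine ⟨n, ?_⟩
    unfold slp
    rw [div_eq_iff hq, hn]
    push_cast
    ring

lemma iv_per (β : ℚ) (n : ℤ) : iv (β + n) = iv β := by
  unfold iv
  rw [Rat.add_intCast_den]

lemma iv_neg (β : ℚ) : iv (-β) = iv β := by
  unfold iv
  rw [Rat.neg_den]

lemma iv_zero : iv 0 = 1 := by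
  unfold iv
  norm_num

lemma iv_pos (β : ℚ) : 0 < iv β := by
  unfold iv
  have : 0 < β.den := β.den_pos
  positivity

lemma iv_le (β : ℚ) : iv β ≤ 1 := by
  unfold iv
  have h : (1 : ℚ) ≤ (β.den : ℕ) := by exact_mod_cast β.den_pos
  rw [div_le_one (by positivity)]
  nlinarith

lemma iv_quarter (β : ℚ) (h : ¬ ∃ n : ℤ, β = n) : iv β ≤ 1 / 4 := by
  have h1 : β.den ≠ 1 := by
    intro h1
    apply h
    refine ⟨β.num, ?_⟩
    have := Rat.num_div_den β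
    rw [h1] at this
    rw [← this]
    simp
  have h2 : 2 ≤ β.den := by
    have := β.den_pos
    omega
  have h3 : (2 : ℚ) ≤ (β.den : ℕ) := by exact_mod_cast h2
  unfold iv
  rw [div_le_div_iff₀ (by positivity) (by norm_num)]
  nlinarith

/-- the quadratic expression as a function of lists -/
noncomputable def ql (l : List ℚ) : ℚ :=
  -2 * (1 - (l.map iv).sum) ^ 2 - (1 + iv l.sum) ^ 2 +
    (l.map fun x => (iv x + iv (l.sum - x)) ^ 2).sum

lemma ql_eq (a b c : ℚ) : ql [a, b, c] = QF a b c := by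
  unfold ql QF
  simp only [List.map_cons, List.map_nil, List.sum_cons, List.sum_nil, add_zero]
  have h0 : a + (b + c) - a = b + c := by ring
  have h1 : a + (b + c) - b = a + c := by ring
  have h2 : a + (b + c) - c = a + b := by ring
  rw [h0, h1, h2, ← add_assoc a b c]
  ring

lemma ql_perm {l m : List ℚ} (h : l.Perm m) : ql l = ql m := by
  unfold ql
  rw [(h.map iv).sum_eq, h.sum_eq, (h.map fun x => (iv x + iv (m.sum - x)) ^ 2).sum_eq]

lemma iv_fract (β : ℚ) : iv (Int.fract β) = iv β := by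
  have h := iv_per (Int.fract β) ⌊β⌋
  rw [Int.fract_add_floor] at h
  exact h.symm

lemma iv_congr (x y : ℚ) (n : ℤ) (h : x = y + n) : iv x = iv y := by
  rw [h, iv_per]

lemma QF_fract (a b c : ℚ) : QF (Int.fract a) (Int.fract b) (Int.fract c) = QF a b c := by
  unfold QF
  have ha := Int.fract_add_floor a
  have hb := Int.fract_add_floor b
  have hc := Int.fract_add_floor c
  have h3 : iv (Int.fract a + Int.fract b + Int.fract c) = iv (a + b + c) := by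
    symm
    apply iv_congr _ _ (⌊a⌋ + ⌊b⌋ + ⌊c⌋)
    push_cast
    linarith
  have hbc : iv (Int.fract b + Int.fract c) = iv (b + c) := by
    symm
    apply iv_congr _ _ (⌊b⌋ + ⌊c⌋)
    push_cast
    linarith
  have hac : iv (Int.fract a + Int.fract c) = iv (a + c) := by
    symm
    apply iv_congr _ _ (⌊a⌋ + ⌊c⌋)
    push_cast
    linarith
  have hab : iv (Int.fract a + Int.fract b) = iv (a + b) := by
    symm
    apply iv_congr _ _ (⌊a⌋ + ⌊b⌋)
    push_cast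
    linarith
  rw [h3, hbc, hac, hab, iv_fract, iv_fract, iv_fract]

lemma tot1 (v : Vx) : (tot v).1 =
    (v.1.1 * v.2.1.2 + v.2.1.1 * v.1.2) * v.2.2.2 + v.2.2.1 * (v.1.2 * v.2.1.2) := rfl

lemma tot2 (v : Vx) : (tot v).2 = v.1.2 * v.2.1.2 * v.2.2.2 := rfl

lemma slopes (v : Vx) (h : (tot v).2 ≠ 0) :
    v.1.2 ≠ 0 ∧ v.2.1.2 ≠ 0 ∧ v.2.2.2 ≠ 0 ∧ slp v.1 + slp v.2.1 + slp v.2.2 = slp (tot v) := by
  rw [tot2] at h
  have h1 : v.1.2 ≠ 0 := fun h0 => h (by rw [h0]; ring)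
  have h2 : v.2.1.2 ≠ 0 := fun h0 => h (by rw [h0]; ring)
  have h3 : v.2.2.2 ≠ 0 := fun h0 => h (by rw [h0]; ring)
  refine ⟨h1, h2, h3, ?_⟩
  have q1 : (v.1.2 : ℚ) ≠ 0 := by exact_mod_cast h1
  have q2 : (v.2.1.2 : ℚ) ≠ 0 := by exact_mod_cast h2
  have q3 : (v.2.2.2 : ℚ) ≠ 0 := by exact_mod_cast h3
  unfold slp
  rw [tot1, tot2]
  push_cast
  field_simp

lemma part1 (D : ℤ) (v : Vx) (hD : D ≠ 0) (hd : (tot v).1 ∣ D) (h : (tot v).2 ≠ 0) :
    Kv D v ≠ 0 ∧ (D : ℚ) / Kv D v = slp (tot v) ∧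
      slp v.1 + slp v.2.1 + slp v.2.2 = slp (tot v) ∧ (slp (tot v) ≠ 0) := by
  obtain ⟨k, hk⟩ := hd
  have ht : (tot v).1 ≠ 0 := by
    intro h0
    rw [h0, zero_mul] at hk
    exact hD hk
  have hk0 : k ≠ 0 := by
    intro h0
    rw [h0, mul_zero] at hk
    exact hD hk
  have hdiv : D / (tot v).1 = k := by
    rw [hk]
    exact Int.mul_ediv_cancel_left _ ht
  have hK : Kv D v = k * (tot v).2 := by
    unfold Kv
    rw [hdiv]
  have q1 : ((tot v).1 : ℚ) ≠ 0 := by exact_mod_cast ht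
  have q2 : ((tot v).2 : ℚ) ≠ 0 := by exact_mod_cast h
  have q3 : (k : ℚ) ≠ 0 := by exact_mod_cast hk0
  refine ⟨?_, ?_, (slopes v h).2.2.2, ?_⟩
  · rw [hK]
    exact mul_ne_zero hk0 h
  · rw [hK]
    have hDq : (D : ℚ) = (tot v).1 * k := by exact_mod_cast hk
    rw [hDq]
    unfold slp
    push_cast
    field_simp
  · unfold slp
    exact div_ne_zero q1 q2

/-- the alternating sum is zero if one slope is an integer -/
lemma al0 (φ : ℚ → ℂ) (hφ : Per1 φ) (σ b0 b1 b2 : ℚ) (hs : b0 + b1 + b2 = σ) (n : ℤ)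
    (h : b0 = n) : al φ σ b0 b1 b2 = 0 := by
  unfold al
  have h0 : φ b0 = φ 0 := by
    have := hφ 0 n
    rw [zero_add] at this
    rw [h, this]
  have h1 : φ (σ - b0) = φ σ := by
    have h' := hφ (σ - b0) n
    rw [show σ - b0 + (n : ℚ) = σ by rw [h]; ring] at h'
    exact h'.symm
  have h2 : φ (σ - b1) = φ b2 := by
    rw [show σ - b1 = b2 + (n : ℚ) by rw [← hs, h]; ring]
    exact hφ b2 n
  have h3 : φ (σ - b2) = φ b1 := by
    rw [show σ - b2 = b1 + (n : ℚ) by rw [← hs, h]; ring]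
    exact hφ b1 n
  rw [h0, h1, h2, h3]
  ring

lemma al_swap1 (φ : ℚ → ℂ) (σ b0 b1 b2 : ℚ) : al φ σ b0 b1 b2 = al φ σ b1 b0 b2 := by
  unfold al
  ring

lemma al_swap2 (φ : ℚ → ℂ) (σ b0 b1 b2 : ℚ) : al φ σ b0 b1 b2 = al φ σ b2 b1 b0 := by
  unfold al
  ring

lemma part2 (D : ℤ) (v : Vx) (hD : D ≠ 0) (hd : (tot v).1 ∣ D) (h : (tot v).2 ≠ 0)
    (hn : ¬ Ntr v) (φ : ℚ → ℂ) (hφ : Per1 φ) : alv φ D v = 0 := by
  obtain ⟨_, hK, hs, _⟩ := part1 D v hD hd h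
  obtain ⟨w0, w1, w2, _⟩ := slopes v h
  unfold Ntr at hn
  push Not at hn
  obtain ⟨p, hp, hdv⟩ := hn h
  unfold alv
  rw [hK, ← hs]
  unfold prs at hp
  simp only [List.mem_cons, List.not_mem_nil, or_false] at hp
  rcases hp with rfl | rfl | rfl
  · obtain ⟨n, hn⟩ := (slp_int v.1 w0).2 hdv
    exact al0 φ hφ _ _ _ _ rfl n hn
  · obtain ⟨n, hn⟩ := (slp_int v.2.1 w1).2 hdv
    rw [al_swap1]
    exact al0 φ hφ _ _ _ _ (by ring) n hn
  · obtain ⟨n, hn⟩ := (slp_int v.2.2 w2).2 hdv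
    rw [al_swap2]
    exact al0 φ hφ _ _ _ _ (by ring) n hn

end ALZX

open ALZX in
/-- ALZ -/
theorem t_ALZ : ALZ_Stmt := by
  refine ⟨part1, part2, slp_int, ⟨iv_per, iv_neg, iv_zero, ?_⟩, ?_⟩
  · intro β
    exact ⟨iv_pos β, iv_le β, iv_quarter β⟩
  · intro b0 b1 b2 c0 c1 c2 h
    rw [← QF_fract b0 b1 b2, ← QF_fract c0 c1 c2, ← ql_eq, ← ql_eq]
    exact ql_perm h

end Pool.Agent.TW
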