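import Pool.Agent.TW.StA
import Pool.Agent.TV.Asm

/-!
Theorem W (MP_31fd3b_gt): assembly of the algebraic part.
-/

open scoped BigOperators

namespace Pool.Agent.TW

open Pool.Agent.LibH11.Sliced Pool.Agent.MTR Pool.Agent.MTA Pool.Agent.UA Pool.Agent.UB
open Pool.Agent.TwoBr Pool.Agent.Mont Pool.Agent.TV
open Pool.Agent.TB hiding vec

namespace AsmA

open Classical in
theorem nts_nil : nts [] = [] := rfl

open Classical in
theorem nts_append (X Y : List Vx) : nts (X ++ Y) = nts X ++ nts Y := by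
  simp [nts]

open Classical in
theorem nts_cons_pos {v : Vx} (h : Ntr v) (X : List Vx) : nts (v :: X) = v :: nts X := by
  simp [nts, h]

open Classical in
theorem nts_cons_neg {v : Vx} (h : ¬ Ntr v) (X : List Vx) : nts (v :: X) = nts X := by
  simp [nts, h]

open Classical in
theorem mem_nts {v : Vx} {X : List Vx} : v ∈ nts X ↔ v ∈ X ∧ Ntr v := by
  simp [nts]

theorem VL_cons (t : Tr) (X : List Tr) : VL (t :: X) = vts (0, 1) t ++ VL X := rfl

theorem VL_append (X Y : List Tr) : VL (X ++ Y) = VL X ++ VL Y := by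
  simp [VL]

theorem NLs_cons (t : Tr) (X : List Tr) : NLs (t :: X) = NL (0, 1) t ++ NLs X := rfl

theorem NLs_append (X Y : List Tr) : NLs (X ++ Y) = NLs X ++ NLs Y := by
  simp [NLs]

theorem evF_append (F : ℤ × ℤ → ℤ × ℤ → ℂ) (X Y : Cb) : evF F (X ++ Y) = evF F X + evF F Y := by
  simp [evF]

theorem T2_of_rat {t : Tr} (h : t.Rat) : T2 t := by
  cases t with
  | pw e => exact trivial
  | cons a b =>
    obtain ⟨h1, h2⟩ := h
    refine ⟨h1, ?_⟩
    cases b with
    | pw e => exact trivial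
    | cons c d => simp [Tr.kids] at h2

/-- the class sums only see the nontrivial vertices -/
theorem class_nts (hALZ : ALZ_Stmt) {D K : ℤ} (hD : D ≠ 0) (hK : K ≠ 0) {φ : ℚ → ℂ} (hφ : Per1 φ) :
    ∀ Vs : List Vx, (∀ v ∈ Vs, (tot v).1 ∣ D) →
      (Vs.map fun v => if Kv D v = K then alv φ D v else 0).sum =
        ((nts Vs).map fun v => if Kv D v = K then alv φ D v else 0).sum := by
  intro Vs
  induction Vs with
  | nil => intro _; rfl
  | cons v Vs ih =>
    intro hVs
    have h1 := ih fun x hx => hVs x (List.mem_cons_of_mem _ hx)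
    by_cases hn : Ntr v
    · rw [nts_cons_pos hn, List.map_cons, List.sum_cons, List.map_cons, List.sum_cons, h1]
    · rw [nts_cons_neg hn, List.map_cons, List.sum_cons, h1]
      by_cases hv : Kv D v = K
      · rw [if_pos hv, hALZ.2.1 D v hD (hVs v List.mem_cons_self) (by
          intro h0
          apply hK
          rw [← hv, Kv, h0, mul_zero]) hn φ hφ, zero_add]
      · rw [if_neg hv, zero_add]

open Classical in
/-- the sum over the vertices of the second derivatives -/
theorem vertex_sum (hALZ : ALZ_Stmt) (hVXA : VXA_Stmt) (hGVX : GVX_Stmt) {D : ℤ} (hD : D ≠ 0) :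
    ∀ Vs : List Vx, (∀ v ∈ Vs, (tot v).1 ∣ D) →
      (Vs.map fun v => 2 * w3 v - evO (nv v)).sum =
        (Vs.map fun v => if Kv D v = 0 then 0 else alv (phs ((D : ℚ) / Kv D v)) D v).sum +
          ((((nts Vs).map JD).sum : ℚ) : ℂ) := by
  intro Vs
  induction Vs with
  | nil => intro _; simp [nts_nil]
  | cons v Vs ih =>
    intro hVs
    have h1 := ih fun x hx => hVs x (List.mem_cons_of_mem _ hx)
    have hdv := hVs v List.mem_cons_self
    have h0 : (tot v).1 ≠ 0 := by
      intro h0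
      rw [h0, zero_dvd_iff] at hdv
      exact hD hdv
    have key : 2 * w3 v - evO (nv v) =
        (if Kv D v = 0 then 0 else alv (phs ((D : ℚ) / Kv D v)) D v) +
          (((if Ntr v then JD v else 0 : ℚ)) : ℂ) := by
      by_cases h2 : (tot v).2 = 0
      · have hk : Kv D v = 0 := by rw [Kv, h2, mul_zero]
        have hn : ¬ Ntr v := fun h => h.1 h2
        rw [if_pos hk, if_neg hn, hVXA v h0 (Or.inl h2)]
        simp
      · obtain ⟨k1, k2, -, -⟩ := hALZ.1 D v hD hdv h2
        have hg := hGVX.1 v h0 h2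
        rw [if_neg k1, alv, k2]
        by_cases hn : Ntr v
        · rw [if_pos hn, hg]
        · rw [if_neg hn, hVXA v h0 (Or.inr ⟨h2, by
            by_contra hcon
            refine hn ⟨h2, fun p hp hd => hcon ⟨p, hp, hd⟩⟩⟩)]
          have h3 := hALZ.2.1 D v hD hdv h2 hn (phs (slp (tot v))) (hGVX.2 _)
          rw [alv, k2] at h3
          rw [h3]
          simp
    rw [List.map_cons, List.sum_cons, List.map_cons, List.sum_cons, h1, key]
    by_cases hn : Ntr v
    · rw [nts_cons_pos hn, if_pos hn, List.map_cons, List.sum_cons]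
      push_cast
      ring
    · rw [nts_cons_neg hn, if_neg hn]
      push_cast
      ring

theorem nts_VL_nil (hNT3 : NT3_Stmt) : ∀ X : List Tr, (∀ t ∈ X, T2 t) → nts (VL X) = [] := by
  intro X
  induction X with
  | nil => intro _; rfl
  | cons t X ih =>
    intro hX
    rw [VL_cons, nts_append, hNT3.1 t (hX t List.mem_cons_self),
      ih fun x hx => hX x (List.mem_cons_of_mem _ hx)]
    rfl

theorem T3_M3 {a b c : Tr} (e : ℤ) (ha : a.Rat) (hb : b.Rat) (hc : c.Rat) (ha2 : 2 ≤ |(vec a).1|)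
    (hb2 : 2 ≤ |(vec b).1|) (hc2 : 2 ≤ |(vec c).1|) : T3 (M3 a b c e) b c a e :=
  ⟨⟨hb, hc, ha⟩, ⟨hb2, hc2, ha2⟩, a, .cons b (.cons c (.pw e)), rfl,
    Or.inr ⟨ha, Q3.base a b c e⟩⟩

theorem ne0 {x : ℤ} (h : 2 ≤ |x|) : x ≠ 0 := by
  rintro rfl
  simp at h

/-- the slope of the third vector -/
theorem slp_pw {b : Tr} (e : ℤ) (hb : (vec b).1 ≠ 0) : slp (vec (.cons b (.pw e))) = sr b - e := by
  have h1 : vec (.cons b (.pw e)) = addv (rv (vec b)) (-e, 1) := rfl
  have h2 : ((vec b).1 : ℚ) ≠ 0 := by exact_mod_cast hb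
  rw [h1]
  unfold sr slp addv rv
  push_cast
  field_simp
  ring

theorem fract_sub (x : ℚ) (e : ℤ) : Int.fract (x - (e : ℚ)) = Int.fract x := by
  exact Int.fract_sub_intCast x e

theorem sls_v0 {a b c : Tr} (e : ℤ) (hb : (vec b).1 ≠ 0) :
    sls (v0 a b c e) = [sr c, sr a, sr b - e] := by
  unfold sls v0
  simp only
  rw [slp_pw e hb]
  rfl

theorem sum_two (F : ℤ × ℤ → ℤ × ℤ → ℂ) {D : ℤ} (hD : D ≠ 0) (hF : Sym D F) (hNLE : NLE_Stmt) :
    ∀ X : List Tr, (∀ t ∈ X, T2 t ∧ (vec t).1 ∣ D) →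
      evF F (NLs X) = 2 * (X.map fun x => F (prT x).1 (prT x).2).sum := by
  intro X
  induction X with
  | nil => intro _; simp [evF, NLs]
  | cons t X ih =>
    intro hX
    rw [NLs_cons, evF_append, ih fun x hx => hX x (List.mem_cons_of_mem _ hx),
      (hNLE D hD F hF).1 t (hX t List.mem_cons_self).1 (hX t List.mem_cons_self).2, List.map_cons,
      List.sum_cons]
    ring

end AsmA

open AsmA TV.Asm in
/-- The algebraic part of Theorem W. -/
theorem algw (hLIE : LIEW_Stmt) (hVTS : VTS_Stmt) (hRSI : RSI_Stmt) (hCLS : CLS_Stmt)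
    (hCSM : CSM_Stmt) (hALZ : ALZ_Stmt) (hPLA : PLA_Stmt) (hJONV : JONV_Stmt) (hOMR : OMR_Stmt)
    (hOMP : OMP_Stmt) (hNWL : NWL_Stmt) (hCRN : CRN_Stmt) (hVXA : VXA_Stmt) (hGVX : GVX_Stmt)
    (hWBV : WBV_Stmt) (hSW : SW_Stmt) (hNT3 : NT3_Stmt) (hM3C : M3C_Stmt) (hNLE : NLE_Stmt)
    (hNVE : NVE_Stmt) (hNZR : NZR_Stmt) (hNZM : NZM_Stmt) (hJPV : JPV_Stmt) : ALGW_Stmt := by
  intro Ts T0 a' b' c' e' h h' hlen hT hT0 ha hb hc ha2 hb2 hc2 hodd' hv
  have hT3 : T3 (M3 a' b' c' e') b' c' a' e' := T3_M3 e' ha hb hc ha2 hb2 hc2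
  obtain ⟨hn1, hn2, hn3⟩ := hNT3.2 _ _ _ _ _ hT3
  set M := M3 a' b' c' e' with hM
  set v' := v0 b' c' a' e' with hv'
  set Ts' := T0 ++ [M] with hTs'
  have hmem' : ∀ t ∈ Ts', t ∈ T0 ∨ t = M := by
    intro t ht
    rcases List.mem_append.1 ht with ht | ht
    · exact Or.inl ht
    · exact Or.inr (List.mem_singleton.1 ht)
  have hoddT' : ∀ t ∈ Ts', Odd (vec t).1 := by
    intro t ht
    rcases hmem' t ht with ht | rfl
    · exact (hT0 t ht).2
    · exact hodd'
  obtain ⟨hodd, hw⟩ := hJONV Ts Ts' h h' hv hoddT'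
  have hoddA : ∀ t ∈ Ts ++ Ts', Odd (vec t).1 := by
    intro t ht
    rcases List.mem_append.1 ht with ht | ht
    · exact hodd t ht
    · exact hoddT' t ht
  obtain ⟨D, hD, hdvd⟩ : ∃ D : ℤ, Odd D ∧ ∀ t ∈ Ts ++ Ts', (vec t).1 ∣ D := by
    refine ⟨((Ts ++ Ts').map fun t => (vec t).1).prod, odd_prod _ ?_, fun t ht => ?_⟩
    · intro x hx
      obtain ⟨t, ht, rfl⟩ := List.mem_map.1 hx
      exact hoddA t ht
    · exact List.dvd_prod (List.mem_map.2 ⟨t, ht, rfl⟩)
  have hD0 : D ≠ 0 := by rintro rfl; simp at hD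
  have hne : ∀ t ∈ Ts ++ Ts', (vec t).1 ≠ 0 := by
    intro t ht h0
    have := hoddA t ht
    rw [h0] at this
    simp at this
  have hNVP : ∀ t ∈ Ts', NVP t := by
    intro t ht
    refine ⟨hoddT' t ht, ?_⟩
    rcases hmem' t ht with ht | rfl
    · exact hNZR t (hT0 t ht).1 (hT0 t ht).2
    · exact hNZM a' b' c' e' ha hb hc hodd'
  have hlen' : Ts.length = Ts'.length := by
    rw [hTs', List.length_append, hlen]
    rfl
  have hR := hRSI Ts Ts' D hD hdvd (hLIE Ts Ts' h h' hlen' hodd hNVP hv D hD hdvd)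
  -- vertices
  have htot : ∀ t ∈ Ts ++ Ts', ∀ v ∈ vts (0, 1) t, (tot v).1 = (vec t).1 := by
    intro t _ v hvt
    rw [(hVTS t (0, 1)).1 v hvt, dt_one]
  have hdvT : ∀ X : List Tr, (∀ t ∈ X, t ∈ Ts ++ Ts') → ∀ v ∈ VL X, (tot v).1 ∣ D := by
    intro X hX v hvt
    obtain ⟨t, ht, hvt⟩ := mem_VL hvt
    rw [htot t (hX t ht) v hvt]
    exact hdvd t (hX t ht)
  have hdv1 := hdvT Ts fun t ht => List.mem_append_left _ ht
  have hdv2 := hdvT Ts' fun t ht => List.mem_append_right _ ht
  have hC := hCLS D hD (VL Ts) (VL Ts') (by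
      intro v hvt
      rcases List.mem_append.1 hvt with hvt | hvt
      · exact hdv1 v hvt
      · exact hdv2 v hvt)
    (fun g z hg hz => (hR g hg).1 z hz)
  have hT02 : ∀ t ∈ T0, T2 t := fun t ht => T2_of_rat (hT0 t ht).1
  have hnts' : nts (VL Ts') = [v'] := by
    have h1 : VL [M] = vts (0, 1) M ++ [] := rfl
    rw [hTs', VL_append, nts_append, nts_VL_nil hNT3 T0 hT02, h1, List.append_nil, hn1]
    rfl
  have hv'M : v' ∈ VL Ts' := (mem_nts.1 (by rw [hnts']; simp)).1
  have hv'd : (tot v').1 ∣ D := hdv2 v' hv'M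
  have hW := hWBV D hD0 (VL Ts) v' (by
      intro v hvm
      rcases List.mem_cons.1 hvm with rfl | hvm
      · exact hv'd
      · exact hdv1 v hvm) hn3
    (by
      intro K φ hK hφ
      rw [hC K φ hK hφ, class_nts hALZ hD0 hK hφ (VL Ts') hdv2, hnts']
      simp)
  -- numbers of representations
  have hP : ∀ F, Sym D F → evF F (NLs Ts) = evF F (NLs Ts') := by
    intro F hF
    have hp := hPLA D hD (NLs Ts ++ (NLs Ts').map fun e => (-e.1, e.2)) (by
        intro e he
        rcases List.mem_append.1 he with he | he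
        · obtain ⟨t, ht, het⟩ : ∃ t ∈ Ts, e ∈ NL (0, 1) t := by
            simpa [NLs, List.mem_flatMap] using he
          rw [(hVTS t (0, 1)).2.1 e het, dt_one]
          exact hdvd t (List.mem_append_left _ ht)
        · obtain ⟨e', he', rfl⟩ := List.mem_map.1 he
          obtain ⟨t, ht, het⟩ : ∃ t ∈ Ts', e' ∈ NL (0, 1) t := by
            simpa [NLs, List.mem_flatMap] using he'
          show dt e'.2.1 e'.2.2 ∣ D
          rw [(hVTS t (0, 1)).2.1 e' het, dt_one]
          exact hdvd t (List.mem_append_right _ ht))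
      (by
        intro g hg
        have h1 := (hR g hg).2
        have h2 : ∀ l : Cb, evN D (l.map fun e => (-e.1, e.2)) g = -evN D l g := by
          intro l
          induction l with
          | nil => simp [evN]
          | cons a l ih =>
            simp only [evN, List.map_cons, List.sum_cons] at ih ⊢
            rw [ih]
            ring
        have h3 : evN D (NLs Ts ++ (NLs Ts').map fun e => (-e.1, e.2)) g =
            evN D (NLs Ts) g + evN D ((NLs Ts').map fun e => (-e.1, e.2)) g := by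
          simp only [evN, List.map_append, List.sum_append]
        rw [h3, h2, h1, add_neg_cancel]) F hF
    have h2 : ∀ l : Cb, ((l.map fun e => (-e.1, e.2)).map
        fun e => (e.1 : ℂ) * F e.2.1 e.2.2).sum = -evF F l := by
      intro l
      induction l with
      | nil => simp [evF]
      | cons a l ih =>
        simp only [evF, List.map_cons, List.sum_cons] at ih ⊢
        rw [ih]
        push_cast
        ring
    rw [List.map_append, List.sum_append, h2] at hp
    have h3 : evF F (NLs Ts) - evF F (NLs Ts') = 0 := by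
      rw [sub_eq_add_neg]
      exact hp
    exact sub_eq_zero.1 h3
  have hO : evO (NLs Ts) = evO (NLs Ts') := hP om (hOMP D hD0)
  -- the recursion for all trees
  have hWc : ∀ t : Tr, Wc (0, 1) t = w2 (clv sx (bv sx t)) := by
    intro t
    have h1 := hOMR.2.2 (0, 1) (.pw 0) t ⟨trivial, 1, one_ne_zero, by simp [vec]⟩
    have h2 : bv sx (.pw 0) = ((0 : JR), (1 : JR)) := by
      show pv sx (Int.ofNat 0) = _
      simp [pv]
    rw [h1, h2, ((hJPV JR sx).1 (bv sx t) (bv sx t) (bv sx t)).2.2.1]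
  have hrec : ∀ X : List Tr, (∀ t ∈ X, (vec t).1 ≠ 0) →
      2 * (X.map fun t => w2 (clv sx (bv sx t))).sum = evO (NLs X) +
        ((VL X).map fun v => 2 * w3 v - evO (nv v)).sum -
        2 * (((X.map fun t => cr (0, 1) t).sum : ℚ) : ℂ) := by
    intro X
    induction X with
    | nil => intro _; simp [NLs, VL, evO]
    | cons t X ih =>
      intro hX
      have h1 := ih fun t ht => hX t (List.mem_cons_of_mem _ ht)
      have h2 := hNWL t (0, 1) (by rw [dt_one]; exact hX t List.mem_cons_self)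
      rw [hWc] at h2
      have h3 : NLs (t :: X) = NL (0, 1) t ++ NLs X := rfl
      have h4 : VL (t :: X) = vts (0, 1) t ++ VL X := rfl
      rw [h3, h4, evO_append, List.map_append, List.sum_append, List.map_cons, List.sum_cons,
        List.map_cons, List.sum_cons, mul_add, h1, h2]
      push_cast
      ring
  have e1 := hrec Ts fun t ht => hne t (List.mem_append_left _ ht)
  have e2 := hrec Ts' fun t ht => hne t (List.mem_append_right _ ht)
  rw [vertex_sum hALZ hVXA hGVX hD0 (VL Ts) hdv1] at e1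
  rw [vertex_sum hALZ hVXA hGVX hD0 (VL Ts') hdv2, hnts'] at e2
  have e3 := hCSM D (VL Ts) (VL Ts') hC (fun K => phs ((D : ℚ) / K)) fun K => hGVX.2 _
  have e5 : (Ts'.map fun t => cr (0, 1) t).sum = 0 := by
    refine List.sum_eq_zero fun x hx => ?_
    obtain ⟨t, ht, rfl⟩ := List.mem_map.1 hx
    rcases hmem' t ht with ht' | rfl
    · exact (hCRN.2.2.1 t (0, 1) (by
        rw [dt_one]; exact hne t (List.mem_append_right _ ht))).2 (hT0 t ht').1
    · exact hM3C a' b' c' e' ha hb hc (hne _ (List.mem_append_right _ ht))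
  rw [e5, Rat.cast_zero, mul_zero, sub_zero] at e2
  rw [hw, e2, hO, e3] at e1
  have e6 : ((nts (VL Ts)).map JD).sum = JD v' + 2 * (Ts.map fun t => cr (0, 1) t).sum := by
    have h1 : ((((nts (VL Ts)).map JD).sum : ℚ) : ℂ) =
        ((JD v' + 2 * (Ts.map fun t => cr (0, 1) t).sum : ℚ) : ℂ) := by
      simp only [List.map_cons, List.map_nil, List.sum_cons, List.sum_nil, add_zero] at e1
      rw [Rat.cast_add, Rat.cast_mul, Rat.cast_ofNat]
      linear_combination -e1
    exact Rat.cast_injective h1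
  have hcrn : ∀ x ∈ Ts.map fun t => cr (0, 1) t, 0 ≤ x := by
    intro x hx
    obtain ⟨t, ht, rfl⟩ := List.mem_map.1 hx
    exact (hCRN.2.2.1 t (0, 1) (by rw [dt_one]; exact hne t (List.mem_append_left _ ht))).1
  have e7 : 0 ≤ (Ts.map fun t => cr (0, 1) t).sum := nonneg_sum _ hcrn
  rcases hW with ⟨v, hnv, hKv, hJD, hsl⟩ | hlt
  swap
  · rw [e6] at hlt
    linarith
  -- exactly one nontrivial vertex
  have hcr0 : (Ts.map fun t => cr (0, 1) t).sum = 0 := by
    rw [hnv] at e6
    simp only [List.map_cons, List.map_nil, List.sum_cons, List.sum_nil, add_zero] at e6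
    linarith
  have hcr := zero_of_sum _ hcrn hcr0.le
  have hst : ∀ t ∈ Ts, T2 t ∨ ∃ a b c e, T3 t a b c e := fun t ht =>
    hSW t (hT t ht) (hne t (List.mem_append_left _ ht)) (hcr _ (List.mem_map.2 ⟨t, ht, rfl⟩))
  obtain ⟨t, ht, hnt⟩ : ∃ t ∈ Ts, ¬ T2 t := by
    by_contra hcon
    have h1 := nts_VL_nil hNT3 Ts fun t ht => by
      by_contra h2
      exact hcon ⟨t, ht, h2⟩
    rw [hnv] at h1
    exact absurd h1 (by simp)
  obtain ⟨a, b, c, e, hT3t⟩ := (hst t ht).resolve_left hnt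
  obtain ⟨m1, m2, m3⟩ := hNT3.2 _ _ _ _ _ hT3t
  obtain ⟨l1, l2, hsp⟩ := List.append_of_mem ht
  have hnn : nts (VL l1) ++ (v0 a b c e :: nts (VL l2)) = [v] := by
    rw [← hnv, hsp, VL_append, VL_cons, nts_append, nts_append, m1]
    rfl
  have hl1 : nts (VL l1) = [] := by
    rcases h3 : nts (VL l1) with _ | ⟨x, X⟩
    · rfl
    · rw [h3] at hnn
      simp at hnn
  rw [hl1, List.nil_append] at hnn
  obtain ⟨hv0, hl2⟩ := List.cons.inj hnn
  have hall : ∀ x ∈ l1 ++ l2, T2 x := by
    intro x hx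
    have hxT : x ∈ Ts := by
      rw [hsp]
      rcases List.mem_append.1 hx with hx | hx
      · exact List.mem_append_left _ hx
      · exact List.mem_append_right _ (List.mem_cons_of_mem _ hx)
    rcases hst x hxT with h3 | ⟨a1, b1, c1, e1', h3⟩
    · exact h3
    · exfalso
      obtain ⟨k1, k2, k3⟩ := hNT3.2 _ _ _ _ _ h3
      rcases List.mem_append.1 hx with hx | hx
      · have h4 : v0 a1 b1 c1 e1' ∈ nts (VL l1) :=
          mem_nts.2 ⟨List.mem_flatMap.2 ⟨x, hx, k2⟩, k3⟩
        rw [hl1] at h4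
        exact absurd h4 (by simp)
      · have h4 : v0 a1 b1 c1 e1' ∈ nts (VL l2) :=
          mem_nts.2 ⟨List.mem_flatMap.2 ⟨x, hx, k2⟩, k3⟩
        rw [hl2] at h4
        exact absurd h4 (by simp)
  subst hv0
  have hT3t' := hT3t
  obtain ⟨⟨ra, rb, rc⟩, ⟨qa, qb, qc⟩, -⟩ := hT3t
  have hv0d : (tot (v0 a b c e)).1 ∣ D := by
    rw [htot t (List.mem_append_left _ ht) _ m2]
    exact hdvd t (List.mem_append_left _ ht)
  obtain ⟨k1, k2, k3, k4⟩ := hALZ.1 D (v0 a b c e) hD0 hv0d m3.1
  obtain ⟨k1', k2', k3', k4'⟩ := hALZ.1 D v' hD0 hv'd hn3.1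
  have hslt : slp (tot (v0 a b c e)) = slp (tot v') := by
    rw [← k2, ← k2', hKv]
  refine ⟨l1, l2, t, a, b, c, e, D, hD0, hsp, hall, hT3t', ?_, ?_, ?_⟩
  · have h3 := hsl
    rw [hv', sls_v0 e (ne0 qb), sls_v0 e' (ne0 hc2)] at h3
    simp only [List.map_cons, List.map_nil, fract_sub] at h3 ⊢
    have p1 : ([Int.fract (sr a), Int.fract (sr b), Int.fract (sr c)] : List ℚ).Perm
        [Int.fract (sr c), Int.fract (sr a), Int.fract (sr b)] :=
      (List.perm_append_comm (l₁ := [Int.fract (sr a), Int.fract (sr b)])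
        (l₂ := [Int.fract (sr c)]))
    exact p1.trans h3
  · have h3 := k3
    have h4 := k3'
    have h5 : sls (v0 a b c e) = [sr c, sr a, sr b - e] := sls_v0 e (ne0 qb)
    have h6 : sls v' = [sr a', sr b', sr c' - e'] := sls_v0 e' (ne0 hc2)
    unfold sls at h5 h6
    simp only [List.cons.injEq, and_true] at h5 h6
    obtain ⟨i1, i2, i3⟩ := h5
    obtain ⟨j1, j2, j3⟩ := h6
    rw [i1, i2, i3] at h3
    rw [j1, j2, j3] at h4
    rw [hslt] at h3
    linarith
  · intro F hF
    have h3 := hP F hF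
    have s1 := sum_two F hD0 hF hNLE (l1 ++ l2) fun x hx => ⟨hall x hx, by
      apply hdvd
      apply List.mem_append_left
      rw [hsp]
      rcases List.mem_append.1 hx with hx | hx
      · exact List.mem_append_left _ hx
      · exact List.mem_append_right _ (List.mem_cons_of_mem _ hx)⟩
    have s2 := sum_two F hD0 hF hNLE T0 fun x hx => ⟨hT02 x hx,
      hdvd x (List.mem_append_right _ (List.mem_append_left _ hx))⟩
    have s3 := (hNLE D hD0 F hF).2 t a b c e hT3t' (hdvd t (List.mem_append_left _ ht))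
    have s4 := (hNLE D hD0 F hF).2 M b' c' a' e' hT3
      (hdvd M (List.mem_append_right _ (by rw [hTs']; simp)))
    have s5 := hNVE D hD0 F hF (v0 a b c e) v' m3 hn3 hv0d hv'd hslt hsl
    have s6 : evF F (NLs Ts) = evF F (NLs (l1 ++ l2)) + evF F (NL (0, 1) t) := by
      rw [hsp, NLs_append, NLs_cons, NLs_append, evF_append, evF_append, evF_append]
      ring
    have s7 : evF F (NLs Ts') = evF F (NLs T0) + evF F (NL (0, 1) M) := by
      have h1 : NLs [M] = NL (0, 1) M ++ [] := rfl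
      rw [hTs', NLs_append, evF_append, h1, List.append_nil]
    rw [s6, s7, s1, s2, s3, s4, s5] at h3
    have h4 := add_right_cancel h3
    exact mul_left_cancel₀ two_ne_zero h4

end Pool.Agent.TW
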