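import Pool.Agent.TW.StT
import Pool.Agent.TV.AsmT
import Pool.Agent.UA.Lkb

/-!
Theorem W (MP_31fd3b_gt): assembly of the topological part and the theorem.
-/

namespace Pool.Agent.TW

open Pool.Agent.LibH11.Sliced Pool.Agent.MTR Pool.Agent.MTA Pool.Agent.UA Pool.Agent.UB
open Pool.Agent.TwoBr Pool.Agent.Mont Pool.Agent.TV
open Pool.Agent.TB hiding vec

namespace AsmB

theorem long_nil : IsLongKnot [] := ⟨_, _, rfl⟩

/-- connected sums of 2-bridge knots as closures of rational trees -/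
theorem words (hK : KDT_Stmt) (hC : FCG_Stmt) (ws : List Diag)
    (hws : ∀ w ∈ ws, IsLongKnot w ∧ minima w ≤ 1) :
    ∃ Ts : List Tr, (∀ t ∈ Ts, t.Rat ∧ Odd (vec t).1 ∧ IsLongKnot (cl t.dg)) ∧
      EqD 1 ws.flatten (cls Ts) ∧ cnt 1 ws.flatten = some 1 := by
  induction ws with
  | nil => exact ⟨[], by simp, EqD.refl _, rfl⟩
  | cons w ws ih =>
    obtain ⟨Ts, h1, h2, h3⟩ := ih fun x hx => hws x (List.mem_cons_of_mem _ hx)
    obtain ⟨hl, hm⟩ := hws w List.mem_cons_self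
    obtain ⟨u, hu⟩ := one_min hl hm
    obtain ⟨x, hx1, _, hx3⟩ := nf_KW u (hu.isLongKnot hl)
    obtain ⟨T, hT1, hT2, hT3⟩ := hK x hx1
    have hE : EqD 1 w (cl T.dg) := (hu.trans hx3).trans hT3
    refine ⟨T :: Ts, ?_, ?_, ?_⟩
    · intro t ht
      rcases List.mem_cons.1 ht with rfl | ht
      · exact ⟨hT1, hT2, hE.isLongKnot hl⟩
      · exact h1 t ht
    · rw [List.flatten_cons, AsmT.cls_cons]
      exact hC.2.2.1 _ _ _ _ hE h2 (AsmT.cnt_long hl) h3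
    · rw [List.flatten_cons, cnt_app (AsmT.cnt_long hl)]
      exact h3

theorem pm_snd {v w : ℤ × ℤ} (h : PMv v w) : |v.2| = |w.2| ∧ (v.2 = w.2 ∨ v.2 = -w.2) := by
  rcases h with h | h
  · subst h
    exact ⟨rfl, Or.inl rfl⟩
  · have h2 : v.2 = -w.2 := by rw [h]; rfl
    exact ⟨by rw [h2, abs_neg], Or.inr h2⟩

theorem slope_pm {u : List (Fin 2 × Bool)} {w : ℤ × ℤ} (h : PMv (tvec (0, 1) u) w) :
    slope u = slp w := by
  unfold Mont.slope slp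
  rcases h with h | h
  · rw [h]
  · rw [h]
    show ((-w.1 : ℤ) : ℚ) / ((-w.2 : ℤ) : ℚ) = _
    push_cast
    rw [neg_div_neg_eq]

theorem slp_pw {c : Tr} (e : ℤ) (hc : (vec c).1 ≠ 0) : slp (addv (rv (vec c)) (-e, 1)) = sr c - e := by
  have h2 : ((vec c).1 : ℚ) ≠ 0 := by exact_mod_cast hc
  unfold sr slp addv rv
  push_cast
  field_simp
  ring

theorem ne0 {x : ℤ} (h : 2 ≤ |x|) : x ≠ 0 := by
  rintro rfl
  simp at h

/-- the Montesinos diagram of a tree `M3` -/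
theorem mont_of (hM : MTM_Stmt) {a b c : Tr} (e : ℤ) (ha : a.Rat) (hb : b.Rat) (hc : c.Rat)
    (ha2 : 2 ≤ |(vec a).1|) (hb2 : 2 ≤ |(vec b).1|) (hc2 : 2 ≤ |(vec c).1|) :
    ∃ us : List (List (Fin 2 × Bool)), us.length = 3 ∧ EqD 1 (cl (M3 a b c e).dg) (mont us) ∧
      (∀ u ∈ us, 2 ≤ |den u|) ∧ (us.map slope).sum = sr a + sr b + sr c - e ∧
      (us.map fun u => Int.fract (slope u)) =
        [Int.fract (sr a), Int.fract (sr b), Int.fract (sr c)] ∧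
      ((∀ u ∈ us, Odd (den u)) → Odd (vec a).1 ∧ Odd (vec b).1 ∧ Odd (vec c).1) := by
  obtain ⟨ua, ub, uc, h1, h2, h3, h4⟩ := hM a b c e ha hb hc
  have s1 : slope ua = sr a := slope_pm h2
  have s2 : slope ub = sr b := slope_pm h3
  have s3 : slope uc = sr c - e := by rw [slope_pm h4, slp_pw e (ne0 hc2)]
  obtain ⟨d1, d1'⟩ := pm_snd h2
  obtain ⟨d2, d2'⟩ := pm_snd h3
  obtain ⟨d3, d3'⟩ := pm_snd h4
  have e1 : (rv (vec a)).2 = (vec a).1 := rfl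
  have e2 : (rv (vec b)).2 = (vec b).1 := rfl
  have e3 : (addv (rv (vec c)) (-e, 1)).2 = (vec c).1 := by
    show (vec c).1 * 1 = _
    rw [mul_one]
  rw [e1] at d1 d1'
  rw [e2] at d2 d2'
  rw [e3] at d3 d3'
  have odd_of : ∀ x y : ℤ, (x = y ∨ x = -y) → Odd x → Odd y := by
    intro x y hxy hx
    rcases hxy with rfl | rfl
    · exact hx
    · exact odd_neg.1 hx
  refine ⟨[ua, ub, uc], rfl, h1, ?_, ?_, ?_, ?_⟩
  · intro u hu
    simp only [List.mem_cons, List.not_mem_nil, or_false] at hu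
    rcases hu with rfl | rfl | rfl
    · show 2 ≤ |(tvec (0, 1) u).2|
      rw [d1]
      exact ha2
    · show 2 ≤ |(tvec (0, 1) u).2|
      rw [d2]
      exact hb2
    · show 2 ≤ |(tvec (0, 1) u).2|
      rw [d3]
      exact hc2
  · simp only [List.map_cons, List.map_nil, List.sum_cons, List.sum_nil]
    rw [s1, s2, s3]
    ring
  · simp only [List.map_cons, List.map_nil]
    rw [s1, s2, s3, Int.fract_sub_intCast]
  · intro h
    exact ⟨odd_of _ _ d1' (h ua (by simp)), odd_of _ _ d2' (h ub (by simp)),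
      odd_of _ _ d3' (h uc (by simp))⟩

theorem perm_sum {a b c a' b' c' : Tr} (h : ([a', b', c'] : List Tr).Perm [a, b, c]) :
    sr a' + sr b' + sr c' = sr a + sr b + sr c ∧
      (([sr a', sr b', sr c'] : List ℚ).map Int.fract).Perm
        (([sr a, sr b, sr c] : List ℚ).map Int.fract) := by
  have h1 := (h.map sr).sum_eq
  simp only [List.map_cons, List.map_nil, List.sum_cons, List.sum_nil, add_zero] at h1
  refine ⟨by linarith, ?_⟩
  exact (h.map sr).map Int.fract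

theorem perm_all {a b c a' b' c' : Tr} (h : ([a', b', c'] : List Tr).Perm [a, b, c])
    {p : Tr → Prop} (ha : p a) (hb : p b) (hc : p c) : p a' ∧ p b' ∧ p c' := by
  have key : ∀ x ∈ [a', b', c'], p x := by
    intro x hx
    have hx' := h.mem_iff.1 hx
    simp only [List.mem_cons, List.not_mem_nil, or_false] at hx'
    rcases hx' with rfl | rfl | rfl
    · exact ha
    · exact hb
    · exact hc
  exact ⟨key _ (by simp), key _ (by simp), key _ (by simp)⟩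

/-- the comparison of the two Montesinos parts -/
theorem parts (hM : MTM_Stmt) (hP : TOPW_Stmt) (h3 : TOP3_Stmt) {t a b c a' b' c' : Tr} {e e' : ℤ}
    (ht : T3 t a b c e) (hl : IsLongKnot (cl t.dg)) (ha : a'.Rat) (hb : b'.Rat) (hc : c'.Rat)
    (ha2 : 2 ≤ |(vec a').1|) (hb2 : 2 ≤ |(vec b').1|) (hc2 : 2 ≤ |(vec c').1|)
    (hl' : IsLongKnot (cl (M3 a' b' c' e').dg))
    (hp : (([sr a, sr b, sr c] : List ℚ).map Int.fract).Perm
      (([sr a', sr b', sr c'] : List ℚ).map Int.fract))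
    (hs : sr a + sr b + sr c - e = sr a' + sr b' + sr c' - e') (hC : FCG_Stmt) :
    EqD 1 (cl t.dg) (cl (M3 a' b' c' e').dg) ∨
      ((Odd (vec a').1 ∧ Odd (vec b').1 ∧ Odd (vec c').1) ∧
        EqD 1 (cl t.dg) (flipD (cl (M3 a' b' c' e').dg))) := by
  obtain ⟨a1, b1, c1, hq, hE⟩ := h3 t a b c e ht
  obtain ⟨⟨ra, rb, rc⟩, ⟨qa, qb, qc⟩, -⟩ := ht
  obtain ⟨r1, r2, r3⟩ := perm_all hq (p := Tr.Rat) ra rb rc
  obtain ⟨q1, q2, q3⟩ := perm_all hq (p := fun x => 2 ≤ |(vec x).1|) qa qb qc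
  obtain ⟨s1, s2⟩ := perm_sum hq
  obtain ⟨vs, v1, v2, v3, v4, v5, -⟩ := mont_of hM e r1 r2 r3 q1 q2 q3
  obtain ⟨us, u1, u2, u3, u4, u5, u6⟩ := mont_of hM e' ha hb hc ha2 hb2 hc2
  have hEv : EqD 1 (cl t.dg) (mont vs) := hE.trans v2
  have hk := hP us vs (u2.isLongKnot hl') (hEv.isLongKnot hl) u1 u3 v3 (by
      rw [u4, v4, s1]
      exact hs.symm) (by
      rw [u5, v5]
      exact (s2.trans hp).symm)
  rcases hk with hk | ⟨ho, hk⟩
  · exact Or.inl ((hEv.trans hk).trans u2.symm)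
  · refine Or.inr ⟨u6 ho, (hEv.trans hk).trans ?_⟩
    exact EqD_flip u2.symm (by
      rw [← u2.cnt_eq]
      exact (hC.2.2.2.1 _ (hC.2.2.2.2.1 _)).2)

end AsmB

open AsmB in
/-- **Theorem W**, for diagrams. -/
theorem separate_w (hA : ALGW_Stmt) (hF : FTOP_Stmt) (hT : FTA_Stmt) (hI : FIT_Stmt)
    (hC : FCG_Stmt) (hL : LKB_Stmt) (hK : KDT_Stmt) (hSYF : SYF_Stmt) (hKDF : KDF_Stmt)
    (hCMB : CMB_Stmt) (hSPL : SPL_Stmt) (hTOP3 : TOP3_Stmt) (hMTM : MTM_Stmt)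
    (hTOPW : TOPW_Stmt) (hODM : ODM_Stmt) (hRTT : RTT_Stmt) (hRCL : RCL_Stmt)
    (t : Diag) (ht : Arb t) (h : IsLongKnot (cl t)) (ws : List Diag)
    (hws : ∀ w ∈ ws, IsLongKnot w ∧ minima w ≤ 1) (r1 r2 r3 : Diag) (v1 v2 v3 : ℤ × ℤ)
    (hr1 : RatT r1 v1) (hr2 : RatT r2 v2) (hr3 : RatT r3 v3) (hd1 : 2 ≤ |v1.2|)
    (hd2 : 2 ≤ |v2.2|) (hd3 : 2 ≤ |v3.2|)
    (h' : IsLongKnot (ws.flatten ++ cl (r1 ++ (r2 ++ r3))))
    (hv : ∀ v : Knot → ℚ, IsFiniteType v →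
      v (ofDiag (cl t) h) = v (ofDiag (ws.flatten ++ cl (r1 ++ (r2 ++ r3))) h')) :
    EqD 1 (cl t) (ws.flatten ++ cl (r1 ++ (r2 ++ r3))) ∨
      ((Odd v1.2 ∧ Odd v2.2 ∧ Odd v3.2) ∧
        EqD 1 (cl t) (flipD (ws.flatten ++ cl (r1 ++ (r2 ++ r3))))) := by
  -- the arborescent knot
  obtain ⟨T, hT1⟩ := hT.2.2.2.2.2 t ht
  have h1 : EqD 1 (cl t) (cl T.dg) := (hC.1 t T.dg hT1 (hC.2.2.2.2.2.2 t ht)).2
  obtain ⟨Ts, h2, h3⟩ := hF T (h1.isLongKnot h)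
  have h4 : EqD 1 (cl t) (cls Ts) := h1.trans h3
  -- the 2-bridge knots
  obtain ⟨Ts', h5, h6, h6c⟩ := words hK hC ws hws
  -- the Montesinos knot
  obtain ⟨c1, T1, R1, V1, E1⟩ := hRTT r1 v1 hr1
  obtain ⟨c2, T2, R2, V2, E2⟩ := hRTT r2 v2 hr2
  obtain ⟨c3, T3, R3, V3, E3⟩ := hRTT r3 v3 hr3
  obtain ⟨a', b', c', e', ⟨ha, hb, hc⟩, ⟨wa, wb, wc⟩, hE⟩ := hRCL T1 T2 T3 R1 R2 R3
    (by rw [V1]; exact hd1) (by rw [V2]; exact hd2) (by rw [V3]; exact hd3)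
  rw [V1] at wa
  rw [V2] at wb
  rw [V3] at wc
  have c23 : cnt 2 (r2 ++ r3) = some 2 := by rw [cnt_app c2, c3]
  have c123 : cnt 2 (r1 ++ (r2 ++ r3)) = some 2 := by rw [cnt_app c1, c23]
  have e1 : EqD 2 (r1 ++ (r2 ++ r3)) (M3 a' b' c' e').dg :=
    (hC.2.1 _ _ _ _ E1 (hC.2.1 _ _ _ _ E2 E3 c2 c3) c1 c23).trans hE
  have e2 : EqD 1 (cl (r1 ++ (r2 ++ r3))) (cl (M3 a' b' c' e').dg) := (hC.1 _ _ e1 c123).2
  have cm : cnt 1 (cl (r1 ++ (r2 ++ r3))) = some 1 := (hC.2.2.2.1 _ c123).2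
  have hlm : IsLongKnot (cl (r1 ++ (r2 ++ r3))) := by
    have := hL ws.flatten [] (cl (r1 ++ (r2 ++ r3))) 0 1 cm h6c (by norm_num)
      (by rw [sh_zero, List.append_nil]; exact h')
    exact this.2
  have hlM : IsLongKnot (cl (M3 a' b' c' e').dg) := e2.isLongKnot hlm
  have hda : 2 ≤ |(vec a').1| := by rw [wa]; exact hd1
  have hdb : 2 ≤ |(vec b').1| := by rw [wb]; exact hd2
  have hdc : 2 ≤ |(vec c').1| := by rw [wc]; exact hd3
  have hodd := hODM a' b' c' e' ha hb hc hda hdb hdc hlM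
  -- lists of the right lengths
  set n := Ts'.length + 1 with hn
  set T0 := Ts' ++ List.replicate Ts.length (.pw 1) with hT0
  have h7 : EqD 1 (cl t) (cls (Ts ++ List.replicate n (.pw 1))) :=
    h4.trans (AsmT.pad hC hI Ts n).symm
  have h8' : EqD 1 ws.flatten (cls T0) := h6.trans (AsmT.pad hC hI Ts' Ts.length).symm
  have hclsM : cls (T0 ++ [M3 a' b' c' e']) = cls T0 ++ cl (M3 a' b' c' e').dg := by
    rw [AsmT.cls_append]
    simp [cls]
  have h8 : EqD 1 (ws.flatten ++ cl (r1 ++ (r2 ++ r3))) (cls (T0 ++ [M3 a' b' c' e'])) := by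
    rw [hclsM]
    exact hC.2.2.1 _ _ _ _ h8' e2 h6c cm
  have hv' : ∀ v : Knot → ℂ, IsFiniteType v →
      v (ofDiag _ (h7.isLongKnot h)) = v (ofDiag _ (h8.isLongKnot h')) := by
    intro v hv1
    rw [← h7.knot h, ← h8.knot h']
    exact complex_of_rat hv v hv1
  have hlp : ∀ m : ℕ, ∀ x ∈ List.replicate m (Tr.pw 1), IsLongKnot (cl x.dg) := by
    intro m x hx
    rw [(List.mem_replicate.1 hx).2]
    exact ((hI.2.2.1 1 (by norm_num)).2).symm.isLongKnot long_nil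
  have h0 : ∀ x ∈ T0, (x.Rat ∧ Odd (vec x).1) ∧ IsLongKnot (cl x.dg) := by
    intro x hx
    rcases List.mem_append.1 hx with hx | hx
    · exact ⟨⟨(h5 x hx).1, (h5 x hx).2.1⟩, (h5 x hx).2.2⟩
    · refine ⟨?_, hlp _ x hx⟩
      rw [(List.mem_replicate.1 hx).2]
      exact ⟨trivial, ⟨-1, by simp [vec]⟩⟩
  have hlT : ∀ x ∈ Ts ++ List.replicate n (.pw 1), IsLongKnot (cl x.dg) := by
    intro x hx
    rcases List.mem_append.1 hx with hx | hx
    · exact (h2 x hx).2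
    · exact hlp _ x hx
  obtain ⟨l1, l2, u, a, b, c, e, D, hD, hsp, hall, hu3, hperm, hsum, hFF⟩ :=
    hA (Ts ++ List.replicate n (.pw 1)) T0 a' b' c' e' (h7.isLongKnot h) (h8.isLongKnot h')
      (by simp [hn, hT0]; ring)
      (by
        intro x hx
        rcases List.mem_append.1 hx with hx | hx
        · exact (h2 x hx).1
        · rw [(List.mem_replicate.1 hx).2]
          exact ⟨trivial, by simp [Tr.kids]⟩)
      (fun x hx => (h0 x hx).1) ha hb hc hda hdb hdc hodd hv'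
  have hlu : IsLongKnot (cl u.dg) := hlT u (by rw [hsp]; simp)
  have hll : ∀ x ∈ l1 ++ l2, IsLongKnot (cl x.dg) := by
    intro x hx
    refine hlT x ?_
    rw [hsp]
    rcases List.mem_append.1 hx with hx | hx
    · exact List.mem_append_left _ hx
    · exact List.mem_append_right _ (List.mem_cons_of_mem _ hx)
  have hT2r : ∀ x : Tr, x.Rat → TV.T2 x := by
    intro x hx
    cases x with
    | pw e => exact trivial
    | cons p q =>
      obtain ⟨k1, k2⟩ := hx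
      refine ⟨k1, ?_⟩
      cases q with
      | pw e => exact trivial
      | cons _ _ => simp [Tr.kids] at k2
  -- the 2-bridge parts
  obtain ⟨xs, hxs, x1, x2⟩ := hCMB (l1 ++ l2) T0 (by
      intro x hx
      rcases List.mem_append.1 hx with hx | hx
      · exact ⟨hall x hx, hll x hx⟩
      · exact ⟨hT2r x (h0 x hx).1.1, (h0 x hx).2⟩)
    (fun w => hFF (FF w) (hSYF.1 w D hD))
  obtain ⟨k1, k2, k3⟩ := hKDF.2.2 xs hxs
  have cu : cnt 1 (cl u.dg) = some 1 := (hC.2.2.2.1 _ (hC.2.2.2.2.1 u)).2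
  have cM : cnt 1 (cl (M3 a' b' c' e').dg) = some 1 := (hC.2.2.2.1 _ (hC.2.2.2.2.1 _)).2
  have g1 : EqD 1 (cl t) (TS.sumd xs ++ cl u.dg) := by
    refine h7.trans ?_
    rw [hsp]
    refine (hSPL l1 l2 u fun x hx => ⟨hall x (List.mem_append_right _ hx),
      hll x (List.mem_append_right _ hx)⟩).trans ?_
    exact hC.2.2.1 _ _ _ _ x1 (EqD.refl _) (hC.2.2.2.2.2.1 _) cu
  have g2 : EqD 1 (ws.flatten ++ cl (r1 ++ (r2 ++ r3)))
      (TS.sumd xs ++ cl (M3 a' b' c' e').dg) :=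
    hC.2.2.1 _ _ _ _ (h8'.trans x2) e2 h6c cm
  have cw : cnt 1 (ws.flatten ++ cl (r1 ++ (r2 ++ r3))) = some 1 := by
    rw [cnt_app h6c]
    exact cm
  rcases parts hMTM hTOPW hTOP3 hu3 hlu ha hb hc hda hdb hdc hlM hperm hsum hC with hk | ⟨ho, hk⟩
  · left
    refine g1.trans (EqD.trans ?_ g2.symm)
    exact hC.2.2.1 _ _ _ _ (EqD.refl _) hk k1 cu
  · right
    refine ⟨⟨wa ▸ ho.1, wb ▸ ho.2.1, wc ▸ ho.2.2⟩, ?_⟩
    have cfM : cnt 1 (flipD (cl (M3 a' b' c' e').dg)) = some 1 := cnt_flip _ cM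
    have g3 : EqD 1 (TS.sumd xs ++ cl u.dg) (TS.sumd xs ++ flipD (cl (M3 a' b' c' e').dg)) :=
      hC.2.2.1 _ _ _ _ (EqD.refl _) hk k1 cu
    have g4 : EqD 1 (flipD (TS.sumd xs ++ cl (M3 a' b' c' e').dg))
        (flipD (cl (M3 a' b' c' e').dg) ++ TS.sumd xs) := by
      rw [flipD_append]
      exact hC.2.2.1 _ _ _ _ (EqD.refl _) k3 cfM (cnt_flip _ k1)
    have g5 : EqD 1 (flipD (ws.flatten ++ cl (r1 ++ (r2 ++ r3))))
        (flipD (TS.sumd xs ++ cl (M3 a' b' c' e').dg)) := EqD_flip g2 cw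
    exact (g1.trans g3).trans (((g5.trans g4).trans (k2 _ cfM)).symm)

end Pool.Agent.TW
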