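import Pool.Agent.TW.StA

/-!
Theorem W (MP_31fd3b_gt): CLS and CSM, the class sums of two lists of vertices.
-/

open Filter Topology
open scoped BigOperators Real

namespace Pool.Agent.TW

open Pool.Agent.LibH11.Sliced Pool.Agent.MTR Pool.Agent.MTA Pool.Agent.UA Pool.Agent.UB
open Pool.Agent.TwoBr Pool.Agent.Mont Pool.Agent.TV
open Pool.Agent.TB hiding vec

namespace CLSaux

lemma sum_filter {α : Type} (L : List α) (p : α → Bool) (F : α → ℂ)
    (h : ∀ v ∈ L, p v = false → F v = 0) :
    ((L.filter p).map F).sum = (L.map F).sum := by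
  induction L with
  | nil => rfl
  | cons a L ih =>
    have ih' := ih (fun v hv => h v (List.mem_cons_of_mem _ hv))
    cases hp : p a with
    | true =>
      rw [List.filter_cons_of_pos hp, List.map_cons, List.map_cons, List.sum_cons, List.sum_cons,
        ih']
    | false =>
      rw [List.filter_cons_of_neg (by simp [hp]), List.map_cons, List.sum_cons,
        h a List.mem_cons_self hp, zero_add, ih']

lemma sum_congr {α : Type} (L : List α) (F G : α → ℂ) (h : ∀ v ∈ L, F v = G v) :
    (L.map F).sum = (L.map G).sum := by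
  rw [List.map_congr_left h]

lemma sum_neg {α : Type} (L : List α) (F : α → ℂ) :
    (L.map fun v => -F v).sum = -(L.map F).sum := by
  induction L with
  | nil => simp
  | cons a L ih => rw [List.map_cons, List.map_cons, List.sum_cons, List.sum_cons, ih]; ring

lemma sum_cast {α : Type} (L : List α) (F : α → ℤ) :
    (L.map fun v => (F v : ℂ)).sum = (((L.map F).sum : ℤ) : ℂ) := by
  induction L with
  | nil => simp
  | cons a L ih => rw [List.map_cons, List.map_cons, List.sum_cons, List.sum_cons, ih]; push_cast; ring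

lemma sum_exch {α β : Type} (L : List α) (S : Finset β) (F : β → α → ℂ) :
    (L.map fun v => ∑ k ∈ S, F k v).sum = ∑ k ∈ S, (L.map (F k)).sum := by
  induction L with
  | nil => simp
  | cons a L ih =>
    rw [List.map_cons, List.sum_cons, ih, ← Finset.sum_add_distrib]
    refine Finset.sum_congr rfl fun k _ => ?_
    rw [List.map_cons, List.sum_cons]

/-- the vertices with a nonzero product of the weights -/
def qv (v : Vx) : Bool := decide ((tot v).2 ≠ 0)

/-- the entry of a vertex -/
noncomputable def ent (D ε : ℤ) (v : Vx) : ℤ × ℤ × ℚ × ℚ × ℚ :=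
  (ε, Kv D v, slp v.1, slp v.2.1, slp v.2.2)

/-- the list of the entries -/
noncomputable def XL (D : ℤ) (Vs Vs' : List Vx) : List (ℤ × ℤ × ℚ × ℚ × ℚ) :=
  ((Vs.filter qv).map (ent D 1)) ++ ((Vs'.filter qv).map (ent D (-1)))

lemma XL_sum (D : ℤ) (Vs Vs' : List Vx) (G : ℤ × ℤ × ℚ × ℚ × ℚ → ℂ) (F : Vx → ℂ)
    (h1 : ∀ v ∈ Vs ++ Vs', qv v = true → G (ent D 1 v) = F v)
    (h2 : ∀ v ∈ Vs ++ Vs', qv v = true → G (ent D (-1) v) = -F v)
    (h0 : ∀ v ∈ Vs ++ Vs', qv v = false → F v = 0) :
    ((XL D Vs Vs').map G).sum = (Vs.map F).sum - (Vs'.map F).sum := by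
  unfold XL
  rw [List.map_append, List.sum_append, List.map_map, List.map_map]
  have e1 : ((Vs.filter qv).map (G ∘ ent D 1)).sum = (Vs.map F).sum := by
    rw [← sum_filter Vs qv F (fun v hv => h0 v (List.mem_append_left _ hv))]
    refine sum_congr _ _ _ fun v hv => ?_
    obtain ⟨hv1, hv2⟩ := List.mem_filter.1 hv
    exact h1 v (List.mem_append_left _ hv1) hv2
  have e2 : ((Vs'.filter qv).map (G ∘ ent D (-1))).sum = -(Vs'.map F).sum := by
    rw [← sum_filter Vs' qv F (fun v hv => h0 v (List.mem_append_right _ hv)), ← sum_neg]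
    refine sum_congr _ _ _ fun v hv => ?_
    obtain ⟨hv1, hv2⟩ := List.mem_filter.1 hv
    exact h2 v (List.mem_append_right _ hv1) hv2
  rw [e1, e2]
  ring

end CLSaux

open CLSaux

/-- CLS -/
theorem t_CLS (h1 : CQE_Stmt) (h2 : MUKS_Stmt) : CLS_Stmt := by
  intro D hD Vs Vs' hdvd hres K φ hK hφ
  have hD0 : D ≠ 0 := by
    rintro rfl
    simp at hD
  have key : ∀ v ∈ Vs ++ Vs', qv v = true → _ := fun v hv hq =>
    h1 D v hD0 (hdvd v hv) (by simpa [qv] using hq) (Kv D v) rfl
  have hX := h2 D hD (XL D Vs Vs') ?_ ?_ K φ hφ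
  · rw [XL_sum D Vs Vs' _ (fun v => if Kv D v = K then alv φ D v else 0)] at hX
    · exact sub_eq_zero.1 hX
    · intro v _ _
      simp only [ent, alv]
      split_ifs
      · push_cast
        ring
      · rfl
    · intro v _ _
      simp only [ent, alv]
      split_ifs
      · push_cast
        ring
      · simp
    · intro v _ hq
      have h0 : (tot v).2 = 0 := by simpa [qv] using hq
      have hk : Kv D v = 0 := by
        unfold Kv
        rw [h0, mul_zero]
      rw [if_neg]
      rw [hk]
      exact fun h => hK h.symm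
  · intro x hx
    have hx' : ∃ v ∈ Vs ++ Vs', qv v = true ∧ ∃ ε : ℤ, x = ent D ε v := by
      unfold XL at hx
      rcases List.mem_append.1 hx with h | h
      · obtain ⟨v, hv, rfl⟩ := List.mem_map.1 h
        obtain ⟨hv1, hv2⟩ := List.mem_filter.1 hv
        exact ⟨v, List.mem_append_left _ hv1, hv2, 1, rfl⟩
      · obtain ⟨v, hv, rfl⟩ := List.mem_map.1 h
        obtain ⟨hv1, hv2⟩ := List.mem_filter.1 hv
        exact ⟨v, List.mem_append_right _ hv1, hv2, -1, rfl⟩
    obtain ⟨v, hv, hq, ε, rfl⟩ := hx'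
    obtain ⟨k1, _, k3, k4, _⟩ := key v hv hq
    exact ⟨k1, k3, k4⟩
  · intro g z hg hz
    have hg0 : g ≠ 0 := by
      rintro rfl
      simp at hg
    rw [XL_sum D Vs Vs' _ (fun v => ((rs D v g z : ℤ) : ℂ))]
    · rw [sum_cast, sum_cast, hres g z hg hz, sub_self]
    · intro v hv hq
      obtain ⟨_, _, _, _, k5⟩ := key v hv hq
      rw [k5 g z hg0 hz]
      simp only [ent]
      push_cast
      ring
    · intro v hv hq
      obtain ⟨_, _, _, _, k5⟩ := key v hv hq
      rw [k5 g z hg0 hz]
      simp only [ent]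
      push_cast
      ring
    · intro v _ hq
      have h0 : (tot v).2 = 0 := by simpa [qv] using hq
      unfold Pool.Agent.TV.rs
      rw [if_pos h0]
      simp

/-- CSM -/
theorem t_CSM : CSM_Stmt := by
  intro D Vs Vs' hcl f hf
  classical
  set S : Finset ℤ := ((Vs ++ Vs').map (Kv D)).toFinset.erase 0 with hS
  have key : ∀ v ∈ Vs ++ Vs', (if Kv D v = 0 then 0 else alv (f (Kv D v)) D v) =
      ∑ K ∈ S, (if Kv D v = K then alv (f K) D v else 0) := by
    intro v hv
    rw [Finset.sum_ite_eq]
    by_cases h0 : Kv D v = 0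
    · rw [if_pos h0, if_neg]
      rw [h0, hS]
      exact Finset.notMem_erase _ _
    · rw [if_neg h0, if_pos]
      rw [hS]
      refine Finset.mem_erase.2 ⟨h0, ?_⟩
      rw [List.mem_toFinset]
      exact List.mem_map.2 ⟨v, hv, rfl⟩
  rw [sum_congr Vs _ _ (fun v hv => key v (List.mem_append_left _ hv)),
    sum_congr Vs' _ _ (fun v hv => key v (List.mem_append_right _ hv)), sum_exch, sum_exch]
  refine Finset.sum_congr rfl fun K hK => ?_
  rw [hS] at hK
  exact hcl K (f K) (Finset.mem_erase.1 hK).1 (hf K)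

end Pool.Agent.TW
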