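import Pool.Agent.TW.StT
import Pool.Agent.TV.AsmT

/-!
Theorem W (MP_31fd3b_gt), module CMB: lists of 2-bridge knots with the same values of the indicator
functions.
-/

open scoped BigOperators

namespace Pool.Agent.TW

open Pool.Agent.LibH11.Sliced Pool.Agent.MTR Pool.Agent.MTA Pool.Agent.UA Pool.Agent.UB
open Pool.Agent.TwoBr Pool.Agent.Mont Pool.Agent.TV
open Pool.Agent.TB hiding vec

namespace Cmb

open Classical in
/-- the number of the knots in the list which are equal to `w` -/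
noncomputable def cn (w : Diag) (l : List Tr) : ℕ :=
  (l.map fun x => if EqD 1 (cl x.dg) w then 1 else 0).sum

theorem cn_cons (w : Diag) (t : Tr) (l : List Tr) [Decidable (EqD 1 (cl t.dg) w)] :
    cn w (t :: l) = (if EqD 1 (cl t.dg) w then 1 else 0) + cn w l := by
  unfold cn
  rw [List.map_cons, List.sum_cons]
  congr

theorem cn_append (w : Diag) (l l' : List Tr) : cn w (l ++ l') = cn w l + cn w l' := by
  simp [cn]

theorem cnt_cl (h3 : FCG_Stmt) (t : Tr) : cnt 1 (cl t.dg) = some 1 :=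
  (h3.2.2.2.1 _ (h3.2.2.2.2.1 t)).2

theorem cnt_cls (h3 : FCG_Stmt) (l : List Tr) : cnt 1 (cls l) = some 1 :=
  h3.2.2.2.2.2.1 l

theorem flip_self (h1 : KDF_Stmt) (h3 : FCG_Stmt) {t : Tr} (ht : T2 t) (hl : IsLongKnot (cl t.dg)) :
    EqD 1 (flipD (cl t.dg)) (cl t.dg) := by
  obtain ⟨x, hx, he⟩ := h1.1 t ht hl
  exact ((EqD_flip he (cnt_cl h3 t)).trans (h1.2.1 x hx)).trans he.symm

theorem val (h1 : KDF_Stmt) (h2 : SYF_Stmt) (h3 : FCG_Stmt) {t : Tr} (ht : T2 t)
    (hl : IsLongKnot (cl t.dg)) (w : Diag) [Decidable (EqD 1 (cl t.dg) w)] :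
    FF w (prT t).1 (prT t).2 = ((if EqD 1 (cl t.dg) w then 1 else 0 : ℕ) : ℂ) := by
  by_cases h : EqD 1 (cl t.dg) w
  · rw [(h2.2 w t ht).1 (Or.inl h), if_pos h]
    norm_num
  · have h' : ¬ (EqD 1 (cl t.dg) w ∨ EqD 1 (flipD (cl t.dg)) w) := by
      rintro (h4 | h4)
      · exact h h4
      · exact h ((flip_self h1 h3 ht hl).symm.trans h4)
    rw [(h2.2 w t ht).2 h', if_neg h]
    norm_num

theorem sum_val (h1 : KDF_Stmt) (h2 : SYF_Stmt) (h3 : FCG_Stmt) (w : Diag) (l : List Tr)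
    (hl : ∀ t ∈ l, T2 t ∧ IsLongKnot (cl t.dg)) :
    (l.map fun x => FF w (prT x).1 (prT x).2).sum = (cn w l : ℂ) := by
  classical
  induction l with
  | nil => simp [cn]
  | cons t l ih =>
    obtain ⟨ht, hk⟩ := hl t List.mem_cons_self
    rw [List.map_cons, List.sum_cons, ih fun x hx => hl x (List.mem_cons_of_mem _ hx),
      val h1 h2 h3 ht hk, cn_cons, Nat.cast_add]

theorem exists_of_pos (w : Diag) (l : List Tr) (h : cn w l ≠ 0) : ∃ t ∈ l, EqD 1 (cl t.dg) w := by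
  classical
  induction l with
  | nil => exact absurd rfl h
  | cons t l ih =>
    by_cases ht : EqD 1 (cl t.dg) w
    · exact ⟨t, List.mem_cons_self, ht⟩
    · rw [cn_cons, if_neg ht, zero_add] at h
      obtain ⟨x, hx, hx'⟩ := ih h
      exact ⟨x, List.mem_cons_of_mem _ hx, hx'⟩

theorem sumd_one (x : List ℤ) : TS.sumd [x] = kdiag x := by
  simp [TS.sumd]

theorem sumd_cons (x : List ℤ) (xs : List (List ℤ)) :
    TS.sumd (x :: xs) = kdiag x ++ TS.sumd xs := by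
  simp [TS.sumd]

/-- a 2-bridge knot commutes with every long diagram -/
theorem comm (h1 : KDF_Stmt) (h3 : FCG_Stmt) {t : Tr} (ht : T2 t) (hl : IsLongKnot (cl t.dg))
    (f : Diag) (hf : cnt 1 f = some 1) : EqD 1 (f ++ cl t.dg) (cl t.dg ++ f) := by
  obtain ⟨x, hx, he⟩ := h1.1 t ht hl
  have h4 := h1.2.2 [x] (by simpa using hx)
  rw [sumd_one] at h4
  have h5 : EqD 1 (f ++ cl t.dg) (f ++ kdiag x) :=
    h3.2.2.1 _ _ _ _ (EqD.refl f) he hf (cnt_cl h3 t)
  have h6 : EqD 1 (cl t.dg ++ f) (kdiag x ++ f) :=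
    h3.2.2.1 _ _ _ _ he (EqD.refl f) (cnt_cl h3 t) hf
  exact (h5.trans (h4.2.1 f hf)).trans h6.symm

theorem main (h1 : KDF_Stmt) (h3 : FCG_Stmt) : ∀ l l' : List Tr,
    (∀ t ∈ l, T2 t ∧ IsLongKnot (cl t.dg)) → (∀ t ∈ l', T2 t ∧ IsLongKnot (cl t.dg)) →
    (∀ w : Diag, cn w l = cn w l') →
    ∃ xs : List (List ℤ), (∀ x ∈ xs, Even x.length) ∧ EqD 1 (cls l) (TS.sumd xs) ∧
      EqD 1 (cls l') (TS.sumd xs) := by
  classical
  intro l
  induction l with
  | nil =>
    intro l' _ _ hc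
    cases l' with
    | nil => exact ⟨[], by simp, EqD.refl _, EqD.refl _⟩
    | cons t m =>
      have h4 := hc (cl t.dg)
      rw [cn_cons, if_pos (EqD.refl _)] at h4
      have h5 : cn (cl t.dg) [] = 0 := rfl
      omega
  | cons t l0 ih =>
    intro l' hl hl' hc
    obtain ⟨ht, hk⟩ := hl t List.mem_cons_self
    have h4 := hc (cl t.dg)
    rw [cn_cons, if_pos (EqD.refl _)] at h4
    obtain ⟨t', ht', he⟩ := exists_of_pos (cl t.dg) l' (by omega)
    obtain ⟨m, m', rfl⟩ := List.append_of_mem ht'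
    obtain ⟨ht2, hk2⟩ := hl' t' ht'
    have hm : ∀ x ∈ m ++ m', T2 x ∧ IsLongKnot (cl x.dg) := by
      intro x hx
      refine hl' x ?_
      rcases List.mem_append.1 hx with hx | hx
      · exact List.mem_append_left _ hx
      · exact List.mem_append_right _ (List.mem_cons_of_mem _ hx)
    have hc2 : ∀ w : Diag, cn w l0 = cn w (m ++ m') := by
      intro w
      have h5 := hc w
      rw [cn_cons, cn_append, cn_cons] at h5
      have h6 : EqD 1 (cl t.dg) w ↔ EqD 1 (cl t'.dg) w :=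
        ⟨fun h => he.trans h, fun h => he.symm.trans h⟩
      rw [cn_append]
      by_cases h7 : EqD 1 (cl t.dg) w
      · rw [if_pos h7, if_pos (h6.1 h7)] at h5
        omega
      · rw [if_neg h7, if_neg fun h => h7 (h6.2 h)] at h5
        omega
    obtain ⟨xs, hx1, hx2, hx3⟩ := ih (m ++ m') (fun x hx => hl x (List.mem_cons_of_mem _ hx)) hm hc2
    obtain ⟨x, hx, hx'⟩ := h1.1 t ht hk
    refine ⟨x :: xs, ?_, ?_, ?_⟩
    · intro y hy
      rcases List.mem_cons.1 hy with rfl | hy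
      · exact hx
      · exact hx1 y hy
    · rw [AsmT.cls_cons, sumd_cons]
      exact h3.2.2.1 _ _ _ _ hx' hx2 (cnt_cl h3 t) (cnt_cls h3 l0)
    · rw [AsmT.cls_append, AsmT.cls_cons, sumd_cons]
      have h8 : EqD 1 (cls m ++ (cl t'.dg ++ cls m')) (cl t'.dg ++ (cls m ++ cls m')) := by
        rw [← List.append_assoc, ← List.append_assoc]
        refine h3.2.2.1 _ _ _ _ (comm h1 h3 ht2 hk2 _ (cnt_cls h3 m)) (EqD.refl _) ?_
          (cnt_cls h3 m')
        rw [cnt_app (cnt_cls h3 m), cnt_cl h3 t']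
      refine h8.trans ?_
      rw [← AsmT.cls_append]
      exact h3.2.2.1 _ _ _ _ (he.trans hx') hx3 (cnt_cl h3 t') (cnt_cls h3 _)

end Cmb

theorem t_CMB (h1 : KDF_Stmt) (h2 : SYF_Stmt) (h3 : FCG_Stmt) : CMB_Stmt := by
  intro l l' hl hw
  have ha : ∀ t ∈ l, T2 t ∧ IsLongKnot (cl t.dg) := fun t ht => hl t (List.mem_append_left _ ht)
  have hb : ∀ t ∈ l', T2 t ∧ IsLongKnot (cl t.dg) := fun t ht => hl t (List.mem_append_right _ ht)
  refine Cmb.main h1 h3 l l' ha hb fun w => ?_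
  have h4 := hw w
  rw [Cmb.sum_val h1 h2 h3 w l ha, Cmb.sum_val h1 h2 h3 w l' hb] at h4
  exact_mod_cast h4

end Pool.Agent.TW
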