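import Pool.Agent.TV.StJ
import Pool.Agent.TS.Stmts

/-!
Theorem W (MP_31fd3b_gt): rational finite type invariants separate the connected sums of 2-bridge
knots and at most one Montesinos knot with three rational tangles from every arborescent knot (up to
orientation if the three denominators are odd). Definitions. See PAPER.md in this folder.
-/

open scoped BigOperators

namespace Pool.Agent.TW

open Pool.Agent.LibH11.Sliced Pool.Agent.MTR Pool.Agent.MTA Pool.Agent.UA Pool.Agent.UB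
open Pool.Agent.TwoBr Pool.Agent.Mont Pool.Agent.TV
open Pool.Agent.TB hiding vec

/-! ### 1. Trees -/

/-- the tree of the Montesinos knot with three rational tangles -/
def M3 (a b c : Tr) (e : ℤ) : Tr := .cons a (.cons b (.cons c (.pw e)))

/-- the slope of the rotated tangle -/
def sr (a : Tr) : ℚ := slp (rv (vec a))

/-- `Q3 y x a b c e`: the tree `x` in the context of the tree `y` consists of the tangles `a`, `b`,
`c` and `e` half twists around one vertex. -/
inductive Q3 : Tr → Tr → Tr → Tr → Tr → ℤ → Prop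
  | base (y a b : Tr) (e : ℤ) : Q3 y (.cons a (.cons b (.pw e))) a b y e
  | step (y x : Tr) (d : ℤ) (a b c : Tr) (e : ℤ) : Q3 (.cons y (.pw d)) x a b c e →
      Q3 y (.cons x (.pw d)) a b c e

/-- `T3 T a b c e`: the closed tree `T` consists of the rational tangles `a`, `b`, `c` and `e` half
twists around one vertex. -/
def T3 (T a b c : Tr) (e : ℤ) : Prop :=
  (a.Rat ∧ b.Rat ∧ c.Rat) ∧ (2 ≤ |(vec a).1| ∧ 2 ≤ |(vec b).1| ∧ 2 ≤ |(vec c).1|) ∧
    ∃ x y : Tr, T = .cons x y ∧ ((y.Rat ∧ Q3 y x a b c e) ∨ (x.Rat ∧ Q3 x y a b c e))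

/-- the vertex of such a tree -/
def v0 (a b c : Tr) (e : ℤ) : Vx := (rv (vec c), rv (vec a), vec (.cons b (.pw e)))

/-- the two directions of a tree with `T2` -/
def prT : Tr → (ℤ × ℤ) × (ℤ × ℤ)
  | .pw e => ((0, 1), (-e, 1))
  | .cons x y => (rv (vec x), vec y)

/-- the determinant is odd and the values at the roots of unity do not vanish -/
def NVP (t : Tr) : Prop :=
  Odd (vec t).1 ∧ ∀ s : ℕ, 2 ≤ s → ∀ ι : ℤ, Odd ι → (Va (2 ^ s) ι t).1 ≠ 0

/-! ### 2. Vertices -/

/-- nontrivial vertices: no slope is an integer -/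
def Ntr (v : Vx) : Prop := (tot v).2 ≠ 0 ∧ ∀ p ∈ prs v, ¬ p.2.2 ∣ p.2.1

open Classical in
/-- the nontrivial vertices of a list -/
noncomputable def nts (Vs : List Vx) : List Vx := Vs.filter fun v => decide (Ntr v)

/-- the three slopes -/
def sls (v : Vx) : List ℚ := [slp v.1, slp v.2.1, slp v.2.2]

/-- the class of a vertex -/
def Kv (D : ℤ) (v : Vx) : ℤ := D / (tot v).1 * (tot v).2

/-- the alternating sum of a vertex -/
noncomputable def alv (φ : ℚ → ℂ) (D : ℤ) (v : Vx) : ℂ :=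
  al φ ((D : ℚ) / Kv D v) (slp v.1) (slp v.2.1) (slp v.2.2)

/-- period 1 -/
def Per1 (φ : ℚ → ℂ) : Prop := ∀ (β : ℚ) (n : ℤ), φ (β + n) = φ β

/-- the square of the inverse of the denominator -/
noncomputable def iv (β : ℚ) : ℚ := 1 / ((β.den : ℕ) : ℚ) ^ 2

/-- the quadratic expression of three slopes -/
noncomputable def QF (b0 b1 b2 : ℚ) : ℚ :=
  -2 * (1 - (iv b0 + iv b1 + iv b2)) ^ 2 - (1 + iv (b0 + b1 + b2)) ^ 2 +
    ((iv b0 + iv (b1 + b2)) ^ 2 + (iv b1 + iv (b0 + b2)) ^ 2 + (iv b2 + iv (b0 + b1)) ^ 2)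

/-- the defect of a vertex -/
noncomputable def JD (v : Vx) : ℚ := 4 / (slp (tot v)) ^ 2 * QF (slp v.1) (slp v.2.1) (slp v.2.2)

open Classical in
/-- the number of the slopes which are congruent to the sum -/
noncomputable def nuc (b0 b1 b2 : ℚ) : ℕ :=
  (if ∃ n : ℤ, b1 + b2 = n then 1 else 0) + (if ∃ n : ℤ, b0 + b2 = n then 1 else 0) +
    (if ∃ n : ℤ, b0 + b1 = n then 1 else 0)

/-- the function of period 1 in the formula for a vertex with the sum `σ` -/
noncomputable def phs (σ β : ℚ) : ℂ := -ow β - 2 / (σ : ℂ) * la2 β + 8 * ((iv β : ℚ) : ℂ)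

/-- the value of a combination -/
noncomputable def evF (F : ℤ × ℤ → ℤ × ℤ → ℂ) (l : Cb) : ℂ :=
  (l.map fun e => (e.1 : ℂ) * F e.2.1 e.2.2).sum

/-! ### 3. Topology -/

open Classical in
/-- the indicator function of a diagram -/
noncomputable def FF (w : Diag) (P V : ℤ × ℤ) : ℂ :=
  if EqD 1 (cl ((rt P).dg ++ (rt V).dg)) w ∨ EqD 1 (cl ((rt V).dg ++ (rt P).dg)) w then 1 else 0

/-- equal up to sign -/
def PMv (v w : ℤ × ℤ) : Prop := v = w ∨ v = -w

end Pool.Agent.TW
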