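import Pool.Agent.TW.StA
import Pool.Agent.TV.Vxb

/-!
Theorem W (MP_31fd3b_gt), module GVX: the formula for every vertex without a weight zero.
-/

set_option autoImplicit false

open scoped BigOperators

namespace Pool.Agent.TW

open Pool.Agent.LibH11.Sliced Pool.Agent.MTR Pool.Agent.MTA Pool.Agent.UA Pool.Agent.UB
open Pool.Agent.TwoBr Pool.Agent.Mont Pool.Agent.TV
open Pool.Agent.TB hiding vec

namespace GVXaux

theorem iv_eq (β : ℚ) : VXBX.iv β = iv β := rfl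

theorem iv_add_int (β : ℚ) (n : ℤ) : iv (β + n) = iv β := by
  unfold iv
  rw [Rat.add_intCast_den]

theorem iv_zero : iv 0 = 1 := by
  have h := VXBX.iv_int 0
  rw [Int.cast_zero] at h
  exact h

/-- `VXBX.om_gen` with a name for the sum of the slopes -/
theorem om_sum (h3 : RU_Stmt) (h4 : LAD_Stmt) (h5 : LAE_Stmt) {P V : ℤ × ℤ} {s t σ : ℚ}
    (hP : P.2 ≠ 0) (hV : V.2 ≠ 0) (hs : slp P = s) (ht : slp V = t) (hst : s + t = σ)
    (hσ : σ ≠ 0) :
    om P V = ow s + ow t + 2 * (la2 s + la2 t) / (σ : ℂ) +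
      44 / 3 + 4 * (4 - 2 * ((iv s : ℚ) : ℂ) - 2 * ((iv t : ℚ) : ℂ)) +
      4 / 3 * (σ : ℂ) ^ 2 -
      (2 * ((iv s : ℚ) : ℂ) + 2 * ((iv t : ℚ) : ℂ)) ^ 2 / (σ : ℂ) ^ 2 := by
  have h := VXBX.om_gen h3 h4 h5 hP hV (by rw [hs, ht, hst]; exact hσ)
  rw [hs, ht, hst, iv_eq, iv_eq] at h
  exact h

theorem per_phs (h5 : LAE_Stmt) (σ : ℚ) : Per1 (phs σ) := by
  intro β n
  unfold phs
  rw [(h5.2.1 β n).1, (h5.2.1 β n).2, iv_add_int]

end GVXaux

open GVXaux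

theorem t_GVX (h3 : RU_Stmt) (h4 : LAD_Stmt) (h5 : LAE_Stmt) : GVX_Stmt := by
  refine ⟨?_, per_phs h5⟩
  rintro ⟨u, v, w⟩ ht1 ht
  have e2 : (tot (u, v, w)).2 = u.2 * v.2 * w.2 := rfl
  have ht' := ht
  rw [e2] at ht'
  have b2 : w.2 ≠ 0 := right_ne_zero_of_mul ht'
  have b1 : v.2 ≠ 0 := right_ne_zero_of_mul (left_ne_zero_of_mul ht')
  have b0 : u.2 ≠ 0 := left_ne_zero_of_mul (left_ne_zero_of_mul ht')
  have c0 : (addv v w).2 ≠ 0 := mul_ne_zero b1 b2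
  have c1 : (addv u w).2 ≠ 0 := mul_ne_zero b0 b2
  have c2 : (addv u v).2 ≠ 0 := mul_ne_zero b0 b1
  have hT : slp (tot (u, v, w)) = slp u + slp v + slp w := by
    change slp (addv (addv u v) w) = _
    rw [VXBX.slp_add c2 b2, VXBX.slp_add b0 b1]
  have hT0 : slp (tot (u, v, w)) ≠ 0 := by
    unfold slp
    refine div_ne_zero ?_ ?_
    · exact_mod_cast ht1
    · exact_mod_cast ht
  have hz : slp ((0, 1) : ℤ × ℤ) = 0 := by
    unfold slp
    simp
  have hev : evO (nv (u, v, w)) = -om (tot (u, v, w)) (0, 1) + om (addv v w) u +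
      om (addv u w) v + om (addv u v) w := by
    unfold nv
    rw [if_neg ht]
    simp only [evO, prs, List.map_cons, List.map_nil, List.sum_cons, List.sum_nil, add_zero]
    push_cast
    ring
  have hw3 := VXBX.w3_gen h3 h4 h5 b0 b1 b2 (by rw [← hT]; exact hT0)
  rw [iv_eq, iv_eq, iv_eq] at hw3
  have o0 := om_sum h3 h4 h5 c0 b0 (VXBX.slp_add b1 b2) rfl
    (show slp v + slp w + slp u = slp u + slp v + slp w by ring) (by rw [← hT]; exact hT0)
  have o1 := om_sum h3 h4 h5 c1 b1 (VXBX.slp_add b0 b2) rfl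
    (show slp u + slp w + slp v = slp u + slp v + slp w by ring) (by rw [← hT]; exact hT0)
  have o2 := om_sum h3 h4 h5 c2 b2 (VXBX.slp_add b0 b1) rfl
    (show slp u + slp v + slp w = slp u + slp v + slp w from rfl) (by rw [← hT]; exact hT0)
  have o3 := om_sum h3 h4 h5 ht (V := (0, 1)) (by norm_num) hT hz (add_zero _)
    (by rw [← hT]; exact hT0)
  have hσ : (((slp u + slp v + slp w : ℚ)) : ℂ) ≠ 0 := by
    rw [← hT]
    exact_mod_cast hT0
  have d0 : slp u + slp v + slp w - slp u = slp v + slp w := by ring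
  have d1 : slp u + slp v + slp w - slp v = slp u + slp w := by ring
  have d2 : slp u + slp v + slp w - slp w = slp u + slp v := by ring
  have hJ : ((JD (u, v, w) : ℚ) : ℂ) = 4 / ((slp u + slp v + slp w : ℚ) : ℂ) ^ 2 *
      (-2 * (1 - (((iv (slp u) : ℚ) : ℂ) + ((iv (slp v) : ℚ) : ℂ) + ((iv (slp w) : ℚ) : ℂ))) ^ 2 -
        (1 + ((iv (slp u + slp v + slp w) : ℚ) : ℂ)) ^ 2 +
        ((((iv (slp u) : ℚ) : ℂ) + ((iv (slp v + slp w) : ℚ) : ℂ)) ^ 2 +
          (((iv (slp v) : ℚ) : ℂ) + ((iv (slp u + slp w) : ℚ) : ℂ)) ^ 2 +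
          (((iv (slp w) : ℚ) : ℂ) + ((iv (slp u + slp v) : ℚ) : ℂ)) ^ 2)) := by
    unfold JD QF
    rw [hT]
    push_cast
    ring
  rw [hev, hw3, o0, o1, o2, o3, hJ, hT]
  simp only [al, phs, d0, d1, d2, iv_zero, VXBX.la2_zero h5, VXBX.ow_zero h4 h5]
  generalize ((slp u + slp v + slp w : ℚ) : ℂ) = S at *
  push_cast
  field_simp
  ring

end Pool.Agent.TW
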