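import Pool.Agent.TW.StA
import Pool.Agent.TV.Intv

/-!
INTW: equality of the finite type invariants of two closures of lists of trees: the values of the
trees in the model at a root of unity (copy of INTV, with the nonvanishing as a hypothesis).
-/

open Polynomial
open scoped BigOperators Real Matrix

namespace Pool.Agent.TW

open Pool.Agent.LibH11.Sliced Pool.Agent.MTR Pool.Agent.MT Pool.Agent.MTA Pool.Agent.UA
open Pool.Agent.UB Pool.Agent.TwoBr Pool.Agent.Mont Pool.Agent.TV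
open Pool.Agent.TB hiding vec

open Pool.Agent.TV.INTV in
theorem t_INTW (h1 : JLS_Stmt) (h2 : TRF_Stmt) (h4 : CVU_Stmt) (h5 : TMA_Stmt)
    (h6 : FTM_Stmt) (h7 : TDG_Stmt) (h8 : HZ_Stmt) (h9 : GPS_Stmt) (h10 : GRT_Stmt) :
    INTW_Stmt := by
  intro Ts Ts' h h' hlen hodd hrat hv s hs
  obtain ⟨m', rfl⟩ : ∃ m', s = m' + 2 := ⟨s - 2, by omega⟩
  set r : ℕ := 2 ^ (m' + 1) with hrdef
  have hr : Even r := ⟨2 ^ m', by rw [hrdef, pow_succ]; ring⟩
  have hrpos : 0 < r := by rw [hrdef]; positivity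
  have hn : 2 ^ (m' + 2) = 2 * r := by rw [hrdef, pow_succ]; ring
  obtain ⟨m, hm⟩ := INTV.qps h1 h6 h7 h8 h9 Ts Ts' h h' hodd (fun t ht => (hrat t ht).1) hv r hr
  refine ⟨-((m : ℂ) * ((r : ℂ) ^ 2 - (r : ℂ) / 2)), fun ι hι => ?_⟩
  have hc : IsCoprime ι (2 * (2 ^ (m' + 2) : ℕ) : ℤ) := by
    have h6 : IsCoprime ι (2 : ℤ) := by
      obtain ⟨k, hk⟩ := hι
      exact ⟨1, -k, by rw [hk]; ring⟩
    push_cast
    exact h6.mul_right h6.pow_right
  have hc4 : IsCoprime ι (4 * r : ℤ) := by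
    have h6 : (4 * r : ℤ) = (2 * (2 ^ (m' + 2) : ℕ) : ℤ) := by
      rw [hn]; push_cast; ring
    rw [h6]; exact hc
  have hg := (h10 r ι hrpos hc4).1
  have hnz : NeZero (2 * r) := ⟨by omega⟩
  have hsz : sz (2 * r) ι = sz (2 ^ (m' + 2)) ι := by
    apply Units.ext
    simp only [sz, Units.val_mk0]
    rw [← hn]
  rw [hsz] at hg
  obtain ⟨hE, hD⟩ := h2 r (sz (2 ^ (m' + 2)) ι) hr hg
  have hE := hE m Ts Ts' hm
  have hB := (h5 (2 ^ (m' + 2)) r ι hn hr hc).2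
  rw [hB] at hD
  have hV := h4 (2 ^ (m' + 2)) r ι hn hr hc
  have hone : ∀ t ∈ Ts', (Va (2 ^ (m' + 2)) ι t).1 ≠ 0 := fun t ht =>
    (hrat t ht).2 (m' + 2) hs ι hι
  obtain ⟨z, hz⟩ := INT.tht_zpow (sz (2 ^ (m' + 2)) ι) r
  rw [hz] at hE
  simp only [hV] at hE
  set d := dlt (QD (sz (2 ^ (m' + 2)) ι)) r with hd
  set θ : DualNumber ℂ := 1 - TrivSqZeroExt.inr (Th (2 ^ (m' + 2)) ι 1 0) with hθ
  set γ : ℂ := 1 / (2 * ((2 ^ (m' + 2) : ℕ) : ℂ)) with hγ
  have hγ0 : γ ≠ 0 := by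
    rw [hγ]
    have : ((2 ^ (m' + 2) : ℕ) : ℂ) ≠ 0 := by exact_mod_cast (by positivity : 2 ^ (m' + 2) ≠ 0)
    exact one_div_ne_zero (mul_ne_zero two_ne_zero this)
  set n : ℕ := 2 ^ (m' + 2) with hndef
  -- the unit `c = d θ`
  have hD' : (d * θ) ^ 2 * TrivSqZeroExt.inl γ = 1 := by rw [← hD]; ring
  have hDf := congrArg TrivSqZeroExt.fst hD'
  rw [TrivSqZeroExt.fst_mul, TrivSqZeroExt.fst_pow, TrivSqZeroExt.fst_mul,
    TrivSqZeroExt.fst_one, TrivSqZeroExt.fst_inl] at hDf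
  have hθf : θ.fst = 1 := by rw [hθ]; simp
  rw [hθf, mul_one] at hDf
  have hdf : d.fst ≠ 0 := by
    intro h0
    rw [h0] at hDf
    simp at hDf
  have hcf : (d * θ).fst ≠ 0 := by
    rw [TrivSqZeroExt.fst_mul, hθf, mul_one]
    exact hdf
  have hlc : lg (d * θ) = 0 := by
    have h6 := congrArg lg hD'
    rw [lg_mul (fst_pow_ne hcf 2) (by rw [TrivSqZeroExt.fst_inl]; exact hγ0), lg_pow hcf, lg_inl,
      lg_one, add_zero] at h6
    rcases mul_eq_zero.1 h6 with h7 | h7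
    · norm_num at h7
    · exact h7
  -- the values
  set va : Tr → DualNumber ℂ := fun t =>
    TrivSqZeroExt.inl (Va n ι t).1 + TrivSqZeroExt.inr (Va n ι t).2 with hva
  have hvaf : ∀ t, (va t).fst = (Va n ι t).1 := fun t => by simp [hva]
  have hval : ∀ t, lg (va t) = (Va n ι t).2 / (Va n ι t).1 := fun t => lg_va _
  set w : Tr → DualNumber ℂ := fun t =>
    d * (TrivSqZeroExt.inl γ * (d * θ) ^ nc t * va t) with hw
  have hE' : TrivSqZeroExt.inl ((z ^ m : ℂˣ) : ℂ) *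
      (1 + TrivSqZeroExt.inr ((m : ℂ) * ((r : ℂ) ^ 2 - (r : ℂ) / 2))) * (Ts.map w).prod =
      (Ts'.map w).prod := hE
  have hwf : ∀ t, (w t).fst ≠ 0 ↔ (Va n ι t).1 ≠ 0 := by
    intro t
    have h6 : (w t).fst = (d.fst * (γ * (d * θ).fst ^ nc t)) * (Va n ι t).1 := by
      rw [hw]
      simp only [TrivSqZeroExt.fst_mul, TrivSqZeroExt.fst_pow, TrivSqZeroExt.fst_inl, hvaf]
      ring
    rw [h6, mul_ne_zero_iff]
    refine ⟨fun h => h.2, fun h => ⟨?_, h⟩⟩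
    exact mul_ne_zero hdf (mul_ne_zero hγ0 (pow_ne_zero _ hcf))
  have hall' : ∀ t ∈ Ts', (w t).fst ≠ 0 := fun t ht => (hwf t).2 (hone t ht)
  have hP' : (Ts'.map w).prod.fst ≠ 0 := by
    refine fst_prod_ne fun x hx => ?_
    obtain ⟨t, ht, rfl⟩ := List.mem_map.1 hx
    exact hall' t ht
  have hall : ∀ t ∈ Ts, (w t).fst ≠ 0 := by
    have h6 := congrArg TrivSqZeroExt.fst hE'
    have h7 := hP'
    rw [← h6, TrivSqZeroExt.fst_mul] at h7
    have h8 := ne_of_fst_prod_ne (right_ne_zero_of_mul h7)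
    exact fun t ht => h8 _ (List.mem_map.2 ⟨t, ht, rfl⟩)
  have hlw : ∀ t, (Va n ι t).1 ≠ 0 → lg (w t) = lg d + (Va n ι t).2 / (Va n ι t).1 := by
    intro t ht
    rw [hw]
    have h6 : ((TrivSqZeroExt.inl γ : DualNumber ℂ) * (d * θ) ^ nc t).fst ≠ 0 := by
      rw [TrivSqZeroExt.fst_mul]
      exact mul_ne_zero (by rw [TrivSqZeroExt.fst_inl]; exact hγ0) (fst_pow_ne hcf _)
    have h7 : (va t).fst ≠ 0 := by rw [hvaf]; exact ht
    have h8 : ((TrivSqZeroExt.inl γ : DualNumber ℂ) * (d * θ) ^ nc t * va t).fst ≠ 0 := by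
      rw [TrivSqZeroExt.fst_mul]
      exact mul_ne_zero h6 h7
    show lg (d * (TrivSqZeroExt.inl γ * (d * θ) ^ nc t * va t)) = _
    rw [lg_mul hdf h8, lg_mul h6 h7,
      lg_mul (by rw [TrivSqZeroExt.fst_inl]; exact hγ0) (fst_pow_ne hcf _), lg_inl, lg_pow hcf,
      hlc, hval, mul_zero, add_zero, zero_add]
  have hVall : ∀ t ∈ Ts, (Va n ι t).1 ≠ 0 := fun t ht => (hwf t).1 (hall t ht)
  refine ⟨fun t ht => ?_, ?_⟩
  · rcases List.mem_append.1 ht with h6 | h6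
    · exact hVall t h6
    · exact hone t h6
  have hP : (Ts.map w).prod.fst ≠ 0 := by
    refine fst_prod_ne fun x hx => ?_
    obtain ⟨t, ht, rfl⟩ := List.mem_map.1 hx
    exact hall t ht
  have h6 := congrArg lg hE'
  have hzf : (TrivSqZeroExt.inl ((z ^ m : ℂˣ) : ℂ) : DualNumber ℂ).fst ≠ 0 := by
    rw [TrivSqZeroExt.fst_inl]
    exact Units.ne_zero _
  have hkf : (1 + TrivSqZeroExt.inr ((m : ℂ) * ((r : ℂ) ^ 2 - (r : ℂ) / 2)) :
      DualNumber ℂ).fst ≠ 0 := by simp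
  have hkl : lg (1 + TrivSqZeroExt.inr ((m : ℂ) * ((r : ℂ) ^ 2 - (r : ℂ) / 2)) :
      DualNumber ℂ) = (m : ℂ) * ((r : ℂ) ^ 2 - (r : ℂ) / 2) := by simp [lg]
  rw [lg_mul (by rw [TrivSqZeroExt.fst_mul]; exact mul_ne_zero hzf hkf) hP, lg_mul hzf hkf,
    lg_inl, hkl, zero_add, lg_prod (by
      intro x hx
      obtain ⟨t, ht, rfl⟩ := List.mem_map.1 hx
      exact hall t ht), List.map_map, lg_prod (by
      intro x hx
      obtain ⟨t, ht, rfl⟩ := List.mem_map.1 hx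
      exact hall' t ht), List.map_map] at h6
  have h7 : ∀ l : List Tr, (∀ t ∈ l, (Va n ι t).1 ≠ 0) →
      (l.map (lg ∘ w)).sum = (l.length : ℂ) * lg d +
      (l.map fun t => (Va n ι t).2 / (Va n ι t).1).sum := by
    intro l
    induction l with
    | nil => intro _; simp
    | cons a l ih =>
      intro hl
      rw [List.map_cons, List.map_cons, List.sum_cons, List.sum_cons,
        ih fun t ht => hl t (List.mem_cons_of_mem _ ht), Function.comp_apply,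
        hlw a (hl a List.mem_cons_self), List.length_cons]
      push_cast
      ring
  rw [h7 Ts hVall, h7 Ts' hone, hlen] at h6
  linear_combination h6

end Pool.Agent.TW
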