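import Pool.Agent.TW.StT
import Pool.Agent.TwoBr.NF
import Pool.Agent.TwoBr.Concl
import Pool.Agent.TS.Cat

/-!
Theorem W (MP_31fd3b_gt): closures of trees with two rational branches; lists of 2-bridge knots.
-/

namespace Pool.Agent.TW

open Pool.Agent.LibH11.Sliced Pool.Agent.MTR Pool.Agent.MTA Pool.Agent.UA Pool.Agent.UB
open Pool.Agent.TwoBr Pool.Agent.Mont Pool.Agent.TV
open Pool.Agent.TB hiding vec

namespace Kdf

theorem pD_bw (z : Diag) : ∀ w : List (Fin 2 × Bool),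
    pD 3 (bw w ++ z) = pD 3 z ++ bw (rho w) := by
  intro w
  induction w with
  | nil => simp [rho]
  | cons p w ih =>
    obtain ⟨i, e⟩ := p
    have h1 : pD 3 (bw ((i, e) :: w) ++ z) = pD 3 (bw w ++ z) ++ [(Kind.crs e, 1 - (i : ℕ))] := by
      rw [bw_cons, List.cons_append]
      rfl
    rw [h1, ih, rho_cons, bw_append, List.append_assoc]
    congr 2
    fin_cases i <;> rfl

theorem pD_KW (w : List (Fin 2 × Bool)) : pD 1 (KW w) = KW (rho w) := by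
  have h1 : pD 1 (KW w) = pD 3 (bw w ++ [(.cap, 0)]) ++ [(.cap, 0)] := rfl
  have h2 : pD 3 [(Kind.cap, 0)] = [(Kind.cup, 1)] := rfl
  rw [h1, pD_bw, h2]
  simp [KW]

theorem cnt_kdiag (x : List ℤ) : cnt 1 (kdiag x) = some 1 := by
  rw [← KW_wordOf]
  exact cnt_KW _

theorem flip_kdiag (h2 : FFL_Stmt) (x : List ℤ) : EqD 1 (flipD (kdiag x)) (kdiag x) := by
  have h3 := (h2.2.2 (kdiag x) (cnt_kdiag x)).2
  have h4 : pD 1 (kdiag x) = KW (rho (wordOf 0 x)) := by rw [← KW_wordOf, pD_KW]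
  rw [h4] at h3
  have h5 := rev_KW (wordOf 0 x)
  rw [KW_wordOf] at h5
  exact h3.symm.trans h5.symm

theorem sumd_cons (x : List ℤ) (xs : List (List ℤ)) :
    TS.sumd (x :: xs) = kdiag x ++ TS.sumd xs := rfl

theorem cnt_sumd (xs : List (List ℤ)) : cnt 1 (TS.sumd xs) = some 1 := by
  induction xs with
  | nil => rfl
  | cons x xs ih => rw [sumd_cons, cnt_app (cnt_kdiag x)]; exact ih

theorem com_sumd (h1 : TS.COM_Stmt) (h3 : FCG_Stmt) (xs : List (List ℤ)) (f : Diag)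
    (hf : cnt 1 f = some 1) : EqD 1 (f ++ TS.sumd xs) (TS.sumd xs ++ f) := by
  induction xs with
  | nil =>
    refine EqD.of_eq ?_
    show f ++ [] = [] ++ f
    simp
  | cons x xs ih =>
    rw [sumd_cons]
    have e1 : EqD 1 (f ++ (kdiag x ++ TS.sumd xs)) ((kdiag x ++ f) ++ TS.sumd xs) := by
      rw [← List.append_assoc]
      refine h3.2.2.1 _ _ _ _ (h1 x f hf) (EqD.refl _) ?_ (cnt_sumd xs)
      rw [cnt_app hf]
      exact cnt_kdiag x
    have e2 : EqD 1 (kdiag x ++ (f ++ TS.sumd xs)) (kdiag x ++ (TS.sumd xs ++ f)) :=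
      EqD.left _ (cnt_kdiag x) ih
    rw [List.append_assoc] at e1
    rw [List.append_assoc]
    exact e1.trans e2

theorem flip_sumd (h1 : TS.COM_Stmt) (h2 : FFL_Stmt) (h3 : FCG_Stmt) (xs : List (List ℤ)) :
    EqD 1 (flipD (TS.sumd xs)) (TS.sumd xs) := by
  induction xs with
  | nil => exact EqD.refl _
  | cons x xs ih =>
    rw [sumd_cons, flipD_append]
    have e1 : EqD 1 (flipD (TS.sumd xs) ++ flipD (kdiag x)) (TS.sumd xs ++ kdiag x) :=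
      h3.2.2.1 _ _ _ _ ih (flip_kdiag h2 x) (cnt_flip _ (cnt_sumd xs)) (cnt_flip _ (cnt_kdiag x))
    exact e1.trans (com_sumd h1 h3 xs (kdiag x) (cnt_kdiag x)).symm

theorem one (h4 : ONEM_Stmt) (h5 : RTC_Stmt) (T : Tr) (hT : T2 T) (hl : IsLongKnot (cl T.dg)) :
    ∃ x : List ℤ, Even x.length ∧ EqD 1 (cl T.dg) (kdiag x) := by
  have hrat : ∃ T' : Tr, T'.Rat ∧ EqD 1 (cl T.dg) (cl T'.dg) := by
    cases T with
    | pw e => exact ⟨.pw e, trivial, EqD.refl _⟩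
    | cons a b => exact h5 b a hT.2 hT.1
  obtain ⟨T', hT1, hT2⟩ := hrat
  obtain ⟨w, hw1, hw2, hw3⟩ := h4 T' hT1 (hT2.isLongKnot hl)
  obtain ⟨u, hu⟩ := one_min hw1 hw2
  obtain ⟨x, hx1, _, hx3⟩ := nf_KW u (hu.isLongKnot hw1)
  exact ⟨x, hx1, ((hT2.trans hw3).trans hu).trans hx3⟩

theorem cls_append (X Y : List Tr) : cls (X ++ Y) = cls X ++ cls Y := by
  simp [cls]

theorem cls_cons (t : Tr) (X : List Tr) : cls (t :: X) = cl t.dg ++ cls X := rfl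

end Kdf

theorem t_KDF (h1 : TS.COM_Stmt) (h2 : FFL_Stmt) (h3 : FCG_Stmt) (h4 : ONEM_Stmt)
    (h5 : RTC_Stmt) : KDF_Stmt :=
  ⟨fun T hT hl => Kdf.one h4 h5 T hT hl, fun x _ => Kdf.flip_kdiag h2 x, fun xs _ =>
    ⟨Kdf.cnt_sumd xs, fun f hf => Kdf.com_sumd h1 h3 xs f hf, Kdf.flip_sumd h1 h2 h3 xs⟩⟩

theorem t_SPL (h1 : KDF_Stmt) (h2 : FCG_Stmt) : SPL_Stmt := by
  intro l1 l2 t hl
  have key : ∀ l : List Tr, (∀ x ∈ l, T2 x ∧ IsLongKnot (cl x.dg)) →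
      ∃ xs : List (List ℤ), (∀ x ∈ xs, Even x.length) ∧ EqD 1 (cls l) (TS.sumd xs) := by
    intro l
    induction l with
    | nil => intro _; exact ⟨[], by simp, EqD.refl _⟩
    | cons a l ih =>
      intro h
      obtain ⟨xs, hx1, hx2⟩ := ih fun x hx => h x (List.mem_cons_of_mem _ hx)
      obtain ⟨ha1, ha2⟩ := h a List.mem_cons_self
      obtain ⟨x, hx3, hx4⟩ := h1.1 a ha1 ha2
      refine ⟨x :: xs, ?_, ?_⟩
      · intro y hy
        rcases List.mem_cons.1 hy with rfl | hy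
        · exact hx3
        · exact hx1 y hy
      · rw [Kdf.cls_cons, Kdf.sumd_cons]
        exact h2.2.2.1 _ _ _ _ hx4 hx2 (h2.2.2.2.1 _ (h2.2.2.2.2.1 a)).2 (h2.2.2.2.2.2.1 l)
  obtain ⟨xs, hx1, hx2⟩ := key l2 hl
  have ct : cnt 1 (cl t.dg) = some 1 := (h2.2.2.2.1 _ (h2.2.2.2.2.1 t)).2
  have c2 : cnt 1 (cls l2) = some 1 := h2.2.2.2.2.2.1 l2
  have c1 : cnt 1 (cls l1) = some 1 := h2.2.2.2.2.2.1 l1
  have e1 : EqD 1 (cl t.dg ++ cls l2) (cl t.dg ++ TS.sumd xs) := EqD.left _ ct hx2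
  have e2 := (h1.2.2 xs hx1).2.1 (cl t.dg) ct
  have e3 : EqD 1 (TS.sumd xs ++ cl t.dg) (cls l2 ++ cl t.dg) :=
    h2.2.2.1 _ _ _ _ hx2.symm (EqD.refl _) (h1.2.2 xs hx1).1 ct
  have e4 := EqD.left (cls l1) c1 ((e1.trans e2).trans e3)
  rw [Kdf.cls_append, Kdf.cls_cons, Kdf.cls_append, List.append_assoc]
  exact e4

end Pool.Agent.TW
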