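import Pool.Agent.TW.StA
import Pool.Agent.TV.Lie

/-!
Theorem W (MP_31fd3b_gt), module LIEW: from the invariants to the limit functions (copy of
`TV.t_LIE` with INTW instead of INTV).
-/

set_option autoImplicit false

open Filter Topology
open scoped BigOperators Real

namespace Pool.Agent.TW

open Pool.Agent.LibH11.Sliced Pool.Agent.MTR Pool.Agent.MT Pool.Agent.MTA Pool.Agent.UA
open Pool.Agent.UB Pool.Agent.TwoBr Pool.Agent.Mont Pool.Agent.TV
open Pool.Agent.TB hiding vec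

open TV.LIE in
/-- MODULE LIEW -/
theorem t_LIEW (h1 : INTW_Stmt) (h2 : LIMV_Stmt) (h3 : LGUV_Stmt) (h4 : FOUT_Stmt) : LIEW_Stmt := by
  intro Ts Ts' h h' hlen hodd hrat hv D hD hdvd
  have hoddA : ∀ t ∈ Ts ++ Ts', Odd (vec t).1 := by
    intro t ht
    rcases List.mem_append.1 ht with ht | ht
    · exact hodd t ht
    · exact (hrat t ht).1
  have hmul : ∀ t ∈ Ts ++ Ts', D / (vec t).1 * (vec t).1 = D := fun t ht =>
    Int.ediv_mul_cancel (hdvd t ht)
  have hcodd : ∀ t ∈ Ts ++ Ts', Odd (D / (vec t).1) := by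
    intro t ht
    have := hmul t ht
    rw [← this] at hD
    exact (Int.odd_mul.1 hD).1
  obtain ⟨B, hB⟩ := exists_bound (Ts ++ Ts') (fun t B => ∀ M : ℤ, Odd M → Gp B M →
      Tendsto (fun s : ℕ => 4 * ((π : ℂ) / 2 ^ s) ^ 2 *
        TL (2 ^ s) (fun v => chi s M (((D / (vec t).1 : ℤ) : ZMod (2 ^ s)) * v)) t) atTop
        (𝓝 ((Ph (D / (vec t).1) M t : ℚ) : ℂ)))
    (fun t B B' hBB hp M hM hG => hp M hM (gp_anti hBB hG))
    (fun t ht => (h2 (D / (vec t).1) (hcodd t ht)).2 t (hoddA t ht))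
  refine ⟨B, fun M hM hG => ?_⟩
  have k1 := UC.tendsto_list Ts (fun t (s : ℕ) => 4 * ((π : ℂ) / 2 ^ s) ^ 2 *
        TL (2 ^ s) (fun v => chi s M (((D / (vec t).1 : ℤ) : ZMod (2 ^ s)) * v)) t)
    (fun t => ((Ph (D / (vec t).1) M t : ℚ) : ℂ))
    (fun t ht => hB t (List.mem_append_left _ ht) M hM hG)
  have k2 := UC.tendsto_list Ts' (fun t (s : ℕ) => 4 * ((π : ℂ) / 2 ^ s) ^ 2 *
        TL (2 ^ s) (fun v => chi s M (((D / (vec t).1 : ℤ) : ZMod (2 ^ s)) * v)) t)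
    (fun t => ((Ph (D / (vec t).1) M t : ℚ) : ℂ))
    (fun t ht => hB t (List.mem_append_right _ ht) M hM hG)
  have key : ∀ s : ℕ, 2 ≤ s →
      (Ts.map fun t => TL (2 ^ s)
        (fun v => chi s M (((D / (vec t).1 : ℤ) : ZMod (2 ^ s)) * v)) t).sum =
      (Ts'.map fun t => TL (2 ^ s)
        (fun v => chi s M (((D / (vec t).1 : ℤ) : ZMod (2 ^ s)) * v)) t).sum := by
    intro s hs
    obtain ⟨K, hK⟩ := h1 Ts Ts' h h' hlen hodd hrat hv s hs
    refine main_eq h4 hs hM (fun t => D / (vec t).1) Ts Ts' (K := K) fun κ hκ => ?_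
    have hy : IsUnit (κ * ((-D : ℤ) : ZMod (2 ^ s))) := hκ.mul (PHI.isUnit_odd s hD.neg)
    obtain ⟨ι, hι, hιy⟩ := PHI.exists_inv s (by omega) hy
    have hcop : IsCoprime ι (2 * ((2 ^ s : ℕ) : ℤ)) := by
      have e1 : (2 * ((2 ^ s : ℕ) : ℤ)) = 2 ^ (s + 1) := by
        push_cast
        ring
      rw [e1]
      exact IsCoprime.pow_right (Int.isCoprime_two_right.mpr hι)
    have hn1 : 1 < 2 ^ s := Nat.one_lt_two_pow (by omega)
    obtain ⟨hne, hsum⟩ := hK ι hι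
    have hval : ∀ t ∈ Ts ++ Ts', (Va (2 ^ s) ι t).2 / (Va (2 ^ s) ι t).1 =
        LU (2 ^ s) t (((D / (vec t).1 : ℤ) : ZMod (2 ^ s)) * κ) := by
      intro t ht
      have e1 : ((D / (vec t).1 : ℤ) : ZMod (2 ^ s)) * κ * (ι : ZMod (2 ^ s)) *
          ((-(vec t).1 : ℤ) : ZMod (2 ^ s)) = 1 := by
        rw [← hιy]
        have e2 := congrArg (fun z : ℤ => (z : ZMod (2 ^ s))) (hmul t ht)
        simp only [Int.cast_mul] at e2
        rw [Int.cast_neg, Int.cast_neg, ← e2]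
        ring
      rw [h3 (2 ^ s) ι hn1 hcop t _ e1, mul_div_cancel_left₀ _ (hne t ht)]
    rw [← hsum, List.map_congr_left fun t ht => (hval t (List.mem_append_left _ ht)).symm,
      List.map_congr_left (l := Ts') fun t ht => (hval t (List.mem_append_right _ ht)).symm]
  have k3 : (fun s : ℕ => (Ts.map fun t => 4 * ((π : ℂ) / 2 ^ s) ^ 2 *
        TL (2 ^ s) (fun v => chi s M (((D / (vec t).1 : ℤ) : ZMod (2 ^ s)) * v)) t).sum) =ᶠ[atTop]
      fun s : ℕ => (Ts'.map fun t => 4 * ((π : ℂ) / 2 ^ s) ^ 2 *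
        TL (2 ^ s) (fun v => chi s M (((D / (vec t).1 : ℤ) : ZMod (2 ^ s)) * v)) t).sum := by
    filter_upwards [eventually_ge_atTop 2] with s hs
    rw [List.sum_map_mul_left, List.sum_map_mul_left, key s hs]
  have k4 := tendsto_nhds_unique (k1.congr' k3) k2
  have k5 : ∀ X : List Tr, (X.map fun t => ((Ph (D / (vec t).1) M t : ℚ) : ℂ)).sum =
      (((X.map fun t => Ph (D / (vec t).1) M t).sum : ℚ) : ℂ) := by
    intro X
    induction X with
    | nil => simp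
    | cons t X ih =>
      simp only [List.map_cons, List.sum_cons]
      rw [ih]
      push_cast
      rfl
  rw [k5, k5] at k4
  exact_mod_cast k4

end Pool.Agent.TW
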