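import Pool.Agent.TW.StA
import Pool.Agent.TV.Muk

/-!
Theorem W (MP_31fd3b_gt), module MUKS: the classes of `K` with integral coefficients.
-/

open scoped BigOperators

namespace Pool.Agent.TW

open Pool.Agent.LibH11.Sliced Pool.Agent.MTR Pool.Agent.MTA Pool.Agent.UA Pool.Agent.UB
open Pool.Agent.TwoBr Pool.Agent.Mont Pool.Agent.TV
open Pool.Agent.TB hiding vec

namespace Muksp

open Pool.Agent.TV.Mukp (pts al_eq iz iz_pos iz_neg cqn_other cqn_same cqn_period)

/-- the entries of the list -/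
abbrev Ent : Type := ℤ × ℤ × ℚ × ℚ × ℚ

/-- all points of the class of `K` with their coefficients -/
def LK (D K : ℤ) (X : List Ent) : List (ℤ × ℚ) :=
  X.flatMap fun x => if x.2.1 = K then
    (pts ((D : ℚ) / x.2.1) x.2.2.1 x.2.2.2.1 x.2.2.2.2).map fun e => (x.1 * e.1, e.2) else []

/-- the sum over the class of `K` -/
noncomputable def SK (D K : ℤ) (X : List Ent) (φ : ℚ → ℂ) : ℂ :=
  (X.map fun x => if x.2.1 = K then
    (x.1 : ℂ) * al φ ((D : ℚ) / x.2.1) x.2.2.1 x.2.2.2.1 x.2.2.2.2 else 0).sum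

theorem SK_eq (D K : ℤ) (X : List Ent) (φ : ℚ → ℂ) :
    SK D K X φ = ((LK D K X).map fun e => (e.1 : ℂ) * φ e.2).sum := by
  unfold LK SK
  induction X with
  | nil => simp
  | cons x X ih =>
    rw [List.map_cons, List.sum_cons, ih, List.flatMap_cons, List.map_append, List.sum_append]
    congr 1
    split_ifs with h
    · rw [al_eq, ← List.sum_map_mul_left, List.map_map]
      congr 1
      apply List.map_congr_left
      intro e _
      simp only [Function.comp]
      push_cast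
      ring
    · simp

/-- grouping by the values of `K` -/
theorem group (X : List Ent) (f : Ent → ℂ) (T : Finset ℤ)
    (hT : ∀ x ∈ X, x.2.1 ∈ T) :
    (X.map f).sum = ∑ k ∈ T, (X.map fun x => if x.2.1 = k then f x else 0).sum := by
  induction X with
  | nil => simp
  | cons x X ih =>
    simp only [List.map_cons, List.sum_cons, Finset.sum_add_distrib]
    rw [ih fun y hy => hT y (List.mem_cons_of_mem _ hy)]
    congr 1
    rw [Finset.sum_ite_eq, if_pos (hT x List.mem_cons_self)]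

theorem single (X : List Ent) (f : Ent → ℂ) (K : ℤ)
    (h : ∀ k : ℤ, k ≠ K → (X.map fun x => if x.2.1 = k then f x else 0).sum = 0) :
    (X.map f).sum = (X.map fun x => if x.2.1 = K then f x else 0).sum := by
  rw [group X f (insert K (X.map fun x => x.2.1).toFinset) (by
    intro x hx
    apply Finset.mem_insert_of_mem
    rw [List.mem_toFinset]
    exact List.mem_map_of_mem (f := fun x : Ent => x.2.1) hx)]
  exact Finset.sum_eq_single_of_mem K (Finset.mem_insert_self _ _) fun k _ hk => h k hk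

/-- the hypothesis on the list -/
def Hyp (D : ℤ) (X : List Ent) : Prop :=
  ∀ x ∈ X, x.2.1 ≠ 0 ∧ x.2.2.1 + x.2.2.2.1 + x.2.2.2.2 = (D : ℚ) / x.2.1 ∧
    ∀ b ∈ [x.2.2.1, x.2.2.2.1, x.2.2.2.2],
      (∃ n : ℤ, (x.2.1 : ℚ) * b = n) ∧ ∃ n : ℤ, b * (D - x.2.1 * b) = n

/-- The points of the class are `K`-integral. -/
theorem LK_int {D K : ℤ} {X : List Ent} (hX : Hyp D X) :
    ∀ e ∈ LK D K X, (∃ n : ℤ, (K : ℚ) * e.2 = n) ∧ ∃ n : ℤ, e.2 * (D - K * e.2) = n := by
  intro e he
  unfold LK at he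
  rw [List.mem_flatMap] at he
  obtain ⟨x, hx, he⟩ := he
  split_ifs at he with hK
  swap
  · simp at he
  rw [List.mem_map] at he
  obtain ⟨e', he, rfl⟩ := he
  obtain ⟨h0, h1, h2⟩ := hX x hx
  rw [hK] at h0 h1 h2 he
  have hKq : (K : ℚ) ≠ 0 := by exact_mod_cast h0
  have hσ : (K : ℚ) * ((D : ℚ) / K) = D := by field_simp
  have hb : ∀ b ∈ [x.2.2.1, x.2.2.2.1, x.2.2.2.2],
      (∃ n : ℤ, (K : ℚ) * ((D : ℚ) / K - b) = n) ∧
        ∃ n : ℤ, ((D : ℚ) / K - b) * (D - K * ((D : ℚ) / K - b)) = n := by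
    intro b hb
    obtain ⟨⟨n, hn⟩, m, hm⟩ := h2 b hb
    refine ⟨⟨D - n, ?_⟩, m, ?_⟩
    · rw [mul_sub, hσ, hn]; push_cast; rfl
    · rw [← hm]
      have e1 : ((D : ℚ) / K - b) * (D - K * ((D : ℚ) / K - b)) =
          (D - K * ((D : ℚ) / K)) * ((D : ℚ) / K - b) + b * (K * ((D : ℚ) / K) - K * b) := by ring
      rw [e1, hσ]
      ring
  simp only [pts, List.mem_cons, List.not_mem_nil, or_false] at he
  rcases he with rfl | rfl | rfl | rfl | rfl | rfl | rfl | rfl
  · exact ⟨⟨0, by simp⟩, 0, by simp⟩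
  · refine ⟨⟨D, hσ⟩, 0, ?_⟩
    show (D : ℚ) / K * (D - K * ((D : ℚ) / K)) = _
    rw [hσ]; simp
  · exact h2 _ (by simp)
  · exact h2 _ (by simp)
  · exact h2 _ (by simp)
  · exact hb _ (by simp)
  · exact hb _ (by simp)
  · exact hb _ (by simp)

theorem SK_congr {D K : ℤ} {X : List Ent} {φ ψ : ℚ → ℂ}
    (h : ∀ e ∈ LK D K X, φ e.2 = ψ e.2) : SK D K X φ = SK D K X ψ := by
  rw [SK_eq, SK_eq]
  congr 1
  apply List.map_congr_left
  intro e he
  rw [h e he]

theorem SK_zero {D K : ℤ} {X : List Ent} {φ : ℚ → ℂ}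
    (h : ∀ β, φ β = 0) : SK D K X φ = 0 := by
  rw [SK_eq]
  apply List.sum_eq_zero
  intro y hy
  rw [List.mem_map] at hy
  obtain ⟨e, -, rfl⟩ := hy
  rw [h, mul_zero]

theorem SK_mul {D K : ℤ} {X : List Ent} {φ : ℚ → ℂ} (c : ℂ) :
    SK D K X (fun β => c * φ β) = c * SK D K X φ := by
  rw [SK_eq, SK_eq, ← List.sum_map_mul_left]
  congr 1
  apply List.map_congr_left
  intro e _
  ring

/-- Part (a). -/
theorem partA {D K : ℤ} {X : List Ent} (hD : D ≠ 0) (hX : Hyp D X) (hK : K ≠ 0)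
    (hh : ∀ (g : ℤ) (z : ℚ), Odd g → z ≠ 0 →
      (X.map fun x => (x.1 : ℂ) * al (fun β => (cqn x.2.1 ((D : ℚ) / x.2.1) β g z : ℂ))
        ((D : ℚ) / x.2.1) x.2.2.1 x.2.2.2.1 x.2.2.2.2).sum = 0)
    (ih : ∀ k : ℤ, K.natAbs < k.natAbs → ∀ φ : ℚ → ℂ, (∀ (β : ℚ) (n : ℤ), φ (β + n) = φ β) →
      SK D k X φ = 0)
    {y0 : ℕ} (hy : y0 = 1 ∨ y0 = 2 ∧ Odd K) {u : ℚ} {g : ℤ} (hg : Odd g)
    (hgu : (g : ℚ) = K * u * ((D : ℚ) / K * y0 - u)) :
    SK D K X (fun β => iz (β * y0 - u)) = 0 := by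
  have hg0 : g ≠ 0 := by rintro rfl; simp at hg
  have hgq : (g : ℚ) ≠ 0 := by exact_mod_cast hg0
  have hy0 : y0 ≠ 0 := by omega
  have hgv : (g : ℚ) = -(K * u * (u - (D : ℚ) / K * y0)) := by rw [hgu]; ring
  have hu0 : u ≠ 0 := by
    intro h; rw [h, mul_zero, zero_mul, neg_zero] at hgv; exact hgq hgv
  have hv0 : u - (D : ℚ) / K * y0 ≠ 0 := by
    intro h; rw [h, mul_zero, neg_zero] at hgv; exact hgq hgv
  have h1 := hh g (u / (u - (D : ℚ) / K * y0)) hg (div_ne_zero hu0 hv0)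
  rw [single X _ K] at h1
  · have h2 : SK D K X (fun β => 2 * iz (β * y0 - u)) = 0 := by
      rw [← h1]
      unfold SK
      congr 1
      apply List.map_congr_left
      intro x _
      split_ifs with hx
      · rw [hx]
        congr 2
        funext β
        exact (cqn_same hD hK hg0 hgu hy0).symm
      · rfl
    rw [SK_mul] at h2
    exact (mul_eq_zero.1 h2).resolve_left (by norm_num)
  · intro k hk
    have h3 : (X.map fun x => if x.2.1 = k then
        (x.1 : ℂ) * al (fun β => (cqn x.2.1 ((D : ℚ) / x.2.1) β g (u / (u - (D : ℚ) / K * y0)) : ℂ))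
          ((D : ℚ) / x.2.1) x.2.2.1 x.2.2.2.1 x.2.2.2.2 else 0).sum =
        SK D k X (fun β => (cqn k ((D : ℚ) / k) β g (u / (u - (D : ℚ) / K * y0)) : ℂ)) := by
      unfold SK
      congr 1
      apply List.map_congr_left
      intro x _
      split_ifs with hx
      · rw [hx]
      · rfl
    rw [h3]
    rcases lt_or_ge K.natAbs k.natAbs with hlt | hle
    · apply ih k hlt
      intro β n
      rw [cqn_period]
    · rcases eq_or_ne k 0 with rfl | hk0
      · unfold SK
        apply List.sum_eq_zero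
        intro y hy'
        rw [List.mem_map] at hy'
        obtain ⟨x, hx, rfl⟩ := hy'
        rw [if_neg (hX x hx).1]
      · apply SK_zero
        intro β
        rw [cqn_other hD hK hk0 hg0 hgu hy hk hle]
        simp

/-- Part (b). -/
theorem partB {D K : ℤ} {X : List Ent} (hD : Odd D) (hX : Hyp D X) (hK : K ≠ 0)
    (hh : ∀ (g : ℤ) (z : ℚ), Odd g → z ≠ 0 →
      (X.map fun x => (x.1 : ℂ) * al (fun β => (cqn x.2.1 ((D : ℚ) / x.2.1) β g z : ℂ))
        ((D : ℚ) / x.2.1) x.2.2.1 x.2.2.2.1 x.2.2.2.2).sum = 0)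
    (ih : ∀ k : ℤ, K.natAbs < k.natAbs → ∀ φ : ℚ → ℂ, (∀ (β : ℚ) (n : ℤ), φ (β + n) = φ β) →
      SK D k X φ = 0)
    {b : ℚ} {B C : ℤ} (hB : (K : ℚ) * b = B) (hC : b * (D - K * b) = C) :
    SK D K X (fun β => iz (β - b)) = 0 := by
  have hD0 : D ≠ 0 := by rintro rfl; simp at hD
  have hKq : (K : ℚ) ≠ 0 := by exact_mod_cast hK
  have hσ : (K : ℚ) * ((D : ℚ) / K) = D := by field_simp
  rcases Int.even_or_odd K with hKe | hKo
  · -- `K` even
    obtain ⟨m, hm⟩ : ∃ m : ℤ, Odd (C + m * (D - 2 * B) - K * m ^ 2) := by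
      rcases Int.even_or_odd C with hc | hc
      · refine ⟨1, ?_⟩
        have h1 : C + 1 * (D - 2 * B) - K * 1 ^ 2 = D + (C - 2 * B - K) := by ring
        rw [h1]
        apply hD.add_even
        exact (hc.sub (even_two_mul B)).sub hKe
      · exact ⟨0, by simpa using hc⟩
    have h2 := partA (y0 := 1) (u := b + m) hD0 hX hK hh ih (Or.inl rfl) hm (by
      push_cast
      have e1 : (K : ℚ) * (b + m) * ((D : ℚ) / K * 1 - (b + m)) =
          K * ((D : ℚ) / K) * (b + m) - (K * b) * (b + m) - K * b * m - K * m ^ 2 := by ring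
      rw [e1, hσ, ← hC, ← hB]
      ring)
    rw [← h2]
    apply SK_congr
    intro e _
    push_cast
    by_cases h : ∃ n : ℤ, e.2 - b = n
    · rw [iz_pos h]
      obtain ⟨n, hn⟩ := h
      rw [iz_pos ⟨n - m, by push_cast; rw [← hn]; ring⟩]
    · rw [iz_neg h, iz_neg]
      rintro ⟨n, hn⟩
      exact h ⟨n + m, by push_cast; rw [← hn]; ring⟩
  · -- `K` odd
    have hm : Odd (4 * C + 2 * (D - B) - 2 * B - K) := by
      have h1 : 4 * C + 2 * (D - B) - 2 * B - K = 2 * (2 * C + (D - B) - B) - K := by ring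
      rw [h1]
      exact (even_two_mul _).sub_odd hKo
    have h2 := partA (y0 := 2) (u := 2 * b + 1) hD0 hX hK hh ih (Or.inr ⟨rfl, hKo⟩) hm (by
      push_cast
      have e1 : (K : ℚ) * (2 * b + 1) * ((D : ℚ) / K * 2 - (2 * b + 1)) =
          K * ((D : ℚ) / K) * (2 * (2 * b + 1)) - K * (2 * b + 1) ^ 2 := by ring
      rw [e1, hσ, ← hC, ← hB]
      ring)
    rw [← h2]
    apply SK_congr
    intro e he
    push_cast
    by_cases h : ∃ n : ℤ, e.2 - b = n
    · rw [iz_pos h]
      obtain ⟨n, hn⟩ := h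
      rw [iz_pos ⟨2 * n - 1, by push_cast; rw [← hn]; ring⟩]
    · rw [iz_neg h, iz_neg]
      rintro ⟨n, hn⟩
      apply h
      obtain ⟨⟨E, hE⟩, -⟩ := LK_int hX e he
      obtain ⟨k, hk⟩ := hKo
      have h3 : 2 * (e.2 - b) = ((n + 1 : ℤ) : ℚ) := by push_cast; linarith
      have h4 : (K : ℚ) * (e.2 - b) = ((E - B : ℤ) : ℚ) := by
        push_cast; rw [mul_sub, hE, hB]
      refine ⟨(E - B) - k * (n + 1), ?_⟩
      have hkq : (K : ℚ) = 2 * k + 1 := by rw [hk]; push_cast; ring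
      push_cast
      push_cast at h3 h4
      rw [← h4, ← h3, hkq]
      ring

end Muksp

open Muksp in
open Pool.Agent.TV.Mukp (iz iz_pos iz_neg) in
theorem t_MUKS (h1 : FIB_Stmt) : MUKS_Stmt := by
  intro D hD X hX hh
  have hX' : Hyp D X := hX
  obtain ⟨Bd, hBd⟩ : ∃ Bd : ℕ, ∀ x ∈ X, x.2.1.natAbs ≤ Bd :=
    ⟨X.toFinset.sup (fun x => x.2.1.natAbs), fun x hx =>
      Finset.le_sup (f := fun x : Ent => x.2.1.natAbs) (List.mem_toFinset.2 hx)⟩
  have main : ∀ (N : ℕ) (K : ℤ), Bd + 1 - K.natAbs = N → ∀ φ : ℚ → ℂ,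
      (∀ (β : ℚ) (n : ℤ), φ (β + n) = φ β) → SK D K X φ = 0 := by
    intro N
    induction N using Nat.strong_induction_on with
    | _ N IH =>
      intro K hN φ hφ
      by_cases hK : ∃ x ∈ X, x.2.1 = K
      · obtain ⟨x0, hx0, hx0K⟩ := hK
        have hK0 : K ≠ 0 := by rw [← hx0K]; exact (hX x0 hx0).1
        have hKB : K.natAbs ≤ Bd := by rw [← hx0K]; exact hBd x0 hx0
        have ih : ∀ k : ℤ, K.natAbs < k.natAbs → ∀ φ : ℚ → ℂ,
            (∀ (β : ℚ) (n : ℤ), φ (β + n) = φ β) → SK D k X φ = 0 := fun k hk φ hφ =>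
          IH (Bd + 1 - k.natAbs) (by omega) k rfl φ hφ
        have hfib := h1 ℚ ((LK D K X).map fun e => (e.1, Int.fract e.2)) (by
          intro a
          rw [List.map_map]
          by_cases ha : ∃ e ∈ LK D K X, Int.fract e.2 = a
          · obtain ⟨e0, he0, rfl⟩ := ha
            obtain ⟨⟨B, hB⟩, C, hC⟩ := LK_int hX' e0 he0
            have h2 := partB hD hX' hK0 hh ih hB hC
            rw [SK_eq] at h2
            have h3 : (((((LK D K X).map ((fun e : ℤ × ℚ => if e.2 = Int.fract e0.2 then e.1 else 0) ∘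
                fun e => (e.1, Int.fract e.2))).sum : ℤ)) : ℂ) =
                ((LK D K X).map fun e => (e.1 : ℂ) * iz (e.2 - e0.2)).sum := by
              rw [Int.cast_list_sum, List.map_map]
              congr 1
              apply List.map_congr_left
              intro e _
              simp only [Function.comp]
              by_cases h : Int.fract e.2 = Int.fract e0.2
              · rw [if_pos h, iz_pos (Int.fract_eq_fract.1 h), mul_one]
              · rw [if_neg h, iz_neg (fun hh => h (Int.fract_eq_fract.2 hh)), mul_zero,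
                  Int.cast_zero]
            rw [h2] at h3
            exact_mod_cast h3
          · apply List.sum_eq_zero
            intro y hy
            rw [List.mem_map] at hy
            obtain ⟨e, he, rfl⟩ := hy
            simp only [Function.comp]
            rw [if_neg (fun h => ha ⟨e, he, h⟩)]) φ
        rw [SK_eq, ← hfib, List.map_map]
        congr 1
        apply List.map_congr_left
        intro e _
        simp only [Function.comp]
        have h4 : φ e.2 = φ (Int.fract e.2) := by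
          conv_lhs => rw [← Int.fract_add_floor e.2]
          exact hφ _ _
        rw [h4]
      · unfold SK
        apply List.sum_eq_zero
        intro y hy
        rw [List.mem_map] at hy
        obtain ⟨x, hx, rfl⟩ := hy
        rw [if_neg (fun h => hK ⟨x, hx, h⟩)]
  intro K φ hφ
  exact main _ K rfl φ hφ

end Pool.Agent.TW
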