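import Pool.Agent.TW.StA
import Pool.Agent.TV.Vts
import Pool.Agent.TV.Pln

/-!
Theorem W (MP_31fd3b_gt), module NLE: the value of the combination of a tree for a symmetric
function.
-/

set_option autoImplicit false

open scoped BigOperators

namespace Pool.Agent.TW

open Pool.Agent.LibH11.Sliced Pool.Agent.MTR Pool.Agent.MTA Pool.Agent.UA Pool.Agent.UB
open Pool.Agent.TwoBr Pool.Agent.Mont Pool.Agent.TV
open Pool.Agent.TB hiding vec

namespace Nle

theorem dt_mk (a b c d : ℤ) : dt (a, b) (c, d) = a * d + c * b := rfl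

theorem addv_mk (a b c d : ℤ) : addv (a, b) (c, d) = (a * d + c * b, b * d) := rfl

theorem rv_mk (a b : ℤ) : rv (a, b) = (-b, a) := rfl

theorem addv_comm (P V : ℤ × ℤ) : addv P V = addv V P := by
  obtain ⟨a, b⟩ := P
  obtain ⟨c, d⟩ := V
  rw [addv_mk, addv_mk]
  ext
  · show a * d + c * b = c * b + a * d
    ring
  · show b * d = d * b
    ring

theorem zero_addv (V : ℤ × ℤ) : addv (0, 1) V = V := by
  obtain ⟨c, d⟩ := V
  rw [addv_mk]
  ext
  · show 0 * d + c * 1 = c
    ring
  · show 1 * d = d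
    ring

section

variable {D : ℤ} {F : ℤ × ℤ → ℤ × ℤ → ℂ}

theorem evF_append (l l' : Cb) : evF F (l ++ l') = evF F l + evF F l' := by
  simp [evF]

theorem evF_cons (e : ℤ × (ℤ × ℤ) × (ℤ × ℤ)) (l : Cb) :
    evF F (e :: l) = (e.1 : ℂ) * F e.2.1 e.2.2 + evF F l := by
  simp [evF]

theorem evF_nil : evF F [] = 0 := by
  simp [evF]

/-- the value of the combination of a vertex -/
theorem evF_nv_ne (U V W : ℤ × ℤ) (h : (tot (U, V, W)).2 ≠ 0) :
    evF F (nv (U, V, W)) = -F (tot (U, V, W)) (0, 1) + F (addv V W) U + F (addv U W) V +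
      F (addv U V) W := by
  unfold nv
  rw [if_neg h]
  simp only [prs, List.map_cons, List.map_nil, evF_cons, evF_nil]
  push_cast
  ring

theorem evF_nv_eq (U V W : ℤ × ℤ) (h : (tot (U, V, W)).2 = 0) :
    evF F (nv (U, V, W)) = -2 * F (tot (U, V, W)) (0, 1) +
      (if U.2 = 0 then 0 else 2) * F (addv V W) U + (if V.2 = 0 then 0 else 2) * F (addv U W) V +
      (if W.2 = 0 then 0 else 2) * F (addv U V) W := by
  unfold nv
  rw [if_pos h]
  simp only [prs, List.map_cons, List.map_nil, evF_cons, evF_nil]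
  push_cast
  ring

/-- the two equations for a vector `(k, 1)` -/
theorem eqs (hF : Sym D F) (U W : ℤ × ℤ) (k : ℤ) (hd : dt (addv U W) (k, 1) ∣ D) :
    F (addv (addv U W) (k, 1)) (0, 1) = F (addv U W) (k, 1) ∧
      F (addv W (k, 1)) U = F (addv U (k, 1)) W := by
  obtain ⟨a, b⟩ := U
  obtain ⟨c, d⟩ := W
  rw [addv_mk, dt_mk] at hd
  constructor
  · have h := hF.shift (addv (a, b) (c, d)) (0, 1) k (by
      rw [addv_mk, addv_mk, dt_mk]
      convert hd using 1
      ring)
    rw [h, zero_addv]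
  · have h := hF.shift (c, d) (a, b) k (by
      rw [addv_mk, dt_mk]
      convert hd using 1
      ring)
    rw [h]
    refine hF.swap _ _ ?_
    rw [addv_mk, dt_mk]
    convert hd using 1
    ring

theorem vx3 (hD : D ≠ 0) (hF : Sym D F) (U W : ℤ × ℤ) (k : ℤ)
    (hd : (tot (U, W, (k, 1))).1 ∣ D) :
    evF F (nv (U, W, (k, 1))) = 2 * F (addv U (k, 1)) W := by
  have hd' : dt (addv U W) (k, 1) ∣ D := hd
  obtain ⟨e1, e2⟩ := eqs hF U W k hd'
  have e3 : tot (U, W, (k, 1)) = addv (addv U W) (k, 1) := rfl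
  by_cases h : (tot (U, W, (k, 1))).2 = 0
  · rw [evF_nv_eq _ _ _ h, e3, e1, e2]
    have h0 : (tot (U, W, (k, 1))).1 ≠ 0 := fun h0 => hD (by
      rw [h0] at hd
      exact zero_dvd_iff.1 hd)
    obtain ⟨a, b⟩ := U
    obtain ⟨c, d⟩ := W
    have h1 : b * d * 1 = 0 := h
    have h2 : (a * d + c * b) * 1 + k * (b * d) ≠ 0 := h0
    have h3 : b * d = 0 := by linarith
    rw [h3] at h2
    have h4 : a * d + c * b ≠ 0 := by
      intro h5
      apply h2
      rw [h5]
      ring
    show -2 * F (addv (a, b) (c, d)) (k, 1) + (if b = 0 then 0 else 2) * F _ _ +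
      (if d = 0 then 0 else 2) * F _ _ + (if (1 : ℤ) = 0 then 0 else 2) * F _ _ = _
    rw [if_neg one_ne_zero]
    rcases mul_eq_zero.1 h3 with hb | hb
    · have hdn : d ≠ 0 := by
        intro hdz
        apply h4
        rw [hb, hdz]
        ring
      rw [if_pos hb, if_neg hdn]
      ring
    · have hdn : b ≠ 0 := by
        intro hdz
        apply h4
        rw [hb, hdz]
        ring
      rw [if_neg hdn, if_pos hb]
      ring
  · rw [evF_nv_ne _ _ _ h, e3, e1, e2]
    ring

/-- the first vector is `(0, 1)` -/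
theorem vx1 (hD : D ≠ 0) (hF : Sym D F) (U W : ℤ × ℤ) (hd : dt U W ∣ D) :
    evF F (nv ((0, 1), U, W)) = 2 * F U W := by
  have e3 : tot ((0, 1), U, W) = addv U W := by
    show addv (addv (0, 1) U) W = _
    rw [zero_addv]
  have e4 : F (addv U W) (0, 1) = F (addv U W) (0, 1) := rfl
  have e5 : F W U = F U W := hF.swap U W hd
  have hn : dt U W ≠ 0 := fun h0 => hD (by
    rw [h0] at hd
    exact zero_dvd_iff.1 hd)
  by_cases h : (tot ((0, 1), U, W)).2 = 0
  · rw [evF_nv_eq _ _ _ h, e3, zero_addv, zero_addv, e5]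
    obtain ⟨a, b⟩ := U
    obtain ⟨c, d⟩ := W
    rw [e3] at h
    have h1 : b * d = 0 := h
    rw [dt_mk] at hn
    show -2 * F (addv (a, b) (c, d)) (0, 1) + (if (1 : ℤ) = 0 then 0 else 2) * F _ _ +
      (if b = 0 then 0 else 2) * F _ _ + (if d = 0 then 0 else 2) * F _ _ = _
    rw [if_neg one_ne_zero]
    rcases mul_eq_zero.1 h1 with hb | hb
    · have hdn : d ≠ 0 := by
        intro hdz
        apply hn
        rw [hb, hdz]
        ring
      rw [if_pos hb, if_neg hdn]
      ring
    · have hdn : b ≠ 0 := by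
        intro hdz
        apply hn
        rw [hb, hdz]
        ring
      rw [if_neg hdn, if_pos hb]
      ring
  · rw [evF_nv_ne _ _ _ h, e3, zero_addv, zero_addv, e5]
    ring

theorem NL_cons (L : ℤ × ℤ) (a b : Tr) :
    evF F (NL L (.cons a b)) = evF F (nv (L, rv (vec a), vec b)) -
      2 * F (addv L (vec b)) (rv (vec a)) - 2 * F (addv L (rv (vec a))) (vec b) +
      evF F (NL (rv (addv L (vec b))) a) + evF F (NL (addv L (rv (vec a))) b) := by
  rw [NL, evF_append, evF_cons, evF_cons, evF_append]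
  push_cast
  ring

theorem NL_pw (L : ℤ × ℤ) (e : ℤ) : evF F (NL L (.pw e)) = 2 * F L (-e, 1) := by
  rw [NL, evF_cons, evF_nil]
  push_cast
  ring

/-- rational trees -/
theorem rat (hD : D ≠ 0) (hF : Sym D F) (T : Tr) : T.Rat → ∀ L : ℤ × ℤ, dt L (vec T) ∣ D →
    evF F (NL L T) = 2 * F L (vec T) := by
  induction T with
  | pw e =>
    intro _ L _
    exact NL_pw L e
  | cons a b iha ihb =>
    intro hr L hd
    obtain ⟨ha, hb⟩ := hr
    cases b with
    | cons c d => simp [Tr.kids] at hb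
    | pw e =>
      have h1 : (tot (L, rv (vec a), (-e, 1))).1 ∣ D := by
        have h := Vts.det_v L a (.pw e)
        have h' : (tot (L, rv (vec a), (-e, 1))).1 = dt L (vec (.cons a (.pw e))) := h
        rw [h']
        exact hd
      have h2 : dt (rv (addv L (vec (.pw e)))) (vec a) ∣ D := by
        rw [Vts.det_a]
        exact hd
      have h3 : dt (addv L (vec (.pw e))) (rv (vec a)) ∣ D := by
        rw [Vts.det_c]
        exact hd
      have e1 := vx3 hD hF L (rv (vec a)) (-e) h1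
      have e2 := iha ha _ h2
      have e3 := hF.rot (addv L (vec (.pw e))) (vec a) h3
      have e4 := hF.shift L (rv (vec a)) (-e) hd
      rw [NL_cons, e2, NL_pw, e3]
      have e5 : vec (.pw e) = (-e, 1) := rfl
      have e6 : vec (.cons a (.pw e)) = addv (rv (vec a)) (-e, 1) := rfl
      rw [e5, e6, e1, ← e4]
      ring

/-- the closure of a tree -/
theorem top (hD : D ≠ 0) (hF : Sym D F) (x y : Tr) (hd : (vec (.cons x y)).1 ∣ D) :
    evF F (NL (0, 1) (.cons x y)) = -2 * F (rv (vec x)) (vec y) + evF F (NL (rv (vec y)) x) +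
      evF F (NL (rv (vec x)) y) := by
  have h1 : dt (rv (vec x)) (vec y) ∣ D := hd
  rw [NL_cons, zero_addv, zero_addv, vx1 hD hF _ _ h1, hF.swap _ _ h1]
  ring

theorem rot' (hF : Sym D F) (x y : Tr) (hd : (vec (.cons x y)).1 ∣ D) :
    F (rv (vec y)) (vec x) = F (rv (vec x)) (vec y) := by
  have h1 : dt (rv (vec x)) (vec y) ∣ D := hd
  have h2 : dt (vec y) (rv (vec x)) ∣ D := by
    rw [LPln.dt_comm]
    exact h1
  rw [hF.rot _ _ h2, hF.swap _ _ h1]

theorem det_top (x y : Tr) : dt (rv (vec y)) (vec x) = (vec (.cons x y)).1 := by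
  simp only [dt, addv, rv, vec]
  ring

/-- the nontrivial vertex -/
theorem q3 (hD : D ≠ 0) (hF : Sym D F) {y x a b c : Tr} {e : ℤ} (h : Q3 y x a b c e) :
    a.Rat → b.Rat → dt (rv (vec y)) (vec x) ∣ D →
      evF F (NL (rv (vec y)) x) = evF F (nv (v0 a b c e)) := by
  induction h with
  | base y a b e =>
    intro ha hb hd
    have hB : (Tr.cons b (.pw e)).Rat := ⟨hb, rfl⟩
    have h2 : dt (rv (addv (rv (vec y)) (vec (.cons b (.pw e))))) (vec a) ∣ D := by
      rw [Vts.det_a]
      exact hd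
    have h3 : dt (addv (rv (vec y)) (vec (.cons b (.pw e)))) (rv (vec a)) ∣ D := by
      rw [Vts.det_c]
      exact hd
    have h4 : dt (addv (rv (vec y)) (rv (vec a))) (vec (.cons b (.pw e))) ∣ D := by
      rw [Vts.det_b]
      exact hd
    rw [NL_cons, rat hD hF a ha _ h2, rat hD hF _ hB _ h4, hF.rot _ _ h3]
    show _ = evF F (nv (rv (vec y), rv (vec a), vec (.cons b (.pw e))))
    ring
  | step y x d a b c e _ ih =>
    intro ha hb hd
    have h1 : (tot (rv (vec y), rv (vec x), (-d, 1))).1 ∣ D := by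
      have h := Vts.det_v (rv (vec y)) x (.pw d)
      have h' : (tot (rv (vec y), rv (vec x), (-d, 1))).1 =
        dt (rv (vec y)) (vec (.cons x (.pw d))) := h
      rw [h']
      exact hd
    have h2 : dt (rv (addv (rv (vec y)) (vec (.pw d)))) (vec x) ∣ D := by
      rw [Vts.det_a]
      exact hd
    have e1 := vx3 hD hF (rv (vec y)) (rv (vec x)) (-d) h1
    have e2 := ih ha hb h2
    have e5 : vec (.pw d) = (-d, 1) := rfl
    have e6 : vec (.cons y (.pw d)) = addv (rv (vec y)) (-d, 1) := rfl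
    rw [e6] at e2
    rw [NL_cons, NL_pw, e5, e1, e2]
    ring

end

end Nle

theorem t_NLE (h1 : VTS_Stmt) : NLE_Stmt := by
  intro D hD F hF
  refine ⟨?_, ?_⟩
  · intro T hT hd
    cases T with
    | pw e =>
      exact Nle.NL_pw (0, 1) e
    | cons x y =>
      obtain ⟨hx, hy⟩ := hT
      have h2 : dt (rv (vec y)) (vec x) ∣ D := by
        rw [Nle.det_top]
        exact hd
      rw [Nle.top hD hF x y hd, Nle.rat hD hF x hx _ h2, Nle.rat hD hF y hy _ hd,
        Nle.rot' hF x y hd]
      show _ = 2 * F (rv (vec x)) (vec y)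
      ring
  · intro T a b c e hT hd
    obtain ⟨⟨ha, hb, hc⟩, -, x, y, rfl, h | h⟩ := hT
    · obtain ⟨hy, hq⟩ := h
      have h2 : dt (rv (vec y)) (vec x) ∣ D := by
        rw [Nle.det_top]
        exact hd
      rw [Nle.top hD hF x y hd, Nle.rat hD hF y hy _ hd, Nle.q3 hD hF hq ha hb h2]
      ring
    · obtain ⟨hx, hq⟩ := h
      have h2 : dt (rv (vec y)) (vec x) ∣ D := by
        rw [Nle.det_top]
        exact hd
      rw [Nle.top hD hF x y hd, Nle.rat hD hF x hx _ h2, Nle.q3 hD hF hq ha hb hd,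
        Nle.rot' hF x y hd]
      ring

end Pool.Agent.TW
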