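import Pool.Agent.TW.StA

/-!
Theorem W (MP_31fd3b_gt): the nontrivial vertices of the trees with `T2` and `T3`; the correction of
the tree `M3` is zero.
-/

open scoped BigOperators

namespace Pool.Agent.TW

open Pool.Agent.LibH11.Sliced Pool.Agent.MTR Pool.Agent.MTA Pool.Agent.UA Pool.Agent.UB
open Pool.Agent.TwoBr Pool.Agent.Mont Pool.Agent.TV
open Pool.Agent.TB hiding vec

namespace Nt3

theorem vec_pw (e : ℤ) : vec (.pw e) = (-e, 1) := rfl

theorem vec_cons_pw (c : Tr) (e : ℤ) :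
    vec (.cons c (.pw e)) = (-(vec c).2 - e * (vec c).1, (vec c).1) := by
  simp only [vec, addv, rv, Prod.mk.injEq]
  constructor <;> ring

theorem kids_zero {b : Tr} (h : b.kids = 0) : ∃ e, b = .pw e := by
  cases b with
  | pw e => exact ⟨e, rfl⟩
  | cons c d => simp [Tr.kids] at h

theorem addv_left (v : ℤ × ℤ) : addv (0, 1) v = v := by
  simp [addv]

theorem ntr_iff (p u w : ℤ × ℤ) :
    Ntr (p, u, w) ↔ p.2 * u.2 * w.2 ≠ 0 ∧ ¬ p.2 ∣ p.1 ∧ ¬ u.2 ∣ u.1 ∧ ¬ w.2 ∣ w.1 := by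
  have h : (tot (p, u, w)).2 = p.2 * u.2 * w.2 := rfl
  unfold Ntr
  rw [h]
  simp [prs]

theorem nts_nil : nts [] = [] := rfl

theorem nts_append (l l' : List Vx) : nts (l ++ l') = nts l ++ nts l' := by
  simp [nts]

theorem nts_cons_not {v : Vx} {l : List Vx} (h : ¬ Ntr v) : nts (v :: l) = nts l := by
  simp [nts, h]

theorem nts_cons {v : Vx} {l : List Vx} (h : Ntr v) : nts (v :: l) = v :: nts l := by
  simp [nts, h]

theorem vts_cons (L : ℤ × ℤ) (a b : Tr) : vts L (.cons a b) = (L, rv (vec a), vec b) ::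
    (vts (rv (addv L (vec b))) a ++ vts (addv L (rv (vec a))) b) := rfl

theorem not_ntr_pw (p u : ℤ × ℤ) (e : ℤ) : ¬ Ntr (p, u, vec (.pw e)) := by
  rw [ntr_iff, vec_pw]
  rintro ⟨-, -, -, h⟩
  exact h (one_dvd _)

theorem not_ntr_top (u w : ℤ × ℤ) : ¬ Ntr ((0, 1), u, w) := by
  rw [ntr_iff]
  rintro ⟨-, h, -, -⟩
  exact h (one_dvd _)

theorem nts_rat : ∀ T : Tr, T.Rat → ∀ L : ℤ × ℤ, nts (vts L T) = [] := by
  intro T
  induction T with
  | pw e => intro _ L; rfl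
  | cons a b iha _ =>
    rintro ⟨ha, hb⟩ L
    obtain ⟨e, rfl⟩ := kids_zero hb
    rw [vts_cons, nts_cons_not (not_ntr_pw _ _ e), nts_append, iha ha]
    rfl

theorem coprime_rat : ∀ T : Tr, T.Rat → IsCoprime (vec T).1 (vec T).2 := by
  intro T
  induction T with
  | pw e => intro _; exact isCoprime_one_right
  | cons a b iha _ =>
    rintro ⟨ha, hb⟩
    obtain ⟨e, rfl⟩ := kids_zero hb
    obtain ⟨u, v, huv⟩ := iha ha
    rw [vec_cons_pw]
    exact ⟨-v, u - v * e, by linear_combination huv⟩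

theorem not_dvd {x y : ℤ} (h : IsCoprime x y) (hx : 2 ≤ |x|) : ¬ x ∣ y := by
  intro hd
  have h1 := h.isUnit_of_dvd' dvd_rfl hd
  rw [Int.isUnit_iff] at h1
  rcases h1 with rfl | rfl <;> norm_num at hx

theorem ntr_v0 {a b c : Tr} (e : ℤ) (h : a.Rat ∧ b.Rat ∧ c.Rat)
    (h2 : 2 ≤ |(vec a).1| ∧ 2 ≤ |(vec b).1| ∧ 2 ≤ |(vec c).1|) : Ntr (v0 a b c e) := by
  obtain ⟨ha, hb, hc⟩ := h
  obtain ⟨wa, wb, wc⟩ := h2
  have na := not_dvd (coprime_rat a ha) wa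
  have nb := not_dvd (coprime_rat b hb) wb
  have nc := not_dvd (coprime_rat c hc) wc
  have ne : ∀ z : ℤ, 2 ≤ |z| → z ≠ 0 := by
    rintro z hz rfl
    norm_num at hz
  unfold v0
  rw [ntr_iff, vec_cons_pw]
  refine ⟨mul_ne_zero (mul_ne_zero (ne _ wc) (ne _ wa)) (ne _ wb), ?_, ?_, ?_⟩
  · show ¬ (vec c).1 ∣ -(vec c).2
    rw [dvd_neg]; exact nc
  · show ¬ (vec a).1 ∣ -(vec a).2
    rw [dvd_neg]; exact na
  · show ¬ (vec b).1 ∣ -(vec b).2 - e * (vec b).1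
    intro hd
    apply nb
    have h3 : (vec b).2 = -((-(vec b).2 - e * (vec b).1) + e * (vec b).1) := by ring
    rw [h3, dvd_neg]
    exact dvd_add hd (dvd_mul_left _ _)

theorem nts_Q3 {y x a b c : Tr} {e : ℤ} (hQ : Q3 y x a b c e) : y.Rat → (a.Rat ∧ b.Rat ∧ c.Rat) →
    (2 ≤ |(vec a).1| ∧ 2 ≤ |(vec b).1| ∧ 2 ≤ |(vec c).1|) →
    nts (vts (rv (vec y)) x) = [v0 a b c e] := by
  induction hQ with
  | base y a b e =>
    intro hy h1 h2
    have h3 : Ntr (rv (vec y), rv (vec a), vec (.cons b (.pw e))) := ntr_v0 e h1 h2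
    rw [vts_cons, nts_cons h3, nts_append, nts_rat a h1.1,
      nts_rat (.cons b (.pw e)) ⟨h1.2.1, rfl⟩]
    rfl
  | step y x d a b c e hQ ih =>
    intro hy h1 h2
    rw [vts_cons, nts_cons_not (not_ntr_pw _ _ d), nts_append]
    have h3 : rv (addv (rv (vec y)) (vec (.pw d))) = rv (vec (.cons y (.pw d))) := rfl
    rw [h3, ih ⟨hy, rfl⟩ h1 h2]
    rfl

theorem t_NT3' : NT3_Stmt := by
  constructor
  · intro T hT
    cases T with
    | pw e => rfl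
    | cons a b =>
      obtain ⟨ha, hb⟩ := hT
      rw [vts_cons, nts_cons_not (not_ntr_top _ _), nts_append, nts_rat a ha, nts_rat b hb]
      rfl
  · rintro T a b c e ⟨h1, h2, x, y, rfl, h3⟩
    have h4 : nts (vts (0, 1) (.cons x y)) = [v0 a b c e] := by
      rw [vts_cons, nts_cons_not (not_ntr_top _ _), nts_append, addv_left, addv_left]
      rcases h3 with ⟨hy, hQ⟩ | ⟨hx, hQ⟩
      · rw [nts_Q3 hQ hy h1 h2, nts_rat y hy]
        rfl
      · rw [nts_Q3 hQ hx h1 h2, nts_rat x hx]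
        rfl
    have h5 : v0 a b c e ∈ nts (vts (0, 1) (.cons x y)) := by
      rw [h4]; exact List.mem_singleton.2 rfl
    exact ⟨h4, (List.mem_filter.1 h5).1, ntr_v0 e h1 h2⟩

theorem dt_a (L : ℤ × ℤ) (a b : Tr) :
    dt (rv (addv L (vec b))) (vec a) = dt L (vec (.cons a b)) := by
  simp only [dt, vec, addv, rv]
  ring

theorem dt_b (L : ℤ × ℤ) (a b : Tr) :
    dt (addv L (rv (vec a))) (vec b) = dt L (vec (.cons a b)) := by
  simp only [dt, vec, addv, rv]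
  ring

theorem ne_of_dt {L V : ℤ × ℤ} (h : dt L V ≠ 0) : V ≠ 0 := by
  rintro rfl
  simp [dt, addv] at h

theorem ct_ne {v : ℤ × ℤ} (h : v ≠ 0) : ct' v ≠ 0 := by
  unfold ct'
  intro h1
  have h2 : Int.gcd v.1 v.2 = 0 := by exact_mod_cast h1
  rw [Int.gcd_eq_zero_iff] at h2
  exact h (Prod.ext h2.1 h2.2)

theorem ct_rv (v : ℤ × ℤ) : ct' (rv v) = ct' v := by
  unfold ct' rv
  simp only [Int.neg_gcd]
  rw [Int.gcd_comm]

theorem E2_zero {a : Tr} (h : vec a ≠ 0) : E2 (0, 1) a = 0 := by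
  have h1 : ct' ((0, 1) : ℤ × ℤ) = 1 := by
    simp [ct']
  unfold E2
  rw [addv_left, ct_rv, h1]
  have h2 := ct_ne h
  field_simp
  norm_num

theorem cr_cons (L : ℤ × ℤ) (a b : Tr) : cr L (.cons a b) =
    2 * E1 L b * Eg a / ((dt L (vec (.cons a b)) : ℤ) / ct' L) ^ 2 +
      2 * E2 L a * Eg b / ((dt L (vec (.cons a b)) : ℤ) / (ct' L * ct' (vec a))) ^ 2 +
      cr (rv (addv L (vec b))) a + cr (addv L (rv (vec a))) b := rfl

end Nt3

theorem t_NT3 (h1 : RU_Stmt) : NT3_Stmt := by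
  have _ := h1
  exact Nt3.t_NT3'

open Nt3 in
theorem t_M3C (h1 : CRN_Stmt) (h2 : VTS_Stmt) : M3C_Stmt := by
  have _ := h2
  intro a b c e ha hb hc hM
  set C : Tr := .cons c (.pw e) with hC
  set B : Tr := .cons b C with hB
  have hCR : C.Rat := ⟨hc, rfl⟩
  have hT : M3 a b c e = .cons a B := rfl
  have d0 : dt (0, 1) (vec (.cons a B)) ≠ 0 := by
    show (addv (0, 1) (vec (.cons a B))).1 ≠ 0
    rw [addv_left, ← hT]
    exact hM
  have d1 : dt (rv (addv (0, 1) (vec B))) (vec a) ≠ 0 := by rw [dt_a]; exact d0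
  have d2 : dt (addv (0, 1) (rv (vec a))) (vec B) ≠ 0 := by rw [dt_b]; exact d0
  have d3 : dt (rv (addv (addv (0, 1) (rv (vec a))) (vec C))) (vec b) ≠ 0 := by
    rw [dt_a]; exact d2
  have d4 : dt (addv (addv (0, 1) (rv (vec a))) (rv (vec b))) (vec C) ≠ 0 := by
    rw [dt_b]; exact d2
  have ga : Eg a = 0 := (h1.1 a (ne_of_dt d1)).2.1 ha
  have gb : Eg b = 0 := (h1.1 b (ne_of_dt d3)).2.1 hb
  have gC : Eg C = 0 := (h1.1 C (ne_of_dt d4)).2.1 hCR
  have e2 : E2 (0, 1) a = 0 := E2_zero (ne_of_dt d1)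
  have ca := (h1.2.2.1 a _ d1).2 ha
  have cb := (h1.2.2.1 b _ d3).2 hb
  have cC := (h1.2.2.1 C _ d4).2 hCR
  rw [hT, cr_cons, ga, e2, ca, hB, cr_cons, gb, gC, cb, cC]
  simp

end Pool.Agent.TW
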