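import Pool.Agent.TW.StA

/-!
Theorem W (MP_31fd3b_gt), module NVE: the value of the combination of a nontrivial vertex depends only on
the sum of the slopes and on the slopes modulo 1.
-/

open Filter Topology
open scoped BigOperators Real

namespace Pool.Agent.TW

open Pool.Agent.LibH11.Sliced Pool.Agent.MTR Pool.Agent.MTA Pool.Agent.UA Pool.Agent.UB
open Pool.Agent.TwoBr Pool.Agent.Mont Pool.Agent.TV
open Pool.Agent.TB hiding vec

namespace NVE

/-- the reduced vector of a slope -/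
def Nm (q : ℚ) : ℤ × ℤ := (q.num, (q.den : ℤ))

theorem dt_eq (P V : ℤ × ℤ) : dt P V = P.1 * V.2 + V.1 * P.2 := rfl

theorem addv_eq (P V : ℤ × ℤ) : addv P V = (P.1 * V.2 + V.1 * P.2, P.2 * V.2) := rfl

theorem Nm_zero : Nm 0 = (0, 1) := rfl

theorem Nm_add (q : ℚ) (k : ℤ) : Nm (q + k) = addv (Nm q) (k, 1) := by
  have hd : (q + k).den = q.den := Rat.add_intCast_den q k
  have hq : (q.den : ℚ) ≠ 0 := by exact_mod_cast q.den_ne_zero
  have h1 : ((q + k).num : ℚ) = (q + k) * (q.den : ℚ) := by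
    have h := Rat.num_div_den (q + k)
    rw [hd] at h
    calc ((q + k).num : ℚ) = (((q + k).num : ℚ) / q.den) * q.den := by field_simp
      _ = (q + k) * q.den := by rw [h]
  have h2 : (q.num : ℚ) = q * (q.den : ℚ) := by
    have h := Rat.num_div_den q
    calc (q.num : ℚ) = ((q.num : ℚ) / q.den) * q.den := by field_simp
      _ = q * q.den := by rw [h]
  have h3 : ((q + k).num : ℚ) = ((q.num + k * q.den : ℤ) : ℚ) := by
    rw [h1]
    push_cast
    rw [h2]
    ring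
  have h4 : (q + k).num = q.num + k * q.den := by exact_mod_cast h3
  unfold Nm
  rw [addv_eq, hd, h4]
  simp

theorem Nm_slp (V : ℤ × ℤ) (hV : V.2 ≠ 0) : ∃ m : ℤ, V = m • Nm (slp V) := by
  have hd : ((slp V).den : ℤ) ∣ V.2 := by
    have h := Rat.den_dvd V.1 V.2
    rw [Rat.divInt_eq_div] at h
    exact h
  obtain ⟨m, hm⟩ := hd
  refine ⟨m, ?_⟩
  have hV' : (V.2 : ℚ) ≠ 0 := by exact_mod_cast hV
  have hq : ((slp V).den : ℚ) ≠ 0 := by exact_mod_cast (slp V).den_ne_zero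
  have h1 : (V.1 : ℚ) = slp V * V.2 := by
    unfold slp
    field_simp
  have h2 : ((slp V).num : ℚ) = slp V * ((slp V).den : ℚ) := by
    have h := Rat.num_div_den (slp V)
    calc ((slp V).num : ℚ) = (((slp V).num : ℚ) / (slp V).den) * (slp V).den := by field_simp
      _ = slp V * (slp V).den := by rw [h]
  have h3 : (V.1 : ℚ) = ((m * (slp V).num : ℤ) : ℚ) := by
    push_cast
    rw [h1, h2]
    have : (V.2 : ℚ) = (slp V).den * m := by exact_mod_cast hm
    rw [this]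
    ring
  have h4 : V.1 = m * (slp V).num := by exact_mod_cast h3
  refine Prod.ext ?_ ?_
  · exact h4
  · exact hm.trans (mul_comm _ _)

theorem slp_addv (P V : ℤ × ℤ) (hP : P.2 ≠ 0) (hV : V.2 ≠ 0) : slp (addv P V) = slp P + slp V := by
  have h1 : (P.2 : ℚ) ≠ 0 := by exact_mod_cast hP
  have h2 : (V.2 : ℚ) ≠ 0 := by exact_mod_cast hV
  rw [addv_eq]
  unfold slp
  push_cast
  field_simp

theorem red {D : ℤ} {F : ℤ × ℤ → ℤ × ℤ → ℂ} (hF : Sym D F) (P V : ℤ × ℤ) (hP : P.2 ≠ 0)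
    (hV : V.2 ≠ 0) (hd : dt P V ∣ D) :
    F P V = F (Nm (slp P)) (Nm (slp V)) ∧ dt (Nm (slp P)) (Nm (slp V)) ∣ D := by
  obtain ⟨m, hm⟩ := Nm_slp P hP
  obtain ⟨k, hk⟩ := Nm_slp V hV
  set A := Nm (slp P) with hA
  set B := Nm (slp V) with hB
  have e1 : dt (m • A) V = m * dt A V := by
    rw [dt_eq, dt_eq]
    simp only [Prod.smul_fst, Prod.smul_snd, smul_eq_mul]
    ring
  have e2 : dt (k • B) A = k * dt A B := by
    rw [dt_eq, dt_eq]
    simp only [Prod.smul_fst, Prod.smul_snd, smul_eq_mul]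
    ring
  have e3 : dt A (k • B) = dt (k • B) A := by
    rw [dt_eq, dt_eq]
    ring
  have d1 : dt (m • A) V ∣ D := by rw [← hm]; exact hd
  have d2 : dt A V ∣ D := (Dvd.intro_left m e1.symm).trans d1
  have d3 : dt (k • B) A ∣ D := by
    rw [← e3, ← hk]
    exact d2
  have d4 : dt A B ∣ D := (Dvd.intro_left k e2.symm).trans d3
  refine ⟨?_, d4⟩
  calc F P V = F (m • A) V := by rw [← hm]
    _ = F A V := hF.scale A V m d1
    _ = F V A := (hF.swap A V d2).symm
    _ = F (k • B) A := by rw [← hk]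
    _ = F B A := hF.scale B A k d3
    _ = F A B := hF.swap A B d4

theorem pair {D : ℤ} {F : ℤ × ℤ → ℤ × ℤ → ℂ} (hF : Sym D F) (P V : ℤ × ℤ) (hP : P.2 ≠ 0)
    (hV : V.2 ≠ 0) (hd : dt P V ∣ D) (σ : ℚ) (hσ : slp P + slp V = σ) :
    F P V = F (Nm (σ - Int.fract (slp V))) (Nm (Int.fract (slp V))) := by
  obtain ⟨h1, h2⟩ := red hF P V hP hV hd
  rw [h1]
  set p := slp P
  set v := slp V
  have hv : v = Int.fract v + (⌊v⌋ : ℤ) := (Int.fract_add_floor v).symm
  have hp : σ - Int.fract v = p + (⌊v⌋ : ℤ) := by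
    rw [← hσ]
    linarith
  have hN : Nm v = addv (Nm (Int.fract v)) (⌊v⌋, 1) := by
    conv_lhs => rw [hv]
    exact Nm_add _ _
  rw [hp, Nm_add, hN]
  rw [hN] at h2
  exact (hF.shift _ _ _ h2).symm

theorem tot_fst (a b c : ℤ × ℤ) : (tot (a, b, c)).1 =
    (a.1 * b.2 + b.1 * a.2) * c.2 + c.1 * (a.2 * b.2) := rfl

theorem tot_snd (a b c : ℤ × ℤ) : (tot (a, b, c)).2 = a.2 * b.2 * c.2 := rfl

theorem val {D : ℤ} {F : ℤ × ℤ → ℤ × ℤ → ℂ} (hF : Sym D F) (v : Vx) (hv : (tot v).2 ≠ 0)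
    (hd : (tot v).1 ∣ D) :
    evF F (nv v) = -F (Nm (slp (tot v))) (Nm 0) +
      (((sls v).map Int.fract).map fun β => F (Nm (slp (tot v) - β)) (Nm β)).sum := by
  obtain ⟨a, b, c⟩ := v
  have hs : (tot (a, b, c)).2 = a.2 * b.2 * c.2 := tot_snd a b c
  have ha : a.2 ≠ 0 := by
    intro h
    apply hv
    rw [hs, h]
    ring
  have hb : b.2 ≠ 0 := by
    intro h
    apply hv
    rw [hs, h]
    ring
  have hc : c.2 ≠ 0 := by
    intro h
    apply hv
    rw [hs, h]
    ring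
  have hbc : (addv b c).2 ≠ 0 := mul_ne_zero hb hc
  have hac : (addv a c).2 ≠ 0 := mul_ne_zero ha hc
  have hab : (addv a b).2 ≠ 0 := mul_ne_zero ha hb
  have s3 : slp (tot (a, b, c)) = slp a + slp b + slp c := by
    show slp (addv (addv a b) c) = _
    rw [slp_addv _ _ hab hc, slp_addv _ _ ha hb]
  have d0 : dt (tot (a, b, c)) (0, 1) = (tot (a, b, c)).1 := by
    rw [dt_eq]
    ring
  have d1 : dt (addv b c) a = (tot (a, b, c)).1 := by
    rw [dt_eq, tot_fst, addv_eq]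
    ring
  have d2 : dt (addv a c) b = (tot (a, b, c)).1 := by
    rw [dt_eq, tot_fst, addv_eq]
    ring
  have d3 : dt (addv a b) c = (tot (a, b, c)).1 := by
    rw [dt_eq, tot_fst, addv_eq]
  have f0 : F (tot (a, b, c)) (0, 1) = F (Nm (slp (tot (a, b, c)))) (Nm 0) := by
    have h := (red hF (tot (a, b, c)) (0, 1) hv (by norm_num) (by rw [d0]; exact hd)).1
    have h0 : slp ((0, 1) : ℤ × ℤ) = 0 := by
      unfold slp
      norm_num
    rw [h0] at h
    exact h
  have f1 := pair hF (addv b c) a hbc ha (by rw [d1]; exact hd) (slp (tot (a, b, c)))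
    (by rw [s3, slp_addv _ _ hb hc]; ring)
  have f2 := pair hF (addv a c) b hac hb (by rw [d2]; exact hd) (slp (tot (a, b, c)))
    (by rw [s3, slp_addv _ _ ha hc]; ring)
  have f3 := pair hF (addv a b) c hab hc (by rw [d3]; exact hd) (slp (tot (a, b, c)))
    (by rw [s3, slp_addv _ _ ha hb])
  have hn : nv (a, b, c) = (-1, tot (a, b, c), (0, 1)) ::
      (prs (a, b, c)).map fun p => ((1 : ℤ), p.1, p.2) := by
    unfold nv
    rw [if_neg hv]
  rw [hn]
  simp only [evF, prs, sls, List.map_cons, List.map_nil, List.sum_cons, List.sum_nil]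
  rw [f0, f1, f2, f3]
  push_cast
  ring

end NVE

theorem t_NVE : NVE_Stmt := by
  intro D _ F hF v v' hv hv' hd hd' hs hp
  rw [NVE.val hF v hv.1 hd, NVE.val hF v' hv'.1 hd', hs]
  congr 1
  exact (hp.map _).sum_eq

end Pool.Agent.TW
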