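import Pool.Agent.TW.StA
import Pool.Agent.TV.Nzr

/-!
Theorem W (MP_31fd3b_gt), module NZM: the values of the trees with three rational tangles at the
roots of unity do not vanish.
-/

set_option autoImplicit false

open Filter Topology
open scoped BigOperators Real

namespace Pool.Agent.TW

open Pool.Agent.LibH11.Sliced Pool.Agent.MTR Pool.Agent.MTA Pool.Agent.UA Pool.Agent.UB
open Pool.Agent.TwoBr Pool.Agent.Mont Pool.Agent.TV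
open Pool.Agent.TB hiding vec

namespace NZM

lemma inv_mod {D : ℤ} (hD : Odd D) (s : ℕ) :
    ∃ δ : ℤ, ((δ : ZMod (2 ^ s)) * ((D : ℤ) : ZMod (2 ^ s))) = 1 := by
  obtain ⟨u, v, huv⟩ := MNZ.coprime_two_pow _ hD s
  refine ⟨u, ?_⟩
  have h1 := congrArg (fun z : ℤ => (z : ZMod (2 ^ s))) huv
  simp only [Int.cast_add, Int.cast_mul, Int.cast_one] at h1
  have h2 : (((2 : ℤ) ^ s : ℤ) : ZMod (2 ^ s)) = 0 := by
    have h3 : (((2 ^ s : ℕ) : ℕ) : ZMod (2 ^ s)) = 0 := ZMod.natCast_self _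
    have h4 : (((2 : ℤ) ^ s : ℤ) : ZMod (2 ^ s)) = (((2 ^ s : ℕ) : ℕ) : ZMod (2 ^ s)) := by
      push_cast
      rfl
    rw [h4, h3]
  rw [h2, mul_zero, add_zero] at h1
  exact h1

lemma stab_one (h3 : EGO_Stmt) (n : ℕ) [NeZero n] (ι : ℤ) (hι : IsCoprime ι (2 * n : ℤ)) :
    Stab n ι (0, 1) (1 : Fn n) := by
  intro b
  have h4 := (h3 n ι hι).2.2.2.2.2.2 b
  simpa using h4

/-- if the value vanishes then the state vanishes -/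
lemma zero_of_Va (h1 : STU_Stmt) (h2 : PRS_Stmt) (h3 : EGO_Stmt) (t : Tr) (hodd : Odd (vec t).1)
    (s : ℕ) (hs2 : 2 ≤ s) (ι : ℤ) (hι : Odd ι) (h0 : (Va (2 ^ s) ι t).1 = 0) :
    (sta (2 ^ s) ι t).1 = 0 := by
  have hι' : IsCoprime ι (2 * (2 ^ s : ℕ) : ℤ) := by
    have h1 := MNZ.coprime_two_pow ι hι (s + 1)
    rwa [show (2 * (2 ^ s : ℕ) : ℤ) = (2 : ℤ) ^ (s + 1) by push_cast; ring]
  obtain ⟨k, hk⟩ : ∃ k, (2 ^ s : ℕ) = 4 * k := ⟨2 ^ (s - 2), by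
    rw [show (4 : ℕ) = 2 ^ 2 by norm_num, ← pow_add]
    congr 1
    omega⟩
  have hnh : (2 ^ s : ℕ) = 2 * (2 * k) := by omega
  have hst1 := stab_one h3 (2 ^ s) ι hι'
  have hst2 := (h1 (2 ^ s) ι hι' t).2.2
  have hev := (h1 (2 ^ s) ι hι' t).1
  have hper := NZR.per_sta k hk hι' h1 t
  set f := (sta (2 ^ s) ι t).1 with hf
  have hdet : Odd (det2 (0, 1) (vec t)) := by
    have h4 : det2 (0, 1) (vec t) = -(vec t).1 := by simp [det2]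
    rw [h4]
    exact hodd.neg
  obtain ⟨δ, hδ⟩ := inv_mod hdet s
  have h0' : pr (2 ^ s) 1 f = 0 := h0
  have hkey := MNZ.key zt_basic h2 (2 ^ s) (2 * k) hnh ι hι' (0, 1) (vec t) 1 f
    (by rw [show (-((0 : ℤ), (1 : ℤ)).1, ((0 : ℤ), (1 : ℤ)).2) = ((0 : ℤ), (1 : ℤ)) by simp]
        exact hst1) hst2 δ hδ h0'
  funext u
  rw [Pi.zero_apply]
  obtain ⟨v, rfl⟩ : ∃ v : ℕ, ((v : ℕ) : ZMod (2 * 2 ^ s)) = u :=
    ⟨u.val, ZMod.natCast_zmod_val u⟩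
  rcases Nat.even_or_odd' v with ⟨w, rfl | rfl⟩
  · have h4 := hkey (w : ℤ)
    simp only [Pi.one_apply, one_mul] at h4
    have h5 : ((2 * w : ℕ) : ZMod (2 * 2 ^ s)) = 2 * (((w : ℕ) : ℤ) : ZMod (2 * 2 ^ s)) := by
      push_cast
      rfl
    rw [h5]
    rw [add_comm (((2 ^ s : ℕ) : ZMod (2 * 2 ^ s))) _, hper] at h4
    have h6 : (2 : ℂ) * f (2 * (((w : ℕ) : ℤ) : ZMod (2 * 2 ^ s))) = 0 := by
      rw [two_mul]
      exact h4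
    exact (mul_eq_zero.1 h6).resolve_left (by norm_num)
  · exact hev w

/-- the rotated state of a tangle with an odd weight does not vanish at the even elements -/
lemma Fh_ne (h1 : STU_Stmt) (h2 : PRS_Stmt) (h3 : EGO_Stmt) (t : Tr) (hodd : Odd (vec t).1)
    (s : ℕ) (ι : ℤ) (hι : Odd ι) (h0 : (Va (2 ^ s) ι t).1 ≠ 0) (w : ℕ) :
    Fh (2 ^ s) ι (sta (2 ^ s) ι t).1 (2 * ((w : ℕ) : ZMod (2 * 2 ^ s))) ≠ 0 := by
  have hι' : IsCoprime ι (2 * (2 ^ s : ℕ) : ℤ) := by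
    have h1 := MNZ.coprime_two_pow ι hι (s + 1)
    rwa [show (2 * (2 ^ s : ℕ) : ℤ) = (2 : ℤ) ^ (s + 1) by push_cast; ring]
  have hst1 := stab_one h3 (2 ^ s) ι hι'
  have hst2 := (h1 (2 ^ s) ι hι' t).2.2
  have hev := (h1 (2 ^ s) ι hι' t).1
  set f := (sta (2 ^ s) ι t).1 with hf
  have hdet : Odd (det2 (0, 1) (vec t)) := by
    have h4 : det2 (0, 1) (vec t) = -(vec t).1 := by simp [det2]
    rw [h4]
    exact hodd.neg
  obtain ⟨δ, hδ⟩ := inv_mod hdet s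
  have h0' : pr (2 ^ s) 1 f ≠ 0 := h0
  have h5 := (h2 (2 ^ s) ι hι').2 (0, 1) (vec t) 1 f
    (by rw [show (-((0 : ℤ), (1 : ℤ)).1, ((0 : ℤ), (1 : ℤ)).2) = ((0 : ℤ), (1 : ℤ)) by simp]
        exact hst1) hst2 δ hδ ((w : ℤ), 0)
  have h6 : pr (2 ^ s) 1 (Tt (2 ^ s) ι (w : ℤ) 0 f) ≠ 0 := by
    rw [h5]
    exact mul_ne_zero h0' (NZR.zt_ne hι' _)
  have h7 : pr (2 ^ s) 1 (Tt (2 ^ s) ι (w : ℤ) 0 f) =
      ∑ k, f k * zt (2 ^ s) ι (k * (2 * ((w : ℕ) : ZMod (2 * 2 ^ s)))) := by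
    rw [Stu.sum_evs]
    · unfold pr
      refine Finset.sum_congr rfl fun j _ => ?_
      rw [Pi.one_apply, one_mul, Stu.Tt_apply]
      rw [mul_comm]
      congr 2
      · push_cast
        ring
      · push_cast
        ring
    · intro j
      rw [hev j, zero_mul]
  rw [Stu.Fh_apply, ← h7]
  refine mul_ne_zero ?_ h6
  have h8 : ((2 ^ s : ℕ) : ℂ) ≠ 0 := by
    have : (2 ^ s : ℕ) ≠ 0 := by positivity
    exact_mod_cast this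
  exact one_div_ne_zero (mul_ne_zero two_ne_zero h8)

lemma third_zero (h1 : STU_Stmt) (t : Tr) (ht : t.Rat) (s : ℕ) (hs2 : 2 ≤ s)
    (ι : ℤ) (hι : Odd ι)
    (h : ∀ w : ℕ, Fh (2 ^ s) ι (sta (2 ^ s) ι t).1 (2 * ((w : ℕ) : ZMod (2 * 2 ^ s))) = 0) :
    False := by
  have hι' : IsCoprime ι (2 * (2 ^ s : ℕ) : ℤ) := by
    have h1 := MNZ.coprime_two_pow ι hι (s + 1)
    rwa [show (2 * (2 ^ s : ℕ) : ℤ) = (2 : ℤ) ^ (s + 1) by push_cast; ring]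
  obtain ⟨k, hk⟩ : ∃ k, (2 ^ s : ℕ) = 4 * k := ⟨2 ^ (s - 2), by
    rw [show (4 : ℕ) = 2 ^ 2 by norm_num, ← pow_add]
    congr 1
    omega⟩
  refine NZR.sta_ne k hk hι' h1 t ht (NZR.zero_of_Fh k hk hι' _ (NZR.per_sta k hk hι' h1 t) ?_)
  intro u
  obtain ⟨v, rfl⟩ : ∃ v : ℕ, ((v : ℕ) : ZMod (2 * 2 ^ s)) = u :=
    ⟨u.val, ZMod.natCast_zmod_val u⟩
  exact h v

lemma parity (a b c : Tr) (e : ℤ) (h : Odd (vec (M3 a b c e)).1) :
    (Odd (vec a).1 ∧ Odd (vec b).1) ∨ (Odd (vec a).1 ∧ Odd (vec c).1) ∨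
      (Odd (vec b).1 ∧ Odd (vec c).1) := by
  have h1 : (vec (M3 a b c e)).1 = -((vec a).2 * ((vec b).1 * (vec c).1)) -
      (vec b).2 * ((vec a).1 * (vec c).1) - (vec c).2 * ((vec a).1 * (vec b).1) -
        e * ((vec a).1 * ((vec b).1 * (vec c).1)) := by
    simp only [M3, vec, addv, rv]
    ring
  rw [h1] at h
  by_contra hcon
  push Not at hcon
  obtain ⟨c1, c2, c3⟩ := hcon
  have hab : Even ((vec a).1 * (vec b).1) := by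
    by_contra h2
    rw [Int.not_even_iff_odd, Int.odd_mul] at h2
    exact c1 h2.1 h2.2
  have hac : Even ((vec a).1 * (vec c).1) := by
    by_contra h2
    rw [Int.not_even_iff_odd, Int.odd_mul] at h2
    exact c2 h2.1 h2.2
  have hbc : Even ((vec b).1 * (vec c).1) := by
    by_contra h2
    rw [Int.not_even_iff_odd, Int.odd_mul] at h2
    exact c3 h2.1 h2.2
  have h3 : Even (-((vec a).2 * ((vec b).1 * (vec c).1)) -
      (vec b).2 * ((vec a).1 * (vec c).1) - (vec c).2 * ((vec a).1 * (vec b).1) -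
        e * ((vec a).1 * ((vec b).1 * (vec c).1))) := by
    exact (((hbc.mul_left _).neg.sub (hac.mul_left _)).sub (hab.mul_left _)).sub
      ((hbc.mul_left _).mul_left _)
  exact (Int.not_even_iff_odd.2 h) h3

end NZM

open NZM in
theorem t_NZM (h1 : STU_Stmt) (h2 : PRS_Stmt) (h3 : EGO_Stmt) : NZM_Stmt := by
  intro a b c e ha hb hc hodd s hs2 ι hι h0
  have hι' : IsCoprime ι (2 * (2 ^ s : ℕ) : ℤ) := by
    have h1 := MNZ.coprime_two_pow ι hι (s + 1)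
    rwa [show (2 * (2 ^ s : ℕ) : ℤ) = (2 : ℤ) ^ (s + 1) by push_cast; ring]
  have hz := zero_of_Va h1 h2 h3 _ hodd s hs2 ι hι h0
  have hz' : ∀ w : ℕ,
      Fh (2 ^ s) ι (sta (2 ^ s) ι a).1 (2 * ((w : ℕ) : ZMod (2 * 2 ^ s))) *
      (Fh (2 ^ s) ι (sta (2 ^ s) ι b).1 (2 * ((w : ℕ) : ZMod (2 * 2 ^ s))) *
      Fh (2 ^ s) ι (sta (2 ^ s) ι c).1 (2 * ((w : ℕ) : ZMod (2 * 2 ^ s)))) = 0 := by
    intro w
    have h4 := congrFun hz (2 * ((w : ℕ) : ZMod (2 * 2 ^ s)))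
    change Fh (2 ^ s) ι (sta (2 ^ s) ι a).1 (2 * ((w : ℕ) : ZMod (2 * 2 ^ s))) *
      (Fh (2 ^ s) ι (sta (2 ^ s) ι b).1 (2 * ((w : ℕ) : ZMod (2 * 2 ^ s))) *
      (Fh (2 ^ s) ι (sta (2 ^ s) ι c).1 (2 * ((w : ℕ) : ZMod (2 * 2 ^ s))) *
        fe (2 ^ s) ι e (2 * ((w : ℕ) : ZMod (2 * 2 ^ s))))) = 0 at h4
    have h5 : (2 * ((w : ℕ) : ZMod (2 * 2 ^ s))) =
        ((2 * (w : ℤ) : ℤ) : ZMod (2 * 2 ^ s)) := by
      push_cast
      rfl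
    have h6 : fe (2 ^ s) ι e (2 * ((w : ℕ) : ZMod (2 * 2 ^ s))) ≠ 0 := by
      rw [h5, STB.fe_even]
      exact NZR.zt_ne hι' _
    have h7 : (Fh (2 ^ s) ι (sta (2 ^ s) ι a).1 (2 * ((w : ℕ) : ZMod (2 * 2 ^ s))) *
      (Fh (2 ^ s) ι (sta (2 ^ s) ι b).1 (2 * ((w : ℕ) : ZMod (2 * 2 ^ s))) *
      Fh (2 ^ s) ι (sta (2 ^ s) ι c).1 (2 * ((w : ℕ) : ZMod (2 * 2 ^ s))))) *
        fe (2 ^ s) ι e (2 * ((w : ℕ) : ZMod (2 * 2 ^ s))) = 0 := by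
      rw [← h4]
      ring
    exact (mul_eq_zero.1 h7).resolve_right h6
  rcases parity a b c e hodd with ⟨oa, ob⟩ | ⟨oa, oc⟩ | ⟨ob, oc⟩
  · have na := Fh_ne h1 h2 h3 a oa s ι hι (t_NZR h1 h2 h3 a ha oa s hs2 ι hι)
    have nb := Fh_ne h1 h2 h3 b ob s ι hι (t_NZR h1 h2 h3 b hb ob s hs2 ι hι)
    refine third_zero h1 c hc s hs2 ι hι fun w => ?_
    have h8 := (mul_eq_zero.1 (hz' w)).resolve_left (na w)
    exact (mul_eq_zero.1 h8).resolve_left (nb w)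
  · have na := Fh_ne h1 h2 h3 a oa s ι hι (t_NZR h1 h2 h3 a ha oa s hs2 ι hι)
    have nc := Fh_ne h1 h2 h3 c oc s ι hι (t_NZR h1 h2 h3 c hc oc s hs2 ι hι)
    refine third_zero h1 b hb s hs2 ι hι fun w => ?_
    have h8 := (mul_eq_zero.1 (hz' w)).resolve_left (na w)
    exact (mul_eq_zero.1 h8).resolve_right (nc w)
  · have nb := Fh_ne h1 h2 h3 b ob s ι hι (t_NZR h1 h2 h3 b hb ob s hs2 ι hι)
    have nc := Fh_ne h1 h2 h3 c oc s ι hι (t_NZR h1 h2 h3 c hc oc s hs2 ι hι)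
    refine third_zero h1 a ha s hs2 ι hι fun w => ?_
    exact (mul_eq_zero.1 (hz' w)).resolve_right (mul_ne_zero (nb w) (nc w))

end Pool.Agent.TW
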