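import Pool.Agent.TW.StT

/-!
Theorem W (MP_31fd3b_gt), ODM: the determinant of a Montesinos knot is odd.
-/

open scoped BigOperators

namespace Pool.Agent.TW

open Pool.Agent.LibH11.Sliced Pool.Agent.MTR Pool.Agent.MTA Pool.Agent.UA Pool.Agent.UB
open Pool.Agent.TwoBr Pool.Agent.Mont Pool.Agent.TV
open Pool.Agent.TB hiding vec

namespace Odm

/-- parity of the vector of a tangle in normal form -/
theorem nvec_mod (t : NT) : (nvec t).1 % 2 = (if t.1 then 1 else 0) ∧
    (nvec t).2 % 2 = (if t.1 then 0 else 1) := by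
  obtain ⟨f, x⟩ := t
  cases f
  · exact tvec_wordOf_mod x 0 (0, 1)
  · exact tvec_wordOf_mod x 1 (1, 0)

/-- comparison of the vectors -/
theorem vec_cmp {u : List (Fin 2 × Bool)} {t : NT} {m : ℤ} (h : slope u = nslope t - m)
    (hu : 2 ≤ |den u|) : ∃ s : ℤ, (s = 1 ∨ s = -1) ∧
      (tvec (0, 1) u).1 = s * ((nvec t).1 - m * (nvec t).2) ∧ (tvec (0, 1) u).2 = s * (nvec t).2 := by
  have hc := tvec_coprime u
  have hn := nvec_coprime t
  unfold den at hu
  unfold Mont.slope nslope at h
  set b := (tvec (0, 1) u).1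
  set a := (tvec (0, 1) u).2
  set b' := (nvec t).1
  set a' := (nvec t).2
  have ha0 : a ≠ 0 := by
    intro h0
    rw [h0] at hu
    simp at hu
  have ha : (a : ℚ) ≠ 0 := by exact_mod_cast ha0
  have ha' : a' ≠ 0 := by
    intro h0
    rw [h0] at h
    simp only [Int.cast_zero, div_zero, zero_sub] at h
    rw [div_eq_iff ha] at h
    have h1 : b = -m * a := by exact_mod_cast h
    have h2 : a ∣ b := ⟨-m, by rw [h1]; ring⟩
    have h3 : IsUnit a := hc.symm.isUnit_of_dvd h2
    rcases Int.isUnit_iff.1 h3 with h4 | h4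
    · rw [h4] at hu; norm_num at hu
    · rw [h4] at hu; norm_num at hu
  have haq : (a' : ℚ) ≠ 0 := by exact_mod_cast ha'
  have e1 : b * a' = (b' - m * a') * a := by
    have : (b : ℚ) * a' = (b' - m * a') * a := by
      field_simp at h
      linarith
    exact_mod_cast this
  have d1 : a ∣ a' := by
    have k1 : a ∣ b * a' := ⟨b' - m * a', by rw [e1]; ring⟩
    exact hc.symm.dvd_of_dvd_mul_left k1
  have d2 : a' ∣ a := by
    have k0 : IsCoprime a' (b' - m * a') := by
      have := (IsCoprime.add_mul_right_left hn.symm.symm (-m)).symm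
      rwa [show b' + -m * a' = b' - m * a' by ring] at this
    have k1 : a' ∣ (b' - m * a') * a := ⟨b, by rw [← e1]; ring⟩
    exact k0.dvd_of_dvd_mul_left k1
  rcases Int.natAbs_eq_natAbs_iff.1 (Int.natAbs_eq_of_dvd_dvd d1 d2) with h5 | h5
  · refine ⟨1, Or.inl rfl, ?_, by rw [one_mul]; exact h5⟩
    rw [one_mul]
    rw [h5] at e1
    exact mul_right_cancel₀ ha' e1
  · refine ⟨-1, Or.inr rfl, ?_, by rw [neg_one_mul]; exact h5⟩
    rw [h5] at e1
    have : b * a' = (-1 * (b' - m * a')) * a' := by rw [e1]; ring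
    exact mul_right_cancel₀ ha' this

/-- the vector of the sum of three vectors, up to sign -/
theorem add_sgn {x y z x' y' z' : ℤ × ℤ} (hx : PMv x x') (hy : PMv y y') (hz : PMv z z') :
    PMv (addv x (addv y z)) (addv x' (addv y' z')) := by
  obtain ⟨x1, x2⟩ := x
  obtain ⟨y1, y2⟩ := y
  obtain ⟨z1, z2⟩ := z
  obtain ⟨x1', x2'⟩ := x'
  obtain ⟨y1', y2'⟩ := y'
  obtain ⟨z1', z2'⟩ := z'
  simp only [PMv, Prod.mk.injEq, Prod.neg_mk] at hx hy hz
  simp only [PMv, addv, Prod.mk.injEq, Prod.neg_mk]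
  rcases hx with ⟨rfl, rfl⟩ | ⟨rfl, rfl⟩ <;> rcases hy with ⟨rfl, rfl⟩ | ⟨rfl, rfl⟩ <;>
    rcases hz with ⟨rfl, rfl⟩ | ⟨rfl, rfl⟩ <;>
    first
      | (left; constructor <;> ring1)
      | (right; constructor <;> ring1)

/-- the numbers modulo 2 -/
theorem odd_det {A1 A2 A3 p1 p2 p3 e : ℤ} (f1 f2 f3 : Bool)
    (h1 : A1 % 2 = (if f1 then 1 else 0) ∧ p1 % 2 = (if f1 then 0 else 1))
    (h2 : A2 % 2 = (if f2 then 1 else 0) ∧ p2 % 2 = (if f2 then 0 else 1))
    (h3 : A3 % 2 = (if f3 then 1 else 0) ∧ p3 % 2 = (if f3 then 0 else 1))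
    (he : ((f1 = false ∧ f2 = false ∧ f3 = false) ∧ Odd e) ∨
      (([f1, f2, f3].filter fun f => f).length = 1 ∧ Even e)) :
    Odd (A1 * (p2 * p3) + (A2 * p3 + A3 * p2) * p1 - e * (p1 * (p2 * p3))) := by
  have key : ∀ z : ℤ, z % 2 = 0 → Even z := fun z hz => Int.even_iff.2 hz
  have key' : ∀ z : ℤ, z % 2 = 1 → Odd z := fun z hz => Int.odd_iff.2 hz
  cases f1 <;> cases f2 <;> cases f3 <;> simp only [Bool.false_eq_true, if_true, if_false, true_and,
    and_true, and_false, false_and, false_or, List.filter, List.length, reduceCtorEq,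
    Nat.reduceAdd, Nat.reduceEqDiff, zero_ne_one, or_false, zero_add] at h1 h2 h3 he <;>
  all_goals
    first
      | exact he.elim
      | (obtain ⟨a1, b1⟩ := h1
         obtain ⟨a2, b2⟩ := h2
         obtain ⟨a3, b3⟩ := h3
         rw [← Int.not_even_iff_odd]
         first
           | (have c1 := key _ a1; have c2 := key _ a2; have c3 := key _ a3
              have d1 := key' _ b1; have d2 := key' _ b2; have d3 := key' _ b3
              rw [← Int.not_even_iff_odd] at d1 d2 d3 he
              simp only [Int.even_sub, Int.even_add, Int.even_mul, c1, c2, c3, d1, d2, d3, he]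
              decide)
           | (have c1 := key' _ a1; have c2 := key _ a2; have c3 := key _ a3
              have d1 := key _ b1; have d2 := key' _ b2; have d3 := key' _ b3
              rw [← Int.not_even_iff_odd] at c1 d2 d3
              simp only [Int.even_sub, Int.even_add, Int.even_mul, c1, c2, c3, d1, d2, d3, he]
              decide)
           | (have c1 := key _ a1; have c2 := key' _ a2; have c3 := key _ a3
              have d1 := key' _ b1; have d2 := key _ b2; have d3 := key' _ b3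
              rw [← Int.not_even_iff_odd] at c2 d1 d3
              simp only [Int.even_sub, Int.even_add, Int.even_mul, c1, c2, c3, d1, d2, d3, he]
              decide)
           | (have c1 := key _ a1; have c2 := key _ a2; have c3 := key' _ a3
              have d1 := key' _ b1; have d2 := key' _ b2; have d3 := key _ b3
              rw [← Int.not_even_iff_odd] at c3 d1 d2
              simp only [Int.even_sub, Int.even_add, Int.even_mul, c1, c2, c3, d1, d2, d3, he]
              decide))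

end Odm

open Odm in
theorem t_ODM (h1 : MTM_Stmt) (_h2 : ADV_Stmt) (_h3 : CHNO_Stmt) : ODM_Stmt := by
  intro a b c e ha hb hc h2a h2b h2c hk
  obtain ⟨ua, ub, uc, q1, q2, q3, q4⟩ := h1 a b c e ha hb hc
  have hm : IsLongKnot (mont [ua, ub, uc]) := q1.isLongKnot hk
  have abs_of : ∀ {x y : ℤ × ℤ}, PMv x y → |x.2| = |y.2| := by
    intro x y h
    rcases h with h | h
    · rw [h]
    · rw [h, Prod.snd_neg, abs_neg]
  have da : 2 ≤ |den ua| := by
    unfold den
    rw [abs_of q2]
    exact h2a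
  have db : 2 ≤ |den ub| := by
    unfold den
    rw [abs_of q3]
    exact h2b
  have dc : 2 ≤ |den uc| := by
    unfold den
    rw [abs_of q4]
    show 2 ≤ |(rv (vec c)).2 * 1|
    rw [mul_one]
    exact h2c
  obtain ⟨ts, e0, hN, -, hR, hs⟩ := mont_nf2 [ua, ub, uc] hm (by
    intro u hu
    simp only [List.mem_cons, List.not_mem_nil, or_false] at hu
    rcases hu with rfl | rfl | rfl
    · exact da
    · exact db
    · exact dc)
  have hlen := hR.length_eq
  obtain ⟨t1, t2, t3, rfl⟩ : ∃ t1 t2 t3 : NT, ts = [t1, t2, t3] := by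
    match ts, hlen with
    | [t1, t2, t3], _ => exact ⟨t1, t2, t3, rfl⟩
  simp only [List.forall₂_cons, List.forall₂_nil_left_iff, and_true] at hR
  obtain ⟨⟨m1, r1, -⟩, ⟨m2, r2, -⟩, ⟨m3, r3, -⟩⟩ := hR
  obtain ⟨s1, o1, k1, l1⟩ := vec_cmp r1 da
  obtain ⟨s2, o2, k2, l2⟩ := vec_cmp r2 db
  obtain ⟨s3, o3, k3, l3⟩ := vec_cmp r3 dc
  have he0 : e0 = m1 + m2 + m3 := by
    simp only [List.map_cons, List.map_nil, List.sum_cons, List.sum_nil, add_zero] at hs
    rw [r1, r2, r3] at hs
    have : (e0 : ℚ) = m1 + m2 + m3 := by linarith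
    exact_mod_cast this
  have pm : ∀ {s : ℤ} {u : List (Fin 2 × Bool)} {x y : ℤ}, (s = 1 ∨ s = -1) →
      (tvec (0, 1) u).1 = s * x → (tvec (0, 1) u).2 = s * y → PMv (x, y) (tvec (0, 1) u) := by
    intro s u x y hs h1 h2
    rcases hs with rfl | rfl
    · left
      ext
      · rw [h1, one_mul]
      · rw [h2, one_mul]
    · right
      ext
      · rw [Prod.fst_neg, h1]; ring
      · rw [Prod.snd_neg, h2]; ring
  have trans : ∀ {x y z : ℤ × ℤ}, PMv x y → PMv y z → PMv x z := by
    intro x y z h1 h2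
    rcases h1 with rfl | rfl
    · exact h2
    · rcases h2 with rfl | rfl
      · right; rfl
      · left; rw [neg_neg]
  have h := add_sgn (trans (pm o1 k1 l1) q2) (trans (pm o2 k2 l2) q3) (trans (pm o3 k3 l3) q4)
  have hM : (addv (rv (vec a)) (addv (rv (vec b)) (addv (rv (vec c)) (-e, 1)))) =
      vec (M3 a b c e) := rfl
  rw [hM] at h
  have hodd := odd_det t1.1 t2.1 t3.1 (nvec_mod t1) (nvec_mod t2) (nvec_mod t3) (e := e0) (by
    rcases hN.par with ⟨p1, p2⟩ | ⟨p1, p2⟩
    · left
      exact ⟨⟨p1 t1 (by simp), p1 t2 (by simp), p1 t3 (by simp)⟩, p2⟩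
    · right
      refine ⟨?_, p2⟩
      have e1 : [t1.1, t2.1, t3.1] = [t1, t2, t3].map fun t => t.1 := rfl
      rw [e1, List.filter_map, List.length_map]
      exact p1)
  have hval : (addv ((nvec t1).1 - m1 * (nvec t1).2, (nvec t1).2)
      (addv ((nvec t2).1 - m2 * (nvec t2).2, (nvec t2).2)
        ((nvec t3).1 - m3 * (nvec t3).2, (nvec t3).2))).1 =
      (nvec t1).1 * ((nvec t2).2 * (nvec t3).2) +
        ((nvec t2).1 * (nvec t3).2 + (nvec t3).1 * (nvec t2).2) * (nvec t1).2 -
        e0 * ((nvec t1).2 * ((nvec t2).2 * (nvec t3).2)) := by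
    simp only [addv]
    rw [he0]
    ring
  rcases h with h | h
  · rw [← h, hval]
    exact hodd
  · have h5 : (vec (M3 a b c e)).1 = -(addv ((nvec t1).1 - m1 * (nvec t1).2, (nvec t1).2)
      (addv ((nvec t2).1 - m2 * (nvec t2).2, (nvec t2).2)
        ((nvec t3).1 - m3 * (nvec t3).2, (nvec t3).2))).1 := by
      rw [h, Prod.fst_neg, neg_neg]
    rw [h5, hval]
    exact hodd.neg

end Pool.Agent.TW
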