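import Pool.Agent.TW.StA

/-!
Theorem W, module TW_QIN: inequalities for three slopes.
-/

open Filter Topology
open scoped BigOperators Real

namespace Pool.Agent.TW

open Pool.Agent.LibH11.Sliced Pool.Agent.MTR Pool.Agent.MTA Pool.Agent.UA Pool.Agent.UB
open Pool.Agent.TwoBr Pool.Agent.Mont Pool.Agent.TV
open Pool.Agent.TB hiding vec

namespace QINX

lemma iv_int (h1 : ALZ_Stmt) {β : ℚ} (h : ∃ n : ℤ, β = n) : iv β = 1 := by
  obtain ⟨n, hn⟩ := h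
  have h2 := h1.2.2.2.1.1 0 n
  rw [zero_add, ← hn, h1.2.2.2.1.2.2.1] at h2
  exact h2

lemma iv_ninth {β : ℚ} (h : ¬ ∃ n : ℤ, 2 * β = n) : iv β ≤ 1 / 9 := by
  have h1 : β.den ≠ 1 := by
    intro h1
    apply h
    refine ⟨2 * β.num, ?_⟩
    have := Rat.num_div_den β
    rw [h1] at this
    rw [← this]
    simp
  have h2 : β.den ≠ 2 := by
    intro h1
    apply h
    refine ⟨β.num, ?_⟩
    have := Rat.num_div_den β
    rw [h1] at this
    push_cast at this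
    linarith
  have h3 : 3 ≤ β.den := by
    have := β.den_pos
    omega
  have h4 : (3 : ℚ) ≤ (β.den : ℕ) := by exact_mod_cast h3
  unfold iv
  rw [div_le_div_iff₀ (by positivity) (by norm_num)]
  nlinarith

open Classical in
/-- the part of a square which is not absorbed -/
noncomputable def tt (b c : ℚ) : ℚ := if ∃ n : ℤ, c = n then 0 else (iv b + iv c) ^ 2

open Classical in
lemma term (h1 : ALZ_Stmt) (b c σ : ℚ) (hσ : b + c = σ) :
    (iv b + iv c) ^ 2 = (if ∃ n : ℤ, c = n then (1 : ℚ) else 0) * (1 + iv σ) ^ 2 + tt b c := by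
  unfold tt
  split_ifs with h
  · obtain ⟨n, hn⟩ := h
    have h2 : iv σ = iv b := by rw [← hσ, hn, h1.2.2.2.1.1]
    rw [iv_int h1 ⟨n, hn⟩, h2]
    ring
  · ring

lemma tt_nonneg (b c : ℚ) : 0 ≤ tt b c := by
  unfold tt
  split_ifs
  · exact le_refl _
  · positivity

/-- the general bound -/
lemma tt_le (h1 : ALZ_Stmt) (b c : ℚ) (x : ℚ) (hx : iv b ≤ x) : tt b c ≤ (x + 1 / 4) ^ 2 := by
  unfold tt
  split_ifs with h
  · positivity
  · have h2 := (h1.2.2.2.1.2.2.2 c).2.2 h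
    have h3 := (h1.2.2.2.1.2.2.2 c).1
    have h4 := (h1.2.2.2.1.2.2.2 b).1
    exact pow_le_pow_left₀ (by linarith) (by linarith) 2

lemma tt_le' (h1 : ALZ_Stmt) (b c : ℚ) (x : ℚ) (hx : iv b ≤ x) (hc : ¬ ∃ n : ℤ, 2 * c = n) :
    tt b c ≤ (x + 1 / 9) ^ 2 := by
  unfold tt
  split_ifs with h
  · positivity
  · have h2 := iv_ninth hc
    have h3 := (h1.2.2.2.1.2.2.2 c).1
    have h4 := (h1.2.2.2.1.2.2.2 b).1
    exact pow_le_pow_left₀ (by linarith) (by linarith) 2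

/-- the sum of two halves is an integer -/
lemma tt_zero (b b1 b2 : ℚ) (h1 : ∃ n : ℤ, 2 * b1 = n) (h2 : ∃ n : ℤ, 2 * b2 = n)
    (n1 : ¬ ∃ n : ℤ, b1 = n) (n2 : ¬ ∃ n : ℤ, b2 = n) : tt b (b1 + b2) = 0 := by
  obtain ⟨m, hm⟩ := h1
  obtain ⟨k, hk⟩ := h2
  have hm1 : m % 2 = 1 := by
    by_contra hc
    apply n1
    refine ⟨m / 2, ?_⟩
    have h3 : m = 2 * (m / 2) := by omega
    have h4 : (m : ℚ) = 2 * ((m / 2 : ℤ) : ℚ) := by exact_mod_cast h3
    linarith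
  have hk1 : k % 2 = 1 := by
    by_contra hc
    apply n2
    refine ⟨k / 2, ?_⟩
    have h3 : k = 2 * (k / 2) := by omega
    have h4 : (k : ℚ) = 2 * ((k / 2 : ℤ) : ℚ) := by exact_mod_cast h3
    linarith
  unfold tt
  rw [if_pos]
  refine ⟨(m + k) / 2, ?_⟩
  have h3 : m + k = 2 * ((m + k) / 2) := by omega
  have h4 : (m : ℚ) + k = 2 * (((m + k) / 2 : ℤ) : ℚ) := by exact_mod_cast h3
  linarith

/-- half plus no half is no half -/
lemma not_half {b1 b2 : ℚ} (h1 : ∃ n : ℤ, 2 * b1 = n) (h2 : ¬ ∃ n : ℤ, 2 * b2 = n) :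
    ¬ ∃ n : ℤ, 2 * (b1 + b2) = n := by
  rintro ⟨k, hk⟩
  obtain ⟨m, hm⟩ := h1
  apply h2
  exact ⟨k - m, by push_cast; linarith⟩

lemma not_half' {b1 b2 : ℚ} (h1 : ¬ ∃ n : ℤ, 2 * b1 = n) (h2 : ∃ n : ℤ, 2 * b2 = n) :
    ¬ ∃ n : ℤ, 2 * (b1 + b2) = n := by
  rw [add_comm]
  exact not_half h2 h1

lemma sq_lower {S m : ℚ} (h : S ≤ m) (hm : m ≤ 1) : (1 - m) ^ 2 ≤ (1 - S) ^ 2 :=
  pow_le_pow_left₀ (by linarith) (by linarith) 2

/-- the key inequality -/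
lemma key (h1 : ALZ_Stmt) (b0 b1 b2 : ℚ) (n0 : ¬ ∃ n : ℤ, b0 = n) (n1 : ¬ ∃ n : ℤ, b1 = n)
    (n2 : ¬ ∃ n : ℤ, b2 = n) :
    tt b0 (b1 + b2) + tt b1 (b0 + b2) + tt b2 (b0 + b1) < 2 * (1 - (iv b0 + iv b1 + iv b2)) ^ 2 := by
  have q0 := (h1.2.2.2.1.2.2.2 b0).2.2 n0
  have q1 := (h1.2.2.2.1.2.2.2 b1).2.2 n1
  have q2 := (h1.2.2.2.1.2.2.2 b2).2.2 n2
  by_cases e0 : ∃ n : ℤ, 2 * b0 = n <;> by_cases e1 : ∃ n : ℤ, 2 * b1 = n <;>
    by_cases e2 : ∃ n : ℤ, 2 * b2 = n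
  · have t0 := tt_zero b0 b1 b2 e1 e2 n1 n2
    have t1 := tt_zero b1 b0 b2 e0 e2 n0 n2
    have t2 := tt_zero b2 b0 b1 e0 e1 n0 n1
    have s := sq_lower (S := iv b0 + iv b1 + iv b2) (m := 3 / 4) (by linarith) (by norm_num)
    rw [t0, t1, t2]
    norm_num at s ⊢
    linarith
  · have t0 := tt_le' h1 b0 (b1 + b2) _ q0 (not_half e1 e2)
    have t1 := tt_le' h1 b1 (b0 + b2) _ q1 (not_half e0 e2)
    have t2 := tt_zero b2 b0 b1 e0 e1 n0 n1
    have r2 := iv_ninth e2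
    have s := sq_lower (S := iv b0 + iv b1 + iv b2) (m := 11 / 18) (by linarith) (by norm_num)
    rw [t2]
    norm_num at s t0 t1 ⊢
    linarith
  · have t0 := tt_le' h1 b0 (b1 + b2) _ q0 (not_half' e1 e2)
    have t1 := tt_zero b1 b0 b2 e0 e2 n0 n2
    have t2 := tt_le' h1 b2 (b0 + b1) _ q2 (not_half e0 e1)
    have r1 := iv_ninth e1
    have s := sq_lower (S := iv b0 + iv b1 + iv b2) (m := 11 / 18) (by linarith) (by norm_num)
    rw [t1]
    norm_num at s t0 t2 ⊢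
    linarith
  · have t0 := tt_le h1 b0 (b1 + b2) _ q0
    have r1 := iv_ninth e1
    have r2 := iv_ninth e2
    have t1 := tt_le h1 b1 (b0 + b2) _ r1
    have t2 := tt_le h1 b2 (b0 + b1) _ r2
    have s := sq_lower (S := iv b0 + iv b1 + iv b2) (m := 17 / 36) (by linarith) (by norm_num)
    norm_num at s t0 t1 t2 ⊢
    linarith
  · have t0 := tt_zero b0 b1 b2 e1 e2 n1 n2
    have t1 := tt_le' h1 b1 (b0 + b2) _ q1 (not_half' e0 e2)
    have t2 := tt_le' h1 b2 (b0 + b1) _ q2 (not_half' e0 e1)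
    have r0 := iv_ninth e0
    have s := sq_lower (S := iv b0 + iv b1 + iv b2) (m := 11 / 18) (by linarith) (by norm_num)
    rw [t0]
    norm_num at s t1 t2 ⊢
    linarith
  · have r0 := iv_ninth e0
    have r2 := iv_ninth e2
    have t0 := tt_le h1 b0 (b1 + b2) _ r0
    have t1 := tt_le h1 b1 (b0 + b2) _ q1
    have t2 := tt_le h1 b2 (b0 + b1) _ r2
    have s := sq_lower (S := iv b0 + iv b1 + iv b2) (m := 17 / 36) (by linarith) (by norm_num)
    norm_num at s t0 t1 t2 ⊢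
    linarith
  · have r0 := iv_ninth e0
    have r1 := iv_ninth e1
    have t0 := tt_le h1 b0 (b1 + b2) _ r0
    have t1 := tt_le h1 b1 (b0 + b2) _ r1
    have t2 := tt_le h1 b2 (b0 + b1) _ q2
    have s := sq_lower (S := iv b0 + iv b1 + iv b2) (m := 17 / 36) (by linarith) (by norm_num)
    norm_num at s t0 t1 t2 ⊢
    linarith
  · have r0 := iv_ninth e0
    have r1 := iv_ninth e1
    have r2 := iv_ninth e2
    have t0 := tt_le h1 b0 (b1 + b2) _ r0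
    have t1 := tt_le h1 b1 (b0 + b2) _ r1
    have t2 := tt_le h1 b2 (b0 + b1) _ r2
    have s := sq_lower (S := iv b0 + iv b1 + iv b2) (m := 1 / 3) (by linarith) (by norm_num)
    norm_num at s t0 t1 t2 ⊢
    linarith

lemma iv_sum (h1 : ALZ_Stmt) {b c σ : ℚ} (hσ : b + c = σ) (hs : ∃ n : ℤ, σ = n) :
    iv c = iv b := by
  obtain ⟨n, hn⟩ := hs
  have h2 : c = -b + n := by rw [← hn, ← hσ]; ring
  rw [h2, h1.2.2.2.1.1, h1.2.2.2.1.2.1]

end QINX

open QINX in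
theorem t_QIN (h1 : ALZ_Stmt) : QIN_Stmt := by
  classical
  intro b0 b1 b2 n0 n1 n2
  have q0 := (h1.2.2.2.1.2.2.2 b0).2.2 n0
  have q1 := (h1.2.2.2.1.2.2.2 b1).2.2 n1
  have q2 := (h1.2.2.2.1.2.2.2 b2).2.2 n2
  have p0 := (h1.2.2.2.1.2.2.2 b0).1
  have p1 := (h1.2.2.2.1.2.2.2 b1).1
  have p2 := (h1.2.2.2.1.2.2.2 b2).1
  refine ⟨fun hs => ?_, fun hs => ?_⟩
  · have e0 := iv_sum h1 (b := b0) (c := b1 + b2) (σ := b0 + b1 + b2) (by ring) hs
    have e1 := iv_sum h1 (b := b1) (c := b0 + b2) (σ := b0 + b1 + b2) (by ring) hs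
    have e2 := iv_sum h1 (b := b2) (c := b0 + b1) (σ := b0 + b1 + b2) (by ring) hs
    unfold QF
    rw [e0, e1, e2, iv_int h1 hs]
    constructor
    · nlinarith [mul_pos p0 p0, mul_pos p1 p1, mul_pos p2 p2]
    · nlinarith [mul_nonneg p0.le (sub_nonneg.2 q0), mul_nonneg p1.le (sub_nonneg.2 q1),
        mul_nonneg p2.le (sub_nonneg.2 q2), sq_nonneg (1 / 4 - (1 - (iv b0 + iv b1 + iv b2)))]
  · have t0 := term h1 b0 (b1 + b2) (b0 + b1 + b2) (by ring)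
    have t1 := term h1 b1 (b0 + b2) (b0 + b1 + b2) (by ring)
    have t2 := term h1 b2 (b0 + b1) (b0 + b1 + b2) (by ring)
    have hk := key h1 b0 b1 b2 n0 n1 n2
    have z0 := tt_nonneg b0 (b1 + b2)
    have z1 := tt_nonneg b1 (b0 + b2)
    have z2 := tt_nonneg b2 (b0 + b1)
    have hn : ((nuc b0 b1 b2 : ℕ) : ℚ) = (if ∃ n : ℤ, b1 + b2 = n then (1 : ℚ) else 0) +
        (if ∃ n : ℤ, b0 + b2 = n then 1 else 0) + (if ∃ n : ℤ, b0 + b1 = n then 1 else 0) := by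
      unfold nuc
      push_cast
      rfl
    have hQ : QF b0 b1 b2 = ((nuc b0 b1 b2 : ℚ) - 1) * (1 + iv (b0 + b1 + b2)) ^ 2 -
        2 * (1 - (iv b0 + iv b1 + iv b2)) ^ 2 +
        (tt b0 (b1 + b2) + tt b1 (b0 + b2) + tt b2 (b0 + b1)) := by
      unfold QF
      rw [t0, t1, t2, hn]
      ring
    constructor
    · have : (1 - (iv b0 + iv b1 + iv b2)) ^ 2 ≤ 1 := by
        have := pow_le_pow_left₀ (a := 1 - (iv b0 + iv b1 + iv b2)) (b := 1) (by linarith)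
          (by linarith) 2
        linarith
      rw [hQ]
      linarith
    · rw [hQ]
      linarith

end Pool.Agent.TW
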