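import Pool.Agent.TW.StT
import Pool.Agent.UA.Ratj

/-!
Theorem W (MP_31fd3b_gt), modules RTT and RCL: rational tangles are the diagrams of the rational
trees; three rational tangles.
-/

set_option autoImplicit false

open scoped BigOperators

namespace Pool.Agent.TW

open Pool.Agent.LibH11.Sliced Pool.Agent.MTR Pool.Agent.MTA Pool.Agent.UA Pool.Agent.UB
open Pool.Agent.TwoBr Pool.Agent.Mont Pool.Agent.TV
open Pool.Agent.TB hiding vec

namespace RTTaux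

theorem cnt_dg (h6 : FCG_Stmt) (T : Tr) : cnt 2 T.dg = some 2 := h6.2.2.2.2.1 T

theorem dg_cons0 (x : Tr) : (Tr.cons x (.pw 0)).dg = rotD x.dg := by
  show rotD x.dg ++ ht 0 = _
  rw [ht_zero, List.append_nil]

theorem ht_p1 : ht 1 = [(.crs true, 0)] := rfl

theorem ht_m1 : ht (-1) = [(.crs false, 0)] := rfl

theorem cnt_comp {s t : Diag} (hs : cnt 2 s = some 2) (ht : cnt 2 t = some 2) :
    cnt 2 (s ++ t) = some 2 := by
  rw [cnt_app hs]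
  exact ht

/-- adding a crossing -/
theorem tw (h1 : FTA_Stmt) (h2 : FCG_Stmt) {t : Diag} {v : ℤ × ℤ} (c : ℤ)
    (ih : cnt 2 t = some 2 ∧ ∃ T : Tr, T.Rat ∧ vec T = v ∧ EqD 2 t T.dg) :
    cnt 2 (t ++ ht c) = some 2 ∧ ∃ T : Tr, T.Rat ∧ vec T = (v.1 - c * v.2, v.2) ∧
      EqD 2 (t ++ ht c) T.dg := by
  obtain ⟨ct, T, hT, hv, hE⟩ := ih
  refine ⟨cnt_comp ct (cnt_ht c), T.shift c, Ratj.rat_shift T c hT, ?_, ?_⟩
  · rw [Ratj.vec_shift, hv]
    simp only [addv, Prod.mk.injEq]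
    constructor <;> ring
  · exact (h2.2.1 _ _ _ _ hE (EqD.refl _) ct (cnt_ht c)).trans (h1.2.2.2.2.1 T c).2.1

/-- a twist moves through a rational tangle -/
theorem flype (h3 : RTI_Stmt) (h5 : FFL_Stmt) (h6 : FCG_Stmt) {y : Tr} (hy : y.Rat) (e : ℤ) :
    EqD 2 (ht e ++ y.dg) (y.dg ++ ht e) := by
  have cy : cnt 2 y.dg = some 2 := cnt_dg h6 y
  have h := h5.2.1 y.dg e cy
  by_cases he : Even e
  · rw [if_pos he] at h
    exact h.symm
  · rw [if_neg he] at h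
    exact (h.trans (h6.2.1 _ _ _ _ (EqD.refl _) (h3 _ hy).1 (cnt_ht _) (cnt_hD _ cy))).symm

/-- a twist moves through a rotated rational tangle -/
theorem flype_rot (h3 : RTI_Stmt) (h5 : FFL_Stmt) (h6 : FCG_Stmt) {a : Tr} (ha : a.Rat) (e : ℤ) :
    EqD 2 (ht e ++ rotD a.dg) (rotD a.dg ++ ht e) := by
  have h := flype h3 h5 h6 (y := .cons a (.pw 0)) ⟨ha, rfl⟩ e
  rw [dg_cons0] at h
  exact h

/-- the same in front of a diagram -/
theorem push (h3 : RTI_Stmt) (h5 : FFL_Stmt) (h6 : FCG_Stmt) {a : Tr} (ha : a.Rat) (e : ℤ)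
    {s s' : Diag} (hs : cnt 2 s = some 2) (hE : EqD 2 (ht e ++ s) s') :
    EqD 2 (ht e ++ (rotD a.dg ++ s)) (rotD a.dg ++ s') := by
  have ca : cnt 2 (rotD a.dg) = some 2 := (h6.2.2.2.1 _ (cnt_dg h6 a)).1
  have e1 := h6.2.1 _ _ _ _ (flype_rot h3 h5 h6 ha e) (EqD.refl s)
    (cnt_comp (cnt_ht e) ca) hs
  have e2 := h6.2.1 _ _ _ _ (EqD.refl (rotD a.dg)) hE ca (cnt_comp (cnt_ht e) hs)
  rw [List.append_assoc, List.append_assoc] at e1
  exact e1.trans e2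

/-- a rational tree with the second coordinate different from `±1` -/
theorem form {T : Tr} (hT : T.Rat) (hv : 2 ≤ |(vec T).2|) :
    ∃ (a : Tr) (e : ℤ), T = .cons a (.pw e) ∧ a.Rat ∧ (vec a).1 = (vec T).2 := by
  match T, hT, hv with
  | .pw e, _, hv =>
    have h1 : (vec (Tr.pw e)).2 = 1 := rfl
    rw [h1, abs_one] at hv
    omega
  | .cons _ (.cons _ _), hT, _ => exact absurd hT.2 (Nat.succ_ne_zero _)
  | .cons a (.pw e), hT, _ =>
    refine ⟨a, e, rfl, hT.1, ?_⟩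
    rw [Ratj.vec_cons_pw]

end RTTaux

open RTTaux in
/-- RTT: rational tangles are the diagrams of the rational trees. -/
theorem t_RTT (h1 : FTA_Stmt) (h2 : FCG_Stmt) : RTT_Stmt := by
  intro t v h
  induction h with
  | strands => exact ⟨rfl, .pw 0, trivial, rfl, EqD.refl _⟩
  | @twist e t v _ ih =>
    cases e with
    | true =>
      have h := tw h1 h2 1 ih
      rw [ht_p1, one_mul] at h
      exact h
    | false =>
      have h := tw h1 h2 (-1) ih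
      rw [ht_m1, show v.1 - -1 * v.2 = v.1 + v.2 by ring] at h
      exact h
  | @rotate t v _ ih =>
    obtain ⟨ct, T, hT, hv, hE⟩ := ih
    refine ⟨(h2.2.2.2.1 _ ct).1, .cons T (.pw 0), ⟨hT, rfl⟩, ?_, ?_⟩
    · rw [Ratj.vec_cons_pw, hv, zero_mul, sub_zero]
    · rw [dg_cons0]
      exact (h2.1 _ _ hE ct).1

open RTTaux in
/-- RCL: three rational tangles. -/
theorem t_RCL (h1 : FFL_Stmt) (h2 : FCG_Stmt) (h3 : RTI_Stmt) : RCL_Stmt := by
  intro T1 T2 T3 R1 R2 R3 v1 v2 v3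
  obtain ⟨a, e1, rfl, ha, wa⟩ := form R1 v1
  obtain ⟨b, e2, rfl, hb, wb⟩ := form R2 v2
  obtain ⟨c, e3, rfl, hc, wc⟩ := form R3 v3
  refine ⟨a, b, c, e1 + (e2 + e3), ⟨ha, hb, hc⟩, ⟨wa, wb, wc⟩, ?_⟩
  show EqD 2 ((rotD a.dg ++ ht e1) ++ ((rotD b.dg ++ ht e2) ++ (rotD c.dg ++ ht e3)))
    (rotD a.dg ++ (rotD b.dg ++ (rotD c.dg ++ ht (e1 + (e2 + e3)))))
  have ca : cnt 2 (rotD a.dg) = some 2 := (h2.2.2.2.1 _ (cnt_dg h2 a)).1
  have cb : cnt 2 (rotD b.dg) = some 2 := (h2.2.2.2.1 _ (cnt_dg h2 b)).1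
  have cc : cnt 2 (rotD c.dg) = some 2 := (h2.2.2.2.1 _ (cnt_dg h2 c)).1
  have p1 := push h3 h1 h2 hc e2 (cnt_ht e3) (ht_add e2 e3)
  have c1 : cnt 2 (ht e2 ++ (rotD c.dg ++ ht e3)) = some 2 :=
    cnt_comp (cnt_ht e2) (cnt_comp cc (cnt_ht e3))
  have p2 := h2.2.1 _ _ _ _ (EqD.refl (rotD b.dg)) p1 cb c1
  have c2 := cnt_comp cb c1
  have p3 := h2.2.1 _ _ _ _ (EqD.refl (ht e1)) p2 (cnt_ht e1) c2
  have p4 := push h3 h1 h2 hb e1 (cnt_comp cc (cnt_ht (e2 + e3)))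
    (push h3 h1 h2 hc e1 (cnt_ht (e2 + e3)) (ht_add e1 (e2 + e3)))
  have p5 := h2.2.1 _ _ _ _ (EqD.refl (rotD a.dg)) (p3.trans p4) ca (cnt_comp (cnt_ht e1) c2)
  rw [List.append_assoc, List.append_assoc]
  exact p5

end Pool.Agent.TW
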