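import Pool.Agent.TW.StT
import Pool.Agent.UA.Fta
import Pool.Agent.UA.Ratj
import Pool.Agent.TV.Rti

/-!
Theorem W (MP_31fd3b_gt), module RTU: the diagram of a rational tree is determined by its direction.
-/

open scoped BigOperators

namespace Pool.Agent.TW

open Pool.Agent.LibH11.Sliced Pool.Agent.MTR Pool.Agent.MTA Pool.Agent.UA Pool.Agent.UB
open Pool.Agent.TwoBr Pool.Agent.Mont Pool.Agent.TV
open Pool.Agent.TB hiding vec

namespace Rtu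

/-- the symmetric tangles -/
def Inv (t : Diag) : Prop :=
  cnt 2 t = some 2 ∧ EqD 2 (hD 2 t) t ∧ EqD 2 (flipD t) t ∧ EqD 2 (pD 2 t) t

theorem mk3 (h6 : FSY_Stmt) (h7 : FEQ_Stmt) {t : Diag} (ct : cnt 2 t = some 2)
    (iH : EqD 2 (hD 2 t) t) (iF : EqD 2 (flipD t) t) : Inv t := by
  refine ⟨ct, iH, iF, ?_⟩
  have e := (h7 2 2 _ _ iH (cnt_hD _ ct)).2.2
  rw [(h6.2.1 t 2 2 ct).2.2.2.2.2.2.2.1] at e
  exact e.trans iF

theorem cnt_one (e : Bool) : cnt 2 [(Kind.crs e, 0)] = some 2 := by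
  cases e <;> rfl

theorem cnt_snoc {t : Diag} (ct : cnt 2 t = some 2) (e : Bool) :
    cnt 2 (t ++ [(.crs e, 0)]) = some 2 := by
  rw [cnt_app ct]
  exact cnt_one e

/-- a crossing in front of a symmetric tangle -/
theorem front (h3 : FFL_Stmt) (h5 : FCG_Stmt) {t : Diag} (ht : Inv t) (e : Bool) :
    EqD 2 ((.crs e, 0) :: t) (t ++ [(.crs e, 0)]) := by
  have e1 : EqD 2 ([(Kind.crs e, 0)] ++ t) ([(Kind.crs e, 0)] ++ hD 2 t) :=
    h5.2.1 _ _ _ _ (EqD.refl _) ht.2.1.symm (cnt_one e) ht.1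
  exact e1.trans (h3.1 t e ht.1).symm

theorem inv_snoc (h3 : FFL_Stmt) (h5 : FCG_Stmt) (h6 : FSY_Stmt) (h7 : FEQ_Stmt) {t : Diag}
    (hi : Inv t) (e : Bool) : Inv (t ++ [(.crs e, 0)]) := by
  refine mk3 h6 h7 (cnt_snoc hi.1 e) ?_ ?_
  · rw [(h6.1 t [(.crs e, 0)] 2 2 hi.1).1]
    have e1 : hD 2 [(Kind.crs e, 0)] = [(Kind.crs e, 0)] := by
      cases e
      · exact (h6.2.2.2 (-1)).1
      · exact (h6.2.2.2 1).1
    rw [e1]
    exact h5.2.1 _ _ _ _ hi.2.1 (EqD.refl _) (cnt_hD _ hi.1) (cnt_one e)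
  · rw [flipD_append]
    have e1 : flipD [(Kind.crs e, 0)] = [(Kind.crs e, 0)] := by
      cases e
      · exact (h6.2.2.2 (-1)).2
      · exact (h6.2.2.2 1).2
    rw [e1]
    have e2 : EqD 2 ([(Kind.crs e, 0)] ++ flipD t) ([(Kind.crs e, 0)] ++ t) :=
      h5.2.1 _ _ _ _ (EqD.refl _) hi.2.2.1 (cnt_one e) (cnt_flip _ hi.1)
    exact e2.trans (front h3 h5 hi e)

theorem inv_rot (h4 : FRO_Stmt) (h5 : FCG_Stmt) (h6 : FSY_Stmt) (h7 : FEQ_Stmt) {t : Diag}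
    (hi : Inv t) : Inv (rotD t) := by
  refine mk3 h6 h7 (Fta.cnt_rot h5 hi.1) ?_ ?_
  · exact (Fta.hD_rot h6 h4 _ hi.1).trans (h5.1 _ _ hi.2.2.1 (cnt_flip _ hi.1)).1
  · exact (Fta.flip_rot h6 h4 _ hi.1).trans (h5.1 _ _ hi.2.1 (cnt_hD _ hi.1)).1

theorem inv_nil : Inv [] := ⟨rfl, EqD.refl _, EqD.refl _, EqD.refl _⟩

/-- the symmetric tangles up to equivalence -/
def st : Setoid {t : Diag // Inv t} where
  r x y := EqD 2 x.1 y.1
  iseqv := ⟨fun x => EqD.refl x.1, fun h => EqD.symm h, fun h h' => EqD.trans h h'⟩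

/-- the quotient -/
def X : Type := Quotient st

/-- the class of a diagram -/
def mk (t : Diag) (h : Inv t) : X := Quotient.mk st ⟨t, h⟩

theorem mk_eq {t t' : Diag} {h : Inv t} {h' : Inv t'} (e : EqD 2 t t') : mk t h = mk t' h' :=
  Quotient.sound (s := st) e

theorem mk_ind (P : X → Prop) (h : ∀ t ht, P (mk t ht)) (x : X) : P x :=
  Quotient.ind (fun y => h y.1 y.2) x

/-- one more crossing -/
def cr (h3 : FFL_Stmt) (h5 : FCG_Stmt) (h6 : FSY_Stmt) (h7 : FEQ_Stmt) (e : Bool) : X → X :=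
  Quotient.map' (s₁ := st) (s₂ := st) (fun x => ⟨x.1 ++ [(.crs e, 0)], inv_snoc h3 h5 h6 h7 x.2 e⟩)
    fun x _ h => h5.2.1 _ _ _ _ h (EqD.refl _) x.2.1 (cnt_one e)

/-- rotation -/
def ro (h4 : FRO_Stmt) (h5 : FCG_Stmt) (h6 : FSY_Stmt) (h7 : FEQ_Stmt) : X → X :=
  Quotient.map' (s₁ := st) (s₂ := st) (fun x => ⟨rotD x.1, inv_rot h4 h5 h6 h7 x.2⟩)
    fun x _ h => (h5.1 _ _ h x.2.1).1

theorem cr_mk (h3 : FFL_Stmt) (h5 : FCG_Stmt) (h6 : FSY_Stmt) (h7 : FEQ_Stmt) (e : Bool) (t : Diag)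
    (h : Inv t) : cr h3 h5 h6 h7 e (mk t h) =
      mk (t ++ [(.crs e, 0)]) (inv_snoc h3 h5 h6 h7 h e) := rfl

theorem ro_mk (h4 : FRO_Stmt) (h5 : FCG_Stmt) (h6 : FSY_Stmt) (h7 : FEQ_Stmt) (t : Diag)
    (h : Inv t) : ro h4 h5 h6 h7 (mk t h) = mk (rotD t) (inv_rot h4 h5 h6 h7 h) := rfl

theorem inv_dg (h10 : RTI_Stmt) (h5 : FCG_Stmt) (T : Tr) (hT : T.Rat) : Inv T.dg :=
  ⟨Fta.cnt_dg h5 T, (h10 T hT).1, (h10 T hT).2.1, (h10 T hT).2.2⟩

open Classical in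
/-- the class of a rational tree -/
noncomputable def rev (h10 : RTI_Stmt) (h5 : FCG_Stmt) (T : Tr) : X :=
  if h : T.Rat then mk T.dg (inv_dg h10 h5 T h) else mk [] inv_nil

theorem rev_rat (h10 : RTI_Stmt) (h5 : FCG_Stmt) (T : Tr) (h : T.Rat) :
    rev h10 h5 T = mk T.dg (inv_dg h10 h5 T h) := dif_pos h

/-- two crossings cancel -/
theorem cancel (h5 : FCG_Stmt) (t : Diag) (ct : cnt 2 t = some 2) (e : Bool) :
    EqD 2 (t ++ [(.crs e, 0)] ++ [(.crs (!e), 0)]) t := by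
  rw [List.append_assoc]
  have e1 : EqD 2 ([(Kind.crs e, 0)] ++ [(Kind.crs (!e), 0)]) [] := by
    cases e
    · exact ht_add (-1) 1
    · exact ht_add 1 (-1)
  have e2 := h5.2.1 t t _ _ (EqD.refl t) e1 ct (by
    rw [cnt_app (cnt_one e)]
    exact cnt_one _)
  rwa [List.append_nil] at e2

/-- equivalence of rational trees with the same vector up to the sign -/
theorem key (h1 : RATG_Stmt) (h2 : FR3_Stmt) (h3 : FFL_Stmt) (h4 : FRO_Stmt)
    (h5 : FCG_Stmt) (h6 : FSY_Stmt) (h7 : FEQ_Stmt) (h8 : FTA_Stmt) (h9 : FIT_Stmt)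
    (h10 : RTI_Stmt) (T T' : Tr) (hT : T.Rat) (hT' : T'.Rat)
    (h : vec T = vec T' ∨ vec T = -vec T') : EqD 2 T.dg T'.dg := by
  have hcc : ∀ (e : Bool) (x : X), cr h3 h5 h6 h7 (!e) (cr h3 h5 h6 h7 e x) = x := by
    intro e
    refine mk_ind _ fun t ht => ?_
    rw [cr_mk, cr_mk]
    exact mk_eq (cancel h5 t ht.1 e)
  have hrr : ∀ x : X, ro h4 h5 h6 h7 (ro h4 h5 h6 h7 x) = x := by
    refine mk_ind _ fun t ht => ?_
    rw [ro_mk, ro_mk]
    exact mk_eq ((h4 t ht.1).1.trans ht.2.2.2)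
  have hrcr : ∀ x : X, ro h4 h5 h6 h7 (cr h3 h5 h6 h7 true (ro h4 h5 h6 h7 x)) =
      cr h3 h5 h6 h7 false (ro h4 h5 h6 h7 (cr h3 h5 h6 h7 false x)) := by
    refine mk_ind _ fun t ht => ?_
    rw [ro_mk, cr_mk, ro_mk, cr_mk, ro_mk, cr_mk]
    refine mk_eq ?_
    have e1 := h2 t true ht.1
    have hi1 : Inv (t ++ [(.crs false, 0)]) := inv_snoc h3 h5 h6 h7 ht false
    have e2 : EqD 2 (rotD ((.crs false, 0) :: t)) (rotD (t ++ [(.crs false, 0)])) := by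
      refine (h5.1 _ _ (front h3 h5 ht false) ?_).1
      show cnt 2 ([(Kind.crs false, 0)] ++ t) = some 2
      rw [cnt_app (cnt_one false)]
      exact ht.1
    have c2 : cnt 2 (rotD ((Kind.crs false, 0) :: t)) = some 2 := by
      refine Fta.cnt_rot h5 ?_
      show cnt 2 ([(Kind.crs false, 0)] ++ t) = some 2
      rw [cnt_app (cnt_one false)]
      exact ht.1
    have e3 : EqD 2 ([(Kind.crs false, 0)] ++ rotD ((.crs false, 0) :: t))
        ([(Kind.crs false, 0)] ++ rotD (t ++ [(.crs false, 0)])) :=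
      h5.2.1 _ _ _ _ (EqD.refl _) e2 (cnt_one false) c2
    exact e1.trans (e3.trans (front h3 h5 (inv_rot h4 h5 h6 h7 hi1) false))
  have hq : rev h10 h5 T = rev h10 h5 T' := by
    refine h1 X (cr h3 h5 h6 h7 true) (cr h3 h5 h6 h7 false) (ro h4 h5 h6 h7) (mk [] inv_nil)
      (rev h10 h5) (hcc false) (hcc true) hrr ?_ ?_ ?_ ?_ ?_ T T' hT hT' h
    · intro x
      have e1 := hrcr (cr h3 h5 h6 h7 true (ro h4 h5 h6 h7 x))
      have e2 : cr h3 h5 h6 h7 false (cr h3 h5 h6 h7 true (ro h4 h5 h6 h7 x)) =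
          ro h4 h5 h6 h7 x := hcc true _
      have e3 : cr h3 h5 h6 h7 true (cr h3 h5 h6 h7 false x) = x := hcc false _
      rw [e2, hrr] at e1
      rw [e1, e3]
    · rw [ro_mk, cr_mk, ro_mk]
      refine mk_eq ?_
      have e1 := (h9.1 true).2.1
      have e2 := (h5.1 _ _ e1 (cnt_snoc (Fta.cnt_rot h5 rfl) true)).1
      exact e2.trans h9.2.2.2.2.1
    · exact rev_rat h10 h5 (.pw 0) trivial
    · intro S hS
      rw [rev_rat h10 h5 S hS, rev_rat h10 h5 _ (Ratj.rat_shift S 1 hS), cr_mk]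
      exact mk_eq ((h8.2.2.2.2.1 S 1).2.1).symm
    · intro a ha
      rw [rev_rat h10 h5 a ha, rev_rat h10 h5 (.cons a (.pw 0)) ⟨ha, rfl⟩, ro_mk]
      refine mk_eq (EqD.of_eq ?_)
      show rotD a.dg ++ [] = rotD a.dg
      rw [List.append_nil]
  rw [rev_rat h10 h5 T hT, rev_rat h10 h5 T' hT'] at hq
  exact Quotient.exact (s := st) hq

end Rtu

theorem t_RTU (h1 : RATG_Stmt) (h2 : FR3_Stmt) (h3 : FFL_Stmt) (h4 : FRO_Stmt) (h5 : FCG_Stmt)
    (h6 : FSY_Stmt) (h7 : FEQ_Stmt) (h8 : FTA_Stmt) (h9 : FIT_Stmt) (h10 : RTI_Stmt)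
    (h11 : RU_Stmt) : RTU_Stmt := by
  intro R R' v hR hR'
  obtain ⟨hr, k, hk, hv⟩ := hR
  obtain ⟨hr', k', hk', hv'⟩ := hR'
  refine Rtu.key h1 h2 h3 h4 h5 h6 h7 h8 h9 h10 R R' hr hr' ?_
  have e1 := (h11.2.2.2.1 R v k hr hv hk).2.2
  have e2 := (h11.2.2.2.1 R' v k' hr' hv' hk').2.2
  rw [e1] at e2
  have e3 : k.natAbs = k'.natAbs := by exact_mod_cast e2
  have e4 : k • vec R = k' • vec R' := hv.symm.trans hv'
  have a1 := congrArg Prod.fst e4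
  have a2 := congrArg Prod.snd e4
  simp only [Prod.smul_fst, Prod.smul_snd, smul_eq_mul] at a1 a2
  rcases Int.natAbs_eq_natAbs_iff.1 e3 with h | h
  · subst h
    left
    exact Prod.ext (mul_left_cancel₀ hk a1) (mul_left_cancel₀ hk a2)
  · right
    subst h
    refine Prod.ext (mul_left_cancel₀ hk' ?_) (mul_left_cancel₀ hk' ?_)
    · rw [Prod.fst_neg]
      linarith
    · rw [Prod.snd_neg]
      linarith

end Pool.Agent.TW
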