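import Pool.Agent.TW.StA

/-!
Theorem W (MP_31fd3b_gt): module SLQ, the alternating sums determine the slopes modulo 1.
-/

open scoped BigOperators Real

namespace Pool.Agent.TW

open Pool.Agent.LibH11.Sliced Pool.Agent.MTR Pool.Agent.MTA Pool.Agent.UA Pool.Agent.UB
open Pool.Agent.TwoBr Pool.Agent.Mont Pool.Agent.TV
open Pool.Agent.TB hiding vec

namespace SLQ

/-- congruence modulo 1 -/
def cg (a b : ℚ) : Prop := ∃ n : ℤ, a - b = n

theorem cg_refl (a : ℚ) : cg a a := ⟨0, by simp⟩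

theorem cg_symm {a b : ℚ} (h : cg a b) : cg b a := by
  obtain ⟨n, hn⟩ := h
  exact ⟨-n, by push_cast; linarith⟩

open Classical in
/-- the indicator function of a class -/
noncomputable def ind (β x : ℚ) : ℂ := if cg x β then 1 else 0

theorem ind_pos {β x : ℚ} (h : cg x β) : ind β x = 1 := by
  unfold ind
  rw [if_pos h]

theorem ind_neg {β x : ℚ} (h : ¬ cg x β) : ind β x = 0 := by
  unfold ind
  rw [if_neg h]

theorem ind_per (β : ℚ) : Per1 (ind β) := by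
  intro x n
  have : cg (x + n) β ↔ cg x β := by
    constructor
    · rintro ⟨m, hm⟩
      exact ⟨m - n, by push_cast; linarith⟩
    · rintro ⟨m, hm⟩
      exact ⟨m + n, by push_cast; linarith⟩
  by_cases h : cg x β
  · rw [ind_pos h, ind_pos (this.2 h)]
  · rw [ind_neg h, ind_neg fun h' => h (this.1 h')]

theorem per_cg {φ : ℚ → ℂ} (hφ : Per1 φ) {a b : ℚ} (h : cg a b) : φ a = φ b := by
  obtain ⟨n, hn⟩ := h
  have : a = b + n := by linarith
  rw [this, hφ]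

/-- the difference of a function at two opposite points -/
noncomputable def df (φ : ℚ → ℂ) (σ b : ℚ) : ℂ := φ b - φ (σ - b)

/-- the sign of a sum of differences -/
theorem ind_cases (β x : ℚ) : ind β x = 1 ∨ ind β x = 0 := by
  by_cases h : cg x β
  · exact Or.inl (ind_pos h)
  · exact Or.inr (ind_neg h)

/-- three numbers which are congruent to their opposite -/
theorem two_of_three {σ b0 b1 b2 : ℚ} (h0 : cg (σ - b0) b0) (h1 : cg (σ - b1) b1)
    (h2 : cg (σ - b2) b2) : cg (σ - b1) b0 ∨ cg (σ - b2) b0 ∨ cg (σ - b2) b1 := by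
  obtain ⟨n0, h0⟩ := h0
  obtain ⟨n1, h1⟩ := h1
  obtain ⟨n2, h2⟩ := h2
  have key : ∀ (x y : ℚ) (m n : ℤ), σ - x - x = m → σ - y - y = n → m % 2 = n % 2 →
      cg (σ - y) x := by
    intro x y m n hm hn hmn
    obtain ⟨k, hk⟩ : ∃ k : ℤ, m = n + 2 * k := ⟨(m - n) / 2, by omega⟩
    refine ⟨n + k, ?_⟩
    have : (m : ℚ) = n + 2 * k := by exact_mod_cast hk
    push_cast
    linarith
  by_cases h01 : n0 % 2 = n1 % 2
  · exact Or.inl (key b0 b1 n0 n1 h0 h1 h01)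
  by_cases h02 : n0 % 2 = n2 % 2
  · exact Or.inr (Or.inl (key b0 b2 n0 n2 h0 h2 h02))
  exact Or.inr (Or.inr (key b1 b2 n1 n2 h1 h2 (by omega)))

/-- two pairs -/
theorem pair {σ b1 b2 c1 c2 : ℚ}
    (h : ∀ φ : ℚ → ℂ, Per1 φ → df φ σ b1 + df φ σ b2 = df φ σ c1 + df φ σ c2)
    (hs : cg (b1 + b2) (c1 + c2)) (hb : ¬ cg (σ - b2) b1) (hc : ¬ cg (σ - c2) c1) :
    (cg b1 c1 ∧ cg b2 c2) ∨ (cg b1 c2 ∧ cg b2 c1) := by
  have hb' : ¬ cg (σ - b1) b2 := by
    rintro ⟨n, hn⟩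
    exact hb ⟨n, by linarith⟩
  have hc' : ¬ cg (σ - c1) c2 := by
    rintro ⟨n, hn⟩
    exact hc ⟨n, by linarith⟩
  -- completion
  have q1 : cg b1 c1 → (cg b1 c1 ∧ cg b2 c2) := by
    intro h1
    refine ⟨h1, ?_⟩
    obtain ⟨n, hn⟩ := h1
    obtain ⟨m, hm⟩ := hs
    exact ⟨m - n, by push_cast; linarith⟩
  have q2 : cg b1 c2 → (cg b1 c2 ∧ cg b2 c1) := by
    intro h1
    refine ⟨h1, ?_⟩
    obtain ⟨n, hn⟩ := h1
    obtain ⟨m, hm⟩ := hs
    exact ⟨m - n, by push_cast; linarith⟩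
  have q3 : cg b2 c1 → (cg b1 c2 ∧ cg b2 c1) := by
    intro h1
    refine ⟨?_, h1⟩
    obtain ⟨n, hn⟩ := h1
    obtain ⟨m, hm⟩ := hs
    exact ⟨m - n, by push_cast; linarith⟩
  have q4 : cg b2 c2 → (cg b1 c1 ∧ cg b2 c2) := by
    intro h1
    refine ⟨?_, h1⟩
    obtain ⟨n, hn⟩ := h1
    obtain ⟨m, hm⟩ := hs
    exact ⟨m - n, by push_cast; linarith⟩
  -- the matching of one element
  have mt : ∀ x y u v : ℚ, (∀ φ : ℚ → ℂ, Per1 φ → df φ σ x + df φ σ y = df φ σ u + df φ σ v) →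
      ¬ cg (σ - x) x → ¬ cg (σ - y) x → cg u x ∨ cg v x := by
    intro x y u v hh h1 h2
    by_contra hcon
    push Not at hcon
    obtain ⟨k1, k2⟩ := hcon
    have := hh (ind x) (ind_per x)
    unfold df at this
    rw [ind_pos (cg_refl x), ind_neg h1, ind_neg h2, ind_neg k1, ind_neg k2] at this
    rcases ind_cases x y with e1 | e1 <;> rcases ind_cases x (σ - u) with e2 | e2 <;>
      rcases ind_cases x (σ - v) with e3 | e3 <;> rw [e1, e2, e3] at this <;>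
      norm_num at this
  by_cases k1 : cg (σ - b1) b1
  · by_cases k2 : cg (σ - b2) b2
    · by_cases k3 : cg (σ - c1) c1
      · by_cases k4 : cg (σ - c2) c2
        · -- all four
          have r1 := two_of_three k1 k2 k3
          have r2 := two_of_three k1 k3 k4
          rcases r1 with r1 | r1 | r1
          · exact absurd r1 hb
          · -- σ - c1 ≡ b1, σ - c1 ≡ c1
            left
            apply q1
            obtain ⟨n, hn⟩ := r1
            obtain ⟨m, hm⟩ := k3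
            exact ⟨m - n, by push_cast; linarith⟩
          · right
            apply q3
            obtain ⟨n, hn⟩ := r1
            obtain ⟨m, hm⟩ := k3
            exact ⟨m - n, by push_cast; linarith⟩
        · rcases mt c2 c1 b1 b2 (fun φ hφ => by rw [h φ hφ]; ring) k4 hc' with r | r
          · exact Or.inr (q2 r)
          · exact Or.inl (q4 r)
      · rcases mt c1 c2 b1 b2 (fun φ hφ => by rw [h φ hφ]) k3 hc with r | r
        · exact Or.inl (q1 r)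
        · exact Or.inr (q3 r)
    · rcases mt b2 b1 c1 c2 (fun φ hφ => by rw [← h φ hφ]; ring) k2 hb' with r | r
      · exact Or.inr (q3 (cg_symm r))
      · exact Or.inl (q4 (cg_symm r))
  · rcases mt b1 b2 c1 c2 (fun φ hφ => h φ hφ) k1 hb with r | r
    · exact Or.inl (q1 (cg_symm r))
    · exact Or.inr (q2 (cg_symm r))

/-- the hypotheses -/
structure HH (σ b0 b1 b2 c0 c1 c2 : ℚ) : Prop where
  sb : b0 + b1 + b2 = σ
  sc : c0 + c1 + c2 = σ
  nb0 : ¬ ∃ n : ℤ, b0 = n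
  nb1 : ¬ ∃ n : ℤ, b1 = n
  nb2 : ¬ ∃ n : ℤ, b2 = n
  nc0 : ¬ ∃ n : ℤ, c0 = n
  nc1 : ¬ ∃ n : ℤ, c1 = n
  nc2 : ¬ ∃ n : ℤ, c2 = n
  ph : ∀ φ : ℚ → ℂ, Per1 φ →
    df φ σ b0 + df φ σ b1 + df φ σ b2 = df φ σ c0 + df φ σ c1 + df φ σ c2

/-- the conclusion -/
def PM (b0 b1 b2 c0 c1 c2 : ℚ) : Prop :=
  (([b0, b1, b2] : List ℚ).map Int.fract).Perm (([c0, c1, c2] : List ℚ).map Int.fract)

theorem PM_of {b0 b1 b2 c0 c1 c2 : ℚ} (h0 : cg b0 c0) (h1 : cg b1 c1) (h2 : cg b2 c2) :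
    PM b0 b1 b2 c0 c1 c2 := by
  have e0 : Int.fract b0 = Int.fract c0 := Int.fract_eq_fract.2 h0
  have e1 : Int.fract b1 = Int.fract c1 := Int.fract_eq_fract.2 h1
  have e2 : Int.fract b2 = Int.fract c2 := Int.fract_eq_fract.2 h2
  unfold PM
  simp only [List.map_cons, List.map_nil, e0, e1, e2]
  exact List.Perm.refl _

theorem PM_sw01 {b0 b1 b2 c0 c1 c2 : ℚ} (h : PM b0 b1 b2 c0 c1 c2) :
    PM b1 b0 b2 c0 c1 c2 := by
  unfold PM at *
  simp only [List.map_cons, List.map_nil] at *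
  exact (List.Perm.swap _ _ _).trans h

theorem PM_sw12 {b0 b1 b2 c0 c1 c2 : ℚ} (h : PM b0 b1 b2 c0 c1 c2) :
    PM b0 b2 b1 c0 c1 c2 := by
  unfold PM at *
  simp only [List.map_cons, List.map_nil] at *
  exact ((List.Perm.swap _ _ _).cons _).trans h

theorem PM_symm {b0 b1 b2 c0 c1 c2 : ℚ} (h : PM b0 b1 b2 c0 c1 c2) :
    PM c0 c1 c2 b0 b1 b2 := List.Perm.symm h

theorem HH.symm {σ b0 b1 b2 c0 c1 c2 : ℚ} (h : HH σ b0 b1 b2 c0 c1 c2) :
    HH σ c0 c1 c2 b0 b1 b2 :=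
  ⟨h.sc, h.sb, h.nc0, h.nc1, h.nc2, h.nb0, h.nb1, h.nb2, fun φ hφ => (h.ph φ hφ).symm⟩

theorem HH.sw01 {σ b0 b1 b2 c0 c1 c2 : ℚ} (h : HH σ b0 b1 b2 c0 c1 c2) :
    HH σ b1 b0 b2 c0 c1 c2 :=
  ⟨by rw [← h.sb]; ring, h.sc, h.nb1, h.nb0, h.nb2, h.nc0, h.nc1, h.nc2,
    fun φ hφ => by rw [← h.ph φ hφ]; ring⟩

theorem HH.sw12 {σ b0 b1 b2 c0 c1 c2 : ℚ} (h : HH σ b0 b1 b2 c0 c1 c2) :
    HH σ b0 b2 b1 c0 c1 c2 :=
  ⟨by rw [← h.sb]; ring, h.sc, h.nb0, h.nb2, h.nb1, h.nc0, h.nc1, h.nc2,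
    fun φ hφ => by rw [← h.ph φ hφ]; ring⟩

/-- no two slopes are opposite -/
theorem HH.op {σ b0 b1 b2 c0 c1 c2 : ℚ} (h : HH σ b0 b1 b2 c0 c1 c2) :
    ¬ cg (σ - b1) b0 ∧ ¬ cg (σ - b2) b0 ∧ ¬ cg (σ - b2) b1 := by
  have hs := h.sb
  refine ⟨?_, ?_, ?_⟩
  · rintro ⟨n, hn⟩
    exact h.nb2 ⟨n, by linarith⟩
  · rintro ⟨n, hn⟩
    exact h.nb1 ⟨n, by linarith⟩
  · rintro ⟨n, hn⟩
    exact h.nb0 ⟨n, by linarith⟩

theorem core0 {σ b0 b1 b2 c0 c1 c2 : ℚ} (h : HH σ b0 b1 b2 c0 c1 c2) (h0 : cg b0 c0) :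
    PM b0 b1 b2 c0 c1 c2 := by
  have hp : ∀ φ : ℚ → ℂ, Per1 φ → df φ σ b1 + df φ σ b2 = df φ σ c1 + df φ σ c2 := by
    intro φ hφ
    have e : df φ σ b0 = df φ σ c0 := by
      unfold df
      rw [per_cg hφ h0]
      congr 1
      apply per_cg hφ
      obtain ⟨n, hn⟩ := h0
      exact ⟨-n, by push_cast; linarith⟩
    have := h.ph φ hφ
    rw [e] at this
    linear_combination this
  have hs : cg (b1 + b2) (c1 + c2) := by
    obtain ⟨n, hn⟩ := h0
    have h1 := h.sb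
    have h2 := h.sc
    exact ⟨-n, by push_cast; linarith⟩
  rcases pair hp hs h.op.2.2 h.symm.op.2.2 with ⟨r1, r2⟩ | ⟨r1, r2⟩
  · exact PM_of h0 r1 r2
  · exact PM_sw12 (PM_of h0 r2 r1)

theorem core {σ b0 b1 b2 c0 c1 c2 : ℚ} (h : HH σ b0 b1 b2 c0 c1 c2)
    (k : ¬ cg (σ - b0) b0) : PM b0 b1 b2 c0 c1 c2 := by
  have hm : cg c0 b0 ∨ cg c1 b0 ∨ cg c2 b0 := by
    by_contra hcon
    push Not at hcon
    obtain ⟨k0, k1, k2⟩ := hcon
    have := h.ph (ind b0) (ind_per b0)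
    unfold df at this
    rw [ind_pos (cg_refl b0), ind_neg k, ind_neg h.op.1, ind_neg h.op.2.1, ind_neg k0,
      ind_neg k1, ind_neg k2] at this
    rcases ind_cases b0 b1 with e1 | e1 <;> rcases ind_cases b0 b2 with e2 | e2 <;>
      rcases ind_cases b0 (σ - c0) with e3 | e3 <;>
      rcases ind_cases b0 (σ - c1) with e4 | e4 <;>
      rcases ind_cases b0 (σ - c2) with e5 | e5 <;> rw [e1, e2, e3, e4, e5] at this <;>
      norm_num at this
  rcases hm with hm | hm | hm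
  · exact core0 h (cg_symm hm)
  · have h' : HH σ b0 b1 b2 c1 c0 c2 := h.symm.sw01.symm
    exact PM_symm (PM_sw01 (PM_symm (core0 h' (cg_symm hm))))
  · have h' : HH σ b0 b1 b2 c2 c0 c1 := h.symm.sw12.sw01.symm
    exact PM_symm (PM_sw12 (PM_sw01 (PM_symm (core0 h' (cg_symm hm)))))

theorem all {σ b0 b1 b2 c0 c1 c2 : ℚ} (h : HH σ b0 b1 b2 c0 c1 c2) :
    PM b0 b1 b2 c0 c1 c2 := by
  by_cases k0 : cg (σ - b0) b0
  · by_cases k1 : cg (σ - b1) b1
    · by_cases k2 : cg (σ - b2) b2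
      · exfalso
        rcases two_of_three k0 k1 k2 with r | r | r
        · exact h.op.1 r
        · exact h.op.2.1 r
        · exact h.op.2.2 r
      · exact PM_sw12 (PM_sw01 (core (h.sw12.sw01) k2))
    · exact PM_sw01 (core h.sw01 k1)
  · exact core h k0

theorem al_df (φ : ℚ → ℂ) (σ b0 b1 b2 : ℚ) :
    al φ σ b0 b1 b2 = φ 0 - φ σ - (df φ σ b0 + df φ σ b1 + df φ σ b2) := by
  unfold al df
  ring

end SLQ

open SLQ

open Classical in
theorem t_SLQ3 (b0 b1 b2 σ : ℚ) (hs : b0 + b1 + b2 = σ)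
    (h0 : ¬ ∃ n : ℤ, b0 = n) (h1 : ¬ ∃ n : ℤ, b1 = n) (h2 : ¬ ∃ n : ℤ, b2 = n)
    (hσ : ¬ ∃ n : ℤ, σ = n) :
    al (fun β : ℚ => if ∃ n : ℤ, β = n then (1 : ℂ) else 0) σ b0 b1 b2 =
      1 + (nuc b0 b1 b2 : ℂ) := by
  have e0 : σ - b0 = b1 + b2 := by rw [← hs]; ring
  have e1 : σ - b1 = b0 + b2 := by rw [← hs]; ring
  have e2 : σ - b2 = b0 + b1 := by rw [← hs]; ring
  have z : ∃ n : ℤ, (0 : ℚ) = n := ⟨0, by simp⟩
  unfold al nuc
  simp only [e0, e1, e2, if_pos z, if_neg hσ, if_neg h0, if_neg h1, if_neg h2]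
  push_cast
  ring

theorem t_SLQ : SLQ_Stmt := by
  classical
  refine ⟨?_, ?_, ?_⟩
  · intro b0 b1 b2 c0 c1 c2 σ hb hc n0 n1 n2 m0 m1 m2 h
    refine SLQ.all (σ := σ) ⟨hb, hc, n0, n1, n2, m0, m1, m2, fun φ hφ => ?_⟩
    have := h φ hφ
    rw [al_df, al_df] at this
    linear_combination -this
  · intro b0 b1 b2 σ hs n0 n1 n2
    by_cases hσ : ∃ n : ℤ, σ = n
    · have hz : ∀ φ : ℚ → ℂ, Per1 φ → φ σ = φ 0 := by
        intro φ hφ
        apply per_cg hφ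
        obtain ⟨n, hn⟩ := hσ
        exact ⟨n, by rw [hn]; ring⟩
      have o1 : ¬ cg (σ - b1) b0 := by
        rintro ⟨n, hn⟩
        exact n2 ⟨n, by linarith⟩
      have o2 : ¬ cg (σ - b2) b0 := by
        rintro ⟨n, hn⟩
        exact n1 ⟨n, by linarith⟩
      have o3 : ¬ cg (σ - b2) b1 := by
        rintro ⟨n, hn⟩
        exact n0 ⟨n, by linarith⟩
      have o1' : ¬ cg (σ - b0) b1 := by
        rintro ⟨n, hn⟩
        exact n2 ⟨n, by linarith⟩
      have o2' : ¬ cg (σ - b0) b2 := by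
        rintro ⟨n, hn⟩
        exact n1 ⟨n, by linarith⟩
      have o3' : ¬ cg (σ - b1) b2 := by
        rintro ⟨n, hn⟩
        exact n0 ⟨n, by linarith⟩
      have key : ∀ x y z : ℚ, ¬ cg (σ - x) x → ¬ cg (σ - y) x → ¬ cg (σ - z) x →
          df (ind x) σ x + df (ind x) σ y + df (ind x) σ z ≠ 0 := by
        intro x y z k0 k1 k2
        unfold df
        rw [ind_pos (cg_refl x), ind_neg k0, ind_neg k1, ind_neg k2]
        rcases ind_cases x y with e1 | e1 <;> rcases ind_cases x z with e2 | e2 <;>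
          rw [e1, e2] <;> norm_num
      by_cases k0 : cg (σ - b0) b0
      · by_cases k1 : cg (σ - b1) b1
        · by_cases k2 : cg (σ - b2) b2
          · exfalso
            rcases two_of_three k0 k1 k2 with r | r | r
            · exact o1 r
            · exact o2 r
            · exact o3 r
          · refine ⟨ind b2, ind_per b2, ?_⟩
            rw [al_df, hz _ (ind_per b2)]
            intro hcon
            apply key b2 b0 b1 k2 o2' o3'
            linear_combination -hcon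
        · refine ⟨ind b1, ind_per b1, ?_⟩
          rw [al_df, hz _ (ind_per b1)]
          intro hcon
          apply key b1 b0 b2 k1 o1' o3
          linear_combination -hcon
      · refine ⟨ind b0, ind_per b0, ?_⟩
        rw [al_df, hz _ (ind_per b0)]
        intro hcon
        apply key b0 b1 b2 k0 o1 o2
        linear_combination -hcon
    · refine ⟨fun β : ℚ => if ∃ n : ℤ, β = n then (1 : ℂ) else 0, ?_, ?_⟩
      · intro β n
        have : (∃ m : ℤ, β + n = m) ↔ ∃ m : ℤ, β = m := by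
          constructor
          · rintro ⟨m, hm⟩
            exact ⟨m - n, by push_cast; linarith⟩
          · rintro ⟨m, hm⟩
            exact ⟨m + n, by push_cast; linarith⟩
        simp only [this]
      · rw [t_SLQ3 b0 b1 b2 σ hs n0 n1 n2 hσ]
        have : (1 + nuc b0 b1 b2 : ℕ) ≠ 0 := by omega
        exact_mod_cast this
  · intro b0 b1 b2 σ hs n0 n1 n2 hσ
    exact t_SLQ3 b0 b1 b2 σ hs n0 n1 n2 hσ

end Pool.Agent.TW
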