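import Pool.Agent.TW.StA
import Pool.Agent.TV.Strc

/-!
Theorem W (MP_31fd3b_gt), SW: closed reduced trees without correction.
-/

open scoped BigOperators

namespace Pool.Agent.TW

open Pool.Agent.LibH11.Sliced Pool.Agent.MTR Pool.Agent.MTA Pool.Agent.UA Pool.Agent.UB
open Pool.Agent.TwoBr Pool.Agent.Mont Pool.Agent.TV
open Pool.Agent.TB hiding vec

namespace SW

open Pool.Agent.TV.Strc (parts dt_a dt_b ne_of_dt coprime_rat rat_cases rat_child vec_cons_pw)

theorem coprime_rv {y : Tr} (hy : y.Rat) : IsCoprime (rv (vec y)).1 (rv (vec y)).2 := by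
  obtain ⟨u, v, huv⟩ := coprime_rat y hy
  exact ⟨-v, u, by
    show -v * -(vec y).2 + u * (vec y).1 = 1
    linear_combination huv⟩

theorem claimQ (h1 : CRN_Stmt) (h2 : SGN_Stmt) :
    ∀ (x y : Tr), y.Rat → 2 ≤ |(vec y).1| → |(vec y).2| < |(vec y).1| →
      dt (rv (vec y)) (vec x) ≠ 0 → x.RC → ¬ x.Rat → (x.kids ≤ 1 → 2 ≤ |x.ex|) →
      cr (rv (vec y)) x = 0 →
      ∃ a b c e, Q3 y x a b c e ∧ (a.Rat ∧ b.Rat ∧ c.Rat) ∧
        (2 ≤ |(vec a).1| ∧ 2 ≤ |(vec b).1| ∧ 2 ≤ |(vec c).1|) := by
  intro x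
  induction x with
  | pw e => intro y _ _ _ _ _ hR; exact absurd trivial hR
  | cons a b iha ihb =>
    intro y hy hy1 hy2 hd hRC hR hk hc
    obtain ⟨p1, p2, p3, p4⟩ := parts h1 (rv (vec y)) a b hd
    have da : dt (rv (addv (rv (vec y)) (vec b))) (vec a) ≠ 0 := by rw [dt_a]; exact hd
    have db : dt (addv (rv (vec y)) (rv (vec a))) (vec b) ≠ 0 := by rw [dt_b]; exact hd
    have ha := (ne_of_dt da).2
    have hb := (ne_of_dt db).2
    obtain ⟨-, -, e3⟩ := h1.2.1 (rv (vec y)) a b hd
    obtain ⟨e4, e5, e6⟩ := e3 (coprime_rv hy) hy1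
    obtain ⟨ra, ka, rb⟩ := hRC
    by_cases hRa : a.Rat
    · obtain ⟨x1, x2⟩ := h2.2.2 a ra hRa ka
      have hkb : b.kids ≠ 0 := fun h => hR ⟨hRa, h⟩
      by_cases hRb : b.Rat
      · rcases rat_cases hRb with ⟨e, rfl⟩ | ⟨c, e, hcR, rfl⟩
        · exact absurd rfl hkb
        · obtain ⟨r1, r2, -⟩ := rb
          obtain ⟨w1, w2⟩ := h2.2.2 c r1 hcR r2
          refine ⟨a, c, y, e, Q3.base y a c e, ⟨hRa, hcR, hy⟩, ?_, ?_, hy1⟩
          · omega
          · omega
      · exfalso
        have := p2 (e6 (coprime_rat a hRa) (by omega)) ((h1.1 b hb).2.2 rb hRb)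
        rw [hc] at this
        exact lt_irrefl _ this
    · have ga := (h1.1 a ha).2.2 ra hRa
      by_cases hRb : b.Rat
      · by_cases hkb : b.kids = 0
        · rcases rat_cases hRb with ⟨e, rfl⟩ | ⟨c, e, hcR, rfl⟩
          · have he : 2 ≤ |e| := hk (by simp [Tr.kids])
            have hy' : (Tr.cons y (.pw e)).Rat := ⟨hy, rfl⟩
            have hv := vec_cons_pw y e
            have hbig : |(vec y).1| < |(vec (.cons y (.pw e))).1| := by
              rw [hv]
              show |(vec y).1| < |-(vec y).2 - e * (vec y).1|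
              have q1 : |e * (vec y).1| - |(vec y).2| ≤ |-(vec y).2 - e * (vec y).1| := by
                have := abs_sub_abs_le_abs_sub (e * (vec y).1) (-(vec y).2)
                rw [abs_neg, abs_sub_comm (e * (vec y).1)] at this
                exact this
              rw [abs_mul] at q1
              have q2 : 2 * |(vec y).1| ≤ |e| * |(vec y).1| :=
                mul_le_mul_of_nonneg_right he (abs_nonneg _)
              omega
            have h2' : (vec (.cons y (.pw e))).2 = (vec y).1 := by rw [hv]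
            have hc0 : cr (rv (vec (.cons y (.pw e)))) a = 0 := by
              rcases ((h1.2.2.1 a _ da).1).eq_or_lt with h | h
              · exact h.symm
              · have := p3 h
                rw [hc] at this
                exact absurd this (lt_irrefl _)
            obtain ⟨a', b', c', e', hQ, hr⟩ := iha (.cons y (.pw e)) hy' (by omega)
              (by rw [h2']; exact hbig) da ra hRa ka hc0
            exact ⟨a', b', c', e', Q3.step y a e a' b' c' e' hQ, hr⟩
          · simp [Tr.kids] at hkb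
        · exfalso
          have := p1 (e5 (coprime_rat b hRb) (rat_child h2 rb hRb hkb)) ga
          rw [hc] at this
          exact lt_irrefl _ this
      · exfalso
        have := p1 (e4 rb hRb) ga
        rw [hc] at this
        exact lt_irrefl _ this

end SW

open SW in
open Pool.Agent.TV.Strc (parts dt_a dt_b ne_of_dt rat_cases) in
theorem t_SW (h1 : CRN_Stmt) (h2 : SGN_Stmt) : SW_Stmt := by
  intro T hCR hA hc
  cases T with
  | pw e => exact Or.inl trivial
  | cons a b =>
    obtain ⟨⟨ra, ka, rb⟩, hk⟩ := hCR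
    have hkk : (Tr.cons a b).kids = b.kids + 1 := rfl
    have hex : (Tr.cons a b).ex = b.ex := rfl
    rw [hkk, hex] at hk
    have hadd : ∀ v : ℤ × ℤ, addv (0, 1) v = v := by
      intro v
      obtain ⟨x, y⟩ := v
      simp only [addv, Prod.mk.injEq]
      constructor <;> ring
    have hd : dt (0, 1) (vec (.cons a b)) ≠ 0 := by
      unfold dt
      rw [hadd]
      exact hA
    obtain ⟨p1, p2, p3, p4⟩ := parts h1 (0, 1) a b hd
    have da : dt (rv (addv (0, 1) (vec b))) (vec a) ≠ 0 := by rw [dt_a]; exact hd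
    have db : dt (addv (0, 1) (rv (vec a))) (vec b) ≠ 0 := by rw [dt_b]; exact hd
    have ha := (ne_of_dt da).2
    have hb := (ne_of_dt db).2
    have no : ¬ 0 < cr (0, 1) (.cons a b) := by rw [hc]; exact lt_irrefl _
    by_cases hRa : a.Rat
    · by_cases hRb : b.Rat
      · exact Or.inl ⟨hRa, hRb⟩
      · obtain ⟨x1, x2⟩ := h2.2.2 a ra hRa ka
        right
        have h0 : cr (addv (0, 1) (rv (vec a))) b = 0 := by
          rcases ((h1.2.2.1 b _ db).1).eq_or_lt with h | h
          · exact h.symm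
          · exact absurd (p4 h) no
        rw [hadd] at db h0
        obtain ⟨a', b', c', e', hQ, hr1, hr2⟩ := claimQ h1 h2 b a hRa (by omega) x1 db rb hRb
          (fun h => hk (by omega)) h0
        exact ⟨a', b', c', e', hr1, hr2, a, b, rfl, Or.inr ⟨hRa, hQ⟩⟩
    · have ga := (h1.1 a ha).2.2 ra hRa
      by_cases hRb : b.Rat
      · have hkb : b.kids ≤ 1 := by
          rcases rat_cases hRb with ⟨e, rfl⟩ | ⟨c, e, hc, rfl⟩ <;> simp [Tr.kids]
        have hexb : 2 ≤ |b.ex| := hk (by omega)
        obtain ⟨x1, x2⟩ := h2.2.2 b rb hRb (fun _ => hexb)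
        right
        have h0 : cr (rv (addv (0, 1) (vec b))) a = 0 := by
          rcases ((h1.2.2.1 a _ da).1).eq_or_lt with h | h
          · exact h.symm
          · exact absurd (p3 h) no
        rw [hadd] at da h0
        obtain ⟨a', b', c', e', hQ, hr1, hr2⟩ := claimQ h1 h2 a b hRb (by omega) x1 da ra hRa ka h0
        exact ⟨a', b', c', e', hr1, hr2, a, b, rfl, Or.inl ⟨hRb, hQ⟩⟩
      · exfalso
        apply no
        refine p1 ?_ ga
        rw [h1.2.2.2 b]
        exact (h1.1 b hb).2.2 rb hRb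

end Pool.Agent.TW
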