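import Pool.Agent.TW.StT
import Pool.Agent.UA.Fta

/-!
Theorem W (MP_31fd3b_gt), module SYF: the indicator functions are symmetric.
-/

set_option autoImplicit false

open scoped BigOperators

namespace Pool.Agent.TW

open Pool.Agent.LibH11.Sliced Pool.Agent.MTR Pool.Agent.MTA Pool.Agent.UA Pool.Agent.UB
open Pool.Agent.TwoBr Pool.Agent.Mont Pool.Agent.TV
open Pool.Agent.TB hiding vec

namespace SYFaux

/-- the proposition in the indicator function, for two trees -/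
def Q (w : Diag) (R S : Tr) : Prop :=
  EqD 1 (cl (R.dg ++ S.dg)) w ∨ EqD 1 (cl (S.dg ++ R.dg)) w

theorem FF_congr {w : Diag} {P V P' V' : ℤ × ℤ} (h : Q w (rt P) (rt V) ↔ Q w (rt P') (rt V')) :
    FF w P V = FF w P' V' := by
  unfold FF
  unfold Q at h
  by_cases h1 : (EqD 1 (cl ((rt P).dg ++ (rt V).dg)) w ∨ EqD 1 (cl ((rt V).dg ++ (rt P).dg)) w)
  · rw [if_pos h1, if_pos (h.1 h1)]
  · rw [if_neg h1, if_neg (fun h2 => h1 (h.2 h2))]

theorem eqd_iff {a b w : Diag} (h : EqD 1 a b) : EqD 1 a w ↔ EqD 1 b w :=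
  ⟨fun h1 => h.symm.trans h1, fun h1 => h.trans h1⟩

theorem Q_iff {w : Diag} {R S R' S' : Tr} (h1 : EqD 1 (cl (R.dg ++ S.dg)) (cl (R'.dg ++ S'.dg)))
    (h2 : EqD 1 (cl (S.dg ++ R.dg)) (cl (S'.dg ++ R'.dg))) : Q w R S ↔ Q w R' S' :=
  or_congr (eqd_iff h1) (eqd_iff h2)

theorem cnt_dg (h6 : FCG_Stmt) (T : Tr) : cnt 2 T.dg = some 2 := h6.2.2.2.2.1 T

theorem cl_congr (h6 : FCG_Stmt) {s t s' t' : Diag} (hs : EqD 2 s s') (ht : EqD 2 t t')
    (cs : cnt 2 s = some 2) (ct : cnt 2 t = some 2) :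
    EqD 1 (cl (s ++ t)) (cl (s' ++ t')) := by
  have h := h6.2.1 s s' t t' hs ht cs ct
  have hc : cnt 2 (s ++ t) = some 2 := by rw [cnt_app cs]; exact ct
  exact (h6.1 _ _ h hc).2

/-- the trees can be replaced by trees of the same direction -/
theorem Q_dir (h1 : RTU_Stmt) (h6 : FCG_Stmt) {w : Diag} {R S R' S' : Tr} {P V : ℤ × ℤ}
    (hR : Dir R P) (hR' : Dir R' P) (hS : Dir S V) (hS' : Dir S' V) :
    Q w R S ↔ Q w R' S' := by
  have a := h1 R R' P hR hR'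
  have b := h1 S S' V hS hS'
  exact Q_iff (cl_congr h6 a b (cnt_dg h6 R) (cnt_dg h6 S))
    (cl_congr h6 b a (cnt_dg h6 S) (cnt_dg h6 R))

theorem dir_self {R : Tr} (h : R.Rat) : Dir R (vec R) := ⟨h, 1, one_ne_zero, (one_smul ℤ _).symm⟩

theorem dg_cons0 (x : Tr) : (Tr.cons x (.pw 0)).dg = rotD x.dg := by
  show rotD x.dg ++ ht 0 = _
  rw [ht_zero, List.append_nil]

/-- a twist moves through a rational tangle -/
theorem flype (h3 : RTI_Stmt) (h5 : FFL_Stmt) (h6 : FCG_Stmt) {y : Tr} (hy : y.Rat) (e : ℤ) :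
    EqD 2 (y.dg ++ ht e) (ht e ++ y.dg) := by
  have cy : cnt 2 y.dg = some 2 := cnt_dg h6 y
  have h := h5.2.1 y.dg e cy
  by_cases he : Even e
  · rw [if_pos he] at h
    exact h
  · rw [if_neg he] at h
    exact h.trans (h6.2.1 _ _ _ _ (EqD.refl _) (h3 _ hy).1 (cnt_ht _) (cnt_hD _ cy))

theorem rot_step (h3 : RTI_Stmt) (h4 : FC0_Stmt) (h6 : FCG_Stmt) {p q : Tr} (hp : p.Rat)
    (hq : q.Rat) : EqD 1 (cl (p.dg ++ rotD q.dg)) (cl (rotD p.dg ++ q.dg)) := by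
  have cp := cnt_dg h6 p
  have cq := cnt_dg h6 q
  have a := h4 p.dg q.dg cp cq
  have ch : cnt 2 (hD 2 p.dg) = some 2 := cnt_hD _ cp
  have a1 : EqD 2 (rotD (hD 2 p.dg)) (rotD p.dg) := (h6.1 _ _ (h3 _ hp).1 ch).1
  have c1 : cnt 2 (rotD (hD 2 p.dg)) = some 2 := (h6.2.2.2.1 _ ch).1
  exact a.trans (cl_congr h6 a1 (h3 _ hq).2.1 c1 (cnt_flip _ cq))

theorem dt_left {P V : ℤ × ℤ} (h : dt P V ≠ 0) : P ≠ 0 := by
  rintro rfl
  apply h
  show (0 : ℤ) * V.2 + V.1 * 0 = 0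
  ring

theorem dt_right {P V : ℤ × ℤ} (h : dt P V ≠ 0) : V ≠ 0 := by
  rintro rfl
  apply h
  show P.1 * (0 : ℤ) + 0 * P.2 = 0
  ring

theorem ne_of_dvd {a D : ℤ} (hD : D ≠ 0) (h : a ∣ D) : a ≠ 0 := by
  rintro rfl
  exact hD (zero_dvd_iff.1 h)

theorem sym (h1 : RTU_Stmt) (h2 : RU_Stmt) (h3 : RTI_Stmt) (h4 : FC0_Stmt) (h5 : FFL_Stmt)
    (h6 : FCG_Stmt) (h8 : FTA_Stmt) (w : Diag) (D : ℤ) (hD : D ≠ 0) : Sym D (FF w) where
  swap P V _ := FF_congr or_comm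
  rot P V hd := by
    have hn := ne_of_dvd hD hd
    have hP : P ≠ 0 := dt_left hn
    have hV : V ≠ 0 := by
      intro h
      apply dt_right hn
      rw [h]
      rfl
    have dP := h2.1 P hP
    have dV := h2.1 V hV
    have dP' := (h2.2.2.2.2 _ _ dP).2.1
    have dV' := (h2.2.2.2.2 _ _ dV).2.1
    have nP : rv P ≠ 0 := by
      intro h
      apply hP
      have e1 := congrArg Prod.fst h
      have e2 := congrArg Prod.snd h
      exact Prod.ext e2 (by simpa [rv] using e1)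
    have nV : rv V ≠ 0 := dt_right hn
    apply FF_congr
    rw [Q_dir h1 h6 (h2.1 _ nP) dP' dV dV, Q_dir h1 h6 dP dP (h2.1 _ nV) dV']
    apply Q_iff
    · rw [dg_cons0, dg_cons0]
      exact (rot_step h3 h4 h6 dP.1 dV.1).symm
    · rw [dg_cons0, dg_cons0]
      exact rot_step h3 h4 h6 dV.1 dP.1
  shift P V k hd := by
    have hn := ne_of_dvd hD hd
    have hP : P ≠ 0 := dt_left hn
    have nV : addv V (k, 1) ≠ 0 := dt_right hn
    have hV : V ≠ 0 := by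
      intro h
      apply nV
      rw [h]
      show ((0 : ℤ) * 1 + k * 0, (0 : ℤ) * 1) = 0
      simp
    have dP := h2.1 P hP
    have dV := h2.1 V hV
    have dP' : Dir ((rt P).shift (-k)) (addv P (k, 1)) := by
      have := (h2.2.2.2.2 _ _ dP).1 (-k)
      rwa [neg_neg] at this
    have dV' : Dir ((rt V).shift (-k)) (addv V (k, 1)) := by
      have := (h2.2.2.2.2 _ _ dV).1 (-k)
      rwa [neg_neg] at this
    have nP : addv P (k, 1) ≠ 0 := by
      obtain ⟨hr, m, hm, he⟩ := dP'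
      exact (h2.2.2.2.1 _ _ m hr he hm).1
    apply FF_congr
    rw [Q_dir h1 h6 (h2.1 _ nP) dP' dV dV, Q_dir h1 h6 dP dP (h2.1 _ nV) dV']
    have cP := cnt_dg h6 (rt P)
    have cV := cnt_dg h6 (rt V)
    have ce := cnt_ht (-k)
    have sP : EqD 2 ((rt P).shift (-k)).dg ((rt P).dg ++ ht (-k)) :=
      (h8.2.2.2.2.1 (rt P) (-k)).2.1.symm
    have sV : EqD 2 ((rt V).shift (-k)).dg ((rt V).dg ++ ht (-k)) :=
      (h8.2.2.2.2.1 (rt V) (-k)).2.1.symm
    have c1 : cnt 2 ((rt P).dg ++ ht (-k)) = some 2 := by rw [cnt_app cP]; exact ce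
    have c2 : cnt 2 ((rt V).dg ++ ht (-k)) = some 2 := by rw [cnt_app cV]; exact ce
    apply Q_iff
    · have a1 := cl_congr h6 sP (EqD.refl (rt V).dg) (cnt_dg h6 _) cV
      have a2 := cl_congr h6 (EqD.refl (rt P).dg) sV cP (cnt_dg h6 _)
      have a3 := cl_congr h6 (EqD.refl (rt P).dg) (flype h3 h5 h6 dV.1 (-k)) cP c2
      rw [List.append_assoc] at a1
      exact a1.trans (a3.symm.trans a2.symm)
    · have a1 := cl_congr h6 (EqD.refl (rt V).dg) sP cV (cnt_dg h6 _)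
      have a2 := cl_congr h6 sV (EqD.refl (rt P).dg) (cnt_dg h6 _) cP
      have a3 := cl_congr h6 (EqD.refl (rt V).dg) (flype h3 h5 h6 dP.1 (-k)) cV c1
      rw [List.append_assoc] at a2
      exact a1.trans (a3.trans a2.symm)
  scale P V k hd := by
    have hn := ne_of_dvd hD hd
    have nP : k • P ≠ 0 := dt_left hn
    have hV : V ≠ 0 := dt_right hn
    have hk : k ≠ 0 := by
      rintro rfl
      exact nP (zero_smul ℤ P)
    have hP : P ≠ 0 := by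
      rintro rfl
      exact nP (smul_zero k)
    have dP := h2.1 P hP
    have dV := h2.1 V hV
    have dP' := (h2.2.2.2.2 _ _ dP).2.2 k hk
    exact FF_congr (Q_dir h1 h6 (h2.1 _ nP) dP' dV dV)

theorem val (h1 : RTU_Stmt) (h2 : RU_Stmt) (h3 : RTI_Stmt) (h6 : FCG_Stmt) (h7 : FSY_Stmt)
    (w : Diag) (T : Tr) (hT : T2 T) :
    (EqD 1 (cl T.dg) w ∨ EqD 1 (flipD (cl T.dg)) w) ↔ Q w (rt (prT T).1) (rt (prT T).2) := by
  cases T with
  | pw e =>
    have d0 : Dir (.pw 0) (0, 1) := by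
      have := dir_self (R := .pw 0) trivial
      have e0 : vec (.pw 0) = (0, 1) := rfl
      rwa [e0] at this
    have de : Dir (.pw e) (-e, 1) := dir_self (R := .pw e) trivial
    have n0 : ((0, 1) : ℤ × ℤ) ≠ 0 := by simp
    have ne : ((-e, 1) : ℤ × ℤ) ≠ 0 := by
      intro h
      have := congrArg Prod.snd h
      simp at this
    show _ ↔ Q w (rt (0, 1)) (rt (-e, 1))
    rw [Q_dir h1 h6 (h2.1 _ n0) d0 (h2.1 _ ne) de]
    have c : cnt 2 (Tr.pw e).dg = some 2 := cnt_dg h6 _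
    have e1 : flipD (cl (Tr.pw e).dg) = cl (Tr.pw e).dg := by
      rw [(h7.2.2.1 _ c).2.2]
      show cl (flipD (ht e)) = cl (ht e)
      rw [(h7.2.2.2 e).2]
    have e2 : (Tr.pw 0).dg = [] := ht_zero
    unfold Q
    rw [e1, e2, List.nil_append, List.append_nil]
  | cons x y =>
    obtain ⟨hx, hy⟩ := hT
    have dx := (h2.2.2.2.2 _ _ (dir_self hx)).2.1
    have dy := dir_self hy
    have nx : rv (vec x) ≠ 0 := by
      obtain ⟨hr, m, hm, he⟩ := dx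
      exact (h2.2.2.2.1 _ _ m hr he hm).1
    have ny : vec y ≠ 0 := by
      obtain ⟨hr, m, hm, he⟩ := dy
      exact (h2.2.2.2.1 _ _ m hr he hm).1
    show _ ↔ Q w (rt (rv (vec x))) (rt (vec y))
    rw [Q_dir h1 h6 (h2.1 _ nx) dx (h2.1 _ ny) dy]
    have cx : cnt 2 x.dg = some 2 := cnt_dg h6 _
    have cy : cnt 2 y.dg = some 2 := cnt_dg h6 _
    have cr : cnt 2 (rotD x.dg) = some 2 := (h6.2.2.2.1 _ cx).1
    have cT : cnt 2 (Tr.cons x y).dg = some 2 := cnt_dg h6 _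
    have e1 : flipD (cl (Tr.cons x y).dg) = cl (flipD y.dg ++ flipD (rotD x.dg)) := by
      rw [(h7.2.2.1 _ cT).2.2]
      show cl (flipD (rotD x.dg ++ y.dg)) = _
      rw [flipD_append]
    have hr0 : (Tr.cons x (.pw 0)).Rat := ⟨hx, rfl⟩
    have e2 : EqD 2 (flipD (rotD x.dg)) (rotD x.dg) := by
      have := (h3 _ hr0).2.1
      rwa [dg_cons0] at this
    have e3 : EqD 1 (flipD (cl (Tr.cons x y).dg)) (cl (y.dg ++ rotD x.dg)) := by
      rw [e1]
      exact cl_congr h6 (h3 _ hy).2.1 e2 (cnt_flip _ cy) (cnt_flip _ cr)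
    unfold Q
    rw [dg_cons0]
    exact or_congr Iff.rfl (eqd_iff e3)

end SYFaux

open SYFaux

/-- SYF -/
theorem t_SYF (h1 : RTU_Stmt) (h2 : RU_Stmt) (h3 : RTI_Stmt) (h4 : FC0_Stmt) (h5 : FFL_Stmt)
    (h6 : FCG_Stmt) (h7 : FSY_Stmt) (h8 : FTA_Stmt) : SYF_Stmt := by
  refine ⟨fun w D hD => sym h1 h2 h3 h4 h5 h6 h8 w D hD, fun w T hT => ?_⟩
  have h := val h1 h2 h3 h6 h7 w T hT
  unfold Q at h
  unfold FF
  exact ⟨fun hh => if_pos (h.1 hh), fun hh => if_neg (fun h9 => hh (h.2 h9))⟩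

end Pool.Agent.TW
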