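import Pool.Agent.TW.StT

/-!
TOP3: the closure of a tree with `T3` is the closure of `M3`.
-/

namespace Pool.Agent.TW

open Pool.Agent.LibH11.Sliced Pool.Agent.MTR Pool.Agent.MTA Pool.Agent.UA Pool.Agent.UB
open Pool.Agent.TwoBr Pool.Agent.Mont Pool.Agent.TV
open Pool.Agent.TB hiding vec

namespace Top3

/-- The algebra of tangles up to equivalence. -/
structure Alg (X Y : Type) where
  m : X → X → X
  R : X → X
  H : X → X
  F : X → X
  P : X → X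
  h : ℤ → X
  c : X → Y
  d : Tr → X
  ass : ∀ x y z, m (m x y) z = m x (m y z)
  HH : ∀ x, H (H x) = x
  FF : ∀ x, F (F x) = x
  HF : ∀ x, H (F x) = P x
  HP : ∀ x, H (P x) = F x
  FH : ∀ x, F (H x) = P x
  FP : ∀ x, F (P x) = H x
  Hm : ∀ x y, H (m x y) = m (H x) (H y)
  Fm : ∀ x y, F (m x y) = m (F y) (F x)
  HR : ∀ x, H (R x) = R (F x)
  FR : ∀ x, F (R x) = R (H x)
  Hh : ∀ e, H (h e) = h e
  Fh : ∀ e, F (h e) = h e
  fl : ∀ x e, m x (h e) = m (h e) (if Even e then x else H x)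
  c0 : ∀ s t, c (m s (R t)) = c (m (R (H s)) (F t))
  cF : ∀ s t, c s = c t → c (F s) = c (F t)
  dp : ∀ e, d (.pw e) = h e
  dc : ∀ a b, d (.cons a b) = m (R (d a)) (d b)
  rH : ∀ a : Tr, a.Rat → H (d a) = d a
  rF : ∀ a : Tr, a.Rat → F (d a) = d a

variable {X Y : Type} (A : Alg X Y)

namespace Alg

theorem PR (x : X) : A.P (A.R x) = A.R (A.P x) := by
  rw [← A.HF (A.R x), A.FR, A.HR, A.FH]

theorem Pm (x y : X) : A.P (A.m x y) = A.m (A.P y) (A.P x) := by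
  rw [← A.HF, A.Fm, A.Hm, A.HF, A.HF]

theorem Ph (e : ℤ) : A.P (A.h e) = A.h e := by
  rw [← A.HF, A.Fh, A.Hh]

theorem HRr (a : Tr) (ha : a.Rat) : A.H (A.R (A.d a)) = A.R (A.d a) := by
  rw [A.HR, A.rF a ha]

theorem FRr (a : Tr) (ha : a.Rat) : A.F (A.R (A.d a)) = A.R (A.d a) := by
  rw [A.FR, A.rH a ha]

theorem PRr (a : Tr) (ha : a.Rat) : A.P (A.R (A.d a)) = A.R (A.d a) := by
  rw [← A.HF, A.FRr a ha, A.HRr a ha]

theorem comm (e : ℤ) (a : Tr) (ha : a.Rat) :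
    A.m (A.h e) (A.R (A.d a)) = A.m (A.R (A.d a)) (A.h e) := by
  have h := A.fl (A.R (A.d a)) e
  rw [A.HRr a ha] at h
  simpa using h.symm

theorem even_comm {e : ℤ} (he : Even e) (x : X) :
    A.m (A.h e) x = A.m x (A.h e) := by
  have h := A.fl x e
  rw [if_pos he] at h
  exact h.symm

theorem odd_comm {e : ℤ} (he : ¬ Even e) (x : X) :
    A.m (A.h e) x = A.m (A.H x) (A.h e) := by
  have h := A.fl (A.H x) e
  rw [if_neg he, A.HH] at h
  exact h.symm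

/-- (f2) -/
theorem f2 (x : X) (y : Tr) (hy : y.Rat) :
    A.c (A.m (A.R x) (A.d y)) = A.c (A.m (A.H x) (A.R (A.d y))) := by
  have h := A.c0 (A.H x) (A.d y)
  rw [A.HH, A.rF y hy] at h
  exact h.symm

theorem dM3 (a b c : Tr) (e : ℤ) :
    A.d (M3 a b c e) = A.m (A.R (A.d a)) (A.m (A.R (A.d b)) (A.m (A.R (A.d c)) (A.h e))) := by
  rw [M3, A.dc, A.dc, A.dc, A.dp]

theorem claim (y x a b c : Tr) (e : ℤ) (h : Q3 y x a b c e) :
    y.Rat → a.Rat → b.Rat → c.Rat → ∀ x' : X,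
      (x' = A.d x ∨ x' = A.H (A.d x) ∨ x' = A.F (A.d x) ∨ x' = A.P (A.d x)) →
      A.c (A.m (A.R x') (A.d y)) = A.c (A.d (M3 a b c e)) ∨
      A.c (A.m (A.R x') (A.d y)) = A.c (A.d (M3 b a c e)) := by
  induction h with
  | base y a b e =>
    intro hy ha hb _ x' hx'
    have k1 : A.c (A.m (A.m (A.R (A.d a)) (A.m (A.R (A.d b)) (A.h e))) (A.R (A.d y))) =
        A.c (A.d (M3 a b y e)) := by
      rw [A.dM3, A.ass, A.ass, A.comm e y hy]
    have k2 : A.c (A.m (A.m (A.m (A.h e) (A.R (A.d b))) (A.R (A.d a))) (A.R (A.d y))) =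
        A.c (A.d (M3 b a y e)) := by
      rw [A.dM3, A.comm e b hb, A.ass (A.R (A.d b)), A.comm e a ha, A.ass, A.ass, A.comm e y hy]
    have eH : A.H (A.d (.cons a (.cons b (.pw e)))) =
        A.m (A.R (A.d a)) (A.m (A.R (A.d b)) (A.h e)) := by
      rw [A.dc, A.dc, A.dp, A.Hm, A.Hm, A.HRr a ha, A.HRr b hb, A.Hh]
    have eF : A.F (A.d (.cons a (.cons b (.pw e)))) =
        A.m (A.m (A.h e) (A.R (A.d b))) (A.R (A.d a)) := by
      rw [A.dc, A.dc, A.dp, A.Fm, A.Fm, A.FRr a ha, A.FRr b hb, A.Fh]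
    have eP : A.P (A.d (.cons a (.cons b (.pw e)))) =
        A.m (A.m (A.h e) (A.R (A.d b))) (A.R (A.d a)) := by
      rw [A.dc, A.dc, A.dp, A.Pm, A.Pm, A.PRr a ha, A.PRr b hb, A.Ph]
    rw [A.f2 x' y hy]
    rcases hx' with rfl | rfl | rfl | rfl
    · left
      rw [eH]
      exact k1
    · left
      rw [A.HH, A.dc, A.dc, A.dp]
      exact k1
    · right
      rw [A.HF, eP]
      exact k2
    · right
      rw [A.HP, eF]
      exact k2
  | step y x d a b c e _ ih =>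
    intro hy ha hb hc x' hx'
    have ih' := ih ⟨hy, rfl⟩ ha hb hc
    have dY : A.d (.cons y (.pw d)) = A.m (A.R (A.d y)) (A.h d) := by
      rw [A.dc, A.dp]
    have dX : A.d (.cons x (.pw d)) = A.m (A.R (A.d x)) (A.h d) := by
      rw [A.dc, A.dp]
    rw [dY] at ih'
    rw [A.f2 x' y hy]
    rcases hx' with rfl | rfl | rfl | rfl
    · have h := ih' (A.F (A.d x)) (Or.inr (Or.inr (Or.inl rfl)))
      rw [dX, A.Hm, A.HR, A.Hh, A.ass, A.comm d y hy]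
      exact h
    · have h := ih' (A.d x) (Or.inl rfl)
      rw [A.HH, dX, A.ass, A.comm d y hy]
      exact h
    · rw [A.HF, dX, A.Pm, A.Ph, A.PR]
      by_cases hd : Even d
      · have h := ih' (A.P (A.d x)) (Or.inr (Or.inr (Or.inr rfl)))
        rw [A.even_comm hd, A.ass, A.comm d y hy]
        exact h
      · have h := ih' (A.H (A.d x)) (Or.inr (Or.inl rfl))
        rw [A.odd_comm hd, A.HR, A.FP, A.ass, A.comm d y hy]
        exact h
    · rw [A.HP, dX, A.Fm, A.Fh, A.FR]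
      by_cases hd : Even d
      · have h := ih' (A.H (A.d x)) (Or.inr (Or.inl rfl))
        rw [A.even_comm hd, A.ass, A.comm d y hy]
        exact h
      · have h := ih' (A.P (A.d x)) (Or.inr (Or.inr (Or.inr rfl)))
        rw [A.odd_comm hd, A.HR, A.FH, A.ass, A.comm d y hy]
        exact h

theorem flM3 (a b c : Tr) (e : ℤ) (ha : a.Rat) (hb : b.Rat) (hc : c.Rat) :
    A.F (A.d (M3 a b c e)) = A.d (M3 c b a e) := by
  rw [A.dM3, A.dM3, A.Fm, A.Fm, A.Fm, A.FRr a ha, A.FRr b hb, A.FRr c hc, A.Fh,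
    A.comm e c hc, A.ass (A.R (A.d c)), A.comm e b hb, A.ass, A.ass, A.comm e a ha]

theorem top (T a b c : Tr) (e : ℤ) (h : T3 T a b c e) :
    ∃ a' b' c' : Tr, ([a', b', c'] : List Tr).Perm [a, b, c] ∧
      A.c (A.d T) = A.c (A.d (M3 a' b' c' e)) := by
  obtain ⟨⟨ha, hb, hc⟩, -, x, y, rfl, h⟩ := h
  rcases h with ⟨hy, hq⟩ | ⟨hx, hq⟩
  · rcases A.claim y x a b c e hq hy ha hb hc (A.d x) (Or.inl rfl) with k | k
    · exact ⟨a, b, c, List.Perm.refl _, by rw [A.dc]; exact k⟩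
    · exact ⟨b, a, c, List.Perm.swap _ _ _, by rw [A.dc]; exact k⟩
  · have e1 : A.c (A.F (A.d (.cons x y))) = A.c (A.m (A.R (A.P (A.d y))) (A.d x)) := by
      rw [A.dc, A.Fm, A.FRr x hx, A.c0, A.HF, A.rF x hx]
    have e2 : ∀ M : X, A.c (A.m (A.R (A.P (A.d y))) (A.d x)) = A.c M →
        A.c (A.d (.cons x y)) = A.c (A.F M) := by
      intro M hM
      have h := A.cF _ _ (e1.trans hM)
      rw [A.FF] at h
      exact h
    rcases A.claim x y a b c e hq hx ha hb hc (A.P (A.d y)) (Or.inr (Or.inr (Or.inr rfl)))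
      with k | k
    · refine ⟨c, b, a, ?_, ?_⟩
      · exact List.reverse_perm [a, b, c]
      · rw [e2 _ k, A.flM3 a b c e ha hb hc]
    · refine ⟨c, a, b, ?_, ?_⟩
      · exact (List.reverse_perm [b, a, c]).trans (List.Perm.swap _ _ _)
      · rw [e2 _ k, A.flM3 b a c e hb ha hc]

end Alg

/-! ### The instance -/

/-- tangles with two strands -/
abbrev T2s : Type := {t : Diag // cnt 2 t = some 2}

/-- equivalence of tangles -/
def sT : Setoid T2s where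
  r s t := EqD 2 s.1 t.1
  iseqv := ⟨fun _ => EqD.refl _, fun h => EqD.symm h, fun h h' => EqD.trans h h'⟩

/-- equivalence of closed diagrams -/
def sY : Setoid Diag where
  r s t := EqD 1 s t
  iseqv := ⟨fun _ => EqD.refl _, fun h => EqD.symm h, fun h h' => EqD.trans h h'⟩

theorem hD_rot (h1 : FSY_Stmt) (h4 : FRO_Stmt) (x : Diag) (hx : cnt 2 x = some 2) :
    EqD 2 (hD 2 (rotD x)) (rotD (flipD x)) := by
  rw [(h1.2.2.1 x hx).1]
  have e := (h4 (hD 2 x) (cnt_hD x hx)).2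
  rwa [(h1.2.1 x 2 2 hx).2.2.2.1] at e

theorem flip_rot (h1 : FSY_Stmt) (h4 : FRO_Stmt) (x : Diag) (hx : cnt 2 x = some 2) :
    EqD 2 (flipD (rotD x)) (rotD (hD 2 x)) := by
  rw [(h1.2.2.1 x hx).2.1]
  have e := (h4 (flipD x) (cnt_flip x hx)).2
  rwa [(h1.2.1 x 2 2 hx).2.2.2.2.2.2.1] at e

/-- the algebra of tangles -/
noncomputable def alg (h1 : FSY_Stmt) (h2 : FEQ_Stmt) (h3 : FCG_Stmt) (h4 : FRO_Stmt)
    (h5 : FFL_Stmt) (h6 : FC0_Stmt) (h7 : RTI_Stmt) : Alg (Quotient sT) (Quotient sY) where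
  m := Quotient.map₂ (fun s t => ⟨s.1 ++ t.1, by rw [cnt_app s.2]; exact t.2⟩)
    (fun s s' hs t t' ht => h3.2.1 s.1 s'.1 t.1 t'.1 hs ht s.2 t.2)
  R := Quotient.map (fun t => ⟨rotD t.1, (h3.2.2.2.1 t.1 t.2).1⟩)
    (fun s t h => (h3.1 s.1 t.1 h s.2).1)
  H := Quotient.map (fun t => ⟨hD 2 t.1, cnt_hD t.1 t.2⟩)
    (fun s t h => (h2 2 2 s.1 t.1 h s.2).1)
  F := Quotient.map (fun t => ⟨flipD t.1, cnt_flip t.1 t.2⟩)
    (fun s t h => (h2 2 2 s.1 t.1 h s.2).2.2)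
  P := Quotient.map (fun t => ⟨pD 2 t.1, cnt_pD t.1 t.2⟩)
    (fun s t h => (h2 2 2 s.1 t.1 h s.2).2.1)
  h e := Quotient.mk sT ⟨ht e, cnt_ht e⟩
  c := Quotient.map (fun t => cl t.1) (fun s t h => (h3.1 s.1 t.1 h s.2).2)
  d T := Quotient.mk sT ⟨T.dg, h3.2.2.2.2.1 T⟩
  ass := by
    rintro ⟨x⟩ ⟨y⟩ ⟨z⟩
    exact congrArg (Quotient.mk sT) (Subtype.ext (List.append_assoc _ _ _))
  HH := by
    rintro ⟨x⟩
    exact congrArg (Quotient.mk sT) (Subtype.ext (h1.2.1 x.1 2 2 x.2).1)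
  FF := by
    rintro ⟨x⟩
    exact congrArg (Quotient.mk sT) (Subtype.ext (h1.2.1 x.1 2 2 x.2).2.2.1)
  HF := by
    rintro ⟨x⟩
    exact congrArg (Quotient.mk sT) (Subtype.ext (h1.2.1 x.1 2 2 x.2).2.2.2.2.1)
  HP := by
    rintro ⟨x⟩
    exact congrArg (Quotient.mk sT) (Subtype.ext (h1.2.1 x.1 2 2 x.2).2.2.2.2.2.1)
  FH := by
    rintro ⟨x⟩
    exact congrArg (Quotient.mk sT) (Subtype.ext (h1.2.1 x.1 2 2 x.2).2.2.2.2.2.2.2.1)
  FP := by
    rintro ⟨x⟩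
    exact congrArg (Quotient.mk sT) (Subtype.ext (h1.2.1 x.1 2 2 x.2).2.2.2.2.2.2.2.2)
  Hm := by
    rintro ⟨x⟩ ⟨y⟩
    exact congrArg (Quotient.mk sT) (Subtype.ext (h1.1 x.1 y.1 2 2 x.2).1)
  Fm := by
    rintro ⟨x⟩ ⟨y⟩
    exact congrArg (Quotient.mk sT) (Subtype.ext (flipD_append x.1 y.1))
  HR := by
    rintro ⟨x⟩
    exact Quotient.sound (s := sT) (hD_rot h1 h4 x.1 x.2)
  FR := by
    rintro ⟨x⟩
    exact Quotient.sound (s := sT) (flip_rot h1 h4 x.1 x.2)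
  Hh e := congrArg (Quotient.mk sT) (Subtype.ext (h1.2.2.2 e).1)
  Fh e := congrArg (Quotient.mk sT) (Subtype.ext (h1.2.2.2 e).2)
  fl := by
    rintro ⟨x⟩ e
    have h := h5.2.1 x.1 e x.2
    by_cases he : Even e
    · rw [if_pos he] at h ⊢
      exact Quotient.sound (s := sT) h
    · rw [if_neg he] at h ⊢
      exact Quotient.sound (s := sT) h
  c0 := by
    rintro ⟨x⟩ ⟨y⟩
    exact Quotient.sound (s := sY) (h6 x.1 y.1 x.2 y.2)
  cF := by
    rintro ⟨x⟩ ⟨y⟩ h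
    have h' : EqD 1 (cl x.1) (cl y.1) := Quotient.exact (s := sY) h
    have k := (h2 1 1 _ _ h' ((h3.2.2.2.1 x.1 x.2).2)).2.2
    rw [(h1.2.2.1 x.1 x.2).2.2, (h1.2.2.1 y.1 y.2).2.2] at k
    exact Quotient.sound (s := sY) k
  dp e := rfl
  dc a b := rfl
  rH a ha := Quotient.sound (s := sT) (h7 a ha).1
  rF a ha := Quotient.sound (s := sT) (h7 a ha).2.1

end Top3

theorem t_TOP3 (h1 : FSY_Stmt) (h2 : FEQ_Stmt) (h3 : FCG_Stmt) (h4 : FRO_Stmt)
    (h5 : FFL_Stmt) (h6 : FC0_Stmt) (h7 : RTI_Stmt) : TOP3_Stmt := by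
  intro T a b c e h
  obtain ⟨a', b', c', hp, k⟩ := (Top3.alg h1 h2 h3 h4 h5 h6 h7).top T a b c e h
  exact ⟨a', b', c', hp, Quotient.exact (s := Top3.sY) k⟩

end Pool.Agent.TW
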