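import Pool.Agent.TW.StT

/-!
Theorem W, module TOPW: Montesinos diagrams with three tangles.
-/

open scoped BigOperators

namespace Pool.Agent.TW

open Pool.Agent.LibH11.Sliced Pool.Agent.MTR Pool.Agent.MTA Pool.Agent.UA Pool.Agent.UB
open Pool.Agent.TwoBr Pool.Agent.Mont Pool.Agent.TV
open Pool.Agent.TB hiding vec

theorem t_TOPW (h1 : UNN_Stmt) : TOPW_Stmt := by
  intro us vs h h' h3 hd hd' hs hp
  obtain ⟨ts, e, a1, a2, a3, a4⟩ := mont_nf2 us h hd
  obtain ⟨ts', e', b1, b2, b3, b4⟩ := mont_nf2 vs h' hd'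
  have hlen := a3.length_eq
  have a3' := RR_split a3
  have b3' := RR_split b3
  obtain ⟨k1, k2⟩ := h1 ts ts' e e' a1 b1 (by
    rw [fract_forall2 a3', fract_forall2 b3'] at hp
    simpa [List.map_map, Function.comp_def] using hp) (by rw [← a4, ← b4, hs])
  subst k1
  have hl' : ts.length = 3 := by omega
  by_cases hfl : ∃ t ∈ ts, t.1 = true
  · left
    have h4 := three_mdiag' a1 hl' k2 hfl
    exact (b2.trans h4.symm).trans a2.symm
  · rcases three_mdiag a1 hl' k2 with h4 | h4
    · left
      exact (b2.trans h4.symm).trans a2.symm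
    · right
      refine ⟨odd_of_flags a3 hd hfl, ?_⟩
      have c2 : cnt 1 (mont us) = some 1 := by
        show cnt 3 ((us.map tgl).flatten ++ [(.cap, 1)]) = some 1
        rw [cnt_app (cnt_widen 1 _ _ _ (cnt_tgls us))]
        rfl
      have h6 : EqD 1 (flipD (mont us)) (flipD (mdiag ts e)) := EqD_flip a2 c2
      exact (b2.trans h4.symm).trans h6.symm

end Pool.Agent.TW
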