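import Pool.Agent.TW.StT

/-!
Theorem W (MP_31fd3b_gt): normal forms with the same slopes modulo 1 and the same sum.
-/

open scoped BigOperators

namespace Pool.Agent.TW

open Pool.Agent.LibH11.Sliced Pool.Agent.MTR Pool.Agent.MTA Pool.Agent.UA Pool.Agent.UB
open Pool.Agent.TwoBr Pool.Agent.Mont Pool.Agent.TV
open Pool.Agent.TB hiding vec

namespace UNN

/-- the class of a slope modulo 1 -/
noncomputable def g (t : NT) : ℚ := Int.fract (nslope t)

theorem snd_ne (h1 : CHNO_Stmt) {t : NT} (h : NOk t) : (nvec t).2 ≠ 0 := by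
  rw [nvec_lastv h]
  obtain ⟨f, x⟩ := t
  have h0 : ∀ a ∈ x.reverse, a ≠ 0 := by
    intro a ha
    rw [List.mem_reverse] at ha
    cases f
    · exact h.1 a ha
    · exact h.1 a ha
  have h2 := ((h1 x.reverse).2.2.2 h0).1
  intro h3
  simp only at h3
  rw [h3, abs_zero] at h2
  exact absurd h2 (not_lt.2 (abs_nonneg _))

theorem abs_lt (h1 : CHNO_Stmt) {t : NT} (h : NOk t) : |nslope t| < 1 := by
  have hne := snd_ne h1 h
  have h4 : |(nvec t).1| < |(nvec t).2| := by
    rw [nvec_lastv h]
    obtain ⟨f, x⟩ := t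
    have h0 : ∀ a ∈ x.reverse, a ≠ 0 := by
      intro a ha
      rw [List.mem_reverse] at ha
      cases f
      · exact h.1 a ha
      · exact h.1 a ha
    exact ((h1 x.reverse).2.2.2 h0).1
  rw [nslope, abs_div, div_lt_one (by
    rw [abs_pos]
    exact_mod_cast hne)]
  exact_mod_cast h4

theorem den_eq (h1 : CHNO_Stmt) {t : NT} (h : NOk t) : (nslope t).den = (nvec t).2.natAbs := by
  have hne := snd_ne h1 h
  have hc : ((nvec t).1.natAbs).Coprime ((nvec t).2.natAbs) :=
    Int.isCoprime_iff_nat_coprime.1 (nvec_coprime t)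
  rcases lt_or_gt_of_ne hne with hlt | hgt
  · have h2 : nslope t = ((-(nvec t).1 : ℤ) : ℚ) / ((-(nvec t).2 : ℤ) : ℚ) := by
      rw [nslope]
      push_cast
      rw [neg_div_neg_eq]
    have h3 := Rat.den_div_eq_of_coprime (a := -(nvec t).1) (b := -(nvec t).2) (by omega)
      (by simpa using hc)
    rw [h2]
    omega
  · have h3 := Rat.den_div_eq_of_coprime (a := (nvec t).1) (b := (nvec t).2) hgt hc
    rw [nslope]
    omega

theorem g_den (h1 : CHNO_Stmt) {t : NT} (h : NOk t) : (g t).den = (nvec t).2.natAbs := by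
  rw [← den_eq h1 h, g, Int.fract]
  exact Rat.sub_intCast_den _ _

theorem flag (h1 : CHNO_Stmt) {t : NT} (h : NOk t) : t.1 = decide (Even (g t).den) := by
  rw [g_den h1 h]
  have hp := nvec_par t
  by_cases hf : t.1 = true
  · rw [hf] at hp ⊢
    simp only [if_true] at hp
    symm
    rw [decide_eq_true_eq, Int.natAbs_even, Int.even_iff]
    exact hp
  · have hf' : t.1 = false := by simpa using hf
    rw [hf'] at hp ⊢
    simp only [Bool.false_eq_true, if_false] at hp
    symm
    rw [decide_eq_false_iff_not, Int.natAbs_even, Int.even_iff]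
    omega

/-- two slopes of the same flag which agree are the slopes of the same tangle -/
theorem eq_of_slope (h1 : CHNO_Stmt) (h2 : CFUO_Stmt) {t t' : NT} (h : NOk t) (h' : NOk t')
    (hf : t.1 = t'.1) (hs : nslope t = nslope t') : t = t' := by
  have n1 := snd_ne h1 h
  have n2 := snd_ne h1 h'
  have hcr : (nvec t).1 * (nvec t').2 = (nvec t').1 * (nvec t).2 := by
    rw [nslope, nslope, div_eq_div_iff (by exact_mod_cast n1) (by exact_mod_cast n2)] at hs
    exact_mod_cast hs
  rw [nvec_lastv h, nvec_lastv h'] at hcr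
  obtain ⟨f, x⟩ := t
  obtain ⟨f', x'⟩ := t'
  simp only at hf
  subst hf
  have h0 : ∀ a ∈ x.reverse, a ≠ 0 := by
    intro a ha
    rw [List.mem_reverse] at ha
    cases f
    · exact h.1 a ha
    · exact h.1 a ha
  have h0' : ∀ a ∈ x'.reverse, a ≠ 0 := by
    intro a ha
    rw [List.mem_reverse] at ha
    cases f
    · exact h'.1 a ha
    · exact h'.1 a ha
  have hpar : Even x.reverse.length ↔ Even x'.reverse.length := by
    rw [List.length_reverse, List.length_reverse]
    cases f
    · exact ⟨fun _ => h'.2.1, fun _ => h.2.1⟩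
    · constructor
      · intro h3
        exact absurd h3 (Nat.not_even_iff_odd.2 h.2)
      · intro h3
        exact absurd h3 (Nat.not_even_iff_odd.2 h'.2)
  have h5 := h2 x.reverse x'.reverse hpar h0 h0' hcr
  have h6 : x = x' := by
    have := congrArg List.reverse h5
    simpa using this
  rw [h6]

theorem num_even (h1 : CHNO_Stmt) {t : NT} (h : NOk t) (hf : t.1 = false) :
    Even (nvec t).1 ∧ Odd (nvec t).2 := by
  rw [nvec_lastv h]
  obtain ⟨f, x⟩ := t
  simp only at hf
  subst hf
  have := (h1 x.reverse).2.1 (by rw [List.length_reverse]; exact h.2.1)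
  exact this

/-- the difference of two slopes which agree modulo 1 -/
theorem diff (h1 : CHNO_Stmt) {t t' : NT} (h : NOk t) (h' : NOk t') (hg : g t = g t') :
    ∃ m : ℤ, nslope t' - nslope t = m ∧ |m| ≤ 1 := by
  refine ⟨⌊nslope t'⌋ - ⌊nslope t⌋, ?_, ?_⟩
  · unfold g Int.fract at hg
    push_cast
    linarith
  · have a1 := abs_lt h1 h
    have a2 := abs_lt h1 h'
    rw [_root_.abs_lt] at a1 a2
    have e : (((⌊nslope t'⌋ - ⌊nslope t⌋ : ℤ)) : ℚ) = nslope t' - nslope t := by
      unfold g Int.fract at hg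
      push_cast
      linarith
    have b1 : (((⌊nslope t'⌋ - ⌊nslope t⌋ : ℤ)) : ℚ) < 2 := by rw [e]; linarith
    have b2 : (-2 : ℚ) < (((⌊nslope t'⌋ - ⌊nslope t⌋ : ℤ)) : ℚ) := by rw [e]; linarith
    have c1 : (⌊nslope t'⌋ - ⌊nslope t⌋ : ℤ) < 2 := by exact_mod_cast b1
    have c2 : -2 < (⌊nslope t'⌋ - ⌊nslope t⌋ : ℤ) := by exact_mod_cast b2
    rw [abs_le]
    omega

theorem inj (h1 : CHNO_Stmt) (h2 : CFUO_Stmt) {t t' : NT} (h : NOk t) (h' : NOk t')
    (hf : t.1 = false) (hf' : t'.1 = false) (hg : g t = g t') : t = t' := by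
  refine eq_of_slope h1 h2 h h' (by rw [hf, hf']) ?_
  obtain ⟨m, hm, hm1⟩ := diff h1 h h' hg
  have n1 := snd_ne h1 h
  have n2 := snd_ne h1 h'
  obtain ⟨e1, o1⟩ := num_even h1 h hf
  obtain ⟨e2, o2⟩ := num_even h1 h' hf'
  have hcr : (nvec t').1 * (nvec t).2 - (nvec t).1 * (nvec t').2 =
      m * ((nvec t).2 * (nvec t').2) := by
    have q1 : ((nvec t).2 : ℚ) ≠ 0 := by exact_mod_cast n1
    have q2 : ((nvec t').2 : ℚ) ≠ 0 := by exact_mod_cast n2
    rw [nslope, nslope] at hm
    have : ((nvec t').1 : ℚ) * (nvec t).2 - (nvec t).1 * (nvec t').2 =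
        m * ((nvec t).2 * (nvec t').2) := by
      rw [← hm]
      field_simp
    exact_mod_cast this
  have hev : Even (m * ((nvec t).2 * (nvec t').2)) := by
    rw [← hcr]
    exact (e2.mul_right _).sub (e1.mul_right _)
  have hme : Even m := by
    rcases Int.even_mul.1 hev with h3 | h3
    · exact h3
    · exact absurd h3 (Int.not_even_iff_odd.2 (o1.mul o2))
  have hm0 : m = 0 := by
    rw [abs_le] at hm1
    obtain ⟨k, hk⟩ := hme
    omega
  rw [hm0] at hm
  push_cast at hm
  linarith

theorem perm_false (h1 : CHNO_Stmt) (h2 : CFUO_Stmt) {us us' : List NT}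
    (hu : ∀ t ∈ us, NOk t ∧ t.1 = false) (hu' : ∀ t ∈ us', NOk t ∧ t.1 = false)
    (hp : (us.map g).Perm (us'.map g)) : us.Perm us' := by
  classical
  let φ : ℚ → NT := fun r => if h : ∃ t : NT, NOk t ∧ t.1 = false ∧ g t = r then h.choose
    else (false, [])
  have hφ : ∀ t : NT, NOk t → t.1 = false → φ (g t) = t := by
    intro t ht hf
    have hex : ∃ t' : NT, NOk t' ∧ t'.1 = false ∧ g t' = g t := ⟨t, ht, hf, rfl⟩
    have e : φ (g t) = hex.choose := dif_pos hex
    rw [e]
    obtain ⟨a1, a2, a3⟩ := hex.choose_spec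
    exact inj h1 h2 a1 ht a2 hf a3
  have e1 : (us.map g).map φ = us := by
    rw [List.map_map]
    conv_rhs => rw [← List.map_id us]
    exact List.map_congr_left fun t ht => hφ t (hu t ht).1 (hu t ht).2
  have e2 : (us'.map g).map φ = us' := by
    rw [List.map_map]
    conv_rhs => rw [← List.map_id us']
    exact List.map_congr_left fun t ht => hφ t (hu' t ht).1 (hu' t ht).2
  have := hp.map φ
  rwa [e1, e2] at this

theorem filt (h1 : CHNO_Stmt) {ts : List NT} (hok : ∀ t ∈ ts, NOk t) :
    (ts.map g).filter (fun r => decide (Even r.den)) = (ts.filter fun t => t.1).map g := by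
  rw [List.filter_map]
  congr 1
  apply List.filter_congr
  intro t ht
  simp only [Function.comp_apply]
  rw [← flag h1 (hok t ht)]

theorem filt' (h1 : CHNO_Stmt) {ts : List NT} (hok : ∀ t ∈ ts, NOk t) :
    (ts.map g).filter (fun r => !decide (Even r.den)) = (ts.filter fun t => !t.1).map g := by
  rw [List.filter_map]
  congr 1
  apply List.filter_congr
  intro t ht
  simp only [Function.comp_apply]
  rw [← flag h1 (hok t ht)]

end UNN

open UNN in
theorem t_UNN (h1 : CHNO_Stmt) (h2 : CFUO_Stmt) : UNN_Stmt := by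
  intro ts ts' e e' hn hn' hp hs
  have hp' : (ts.map g).Perm (ts'.map g) := by
    have a1 : ts.map g = (ts.map nslope).map Int.fract := by
      rw [List.map_map]; rfl
    have a2 : ts'.map g = (ts'.map nslope).map Int.fract := by
      rw [List.map_map]; rfl
    rw [a1, a2]
    exact hp
  have hT := hp'.filter (fun r => decide (Even r.den))
  rw [filt h1 hn.ok, filt h1 hn'.ok] at hT
  have hF := hp'.filter (fun r => !decide (Even r.den))
  rw [filt' h1 hn.ok, filt' h1 hn'.ok] at hF
  have hU : (ts.filter fun t => !t.1).Perm (ts'.filter fun t => !t.1) := by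
    refine perm_false h1 h2 ?_ ?_ hF
    · intro t ht
      rw [List.mem_filter] at ht
      exact ⟨hn.ok t ht.1, by simpa using ht.2⟩
    · intro t ht
      rw [List.mem_filter] at ht
      exact ⟨hn'.ok t ht.1, by simpa using ht.2⟩
  have hsp : ((ts.filter fun t => t.1) ++ (ts.filter fun t => !t.1)).Perm ts :=
    List.filter_append_perm (fun t : NT => t.1) ts
  have hsp' : ((ts'.filter fun t => t.1) ++ (ts'.filter fun t => !t.1)).Perm ts' :=
    List.filter_append_perm (fun t : NT => t.1) ts'
  have hlen : (ts.filter fun t => t.1).length = (ts'.filter fun t => t.1).length := by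
    have := hT.length_eq
    simpa using this
  rcases hn.par with ⟨hp1, ho⟩ | ⟨hp1, he⟩
  · have hz : (ts.filter fun t => t.1) = [] := by
      rw [List.filter_eq_nil_iff]
      intro t ht
      rw [hp1 t ht]
      decide
    have hz' : (ts'.filter fun t => t.1) = [] := by
      rw [hz] at hlen
      exact List.length_eq_zero_iff.1 hlen.symm
    have hP : ts.Perm ts' := by
      rw [hz, List.nil_append] at hsp
      rw [hz', List.nil_append] at hsp'
      exact hsp.symm.trans (hU.trans hsp')
    refine ⟨?_, hP⟩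
    have h5 := (hP.map nslope).sum_eq
    rw [h5] at hs
    have h6 : (e : ℚ) = e' := by linarith
    exact_mod_cast h6
  · rw [hp1] at hlen
    have he' : Even e' := by
      rcases hn'.par with ⟨hp2, _⟩ | ⟨_, h3⟩
      · exfalso
        have hz' : (ts'.filter fun t => t.1) = [] := by
          rw [List.filter_eq_nil_iff]
          intro t ht
          rw [hp2 t ht]
          decide
        rw [hz'] at hlen
        simp at hlen
      · exact h3
    obtain ⟨t0, h0⟩ := List.length_eq_one_iff.1 hp1
    obtain ⟨t0', h0'⟩ := List.length_eq_one_iff.1 hlen.symm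
    have m0 : t0 ∈ ts ∧ t0.1 = true := by
      have : t0 ∈ ts.filter fun t => t.1 := by rw [h0]; exact List.mem_singleton_self _
      rw [List.mem_filter] at this
      exact this
    have m0' : t0' ∈ ts' ∧ t0'.1 = true := by
      have : t0' ∈ ts'.filter fun t => t.1 := by rw [h0']; exact List.mem_singleton_self _
      rw [List.mem_filter] at this
      exact this
    rw [h0, h0'] at hT
    have hg : g t0 = g t0' := by
      have := hT.mem_iff (a := g t0)
      simpa using this
    have ok0 := hn.ok t0 m0.1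
    have ok0' := hn'.ok t0' m0'.1
    obtain ⟨m, hm, hm1⟩ := diff h1 ok0 ok0' hg
    rw [h0] at hsp
    rw [h0'] at hsp'
    have s1 := (hsp.map nslope).sum_eq
    have s2 := (hsp'.map nslope).sum_eq
    have s3 := (hU.map nslope).sum_eq
    simp only [List.singleton_append, List.map_cons, List.sum_cons] at s1 s2
    have h7 : ((e' - e : ℤ) : ℚ) = m := by
      push_cast
      rw [← s1, ← s2, s3] at hs
      linarith
    have h8 : e' - e = m := by exact_mod_cast h7
    have hm0 : m = 0 := by
      rw [abs_le] at hm1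
      obtain ⟨k, hk⟩ := he
      obtain ⟨k', hk'⟩ := he'
      omega
    have h9 : t0 = t0' := by
      refine eq_of_slope h1 h2 ok0 ok0' (by rw [m0.2, m0'.2]) ?_
      rw [hm0] at hm
      push_cast at hm
      linarith
    refine ⟨by omega, ?_⟩
    refine hsp.symm.trans (List.Perm.trans ?_ hsp')
    rw [h9]
    exact (List.Perm.refl _).append hU

end Pool.Agent.TW
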