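import Pool.Agent.TW.StA

/-!
Theorem W, module WBV: one nontrivial vertex against a list of vertices.
-/

open Filter Topology
open scoped BigOperators Real

namespace Pool.Agent.TW

open Pool.Agent.LibH11.Sliced Pool.Agent.MTR Pool.Agent.MTA Pool.Agent.UA Pool.Agent.UB
open Pool.Agent.TwoBr Pool.Agent.Mont Pool.Agent.TV
open Pool.Agent.TB hiding vec

namespace WBV

theorem sum_filter {α M : Type*} [AddCommMonoid M] (p : α → Bool) (f : α → M) : ∀ l : List α,
    (∀ a ∈ l, p a = false → f a = 0) → (l.map f).sum = ((l.filter p).map f).sum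
  | [], _ => rfl
  | a :: l, h => by
    have ih := sum_filter p f l fun b hb => h b (List.mem_cons_of_mem _ hb)
    by_cases hp : p a = true
    · rw [List.filter_cons_of_pos hp, List.map_cons, List.map_cons, List.sum_cons, List.sum_cons,
        ih]
    · rw [List.filter_cons_of_neg hp, List.map_cons, List.sum_cons, ih,
        h a List.mem_cons_self (by simpa using hp), zero_add]

theorem sum_split {α : Type*} (p : α → Bool) (f : α → ℚ) : ∀ l : List α,
    (l.map f).sum = ((l.filter p).map f).sum + ((l.filter fun a => !p a).map f).sum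
  | [] => by simp
  | a :: l => by
    have ih := sum_split p f l
    by_cases hp : p a = true
    · rw [List.filter_cons_of_pos hp, List.filter_cons_of_neg (by simp [hp]), List.map_cons,
        List.map_cons, List.sum_cons, List.sum_cons, ih]
      ring
    · rw [List.filter_cons_of_neg hp, List.filter_cons_of_pos (by simpa using hp), List.map_cons,
        List.map_cons, List.sum_cons, List.sum_cons, ih]
      ring

theorem sum_lt {α : Type*} (f g : α → ℚ) : ∀ l : List α, l ≠ [] →
    (∀ a ∈ l, f a < g a) → (l.map f).sum < (l.map g).sum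
  | [], h, _ => absurd rfl h
  | [a], _, h => by simpa using h a List.mem_cons_self
  | a :: b :: l, _, h => by
    have ih := sum_lt f g (b :: l) (List.cons_ne_nil _ _) fun c hc =>
      h c (List.mem_cons_of_mem _ hc)
    have h1 := h a List.mem_cons_self
    have e1 : ((a :: b :: l).map f).sum = f a + ((b :: l).map f).sum := by
      rw [List.map_cons, List.sum_cons]
    have e2 : ((a :: b :: l).map g).sum = g a + ((b :: l).map g).sum := by
      rw [List.map_cons, List.sum_cons]
    rw [e1, e2]
    linarith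

theorem sum_const {α : Type*} (c : ℚ) : ∀ l : List α,
    (l.map fun _ => c).sum = l.length * c
  | [] => by simp
  | a :: l => by
    rw [List.map_cons, List.sum_cons, sum_const c l, List.length_cons]
    push_cast
    ring

theorem sum_le {α : Type*} (f g : α → ℚ) : ∀ l : List α,
    (∀ a ∈ l, f a ≤ g a) → (l.map f).sum ≤ (l.map g).sum
  | [], _ => by simp
  | a :: l, h => by
    have ih := sum_le f g l fun c hc => h c (List.mem_cons_of_mem _ hc)
    have h1 := h a List.mem_cons_self
    rw [List.map_cons, List.sum_cons, List.map_cons, List.sum_cons]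
    linarith

/-- the facts on a nontrivial vertex -/
structure Fc (D : ℤ) (v : Vx) : Prop where
  K0 : Kv D v ≠ 0
  sg : (D : ℚ) / Kv D v = slp (tot v)
  sm : slp v.1 + slp v.2.1 + slp v.2.2 = slp (tot v)
  s0 : slp (tot v) ≠ 0
  n0 : ¬ ∃ n : ℤ, slp v.1 = n
  n1 : ¬ ∃ n : ℤ, slp v.2.1 = n
  n2 : ¬ ∃ n : ℤ, slp v.2.2 = n

theorem fc (h1 : ALZ_Stmt) {D : ℤ} (hD : D ≠ 0) {v : Vx} (hv : (tot v).1 ∣ D) (hn : Ntr v) :
    Fc D v := by
  obtain ⟨a, b, c, d⟩ := h1.1 D v hD hv hn.1
  have ht : v.1.2 * v.2.1.2 * v.2.2.2 ≠ 0 := hn.1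
  have e0 : v.1.2 ≠ 0 := fun h => ht (by rw [h]; ring)
  have e1 : v.2.1.2 ≠ 0 := fun h => ht (by rw [h]; ring)
  have e2 : v.2.2.2 ≠ 0 := fun h => ht (by rw [h]; ring)
  refine ⟨a, b, c, d, fun h => ?_, fun h => ?_, fun h => ?_⟩
  · exact hn.2 (addv v.2.1 v.2.2, v.1) (by simp [prs]) ((h1.2.2.1 v.1 e0).1 h)
  · exact hn.2 (addv v.1 v.2.2, v.2.1) (by simp [prs]) ((h1.2.2.1 v.2.1 e1).1 h)
  · exact hn.2 (addv v.1 v.2.1, v.2.2) (by simp [prs]) ((h1.2.2.1 v.2.2 e2).1 h)

open Classical in
theorem filt (D K : ℤ) (φ : ℚ → ℂ) (N : List Vx) :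
    (N.map fun v => if Kv D v = K then alv φ D v else 0).sum =
      ((N.filter fun v => decide (Kv D v = K)).map (alv φ D)).sum := by
  rw [sum_filter (fun v => decide (Kv D v = K))]
  · congr 1
    refine List.map_congr_left fun v hv => ?_
    have := (List.mem_filter.1 hv).2
    rw [if_pos (by simpa using this)]
  · intro v _ hv
    rw [if_neg (by simpa using hv)]

open Classical in
theorem ind_per : Per1 (fun β : ℚ => if ∃ n : ℤ, β = n then (1 : ℂ) else 0) := by
  intro β n
  have : (∃ m : ℤ, β + n = m) ↔ ∃ m : ℤ, β = m := by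
    constructor
    · rintro ⟨m, hm⟩
      exact ⟨m - n, by push_cast; linarith⟩
    · rintro ⟨m, hm⟩
      exact ⟨m + n, by push_cast; linarith⟩
  simp only [this]

/-- the number `1 + nuc` of a vertex -/
noncomputable def ncw (v : Vx) : ℕ := 1 + nuc (slp v.1) (slp v.2.1) (slp v.2.2)

open Classical in
theorem ind_val (h3 : SLQ_Stmt) {D : ℤ} {v : Vx} (f : Fc D v)
    (hs : ¬ ∃ n : ℤ, slp (tot v) = n) :
    alv (fun β : ℚ => if ∃ n : ℤ, β = n then (1 : ℂ) else 0) D v = ((ncw v : ℕ) : ℂ) := by
  unfold alv ncw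
  rw [f.sg, h3.2.2 _ _ _ _ f.sm f.n0 f.n1 f.n2 hs]
  push_cast
  rfl

theorem sum_cast (l : List Vx) : (l.map fun v => ((ncw v : ℕ) : ℂ)).sum =
    (((l.map ncw).sum : ℕ) : ℂ) := by
  induction l with
  | nil => simp
  | cons a l ih =>
    rw [List.map_cons, List.sum_cons, ih, List.map_cons, List.sum_cons]
    push_cast
    rfl

theorem sum_nc_pos : ∀ l : List Vx, l ≠ [] → 0 < (l.map ncw).sum
  | [], h => absurd rfl h
  | a :: l, _ => by
    rw [List.map_cons, List.sum_cons]
    have : 0 < ncw a := by unfold ncw; omega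
    omega

theorem JD_lt (h2 : QIN_Stmt) {D : ℤ} {v : Vx} (f : Fc D v) (hs : ∃ n : ℤ, slp (tot v) = n) :
    JD v < 0 := by
  have := ((h2 _ _ _ f.n0 f.n1 f.n2).1 (by rw [f.sm]; exact hs)).2
  have hp : 0 < 4 / (slp (tot v)) ^ 2 := by
    have := f.s0
    positivity
  unfold JD
  exact mul_neg_of_pos_of_neg hp (by linarith)

theorem iv_nonneg (h1 : ALZ_Stmt) (β : ℚ) : 0 < iv β := (h1.2.2.2.1.2.2.2 β).1

open Classical in
theorem classes (h1 : ALZ_Stmt) (D : ℤ) (hD : D ≠ 0) (Vs : List Vx) (v' : Vx)
    (hv : ∀ v ∈ v' :: Vs, (tot v).1 ∣ D)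
    (H : ∀ (K : ℤ) (φ : ℚ → ℂ), K ≠ 0 → Per1 φ →
      (Vs.map fun v => if Kv D v = K then alv φ D v else 0).sum =
        if Kv D v' = K then alv φ D v' else 0) (K : ℤ) (φ : ℚ → ℂ) (hK : K ≠ 0) (hφ : Per1 φ) :
    (((nts Vs).filter fun v => decide (Kv D v = K)).map (alv φ D)).sum =
      if Kv D v' = K then alv φ D v' else 0 := by
  rw [← H K φ hK hφ, ← filt]
  unfold nts
  refine (sum_filter (fun v => decide (Ntr v)) _ Vs fun v hvs hn => ?_).symm
  by_cases h : Kv D v = K
  · rw [if_pos h]
    have ht : (tot v).2 ≠ 0 := fun h0 => hK (by rw [← h, Kv, h0, mul_zero])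
    exact h1.2.1 D v hD (hv v (List.mem_cons_of_mem _ hvs)) ht (by simpa using hn) φ hφ
  · rw [if_neg h]

end WBV

open WBV in
theorem t_WBV (h1 : ALZ_Stmt) (h2 : QIN_Stmt) (h3 : SLQ_Stmt) : WBV_Stmt := by
  classical
  intro D hD Vs v' hv hn H
  have f' : Fc D v' := fc h1 hD (hv v' List.mem_cons_self) hn
  have hN : ∀ v ∈ nts Vs, Fc D v := by
    intro v hvn
    unfold nts at hvn
    obtain ⟨ha, hb⟩ := List.mem_filter.1 hvn
    exact fc h1 hD (hv v (List.mem_cons_of_mem _ ha)) (by simpa using hb)
  have HC := classes h1 D hD Vs v' hv H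
  set N := nts Vs with hNdef
  -- the other classes
  have hneg : ∀ v ∈ N, Kv D v ≠ Kv D v' → JD v < 0 := by
    intro v hvN hK
    refine JD_lt h2 (hN v hvN) ?_
    by_contra hs
    have h4 := HC (Kv D v) _ (hN v hvN).K0 ind_per
    rw [if_neg (fun h => hK h.symm)] at h4
    have h5 : ((N.filter fun w => decide (Kv D w = Kv D v)).map
        (alv (fun β : ℚ => if ∃ n : ℤ, β = n then (1 : ℂ) else 0) D)) =
        (N.filter fun w => decide (Kv D w = Kv D v)).map fun w => ((ncw w : ℕ) : ℂ) := by
      refine List.map_congr_left fun w hw => ?_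
      obtain ⟨hw1, hw2⟩ := List.mem_filter.1 hw
      have hw3 : Kv D w = Kv D v := by simpa using hw2
      refine ind_val h3 (hN w hw1) ?_
      rw [← (hN w hw1).sg, hw3, (hN v hvN).sg]
      exact hs
    rw [h5, sum_cast] at h4
    have h6 := sum_nc_pos (N.filter fun w => decide (Kv D w = Kv D v))
      (List.ne_nil_of_mem (List.mem_filter.2 ⟨hvN, by simp⟩))
    have h7 : ((N.filter fun w => decide (Kv D w = Kv D v)).map ncw).sum = 0 := by
      exact_mod_cast h4
    omega
  have hsplit := sum_split (fun v => decide (Kv D v = Kv D v')) JD N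
  set A := N.filter fun v => decide (Kv D v = Kv D v') with hA
  set B := N.filter fun v => !decide (Kv D v = Kv D v') with hB
  have hBneg : ∀ v ∈ B, JD v < 0 := by
    intro v hvB
    obtain ⟨a, b⟩ := List.mem_filter.1 hvB
    exact hneg v a (by simpa using b)
  have hAf : ∀ v ∈ A, Fc D v ∧ Kv D v = Kv D v' ∧ slp (tot v) = slp (tot v') := by
    intro v hvA
    obtain ⟨a, b⟩ := List.mem_filter.1 hvA
    have hk : Kv D v = Kv D v' := by simpa using b
    refine ⟨hN v a, hk, ?_⟩
    rw [← (hN v a).sg, hk, f'.sg]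
  have HA : ∀ φ : ℚ → ℂ, Per1 φ → (A.map (alv φ D)).sum = alv φ D v' := by
    intro φ hφ
    have := HC (Kv D v') φ f'.K0 hφ
    rwa [if_pos rfl] at this
  have hBle : (B.map JD).sum ≤ 0 := by
    have := sum_le JD (fun _ => 0) B fun v hv => (hBneg v hv).le
    rwa [sum_const, mul_zero] at this
  -- the number of the elements of the class of `v'`
  rcases hAc : A with _ | ⟨v1, _ | ⟨v2, A'⟩⟩
  · exfalso
    obtain ⟨φ, hφ, hne⟩ := h3.2.1 _ _ _ _ f'.sm f'.n0 f'.n1 f'.n2
    have h4 := HA φ hφ
    rw [hAc] at h4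
    apply hne
    have h5 : alv φ D v' = al φ (slp (tot v')) (slp v'.1) (slp v'.2.1) (slp v'.2.2) := by
      unfold alv
      rw [f'.sg]
    rw [← h5, ← h4]
    simp
  · -- one element
    obtain ⟨f1, hk, hs⟩ := hAf v1 (by rw [hAc]; simp)
    have hsm1 : slp v1.1 + slp v1.2.1 + slp v1.2.2 = slp (tot v') := by rw [f1.sm, hs]
    have hal : ∀ φ : ℚ → ℂ, Per1 φ →
        al φ (slp (tot v')) (slp v1.1) (slp v1.2.1) (slp v1.2.2) =
          al φ (slp (tot v')) (slp v'.1) (slp v'.2.1) (slp v'.2.2) := by
      intro φ hφ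
      have h4 := HA φ hφ
      rw [hAc] at h4
      have h5 : alv φ D v1 = alv φ D v' := by simpa using h4
      unfold alv at h5
      rw [hk, f'.sg] at h5
      exact h5
    have hperm := h3.1 _ _ _ _ _ _ _ hsm1 f'.sm f1.n0 f1.n1 f1.n2 f'.n0 f'.n1 f'.n2 hal
    have hJ : JD v1 = JD v' := by
      unfold JD
      rw [hs, h1.2.2.2.2 _ _ _ _ _ _ hperm]
    by_cases hBe : B = []
    · left
      refine ⟨v1, ?_, hk, hJ, hperm⟩
      have hall : ∀ v ∈ N, Kv D v = Kv D v' := by
        intro v hvN
        by_contra hne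
        have : v ∈ B := List.mem_filter.2 ⟨hvN, by simpa using hne⟩
        rw [hBe] at this
        simp at this
      have : A = N := List.filter_eq_self.2 fun v hvN => by simpa using hall v hvN
      rw [← this, hAc]
    · right
      have := sum_lt JD (fun _ => 0) B hBe hBneg
      rw [sum_const, mul_zero] at this
      rw [hsplit, hAc]
      simp only [List.map_cons, List.map_nil, List.sum_cons, List.sum_nil]
      linarith
  · -- at least two elements
    right
    have hlen : (2 : ℚ) ≤ A.length := by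
      rw [hAc]
      simp only [List.length_cons]
      push_cast
      have : (0 : ℚ) ≤ A'.length := Nat.cast_nonneg _
      linarith
    have hAne : A ≠ [] := by rw [hAc]; simp
    have hp : 0 < 4 / (slp (tot v')) ^ 2 := by
      have := f'.s0
      positivity
    set qf : Vx → ℚ := fun v => QF (slp v.1) (slp v.2.1) (slp v.2.2) with hqf
    have hJA : (A.map JD).sum = 4 / (slp (tot v')) ^ 2 * (A.map qf).sum := by
      rw [← List.sum_map_mul_left]
      congr 1
      refine List.map_congr_left fun v hvA => ?_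
      unfold JD
      rw [(hAf v hvA).2.2]
    have key : (A.map qf).sum < qf v' := by
      by_cases hs : ∃ n : ℤ, slp (tot v') = n
      · have h4 : (A.map qf).sum ≤ A.length * (-13 / 4) := by
          rw [← sum_const]
          refine sum_le _ _ A fun v hvA => ?_
          obtain ⟨f1, hk, hs1⟩ := hAf v hvA
          exact ((h2 _ _ _ f1.n0 f1.n1 f1.n2).1 (by rw [f1.sm, hs1]; exact hs)).2
        have h5 := ((h2 _ _ _ f'.n0 f'.n1 f'.n2).1 (by rw [f'.sm]; exact hs)).1
        have h6 : (A.length : ℚ) * (-13 / 4) ≤ 2 * (-13 / 4) := by nlinarith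
        have h7 : (2 : ℚ) * (-13 / 4) < -6 := by norm_num
        show (A.map qf).sum < QF (slp v'.1) (slp v'.2.1) (slp v'.2.2)
        linarith
      · set τ : ℚ := (1 + iv (slp (tot v'))) ^ 2 with hτ
        have hτ1 : 1 ≤ τ := by
          have := iv_nonneg h1 (slp (tot v'))
          rw [hτ]
          nlinarith
        have h4 : (A.map qf).sum < (A.map fun v => ((ncw v : ℚ) - 2) * τ).sum := by
          refine sum_lt _ _ A hAne fun v hvA => ?_
          obtain ⟨f1, hk, hs1⟩ := hAf v hvA
          have h5 := ((h2 _ _ _ f1.n0 f1.n1 f1.n2).2 (by rw [f1.sm, hs1]; exact hs)).2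
          rw [f1.sm, hs1] at h5
          refine lt_of_lt_of_eq h5 ?_
          unfold ncw
          push_cast
          ring
        have h5 : (A.map fun v => ((ncw v : ℚ) - 2) * τ).sum =
            (((A.map ncw).sum : ℕ) - 2 * (A.length : ℚ)) * τ := by
          have : ∀ l : List Vx, (l.map fun v => ((ncw v : ℚ) - 2) * τ).sum =
              (((l.map ncw).sum : ℕ) - 2 * (l.length : ℚ)) * τ := by
            intro l
            induction l with
            | nil => simp
            | cons a l ih =>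
              rw [List.map_cons, List.sum_cons, ih, List.map_cons, List.sum_cons,
                List.length_cons]
              push_cast
              ring
          exact this A
        have h6 : (A.map ncw).sum = ncw v' := by
          have h7 := HA _ ind_per
          rw [ind_val h3 f' hs] at h7
          have h8 : (A.map (alv (fun β : ℚ => if ∃ n : ℤ, β = n then (1 : ℂ) else 0) D)) =
              A.map fun w => ((ncw w : ℕ) : ℂ) := by
            refine List.map_congr_left fun w hw => ?_
            obtain ⟨f1, hk, hs1⟩ := hAf w hw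
            exact ind_val h3 f1 (by rw [hs1]; exact hs)
          rw [h8, sum_cast] at h7
          exact_mod_cast h7
        have h9 := ((h2 _ _ _ f'.n0 f'.n1 f'.n2).2 (by rw [f'.sm]; exact hs)).1
        rw [f'.sm, ← hτ] at h9
        have h10 : ((ncw v' : ℕ) : ℚ) = 1 + (nuc (slp v'.1) (slp v'.2.1) (slp v'.2.2) : ℚ) := by
          unfold ncw
          push_cast
          rfl
        rw [h5, h6, h10] at h4
        show (A.map qf).sum < QF (slp v'.1) (slp v'.2.1) (slp v'.2.2)
        nlinarith
    rw [hsplit, hJA]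
    have h11 : 4 / (slp (tot v')) ^ 2 * (A.map qf).sum < JD v' :=
      mul_lt_mul_of_pos_left key hp
    linarith

end Pool.Agent.TW
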