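import Pool.Agent.TW.AsmA
import Pool.Agent.TW.AsmB
import Pool.Agent.TW.Nzm
import Pool.Agent.TW.Intw
import Pool.Agent.TW.Liew
import Pool.Agent.TW.Muks
import Pool.Agent.TW.Cls
import Pool.Agent.TW.Alz
import Pool.Agent.TW.Gvx
import Pool.Agent.TW.Qin
import Pool.Agent.TW.Slq
import Pool.Agent.TW.Wbv
import Pool.Agent.TW.Sw
import Pool.Agent.TW.Nt3
import Pool.Agent.TW.Nle
import Pool.Agent.TW.Nve
import Pool.Agent.TW.Rtt
import Pool.Agent.TW.Rtu
import Pool.Agent.TW.Tww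
import Pool.Agent.TW.Top3
import Pool.Agent.TW.Syf
import Pool.Agent.TW.Unn
import Pool.Agent.TW.Topw
import Pool.Agent.TW.Odm
import Pool.Agent.TW.Kdf
import Pool.Agent.TW.Cmb
import Pool.Agent.MTR.Cfuo
import Pool.Agent.TV.Final

/-!
Theorem W (MP_31fd3b_gt): rational finite type invariants separate the connected sums of 2-bridge
knots and one Montesinos knot with three rational tangles from every arborescent knot, up to the
orientation if the three denominators are odd. Assembly.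
-/

namespace Pool.Agent.TW

open Pool.Agent.LibH11.Sliced Pool.Agent.MTR Pool.Agent.MT Pool.Agent.MTA Pool.Agent.UA
open Pool.Agent.UB Pool.Agent.TwoBr Pool.Agent.Mont Pool.Agent.TV
open Pool.Agent.TB hiding vec

/-- INTW, unconditional, and the nonvanishing of the values (compare `TV.intv_all`). -/
theorem intw_all : INTW_Stmt ∧ NZR_Stmt ∧ NZM_Stmt := by
  have hbrk := brk
  have hemb := emb
  have hrel := rel
  have hspec := spec brk
  have hfc := fc
  have hbrd := brd hbrk hfc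
  have htop := top hbrk hspec hfc
  have hrpr := rpr hbrk
  have hcup := cup
  have hsld := sld hemb hrel hspec hfc hbrd htop hrpr hcup
  have htdg := tdg hemb hrel hspec hfc hbrd hrpr hcup hsld
  have hzt := zt_basic
  have hgrt := grt hbrk
  have hlft := lft hzt
  have heig := eig hbrk hzt
  have hwop := wop_thm hbrk hemb hrel hspec hfc htop
  have hdlb := dlb hbrk hspec hfc htop
  have hclc := clc hbrk hemb hrel hspec hfc htop hcup unv hdlb hwop
  have hprt := prt hbrk hemb hspec hfc hrpr hcup hdlb hwop hclc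
  have hotg := otg hbrk
  have htmc := tmc hbrk hfc unv hzt hgrt hlft heig (nn hzt) (mu hzt) the
  have htmp := tmp hbrk hfc unv hzt hgrt hlft heig (nn hzt) (mu hzt) the
  have htmf := tmf hbrk hzt
  have htms := tms hzt
  have htma := tma hfc hgrt htmc htmp htmf htms
  have hego := ego hzt
  have hins := insg_thm hego
  have hstb := stb hzt hego hins
  have hprs := MTA.prs hzt hego
  -- labels
  have hpar := t_PAR hbrk hemb hspec hfc hrpr
  have hhtl := t_HTL hpar hbrk hemb hspec hfc hrpr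
  have hrotl := t_ROTL hpar hemb hspec hfc hcup hdlb hwop hprt hclc
  have hlabl := t_LABL hpar hhtl hrotl hemb hspec hfc hcup hclc
  have hjls := t_JLS t_ACT t_PRD t_ORI hlabl TS.mul
  have htrf := t_TRF t_NATU hotg hclc (gps hbrk)
  -- model
  have hrotm := t_ROTM hbrk hzt hgrt hlft heig (nn hzt) (mu hzt) the
  have hfht := t_FHT hzt
  have hstu := t_STU hfht hstb
  have htmu := t_TMU hrotm hstu htmf hfc hgrt
  have hcvu := t_CVU htmu hstu htmc
  exact ⟨t_INTW hjls htrf hcvu htma (ftm inv fti) htdg hz (gps hbrk) hgrt,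
    t_NZR hstu hprs hego, t_NZM hstu hprs hego⟩

theorem liew_all : LIEW_Stmt :=
  t_LIEW intw_all.1 (t_LIMV (limq (tail MTA.cls)) cscl sfin_all) lguv_all fout

/-- The algebraic part of Theorem W. -/
theorem algw_all : ALGW_Stmt := by
  have jpv : JPV_Stmt := t_JPV
  have jdv : JDV_Stmt := t_JDV jpv
  have sgn : SGN_Stmt := t_SGN
  have ratj : RATJ_Stmt := t_RATJ jpv t_RATG jdv
  have kbm : KBM_Stmt := t_KBM jpv
  have jdiv : JDIV_Stmt := t_JDIV t_ACT t_PRD t_MULG kbm
  have sfin := sfin_all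
  have aid := t_AID sfin
  have xxf := t_XXF aid sfin
  have gq := t_GQ sfin
  have rsv := t_RSV gq t_VTS sfin
  have rsi := t_RSI xxf rsv t_PF t_VTS
  have cls := t_CLS (t_CQE t_VTS) (t_MUKS t_FIB)
  have pla := t_PLA (t_GSY sfin) (t_PLN sfin) t_PLC t_FIB
  have jonv := t_JONV (t_JONEV t_KBG t_JNAT) (t_JPR t_ACT t_PRD t_ORI t_MULG kbm) jdiv t_BVN jdv
  have ru := t_RU jpv t_RATG ratj jdv
  have omr := t_OMR ru jpv
  have omp := t_OMP omr ru jpv
  have nwl := t_NWL t_WADG omr ru jpv jdv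
  have crn := t_CRN sgn
  have lad := t_LAD jdv jpv
  have lae := t_LAE lad ru jpv
  have vxa := t_VXA omr omp ru jpv jdv
  have alz := t_ALZ
  have gvx := t_GVX ru lad lae
  have wbv := t_WBV alz (t_QIN alz) t_SLQ
  have sw := t_SW crn sgn
  have nt3 := t_NT3 ru
  have m3c := t_M3C crn t_VTS
  have nle := t_NLE t_VTS
  exact algw liew_all t_VTS rsi cls t_CSM alz pla jonv omr omp nwl crn vxa gvx wbv sw nt3 m3c nle
    t_NVE intw_all.2.1 intw_all.2.2 jpv

/-- **Theorem W**, for diagrams. -/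
theorem separate_all (t : Diag) (ht : Arb t) (h : IsLongKnot (cl t)) (ws : List Diag)
    (hws : ∀ w ∈ ws, IsLongKnot w ∧ minima w ≤ 1) (r1 r2 r3 : Diag) (v1 v2 v3 : ℤ × ℤ)
    (hr1 : RatT r1 v1) (hr2 : RatT r2 v2) (hr3 : RatT r3 v3) (hd1 : 2 ≤ |v1.2|)
    (hd2 : 2 ≤ |v2.2|) (hd3 : 2 ≤ |v3.2|)
    (h' : IsLongKnot (ws.flatten ++ cl (r1 ++ (r2 ++ r3))))
    (hv : ∀ v : Knot → ℚ, IsFiniteType v →
      v (ofDiag (cl t) h) = v (ofDiag (ws.flatten ++ cl (r1 ++ (r2 ++ r3))) h')) :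
    EqD 1 (cl t) (ws.flatten ++ cl (r1 ++ (r2 ++ r3))) ∨
      ((Odd v1.2 ∧ Odd v2.2 ∧ Odd v3.2) ∧
        EqD 1 (cl t) (flipD (ws.flatten ++ cl (r1 ++ (r2 ++ r3))))) := by
  have jpv : JPV_Stmt := t_JPV
  have jdv : JDV_Stmt := t_JDV jpv
  have ratj : RATJ_Stmt := t_RATJ jpv t_RATG jdv
  have ru := t_RU jpv t_RATG ratj jdv
  have h1 := t_FSY
  have h2 := t_FEQ h1
  have h3 := t_FCG
  have h4 := t_FRO h1 h2 h3
  have h5 := t_FFL h1
  have h6 := t_FIT h3
  have h7 := t_FR3 h1 h2 h3 h4 h5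
  have h8 := t_FC0 h1 h2 h3 h4 h5
  have rti := t_RTI h1 h2 h3 h4 h5
  have str := t_STR h4 h3
  have onem := t_ONEM rti str h3
  have rtc := t_RTC rti h8 h5 h3
  have kdt := t_KDT rti str h3 h6
  have com : TS.COM_Stmt := TS.com (TS.bead TS.natx)
  have kdf := t_KDF com h5 h3 onem rtc
  have spl := t_SPL kdf h3
  have rtt := t_RTT fta_all h3
  have rcl := t_RCL h5 h3 rti
  have rtu := t_RTU t_RATG h7 h5 h4 h3 h1 h2 fta_all h6 rti ru
  have tww := t_TWW str rti h3
  have mtm := t_MTM tww h3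
  have top3 := t_TOP3 h1 h2 h3 h4 h5 h8 rti
  have syf := t_SYF rtu ru rti h8 h5 h3 h1 fta_all
  have unn := t_UNN chno (cfuo chno)
  have topw := t_TOPW unn
  have odm := t_ODM mtm (adv chno) chno
  have cmb := t_CMB kdf syf h3
  exact separate_w algw_all ftop_all fta_all h6 h3 t_LKB kdt syf kdf cmb spl top3 mtm topw odm rtt
    rcl t ht h ws hws r1 r2 r3 v1 v2 v3 hr1 hr2 hr3 hd1 hd2 hd3 h' hv

end Pool.Agent.TW
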