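import Pool.Agent.TW.Defs

/-!
Theorem W (MP_31fd3b_gt), algebraic part: statements of the modules with their proofs. All formulas
were checked numerically.
-/

open Filter Topology
open scoped BigOperators Real

namespace Pool.Agent.TW

open Pool.Agent.LibH11.Sliced Pool.Agent.MTR Pool.Agent.MTA Pool.Agent.UA Pool.Agent.UB
open Pool.Agent.TwoBr Pool.Agent.Mont Pool.Agent.TV
open Pool.Agent.TB hiding vec

/-! ## 1. From the invariants to the limit functions -/

/-- NZM (uses STU, FHT of UB, PRS of MTA, EGO; compare `TV.t_NZR`, Pool/Agent/TV/Nzr.lean): the values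
of the tree `M3 a b c e` do not vanish.

Proof. Put `n = 2^s`, `f = (sta n ι t).1`, `t = M3 a b c e`. The second half of the proof of `TV.t_NZR`
shows for every tree `t` with `Odd (vec t).1`: if `pr n 1 f = 0` then `f = 0` (it uses the rationality of `t`
only in the last line, `NZR.sta_ne`). So show `f ≠ 0`. `f = Fh fa * Fh fb * Fh fc * fe e` with
`fa = (sta n ι a).1`, .... As `(vec t).1` is odd, at most one of the weights `(vec a).1`, `(vec b).1`,
`(vec c).1` is even (every summand of `(vec t).1 = -(a.2 b.1 c.1 + a.1 b.2 c.1 + a.1 b.1 c.2) - e a.1 b.1 c.1`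
contains two of them). Let `x` be one of the three with an odd weight: `Fh fx` does not vanish at the
even elements: `Fh fx (2 w) = (1/(2n)) ∑_{j<n} fx (2j) zt (4jw) = (1/(2n)) pr n 1 (Tt n ι w 0 fx)`
(compare `MNZ.key`, Pool/Agent/MTA/Mnz.lean, and its use in `t_NZR`) and this is, by PRS (second part) with
`l = (0, 1)`, `V = vec x`, a root of unity times `pr n 1 fx = (Va n ι x).1 ≠ 0` (`TV.t_NZR` for `x`).
`fe e` does not vanish at the even elements (`STB.fe_even`). So if `f = 0` then `Fh` of the third function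
vanishes at the even elements, so the third function is zero (`NZR.zero_of_Fh`, `NZR.per_sta`), which
contradicts `NZR.sta_ne`. -/
def NZM_Stmt : Prop :=
  ∀ (a b c : Tr) (e : ℤ), a.Rat → b.Rat → c.Rat → Odd (vec (M3 a b c e)).1 →
    ∀ s : ℕ, 2 ≤ s → ∀ ι : ℤ, Odd ι → (Va (2 ^ s) ι (M3 a b c e)).1 ≠ 0

/-- INTW (copy of `TV.t_INTV`, Pool/Agent/TV/Intv.lean; the same hypotheses without `NZR_Stmt`).

Proof. The same; the rationality of the trees of `Ts'` is used only for `hone`, which is now a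
hypothesis. -/
def INTW_Stmt : Prop :=
  ∀ (Ts Ts' : List Tr) (h : IsLongKnot (cls Ts)) (h' : IsLongKnot (cls Ts')),
    Ts.length = Ts'.length → (∀ t ∈ Ts, Odd (vec t).1) → (∀ t ∈ Ts', NVP t) →
    (∀ v : Knot → ℂ, IsFiniteType v → v (ofDiag (cls Ts) h) = v (ofDiag (cls Ts') h')) →
    ∀ s : ℕ, 2 ≤ s → ∃ K : ℂ, ∀ ι : ℤ, Odd ι →
      (∀ t ∈ Ts ++ Ts', (Va (2 ^ s) ι t).1 ≠ 0) ∧
      (Ts.map fun t => (Va (2 ^ s) ι t).2 / (Va (2 ^ s) ι t).1).sum -
        (Ts'.map fun t => (Va (2 ^ s) ι t).2 / (Va (2 ^ s) ι t).1).sum = K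

/-- LIEW (copy of `TV.t_LIE`, Pool/Agent/TV/Lie.lean, with INTW instead of INTV). -/
def LIEW_Stmt : Prop :=
  ∀ (Ts Ts' : List Tr) (h : IsLongKnot (cls Ts)) (h' : IsLongKnot (cls Ts')),
    Ts.length = Ts'.length → (∀ t ∈ Ts, Odd (vec t).1) → (∀ t ∈ Ts', NVP t) →
    (∀ v : Knot → ℂ, IsFiniteType v → v (ofDiag (cls Ts) h) = v (ofDiag (cls Ts') h')) →
    ∀ D : ℤ, Odd D → (∀ t ∈ Ts ++ Ts', (vec t).1 ∣ D) → ∃ B : ℕ, ∀ M : ℤ, Odd M → Gp B M →
      (Ts.map fun t => Ph (D / (vec t).1) M t).sum =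
        (Ts'.map fun t => Ph (D / (vec t).1) M t).sum

/-! ## 2. The classes of vertices -/

/-- MUKS (uses FIB; copy of `TV.t_MUK`, Pool/Agent/TV/Muk.lean, with integral coefficients). The entries
of the list are `(ε, K, b0, b1, b2)`.

Proof. The same proof as MUK: signs are not used there (only the sums of the entries with a given `K`
and a given residue class). -/
def MUKS_Stmt : Prop :=
  ∀ D : ℤ, Odd D → ∀ X : List (ℤ × ℤ × ℚ × ℚ × ℚ),
    (∀ x ∈ X, x.2.1 ≠ 0 ∧ x.2.2.1 + x.2.2.2.1 + x.2.2.2.2 = (D : ℚ) / x.2.1 ∧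
      ∀ b ∈ [x.2.2.1, x.2.2.2.1, x.2.2.2.2],
        (∃ n : ℤ, (x.2.1 : ℚ) * b = n) ∧ ∃ n : ℤ, b * (D - x.2.1 * b) = n) →
    (∀ (g : ℤ) (z : ℚ), Odd g → z ≠ 0 →
      (X.map fun x => (x.1 : ℂ) * al (fun β => (cqn x.2.1 ((D : ℚ) / x.2.1) β g z : ℂ))
        ((D : ℚ) / x.2.1) x.2.2.1 x.2.2.2.1 x.2.2.2.2).sum = 0) →
    ∀ (K : ℤ) (φ : ℚ → ℂ), (∀ (β : ℚ) (n : ℤ), φ (β + n) = φ β) →
      (X.map fun x => if x.2.1 = K then
        (x.1 : ℂ) * al φ ((D : ℚ) / x.2.1) x.2.2.1 x.2.2.2.1 x.2.2.2.2 else 0).sum = 0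

/-- CLS (uses CQE of TV, MUKS): the class sums of two lists of vertices with the same residues agree.

Proof. `X` is the list of the `(1, Kv D v, slopes)` for the `v ∈ Vs` with `(tot v).2 ≠ 0` and of the
`(-1, Kv D v, slopes)` for the `v ∈ Vs'` with `(tot v).2 ≠ 0` (for `(tot v).2 = 0` the residue `rs` is 0 and
`Kv D v = 0 ≠ K`). By CQE the hypotheses of MUKS are satisfied. `(D : ℚ) / x.2.1` is `(D : ℚ) / Kv D v`. -/
def CLS_Stmt : Prop :=
  ∀ D : ℤ, Odd D → ∀ Vs Vs' : List Vx, (∀ v ∈ Vs ++ Vs', (tot v).1 ∣ D) →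
    (∀ (g : ℤ) (z : ℚ), Odd g → z ≠ 0 →
      (Vs.map fun v => rs D v g z).sum = (Vs'.map fun v => rs D v g z).sum) →
    ∀ (K : ℤ) (φ : ℚ → ℂ), K ≠ 0 → Per1 φ →
      (Vs.map fun v => if Kv D v = K then alv φ D v else 0).sum =
        (Vs'.map fun v => if Kv D v = K then alv φ D v else 0).sum

/-- CSM: from the class sums for every `K` to the sums of a family of functions.

Proof. Both sides are the sums over the finite set of all values `K = Kv D v ≠ 0`, `v ∈ Vs ++ Vs'`, of the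
class sums for `φ = f K` (exchange of the two sums; compare `TV.t_FIB`, Pool/Agent/TV/Fib.lean). -/
def CSM_Stmt : Prop :=
  ∀ (D : ℤ) (Vs Vs' : List Vx),
    (∀ (K : ℤ) (φ : ℚ → ℂ), K ≠ 0 → Per1 φ →
      (Vs.map fun v => if Kv D v = K then alv φ D v else 0).sum =
        (Vs'.map fun v => if Kv D v = K then alv φ D v else 0).sum) →
    ∀ f : ℤ → ℚ → ℂ, (∀ K : ℤ, Per1 (f K)) →
      (Vs.map fun v => if Kv D v = 0 then 0 else alv (f (Kv D v)) D v).sum =
      (Vs'.map fun v => if Kv D v = 0 then 0 else alv (f (Kv D v)) D v).sum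

/-- ALZ: elementary facts on vertices.

Proof. (1) `(tot v).1 * (D / (tot v).1) = D`, so `(D : ℚ) / Kv D v = (tot v).1 / (tot v).2 = slp (tot v)`, and this is
the sum of the slopes (all three weights are nonzero, `(tot v).2` is their product). (2) If a slope of a vertex is an
integer, say `β_0`, and `σ = β_0 + β_1 + β_2`, then `φ 0 = φ β_0`, `φ σ = φ (σ - β_0)`, `φ (σ - β_1) = φ (β_0 + β_2) = φ β_2`,
`φ (σ - β_2) = φ β_1`: `al φ = 0`; the same for the other positions. `p.2.2 ∣ p.2.1` iff the slope of `p.2` is an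
integer (if `p.2.2 ≠ 0`). (3) The slope of a vector `V` with `V.2 ≠ 0` is an integer iff `V.2 ∣ V.1`. (4) `iv` has the
period 1 (`Rat.add_intCast_den`), `iv (-β) = iv β`; `iv 0 = 1`; `iv β ≤ 1/4` if `β` is no integer. (5) `QF` is symmetric and
depends only on the fractional parts (`β = Int.fract β + ⌊β⌋`, and the same for the sums). -/
def ALZ_Stmt : Prop :=
  (∀ (D : ℤ) (v : Vx), D ≠ 0 → (tot v).1 ∣ D → (tot v).2 ≠ 0 →
    Kv D v ≠ 0 ∧ (D : ℚ) / Kv D v = slp (tot v) ∧ slp v.1 + slp v.2.1 + slp v.2.2 = slp (tot v) ∧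
      (slp (tot v) ≠ 0)) ∧
  (∀ (D : ℤ) (v : Vx), D ≠ 0 → (tot v).1 ∣ D → (tot v).2 ≠ 0 → ¬ Ntr v → ∀ φ : ℚ → ℂ, Per1 φ →
    alv φ D v = 0) ∧
  (∀ V : ℤ × ℤ, V.2 ≠ 0 → ((∃ n : ℤ, slp V = n) ↔ V.2 ∣ V.1)) ∧
  ((∀ (β : ℚ) (n : ℤ), iv (β + n) = iv β) ∧ (∀ β : ℚ, iv (-β) = iv β) ∧ iv 0 = 1 ∧
    ∀ β : ℚ, 0 < iv β ∧ iv β ≤ 1 ∧ ((¬ ∃ n : ℤ, β = n) → iv β ≤ 1 / 4)) ∧
  ∀ b0 b1 b2 c0 c1 c2 : ℚ,
    (([b0, b1, b2] : List ℚ).map Int.fract).Perm (([c0, c1, c2] : List ℚ).map Int.fract) →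
    QF b0 b1 b2 = QF c0 c1 c2

/-- GVX (uses RU, LAD, LAE of TV; compare `VXBX.om_gen`, `VXBX.w3_gen` in Pool/Agent/TV/Vxb.lean): the
formula for every vertex without a weight zero.

Proof. `s_j` the slopes, `σ` their sum, `x_j = iv s_j`, `y_j = iv (σ - s_j)`. By `w3_gen`
`w3 v = ∑ ow s_j + 2 ∑ la2 s_j / σ + 44/3 + 4 (6 - 2 ∑ x_j) + 4/3 σ² - (2 - 2 ∑ x_j)² / σ²`, by `om_gen`
`om (tot v) (0,1) = ow σ + 2 la2 σ / σ + 44/3 + 4 (2 - 2 iv σ) + 4/3 σ² - 4 (1 + iv σ)² / σ²` (`ow 0 = la2 0 = 0`) and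
`om P_j v_j = ow (σ - s_j) + ow s_j + 2 (la2 (σ - s_j) + la2 s_j) / σ + 44/3 + 4 (4 - 2 x_j - 2 y_j) + 4/3 σ² -
4 (x_j + y_j)² / σ²`. Insert into `2 w3 v - evO (nv v) = 2 w3 v + om (tot v) (0,1) - ∑ om P_j v_j`. The constants give
`8 = phs σ 0`. Period: LAE (second part), `iv (β + n) = iv β`. The last part: `la2v`, `ow` as above. -/
def GVX_Stmt : Prop :=
  (∀ v : Vx, (tot v).1 ≠ 0 → (tot v).2 ≠ 0 →
    2 * w3 v - evO (nv v) = al (phs (slp (tot v))) (slp (tot v)) (slp v.1) (slp v.2.1) (slp v.2.2) +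
      ((JD v : ℚ) : ℂ)) ∧
  ∀ σ : ℚ, Per1 (phs σ)

/-- QIN (uses ALZ): inequalities for three slopes.

Proof. `x_j = iv b_j`, `σ` the sum, `y_j = iv (σ - b_j)`, all `x_j ≤ 1/4`, `S = ∑ x_j`, `0 < S ≤ 3/4`.
(i) `σ ∈ ℤ`: `y_j = x_j` (`σ - b_j`), `iv σ = 1`: `QF = -2 (1 - S)² - 4 + 4 ∑ x_j²`, which is `> -6` and
`≤ -4 + 4 * 3/16`.
(ii) `σ ∉ ℤ`: if `σ - b_j ∈ ℤ` then `y_j = 1` and `x_j = iv σ`, so `QF = (nuc - 1)(1 + iv σ)² - G` with
`G = 2 (1 - S)² - ∑' (x_j + y_j)²`, the sum over the `j` with `σ - b_j ∉ ℤ`, where `y_j ≤ 1/4`. `G ≤ 2` is clear.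
`G > 0`: call `b_j` a half if `2 b_j ∈ ℤ` (then `x_j = 1/4`), otherwise `x_j ≤ 1/9` (the denominator is at least 3).
No half: `2 (2/3)² > 3 (13/36)²`. One half: `2 (19/36)² > (1/2)² + 2 (13/36)²`. Two halves: the third `b` is
congruent to `σ`, so it does not occur in the sum, and for the two halves `σ - b_j = b + 1/2` modulo 1 is neither
an integer nor a half, so `y_j ≤ 1/9`: `2 (7/18)² > 2 (13/36)²`. Three halves: all `b_j` are congruent to `σ`:
`G = 2 (1/4)² > 0`. -/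
def QIN_Stmt : Prop :=
  ∀ b0 b1 b2 : ℚ, (¬ ∃ n : ℤ, b0 = n) → (¬ ∃ n : ℤ, b1 = n) → (¬ ∃ n : ℤ, b2 = n) →
    ((∃ n : ℤ, b0 + b1 + b2 = n) → -6 < QF b0 b1 b2 ∧ QF b0 b1 b2 ≤ -13 / 4) ∧
    ((¬ ∃ n : ℤ, b0 + b1 + b2 = n) →
      ((nuc b0 b1 b2 : ℚ) - 1) * (1 + iv (b0 + b1 + b2)) ^ 2 - 2 ≤ QF b0 b1 b2 ∧
      QF b0 b1 b2 < ((nuc b0 b1 b2 : ℚ) - 1) * (1 + iv (b0 + b1 + b2)) ^ 2)

open Classical in
/-- SLQ: the alternating sums determine the slopes modulo 1.

Proof. Write `≡` for congruence modulo 1, `σ` for the sum. A triple without integers contains no two slopes `b`, `b'`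
with `b + b' ≡ σ` (the third one would be an integer). (1) For `β` let `n(β)` be the number of `j` with `b_j ≡ β`,
`n'(β)` the same for the `c_j`. With the indicator function `φ` of `β + ℤ`: `al φ = [β ≡ 0] - [β ≡ σ] - n(β) + n(σ - β)`,
so `n(β) - n(σ - β) = n'(β) - n'(σ - β)` for all `β`. If `2 β` is not congruent to `σ` then one of `n(β)`, `n(σ - β)` is
zero, so `n(β) = max (n(β) - n(σ - β)) 0 = n'(β)`. There are two classes `β` with `2 β ≡ σ`, they differ by `1/2`. Let `k` be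
the number of the `b_j` in these two classes; it is the same for the `c_j` (3 minus the number of the others).
`n(β) ≤ 1` for both classes (`β + β ≡ σ`). `k = 0`: nothing to do. `k = 1`: the last slope is determined modulo 1
by the sum. `k = 2`: both classes occur once. `k = 3` is impossible. So `n = n'`, and the multisets of the fractional
parts agree (`List.perm_iff_count`). (2) If `σ` is no integer use (3), the value is `1 + nuc`. If `σ` is an integer then
`al φ = -∑ φ (b_j) + ∑ φ (-b_j)`. If some `2 b_j` is no integer take the indicator function of `b_j + ℤ`: the value is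
`-n(b_j) + n(-b_j)`, and `n(-b_j) = 0` (otherwise the third slope is an integer), so it is negative. If all `2 b_j` are
integers then all `b_j ≡ 1/2`, and the sum is not an integer, a contradiction. (3) `φ 0 = 1`, `φ σ = 0`, `φ (b_j) = 0`,
`∑ φ (σ - b_j) = nuc`. -/
def SLQ_Stmt : Prop :=
  (∀ b0 b1 b2 c0 c1 c2 σ : ℚ, b0 + b1 + b2 = σ → c0 + c1 + c2 = σ →
    (¬ ∃ n : ℤ, b0 = n) → (¬ ∃ n : ℤ, b1 = n) → (¬ ∃ n : ℤ, b2 = n) →
    (¬ ∃ n : ℤ, c0 = n) → (¬ ∃ n : ℤ, c1 = n) → (¬ ∃ n : ℤ, c2 = n) →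
    (∀ φ : ℚ → ℂ, Per1 φ → al φ σ b0 b1 b2 = al φ σ c0 c1 c2) →
    (([b0, b1, b2] : List ℚ).map Int.fract).Perm (([c0, c1, c2] : List ℚ).map Int.fract)) ∧
  (∀ b0 b1 b2 σ : ℚ, b0 + b1 + b2 = σ →
    (¬ ∃ n : ℤ, b0 = n) → (¬ ∃ n : ℤ, b1 = n) → (¬ ∃ n : ℤ, b2 = n) →
    ∃ φ : ℚ → ℂ, Per1 φ ∧ al φ σ b0 b1 b2 ≠ 0) ∧
  ∀ b0 b1 b2 σ : ℚ, b0 + b1 + b2 = σ →
    (¬ ∃ n : ℤ, b0 = n) → (¬ ∃ n : ℤ, b1 = n) → (¬ ∃ n : ℤ, b2 = n) → (¬ ∃ n : ℤ, σ = n) →
    al (fun β : ℚ => if ∃ n : ℤ, β = n then (1 : ℂ) else 0) σ b0 b1 b2 = 1 + (nuc b0 b1 b2 : ℂ)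

/-- WBV (uses ALZ, QIN, SLQ): one nontrivial vertex against a list of vertices.

Proof. Let `K' = Kv D v'`, `σ' = D / K'`. Let `N = nts Vs`; by ALZ the trivial vertices contribute `0` to the class sums,
so the hypothesis is a statement on the vertices of `N`; all of them have `(tot v).2 ≠ 0`, `Kv D v ≠ 0`, and the slope
`D / Kv D v` of `tot v` depends only on the class; `JD v = 4 / σ² * QF`.
(a) `K ≠ K'`: all `v ∈ N` with `Kv D v = K` have `D / K ∈ ℤ`: otherwise take the indicator function of `ℤ` (SLQ, third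
part): every such `v` contributes a number `≥ 1` to the sum, which is `0`. So `JD v < 0` by QIN (first case).
(b) `K = K'`. Let `v_1, .., v_p` be the `v ∈ N` with `Kv D v = K'`.
`p = 0` is impossible: the sum is empty, but `al φ ≠ 0` for some `φ` for the vertex `v'` (SLQ, second part).
`p = 1`: `alv φ D v_1 = alv φ D v'` for all `φ`; by SLQ (first part) the slopes agree modulo 1 up to the order, and
`JD v_1 = JD v'` (ALZ, last part; `slp (tot v)` is the same). If `N = [v_1]` we have the first alternative; otherwise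
the other vertices of `N` have `JD < 0` by (a), and we have the second alternative.
`p ≥ 2`, `σ' ∈ ℤ`: by QIN `∑ QF (v_i) ≤ -13/4 * 2 < -6 < QF (v')`.
`p ≥ 2`, `σ' ∉ ℤ`, `τ = (1 + iv σ')² ≥ 1`: by SLQ (third part) `∑ (1 + nuc v_i) = 1 + nuc v'`, so by QIN
`∑ QF (v_i) < ∑ (nuc v_i - 1) τ = (1 + nuc v' - 2 p) τ ≤ (nuc v' - 3) τ ≤ (nuc v' - 1) τ - 2 ≤ QF (v')`.
In both cases we get the second alternative with (a) and the positive factor `4 / σ'²`. -/
def WBV_Stmt : Prop :=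
  ∀ D : ℤ, D ≠ 0 → ∀ (Vs : List Vx) (v' : Vx), (∀ v ∈ v' :: Vs, (tot v).1 ∣ D) → Ntr v' →
    (∀ (K : ℤ) (φ : ℚ → ℂ), K ≠ 0 → Per1 φ →
      (Vs.map fun v => if Kv D v = K then alv φ D v else 0).sum =
        if Kv D v' = K then alv φ D v' else 0) →
    (∃ v : Vx, nts Vs = [v] ∧ Kv D v = Kv D v' ∧ JD v = JD v' ∧
      ((sls v).map Int.fract).Perm ((sls v').map Int.fract)) ∨
    ((nts Vs).map JD).sum < JD v'

/-! ## 3. Trees -/

/-- SW (uses CRN of TV, SGN of UA; compare `TV.t_STRC`, Pool/Agent/TV/Strc.lean): closed reduced trees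
without correction.

Proof. Claim Q: let `y` be rational, `S = rv (vec y)`, so `S` is primitive, `S.2 = (vec y).1`; let `2 ≤ |S.2|`,
`|S.1| < |S.2|`, `dt S (vec x) ≠ 0`, `x` reduced, not rational, `x.kids ≤ 1 → 2 ≤ |x.ex|`, and `cr S x = 0`. Then
`∃ a b c e, Q3 y x a b c e` with `a`, `b`, `c` rational and `|a.1|, |b.1|, |c.1| ≥ 2`. Induction on `x = .cons a b`. All four
summands of `cr` are `≥ 0` (CRN), so they are zero.
(i) `a` not rational: `Eg a < 0`, so `E1 S b = 0`, so by CRN `b` is rational and `|(vec b).2| < 2`, so `b` has no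
child (SGN, third part: `(vec b).2 = (vec child).1`): `b = .pw d`, `x.kids = 1`, `|d| ≥ 2`. The context of `a` is
`rv (addv S (-d, 1)) = rv (vec (.cons y (.pw d)))`, and `(vec (.cons y (.pw d))).1 = -(vec y).2 - d (vec y).1`
has the absolute value `> |(vec y).1| ≥ 2`, `(vec (.cons y (.pw d))).2 = (vec y).1`. Use the induction hypothesis for `a`,
`y := .cons y (.pw d)`, and `Q3.step`.
(ii) `a` rational: `|a.1| ≥ 2` (SGN), `b` has a child (otherwise `x` is rational). If `b` is not rational then `Eg b < 0`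
and `E2 S a < 0`, a contradiction. So `b = .cons b' (.pw e)`, `b'` rational and reduced, `|b'.1| ≥ 2`: `Q3.base`, `c = y`.
Top: `T = .cons a b`, not both rational (otherwise `T2 T`). Both not rational: `2 * E1 (0,1) b * Eg a / .. > 0` by CRN
(last part), a contradiction. `a` not rational, `b` rational: the context of `a` is `rv (vec b)`; `b = .pw e`: `T.kids = 1`,
`|e| ≥ 2` (CR), `vec b = (-e, 1)`; `b = .cons c (.pw e)`: `T.kids = 2`, `|e| ≥ 2`, `|c.1| ≥ 2`, `|c.2| < |c.1|`,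
`vec b = (-c.2 - e c.1, c.1)`. Apply Q with `y = b`. `a` rational, `b` not: the context of `b` is `rv (vec a)`, `b.kids ≤ 1`
implies `T.kids ≤ 2`, so `2 ≤ |T.ex| = |b.ex|` (CR). Apply Q with `y = a`. -/
def SW_Stmt : Prop :=
  ∀ T : Tr, T.CR → (vec T).1 ≠ 0 → cr (0, 1) T = 0 → T2 T ∨ ∃ a b c e, T3 T a b c e

/-- NT3: the nontrivial vertices of the trees with `T2` and `T3`.

Proof. For rational `T` and every `L`: `nts (vts L T) = []`, because the third vector of every vertex is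
`(-e, 1)` (induction). `T2`: the vertex `((0, 1), ..)` is trivial (`1 ∣ 0`). `T3`: the top vertex is trivial; the same for
`x` rational. `Q3 y x a b c e` with `y` rational: `nts (vts (rv (vec y)) x) = [v0 a b c e]` by induction on `Q3`: `base`: the
vertex is `(rv (vec y), rv (vec a), vec (.cons b (.pw e)))`, the rest is rational; the slopes are no integers because the
vectors of rational trees are primitive (RU (4) of TV) and the weights are `(vec c).1`, `(vec a).1`, `(vec b).1`, of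
absolute value `≥ 2`; `step`: the vertex `(rv (vec y), rv (vec x), (-d, 1))` is trivial, the context of `x` is
`rv (addv (rv (vec y)) (-d, 1)) = rv (vec (.cons y (.pw d)))`. At the top the context of `x` is
`rv (addv (0, 1) (vec y)) = rv (vec y)`, the context of `y` is `addv (0, 1) (rv (vec x)) = rv (vec x)`. -/
def NT3_Stmt : Prop :=
  (∀ T : Tr, T2 T → nts (vts (0, 1) T) = []) ∧
  ∀ (T a b c : Tr) (e : ℤ), T3 T a b c e →
    nts (vts (0, 1) T) = [v0 a b c e] ∧ v0 a b c e ∈ vts (0, 1) T ∧ Ntr (v0 a b c e)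

/-- M3C (uses CRN of TV): no correction for the tree `M3`.

Proof. `cr (0, 1) (.cons a B)`, `B = .cons b (.cons c (.pw e))`: `Eg a = 0` (CRN), `E2 (0, 1) a = 0` (definition,
`addv (0, 1) V = V`); the context of `B` is `rv (vec a) = S`: `cr S B`: `Eg b = 0`, `Eg (.cons c (.pw e)) = 0` (CRN, rational;
`vec ≠ 0`), the rest is rational: `cr = 0` by CRN. The numbers `dt` are all equal to `(vec (M3 a b c e)).1 ≠ 0`. -/
def M3C_Stmt : Prop :=
  ∀ (a b c : Tr) (e : ℤ), a.Rat → b.Rat → c.Rat → (vec (M3 a b c e)).1 ≠ 0 →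
    cr (0, 1) (M3 a b c e) = 0

/-- NLE: the value of the combination of a tree for a symmetric function.

Proof. Write `+` for `addv`, `[P, V]` for `F P V`; all `dt` divide `D` (VTS of TV), so `Sym` can be used; in particular no
vector is zero. (1) If one vector of the vertex `v` is `(k, 1)` and the two others are `U`, `W` then
`evF F (nv v) = 2 [U + (k, 1), W]`: if `(tot v).2 ≠ 0` then `nv v` gives `-[tot v, (0,1)] + [U + W, (k,1)] +
[U + (k,1), W] + [W + (k,1), U]`, the first two cancel (`shift`, `addv (0, 1) (k, 1) = (k, 1)`), the last two are equal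
(`shift`, `swap`). If `(tot v).2 = 0` then exactly one of `U.2`, `W.2` is zero (otherwise `(tot v).1 = 0`), say
`U = (u, 0)`: the value is `-2 [tot v, (0,1)] + 2 [U + W, (k,1)] + 2 [U + (k,1), W]` and again the first two cancel; the
same if `W.2 = 0`, with `[W + (k,1), U] = [U + (k,1), W]`.
(2) Rational `T` in the context `L`: `evF F (NL L T) = 2 [L, vec T]`, induction: `T = .cons a (.pw e)`: the vertex gives
`2 [L + (-e,1), rv a]`, the terms `-2 [L + (-e,1), rv a] - 2 [L + rv a, (-e,1)]`, the subtrees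
`2 [rv (L + (-e,1)), a] + 2 [L + rv a, (-e,1)]`, and `[rv (L + (-e,1)), a] = [L + (-e,1), rv a] = [L, vec T]` (`rot`, `shift`).
(3) `T = .cons x y`, both rational, `L = (0,1)`: vertex `2 [rv x, y]`, terms `-2 [y, rv x] - 2 [rv x, y]`, subtrees
`2 [rv y, x] + 2 [rv x, y]`: together `2 [rv x, y]`. `T = .pw e`: `2 [(0,1), (-e,1)]`.
(4) `T3`, `T = .cons x y`, `y` rational: vertex and terms as in (3), `NL (rv x) y` gives `2 [rv x, y]`, so
`evF F (NL (0,1) T) = evF F (NL (rv y) x)`; similarly for `x` rational. (5) `Q3 y x a b c e`: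
`evF F (NL (rv (vec y)) x) = evF F (nv (v0 a b c e))`: `base`: `S = rv (vec y)`, `x = .cons a B`, `B = .cons b (.pw e)`: the
terms `-2 [S + B, rv a] - 2 [S + rv a, B]` cancel against the two rational subtrees by (2). `step`: the vertex
`(S, rv x, (-d,1))` gives `2 [S + (-d,1), rv x]`, the terms `-2 [S + (-d,1), rv x] - 2 [S + rv x, (-d,1)]`, the subtree `.pw d`
gives `2 [S + rv x, (-d,1)]`, so `NL (rv (S + (-d,1))) x` remains. -/
def NLE_Stmt : Prop :=
  ∀ D : ℤ, D ≠ 0 → ∀ F : ℤ × ℤ → ℤ × ℤ → ℂ, Sym D F →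
    (∀ T : Tr, T2 T → (vec T).1 ∣ D → evF F (NL (0, 1) T) = 2 * F (prT T).1 (prT T).2) ∧
    ∀ (T a b c : Tr) (e : ℤ), T3 T a b c e → (vec T).1 ∣ D →
      evF F (NL (0, 1) T) = evF F (nv (v0 a b c e))

/-- NVE: the value of the combination of a nontrivial vertex depends only on the sum of the slopes and on
the slopes modulo 1.

Proof. (1) Let `P, V, P', V'` have nonzero second components, `dt P V ∣ D`, `dt P' V' ∣ D`, `slp P + slp V =
slp P' + slp V'`, `Int.fract (slp V) = Int.fract (slp V')`. Then `F P V = F P' V'`: let `P0 = (num, den)` of `slp P`, so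
`P = m • P0`, similarly `V0`, `P0'`, `V0'`; `F P V = F P0 V0` (`scale`, `swap`; the `dt` of the parts divide `D`). There is an integer
`k` with `slp V' = slp V + k`, `slp P = slp P' + k`, so `V0' = addv V0 (k, 1)`, `P0 = addv P0' (k, 1)` (numerators and
denominators), and `F P0 V0 = F P0' V0'` by `shift`. (2) `(tot v).2 ≠ 0`: `evF F (nv v) = -F (tot v) (0, 1) + ∑_j F P_j v_j`,
`slp P_j + slp v_j = slp (tot v)`. The first term is the same for `v'` by (1). The others: by (1) `F P_j v_j` is a function `G` of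
`Int.fract (slp v_j)` on the pairs which occur; the permutation of the fractional parts gives a permutation of the
three terms. -/
def NVE_Stmt : Prop :=
  ∀ D : ℤ, D ≠ 0 → ∀ F : ℤ × ℤ → ℤ × ℤ → ℂ, Sym D F → ∀ v v' : Vx, Ntr v → Ntr v' →
    (tot v).1 ∣ D → (tot v').1 ∣ D → slp (tot v) = slp (tot v') →
    ((sls v).map Int.fract).Perm ((sls v').map Int.fract) → evF F (nv v) = evF F (nv v')

/-- ALGW: the algebraic part of Theorem W (assembly). -/
def ALGW_Stmt : Prop :=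
  ∀ (Ts Ts' : List Tr) (a' b' c' : Tr) (e' : ℤ) (h : IsLongKnot (cls Ts))
    (h' : IsLongKnot (cls (Ts' ++ [M3 a' b' c' e']))), Ts.length = Ts'.length + 1 →
    (∀ t ∈ Ts, t.CR) → (∀ t ∈ Ts', t.Rat ∧ Odd (vec t).1) → a'.Rat → b'.Rat → c'.Rat →
    2 ≤ |(vec a').1| → 2 ≤ |(vec b').1| → 2 ≤ |(vec c').1| → Odd (vec (M3 a' b' c' e')).1 →
    (∀ v : Knot → ℂ, IsFiniteType v →
      v (ofDiag (cls Ts) h) = v (ofDiag (cls (Ts' ++ [M3 a' b' c' e'])) h')) →
    ∃ (l1 l2 : List Tr) (t a b c : Tr) (e D : ℤ), D ≠ 0 ∧ Ts = l1 ++ t :: l2 ∧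
      (∀ x ∈ l1 ++ l2, T2 x) ∧ T3 t a b c e ∧
      (([sr a, sr b, sr c] : List ℚ).map Int.fract).Perm
        (([sr a', sr b', sr c'] : List ℚ).map Int.fract) ∧
      sr a + sr b + sr c - e = sr a' + sr b' + sr c' - e' ∧
      ∀ F : ℤ × ℤ → ℤ × ℤ → ℂ, Sym D F → ((l1 ++ l2).map fun x => F (prT x).1 (prT x).2).sum =
        (Ts'.map fun x => F (prT x).1 (prT x).2).sum

end Pool.Agent.TW
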