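import Pool.Agent.TW.StA
import Pool.Agent.UA.StF
import Pool.Agent.Mont.Concl3

/-!
Theorem W (MP_31fd3b_gt), topological part: statements of the modules with their proofs.

The modules FSY, FEQ, FCG, FRO, FFL, FIT, FC0, FTA of UA and RTI, STR, ONEM, RTC, KDT of TV are proved
(`UA.t_FSY`, .., see Pool/Agent/UA/FinF.lean and the end of Pool/Agent/TV/Final.lean).
-/

open scoped BigOperators

namespace Pool.Agent.TW

open Pool.Agent.LibH11.Sliced Pool.Agent.MTR Pool.Agent.MTA Pool.Agent.UA Pool.Agent.UB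
open Pool.Agent.TwoBr Pool.Agent.Mont Pool.Agent.TV
open Pool.Agent.TB hiding vec

/-! ## 1. Rational tangles -/

/-- Rational tangles: the smallest class of tangles which contains the two vertical strands and is
closed under adding a crossing and under rotation by a quarter turn. The vector `(x, y)` stands for
the slope `x / y`. -/
inductive RatT : Diag → ℤ × ℤ → Prop
  | strands : RatT [] (0, 1)
  | twist (e : Bool) {t : Diag} {v : ℤ × ℤ} : RatT t v →
      RatT (t ++ [(.crs e, 0)]) (if e then v.1 - v.2 else v.1 + v.2, v.2)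
  | rotate {t : Diag} {v : ℤ × ℤ} : RatT t v → RatT (rotD t) (-v.2, v.1)

/-- RTT (uses FTA, FCG of UA): rational tangles are the diagrams of the rational trees.

Proof. Induction on `RatT`. `strands`: `.pw 0`. `twist`: `T.shift 1` (for `e = true`), `T.shift (-1)`: FTA (fifth part)
gives `EqD 2 (T.dg ++ ht c) (T.shift c).dg`, and `ht 1 = [(.crs true, 0)]`, `ht (-1) = [(.crs false, 0)]`;
`vec (T.shift c) = (v.1 - c v.2, v.2)` (`UA.Ratj.vec_shift` or induction), `T.shift c` is rational. `rotate`: the tree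
`.cons T (.pw 0)`, its diagram is `rotD T.dg ++ []`, `vec (.cons T (.pw 0)) = addv (rv (vec T)) (-0, 1) = rv (vec T)`. -/
def RTT_Stmt : Prop :=
  ∀ (t : Diag) (v : ℤ × ℤ), RatT t v →
    cnt 2 t = some 2 ∧ ∃ T : Tr, T.Rat ∧ vec T = v ∧ EqD 2 t T.dg

/-- RTU (uses RATG, FR3, FFL, FRO, FCG, FSY, FEQ, FTA of UA; RTI, RU of TV): the diagram of a rational
tree is determined by its direction.

Proof. Apply RATG to the following data. `X` is the quotient of the set of the diagrams `t` with `cnt 2 t = some 2`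
and `EqD 2 (hD 2 t) t`, `EqD 2 (flipD t) t`, `EqD 2 (pD 2 t) t` by `EqD 2`; `c t = t ++ [(.crs true, 0)]`,
`c' t = t ++ [(.crs false, 0)]`, `r t = rotD t`. These are again in the set: for `u = t ++ [(.crs e, 0)]`:
`hD 2 u = hD 2 t ++ [(.crs e, 0)] ~ u`; `flipD u = (.crs e, 0) :: flipD t ~ (.crs e, 0) :: hD 2 t ~ u` by FFL (first
part), `pD` similar; for `rotD t` as in the proof of RTI (Pool/Agent/TV/Rti.lean). Well defined: FCG. Relations: `c c' = 1`:
Reidemeister 2 (`Mont.ht_add` with `ht 1`, `ht (-1)`). `r r = 1`: FRO (`rotD (rotD t) ~ pD 2 t ~ t`). `(c r)³ = 1`: FR3 with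
`e = true`: `rotD (rotD t ++ [crs true]) ~ (crs false) :: rotD ((crs false) :: t)`; for `t` in the set
`(crs e) :: t ~ (crs e) :: hD 2 t ~ t ++ [crs e]` (FFL), so `r c r = c' r c'` and `c r c r c r = c (c' r c') c r = r r = 1`.
`r c r x0 = x0` for `x0 = []`: `rotD (rotD [] ++ [crs e]) ~ rotD (rotD []) ~ []` (FIT). `rev T` is the class of `T.dg` if `T` is
rational (RTI), and `x0` otherwise; `rev (T.shift 1) = c (rev T)` by FTA. By RU (fourth part) the vectors of rational trees
are primitive, so two rational trees of the same direction have the same vector up to the sign. -/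
def RTU_Stmt : Prop :=
  ∀ (R R' : Tr) (v : ℤ × ℤ), Dir R v → Dir R' v → EqD 2 R.dg R'.dg

/-- TWW (uses STR, RTI of TV, FCG of UA): the rotated diagram of a rational tree is the tangle of a word.

Proof. Compare the proof of ONEM in Pool/Agent/TV/Onem.lean. Prove for all rational `a`, by strong induction on
the size, both claims: `A`: `EqD 1 ((.cup, 1) :: a.dg) ((.cup, 1) :: bw u)` for a word `u` with
`PMv (tvec (0, 1) u) (vec a)`; `B`: `EqD 1 ((.cup, 0) :: sh 1 a.dg) ((.cup, 1) :: bw u)` for a word `u` with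
`PMv (tvec (0, 1) u) (rv (vec a))`. `a = .pw e`: `A`: `u` = `e` crossings at the position 0, `(0, 1) ↦ (-e, 1)` (`lact`);
`B`: `(.cup, 0) ~ (.cup, 1), (.crs true, 0), (.crs true, 1)` (`TwoBr.cup0_eqd`), then `e` crossings at the position 1:
`(0, 1) ↦ (-1, 1) ↦ (-1, 0) ↦ (-1, -e) = rv (-e, 1)`. `a = .cons b (.pw e)`: `A`:
`(.cup, 1) :: (rotD b.dg ++ ht e) ~ ((.cup, 0) :: sh 1 b.dg) ++ ht e` (STR, first part); take `u` from `B` for `b` and append
`e` crossings at the position 0: `v ↦ (v.1 - e v.2, v.2)`: from `rv (vec b)` to `vec a`. `B`: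
`(.cup, 0) :: (sh 1 (rotD b.dg) ++ sh 1 (ht e)) ~ ((.cup, 1) :: b.dg) ++ sh 1 (ht e)` (STR, second part, RTI), take `u` from
`A` for `b` and append `e` crossings at the position 1: `v ↦ (v.1, v.2 + e v.1)`: from `vec b` to
`(b.1, b.2 + e b.1) = -rv (vec a)`, as `vec a = (-b.2 - e b.1, b.1)`. Finally
`rotD a.dg = (.cup, 0) :: (sh 1 a.dg ++ [(.cap, 2)])`, use `B`, one more strand on the right (`EqD.widen`). -/
def TWW_Stmt : Prop :=
  ∀ a : Tr, a.Rat → ∃ u : List (Fin 2 × Bool), EqD 2 (rotD a.dg) (tgl u) ∧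
    PMv (tvec (0, 1) u) (rv (vec a))

/-- MTM (uses TWW, FCG): the closure of `M3` as a Montesinos diagram.

Proof. Words `ua`, `ub`, `uc` from TWW; `tgl u ++ ht e ~ tgl (u ++ e crossings at the position 0)` (`Mont.tgl_snoc0`, see
Pool/Agent/Mont/Flip.lean), which changes the vector from `v` to `(v.1 - e v.2, v.2) = addv v (-e, 1)` up to the sign. -/
def MTM_Stmt : Prop :=
  ∀ (a b c : Tr) (e : ℤ), a.Rat → b.Rat → c.Rat → ∃ ua ub uc : List (Fin 2 × Bool),
    EqD 1 (cl (M3 a b c e).dg) (mont [ua, ub, uc]) ∧ PMv (tvec (0, 1) ua) (rv (vec a)) ∧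
    PMv (tvec (0, 1) ub) (rv (vec b)) ∧ PMv (tvec (0, 1) uc) (addv (rv (vec c)) (-e, 1))

/-- RCL (uses FFL, FCG, RTI): three rational tangles and `M3`.

Proof. As `|(vec T_i).2| ≥ 2`, `T_i = .cons a_i (.pw e_i)` (not `.pw e`), `a_i` rational, `(vec T_i).2 = (vec a_i).1`, and
`T_i.dg = rotD a_i.dg ++ ht e_i`. By FFL (second part) and RTI (for `.cons a_i (.pw 0)`: `hD 2 (rotD a_i.dg) ~ rotD a_i.dg`)
`ht e ++ rotD a_i.dg ~ rotD a_i.dg ++ ht e`; collect the half twists at the end, `Mont.ht_add`. -/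
def RCL_Stmt : Prop :=
  ∀ T1 T2 T3 : Tr, T1.Rat → T2.Rat → T3.Rat → 2 ≤ |(vec T1).2| → 2 ≤ |(vec T2).2| →
    2 ≤ |(vec T3).2| → ∃ (a b c : Tr) (e : ℤ), (a.Rat ∧ b.Rat ∧ c.Rat) ∧
      ((vec a).1 = (vec T1).2 ∧ (vec b).1 = (vec T2).2 ∧ (vec c).1 = (vec T3).2) ∧
      EqD 2 (T1.dg ++ (T2.dg ++ T3.dg)) (M3 a b c e).dg

/-- TOP3 (uses FSY, FCG, FRO, FFL, FC0, RTI): the closure of a tree with `T3` is the closure of `M3`.

Proof. All diagrams have two strands. Facts: (f1) `hD 2 (rotD t) ~ rotD (flipD t)`, `flipD (rotD t) ~ rotD (hD 2 t)`,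
`pD 2 (rotD t) ~ rotD (pD 2 t)` (FSY third part, FRO second part, FSY second part, e.g. `pD 2 (hD 2 t) = flipD t`). (f2) For
rational `y`, `Y = y.dg`, and every `X`: `cl (rotD X ++ Y) ~ cl (hD 2 X ++ rotD Y)` (FC0 with `s = hD 2 X`, `t = flipD Y`, RTI).
(f3) `ht d ++ W ~ W ++ ht d` if `d` is even, `ht d ++ W ~ hD 2 W ++ ht d` if `d` is odd (FFL with `t = hD 2 W`); for the rotated
rational tangles `ht d ++ rotD y.dg ~ rotD y.dg ++ ht d`.
Claim. Let `Q3 y x a b c e`, `y`, `a`, `b`, `c` rational. For each of the four diagrams `X' = x.dg, hD 2 x.dg, flipD x.dg,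
pD 2 x.dg` the diagram `cl (rotD X' ++ y.dg)` is equivalent to `cl (M3 a b c e).dg` or to `cl (M3 b a c e).dg`.
`base`: `x.dg = rotD a.dg ++ (rotD b.dg ++ ht e)`, `hD 2 x.dg ~ x.dg`, `flipD x.dg ~ pD 2 x.dg ~ ht e ++ rotD b.dg ++ rotD a.dg`
(RTI). By (f2) `cl (rotD X' ++ Y) ~ cl (hD 2 X' ++ rotD Y)`, which gives `M3 a b y e` for `X' = x.dg, hD 2 x.dg` and
`M3 b a y e` for the two others, with (f3).
`step`: `X = rotD x.dg ++ ht d`, `Y' = (.cons y (.pw d)).dg = rotD Y ++ ht d`.
`X' = X`: `cl (hD 2 (rotD x.dg) ++ ht d ++ rotD Y) ~ cl (rotD (flipD x.dg) ++ Y')`.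
`X' = hD 2 X`: `cl (X ++ rotD Y) = cl (rotD x.dg ++ ht d ++ rotD Y) ~ cl (rotD x.dg ++ Y')`.
`X' = flipD X`: `cl (pD 2 X ++ rotD Y) ~ cl (ht d ++ rotD (pD 2 x.dg) ++ rotD Y)`; by (f3) this is
`cl (rotD (pD 2 x.dg) ++ Y')` for even `d` and `cl (rotD (hD 2 x.dg) ++ Y')` for odd `d` (`flipD (pD 2 t) = hD 2 t`).
`X' = pD 2 X`: `cl (flipD X ++ rotD Y) ~ cl (ht d ++ rotD (hD 2 x.dg) ++ rotD Y)`, which is `cl (rotD (hD 2 x.dg) ++ Y')` or
`cl (rotD (pD 2 x.dg) ++ Y')`. Apply the induction hypothesis.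
Top: `T = .cons x y`, `cl T.dg = cl (rotD x.dg ++ y.dg)`. `y` rational, `Q3 y x`: the claim for `X' = x.dg`. `x` rational,
`Q3 x y`: `flipD (cl T.dg) = cl (flipD y.dg ++ flipD (rotD x.dg)) ~ cl (flipD y.dg ++ rotD x.dg) ~ cl (rotD (pD 2 y.dg) ++ x.dg)`
(FC0 with `s = flipD y.dg`, `t = x.dg`; `hD 2 (flipD t) = pD 2 t`), so by the claim (exchanged roles) `flipD (cl T.dg)` is
equivalent to `cl M.dg` with `M = M3 a b c e` or `M3 b a c e`, and `cl T.dg ~ flipD (cl M.dg) = cl (flipD M.dg)`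
(`Mont.EqD_flip`), and `flipD (M3 a b c e).dg ~ ht e ++ rotD c.dg ++ rotD b.dg ++ rotD a.dg ~ (M3 c b a e).dg`. -/
def TOP3_Stmt : Prop :=
  ∀ (T a b c : Tr) (e : ℤ), T3 T a b c e → ∃ a' b' c' : Tr, ([a', b', c'] : List Tr).Perm [a, b, c] ∧
    EqD 1 (cl T.dg) (cl (M3 a' b' c' e).dg)

/-- SYF (uses RTU, RU, RTI of TV, FC0, FFL, FCG, FSY, FTA of UA): the indicator functions are symmetric.

Proof. `D ≠ 0`, so in all four properties the vectors are nonzero, and `rt P` has the direction `P` (RU (1)). Put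
`p = (rt P).dg`, `q = (rt V).dg`. `swap`: clear. `rot`: `rt (rv P)` and `.cons (rt P) (.pw 0)` have the direction `rv P` (RU (5)), so
`(rt (rv P)).dg ~ rotD p` (RTU), and `cl (rotD p ++ q) ~ cl (p ++ rotD q)`, `cl (q ++ rotD p) ~ cl (rotD q ++ p)` (FC0 and RTI).
`shift`: `rt (addv P (k, 1))` and `(rt P).shift (-k)` have the same direction (RU (5)), so the diagram is `p ++ ht (-k)` (FTA),
and `cl (p ++ ht c ++ q) ~ cl (p ++ (q ++ ht c))`, `cl (q ++ (p ++ ht c)) = cl ((q ++ p) ++ ht c) ~ cl ((q ++ ht c) ++ p)` (FFL and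
RTI). `scale`: `rt (k • P)` and `rt P` have the direction `k • P` (RU (5)). If two diagrams are equivalent then so are the
propositions in `FF` (`EqD.trans`). Second part: `T = .cons x y`: `rt (rv (vec x))` and `.cons x (.pw 0)` have the same direction, and
`rt (vec y)`, `y`; so `FF w (prT T).1 (prT T).2` is about `cl (rotD x.dg ++ y.dg) = cl T.dg` and `cl (y.dg ++ rotD x.dg)`, and
`flipD (cl T.dg) = cl (flipD y.dg ++ flipD (rotD x.dg)) ~ cl (y.dg ++ rotD x.dg)` (FSY, RTI). `T = .pw e`: `rt (0, 1) ~ []`,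
`rt (-e, 1) ~ ht e`, `flipD (cl (ht e)) = cl (ht e)`. -/
def SYF_Stmt : Prop :=
  (∀ (w : Diag) (D : ℤ), D ≠ 0 → Sym D (FF w)) ∧
  ∀ (w : Diag) (T : Tr), T2 T → (EqD 1 (cl T.dg) w ∨ EqD 1 (flipD (cl T.dg)) w →
    FF w (prT T).1 (prT T).2 = 1) ∧
    (¬ (EqD 1 (cl T.dg) w ∨ EqD 1 (flipD (cl T.dg)) w) → FF w (prT T).1 (prT T).2 = 0)

/-! ## 2. Montesinos diagrams -/

/-- UNN (uses CHNO, CFUO of MTR, `Mont.nvec_par`): normal forms with the same slopes modulo 1 and the same
sum.

Proof. For `t` with `NOk t`: `nvec t` is `lastv x.reverse` for `t = (_, x)` (`Mont.nvec_even`, `Mont.nvec_odd`,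
Pool/Agent/Mont/Nvec.lean); by CHNO `|nslope t| < 1` (`|A| < |p|`), `nvec t = (A, p)` is primitive, `A` even and `p` odd if the
flag is `false`, `A` odd and `p` even if it is `true`; by CFUO two such tangles with the same flag and the same slope are
equal. If the fractional parts of the slopes of `t`, `t'` agree then `nslope t' = nslope t + m`, `m ∈ {-1, 0, 1}`, the
denominators agree up to the sign (primitive vectors), so the flags agree; if the flag is `false` then
`A' = ± A + m p'` shows that `m` is even, `m = 0`, `t = t'`. By `Nrm.par` there is at most one tangle with the flag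
`true` on each side, and (permutation of the fractional parts, parity of the denominator) the numbers are equal. If
there is none: `ts.Perm ts'` (a permutation of the images under a map which is injective on the tangles which
occur), so `e = e'`. If there is one, `t` and `t'`: the others match, and `e' - e = nslope t' - nslope t = m` (`ts`, `ts'` have the same
sum minus `e`), `e`, `e'` are even, so `m = 0` and `t = t'`. -/
def UNN_Stmt : Prop :=
  ∀ (ts ts' : List NT) (e e' : ℤ), Nrm ts e → Nrm ts' e' →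
    ((ts.map nslope).map Int.fract).Perm ((ts'.map nslope).map Int.fract) →
    (ts.map nslope).sum - e = (ts'.map nslope).sum - e' → e = e' ∧ ts.Perm ts'

/-- TOPW (uses UNN): three tangles.

Proof. Copy the proof of `Mont.concl3` (Pool/Agent/Mont/Concl3.lean), last part: `mont_nf2` for `us` and `vs`; the
fractional parts of the slopes of `us` and of `ts` agree (`fract_forall2`, `RR_split`), so UNN replaces `key`: `e = e'`,
`ts.Perm ts'`. If a flag is `true`: `three_mdiag'`. Otherwise `three_mdiag` and `odd_of_flags`; in the case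
`EqD 1 (flipD (mdiag ts e)) (mdiag ts' e)` use `EqD_flip` for `mont us ~ mdiag ts e` to get `flipD (mont us)`. -/
def TOPW_Stmt : Prop :=
  ∀ us vs : List (List (Fin 2 × Bool)), IsLongKnot (mont us) → IsLongKnot (mont vs) →
    us.length = 3 → (∀ u ∈ us, 2 ≤ |den u|) → (∀ u ∈ vs, 2 ≤ |den u|) →
    (us.map slope).sum = (vs.map slope).sum →
    (us.map fun u => Int.fract (slope u)).Perm (vs.map fun u => Int.fract (slope u)) →
    EqD 1 (mont vs) (mont us) ∨
      ((∀ u ∈ us, Odd (den u)) ∧ EqD 1 (mont vs) (flipD (mont us)))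

/-- ODM (uses MTM, ADV of MTR): the determinant of a Montesinos knot is odd.

Proof. MTM: `cl (M3 a b c e).dg ~ mont us`, `us = [ua, ub, uc]`, so `mont us` is a long knot; `|den u|` is `|(vec a).1|`, .. and
`(vec (M3 a b c e)).1` is up to the sign `P_u * ∑ slope u`, `P_u` the product of the `den u`. `mont_nf2` gives `ts`, `e0` with
`Nrm ts e0`, `RR u t` for all pairs, `∑ slope u = ∑ nslope t - e0`. `slope u = nslope t - m` and both vectors are primitive
(`tvec_coprime`, `nvec_coprime`), so the denominators agree up to the sign, and the determinant is up to the sign the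
integer `∑_i A_i p_j p_k - e0 p_0 p_1 p_2`, `(A_i, p_i) = nvec t_i`. The parities of `A_i`, `p_i` (`nvec_par`; `A_i` is even iff
`p_i` is odd, compare CHNO): all flags `false`, `e0` odd: the first sum is even and `e0 p_0 p_1 p_2` is odd. One flag `true`,
`e0` even: exactly one summand `A_i p_j p_k` is odd. -/
def ODM_Stmt : Prop :=
  ∀ (a b c : Tr) (e : ℤ), a.Rat → b.Rat → c.Rat → 2 ≤ |(vec a).1| → 2 ≤ |(vec b).1| →
    2 ≤ |(vec c).1| → IsLongKnot (cl (M3 a b c e).dg) → Odd (vec (M3 a b c e)).1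

/-! ## 3. Connected sums of 2-bridge knots -/

/-- KDF (uses COM of TS, FFL, FCG; ONEM, RTC of TV): closures of trees with `T2`.

Proof. (1) `T2 T`: by RTC (or `T` itself) `cl T.dg ~ cl T'.dg`, `T'` rational; ONEM: a diagram with at most one minimum;
`TwoBr.one_min`, `TwoBr.nf_KW` (as in `AsmT.words`, Pool/Agent/TV/AsmT.lean). (2) `pD 1 (kdiag x) = kdiag x.reverse` if the
length is even (rotation in the plane: the crossings at the position `p` go to `1 - p`, the last letter is at the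
position 1), so `flipD (kdiag x) ~ pD 1 (kdiag x)` (FFL, third part) `= kdiag x.reverse ~ kdiag x` (`TwoBr.rev_kdiag`).
(3) COM, induction on `xs`. -/
def KDF_Stmt : Prop :=
  (∀ T : Tr, T2 T → IsLongKnot (cl T.dg) → ∃ x : List ℤ, Even x.length ∧
    EqD 1 (cl T.dg) (kdiag x)) ∧
  (∀ x : List ℤ, Even x.length → EqD 1 (flipD (kdiag x)) (kdiag x)) ∧
  ∀ xs : List (List ℤ), (∀ x ∈ xs, Even x.length) → cnt 1 (TS.sumd xs) = some 1 ∧
    (∀ f : Diag, cnt 1 f = some 1 → EqD 1 (f ++ TS.sumd xs) (TS.sumd xs ++ f)) ∧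
    EqD 1 (flipD (TS.sumd xs)) (TS.sumd xs)

/-- CMB (uses KDF, SYF, FCG): lists of 2-bridge knots with the same values of the indicator functions.

Proof. Induction on `l`. `l = []`: the values for `w = cl t.dg`, `t ∈ l'`, are `0` on the left and `≥ 1` on the right if `l'` is
not empty (the values of `FF` are `0` or `1`, `FF w = 1` for `t` by SYF). `l = t :: l0`: take `w = cl t.dg`: the left sum is
a natural number `≥ 1`, so there is `t' ∈ l'` with `FF w (prT t').1 (prT t').2 ≠ 0`, so by SYF `cl t'.dg ~ cl t.dg` or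
`flipD (cl t'.dg) ~ cl t.dg`; by KDF (1), (2) `flipD (cl t'.dg) ~ cl t'.dg` (`EqD_flip`), so `cl t'.dg ~ cl t.dg`. Hence
`FF w` has the same value for `t` and `t'` for all `w` (SYF), and the induction hypothesis applies to `l0` and `l'` without
`t'` (`l' = m ++ t' :: m'`). Take `x` for `cl t.dg` by KDF (1); `cls l' = cls m ++ (cl t'.dg ++ cls m') ~ cl t'.dg ++ cls (m ++ m')`
because `cl t'.dg ~ kdiag x` commutes with `cls m` (KDF (3)), FCG. -/
def CMB_Stmt : Prop :=
  ∀ l l' : List Tr, (∀ t ∈ l ++ l', T2 t ∧ IsLongKnot (cl t.dg)) →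
    (∀ w : Diag, (l.map fun x => FF w (prT x).1 (prT x).2).sum =
      (l'.map fun x => FF w (prT x).1 (prT x).2).sum) →
    ∃ xs : List (List ℤ), (∀ x ∈ xs, Even x.length) ∧ EqD 1 (cls l) (TS.sumd xs) ∧
      EqD 1 (cls l') (TS.sumd xs)

/-- SPL (uses KDF, FCG): a tree in a list of 2-bridge knots goes to the end.

Proof. `cls (l1 ++ t :: l2) = cls l1 ++ (cl t.dg ++ cls l2)`, `cls l2` is equivalent to a `sumd` (KDF (1)), which commutes
with `cl t.dg` (KDF (3)). -/
def SPL_Stmt : Prop :=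
  ∀ (l1 l2 : List Tr) (t : Tr), (∀ x ∈ l2, T2 x ∧ IsLongKnot (cl x.dg)) →
    EqD 1 (cls (l1 ++ t :: l2)) (cls (l1 ++ l2) ++ cl t.dg)

end Pool.Agent.TW
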