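import Pool.Agent.TW.StT
import Pool.Agent.Mont.Flip

/-!
Theorem W (MP_31fd3b_gt), modules TWW and MTM: the rotated diagram of a rational tree is the tangle of a
word; the closure of `M3` as a Montesinos diagram.
-/

set_option autoImplicit false

open scoped BigOperators

namespace Pool.Agent.TW

open Pool.Agent.LibH11.Sliced Pool.Agent.MTR Pool.Agent.MTA Pool.Agent.UA Pool.Agent.UB
open Pool.Agent.TwoBr Pool.Agent.Mont Pool.Agent.TV
open Pool.Agent.TB hiding vec

namespace TWWaux

/-- crossings at the position `i` -/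
def wi (i : Fin 2) (e : ℤ) : List (Fin 2 × Bool) := List.replicate e.natAbs (i, decide (0 < e))

theorem bw_w0 (e : ℤ) : bw (wi 0 e) = ht e := by
  simp [bw, wi, ht]

theorem bw_w1 (e : ℤ) : bw (wi 1 e) = sh 1 (ht e) := by
  simp [bw, wi, ht, sh]

theorem tvec_app (v : ℤ × ℤ) (u w : List (Fin 2 × Bool)) :
    tvec v (u ++ w) = tvec (tvec v u) w := List.foldl_append

theorem tvec_rep0 (b : Bool) (n : ℕ) : ∀ v : ℤ × ℤ, tvec v (List.replicate n (0, b)) =
    (if b then v.1 - n * v.2 else v.1 + n * v.2, v.2) := by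
  induction n with
  | zero => intro v; cases b <;> simp [tvec]
  | succ n ih =>
    intro v
    have h1 : tvec v (List.replicate (n + 1) (0, b)) =
        tvec (lact (0, b) v) (List.replicate n (0, b)) := by
      rw [List.replicate_succ]
      rfl
    rw [h1, ih]
    obtain ⟨x, y⟩ := v
    cases b
    · simp only [lact, Bool.false_eq_true, if_false, Prod.mk.injEq, and_true]
      push_cast
      ring
    · simp only [lact, if_true, Prod.mk.injEq, and_true]
      push_cast
      ring

theorem tvec_rep1 (b : Bool) (n : ℕ) : ∀ v : ℤ × ℤ, tvec v (List.replicate n (1, b)) =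
    (v.1, if b then v.2 + n * v.1 else v.2 - n * v.1) := by
  induction n with
  | zero => intro v; cases b <;> simp [tvec]
  | succ n ih =>
    intro v
    have h1 : tvec v (List.replicate (n + 1) (1, b)) =
        tvec (lact (1, b) v) (List.replicate n (1, b)) := by
      rw [List.replicate_succ]
      rfl
    rw [h1, ih]
    obtain ⟨x, y⟩ := v
    cases b
    · simp only [lact, Bool.false_eq_true, if_false, Prod.mk.injEq, true_and]
      push_cast
      ring
    · simp only [lact, if_true, Prod.mk.injEq, true_and]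
      push_cast
      ring

theorem tvec_w0 (e : ℤ) (v : ℤ × ℤ) : tvec v (wi 0 e) = (v.1 - e * v.2, v.2) := by
  unfold wi
  rw [tvec_rep0]
  by_cases he : 0 < e
  · have h1 : ((e.natAbs : ℕ) : ℤ) = e := Int.natAbs_of_nonneg he.le
    simp [he, h1]
  · have h1 : ((e.natAbs : ℕ) : ℤ) = -e := by omega
    simp only [he, decide_false, Bool.false_eq_true, if_false, h1, Prod.mk.injEq, and_true]
    ring

theorem tvec_w1 (e : ℤ) (v : ℤ × ℤ) : tvec v (wi 1 e) = (v.1, v.2 + e * v.1) := by
  unfold wi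
  rw [tvec_rep1]
  by_cases he : 0 < e
  · have h1 : ((e.natAbs : ℕ) : ℤ) = e := Int.natAbs_of_nonneg he.le
    simp [he, h1]
  · have h1 : ((e.natAbs : ℕ) : ℤ) = -e := by omega
    simp only [he, decide_false, Bool.false_eq_true, if_false, h1, Prod.mk.injEq, true_and]
    ring

theorem kids_zero {b : Tr} (h : b.kids = 0) : ∃ e : ℤ, b = .pw e := by
  cases b with
  | pw e => exact ⟨e, rfl⟩
  | cons a b => simp [Tr.kids] at h

theorem vec_cons_pw (b : Tr) (e : ℤ) :
    vec (.cons b (.pw e)) = (-(vec b).2 - e * (vec b).1, (vec b).1) := by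
  simp only [vec, addv, rv, Prod.mk.injEq]
  constructor <;> ring

theorem cnt1_cup1 (w : Diag) (h : cnt 3 w = some 3) : cnt 1 ((.cup, 1) :: w) = some 3 := by
  change cnt 1 ([((.cup : Kind), 1)] ++ w) = some 3
  rw [cnt_app (show cnt 1 [((.cup : Kind), 1)] = some 3 from rfl), h]

theorem cnt3_bw (u : List (Fin 2 × Bool)) : cnt 3 (bw u) = some 3 := cnt_bwk u 0

/-- Appending a word after a minimum. -/
theorem app {x : Diag} {u : List (Fin 2 × Bool)} (h : EqD 1 x ((.cup, 1) :: bw u))
    (w : List (Fin 2 × Bool)) : EqD 1 (x ++ bw w) ((.cup, 1) :: bw (u ++ w)) := by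
  have h1 : cnt 1 x = some 3 := by
    rw [h.cnt_eq]
    exact cnt1_cup1 _ (cnt3_bw u)
  have h2 := h.right (bw w) (by
    rw [cnt_app h1, cnt3_bw]
    exact Option.some_ne_none _)
  rw [bw_append]
  exact h2

/-- The two claims. -/
theorem main (h1 : STR_Stmt) (h2 : RTI_Stmt) (h3 : FCG_Stmt) (T : Tr) : T.Rat →
    (∃ u : List (Fin 2 × Bool), EqD 1 ((.cup, 1) :: T.dg) ((.cup, 1) :: bw u) ∧
      PMv (tvec (0, 1) u) (vec T)) ∧
    ∃ u : List (Fin 2 × Bool), EqD 1 ((.cup, 0) :: sh 1 T.dg) ((.cup, 1) :: bw u) ∧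
      PMv (tvec (0, 1) u) (rv (vec T)) := by
  induction T with
  | pw e =>
    intro _
    constructor
    · refine ⟨wi 0 e, ?_, Or.inl ?_⟩
      · rw [bw_w0]
        exact EqD.refl _
      · rw [tvec_w0]
        simp [vec]
    · refine ⟨[(0, true), (1, true)] ++ wi 1 e, ?_, Or.inl ?_⟩
      · have h4 := cup0_eqd.right (sh 1 (ht e)) (by
          rw [cnt_app (show cnt 1 [((.cup : Kind), 0)] = some 3 from rfl), ← bw_w1, cnt3_bw]
          exact Option.some_ne_none _)
        rw [bw_append, bw_w1]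
        exact h4
      · rw [tvec_app, tvec_w1]
        simp [tvec, lact, vec, rv]
  | cons b c ihb _ =>
    intro hT
    obtain ⟨hb, hc⟩ : b.Rat ∧ c.kids = 0 := hT
    obtain ⟨e, rfl⟩ := kids_zero hc
    obtain ⟨⟨ua, hA, vA⟩, ⟨ub, hB, vB⟩⟩ := ihb hb
    have hcb : cnt 2 b.dg = some 2 := h3.2.2.2.2.1 b
    constructor
    · refine ⟨ub ++ wi 0 e, ?_, ?_⟩
      · have e1 : ((.cup, 1) :: (Tr.cons b (.pw e)).dg : Diag) =
            ((.cup, 1) :: rotD b.dg) ++ bw (wi 0 e) := by
          rw [bw_w0]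
          rfl
        rw [e1]
        exact app ((h1.1 b.dg hcb).trans hB) _
      · rw [tvec_app, tvec_w0, vec_cons_pw]
        rcases vB with v | v
        · left
          rw [v]
          simp [rv]
        · right
          rw [v]
          simp only [rv, Prod.neg_mk, Prod.mk.injEq, and_true]
          ring
    · refine ⟨ua ++ wi 1 e, ?_, ?_⟩
      · have e1 : ((.cup, 0) :: sh 1 (Tr.cons b (.pw e)).dg : Diag) =
            ((.cup, 0) :: sh 1 (rotD b.dg)) ++ bw (wi 1 e) := by
          rw [bw_w1]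
          change ((.cup, 0) :: sh 1 (rotD b.dg ++ ht e) : Diag) = _
          rw [sh_append]
          rfl
        rw [e1]
        exact app ((h1.2 b.dg hcb (h2 b hb).2.2).trans hA) _
      · rw [tvec_app, tvec_w1, vec_cons_pw]
        rcases vA with v | v
        · right
          rw [v]
          simp only [rv, Prod.neg_mk, Prod.mk.injEq]
          constructor <;> ring
        · left
          rw [v]
          simp only [rv, Prod.fst_neg, Prod.snd_neg, Prod.mk.injEq, true_and]
          ring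

theorem tgl_rep0 (b : Bool) (n : ℕ) : ∀ u : List (Fin 2 × Bool),
    EqD 2 (tgl (u ++ List.replicate n (0, b))) (tgl u ++ List.replicate n (.crs b, 0)) := by
  induction n with
  | zero =>
    intro u
    simpa using EqD.refl (tgl u)
  | succ n ih =>
    intro u
    have h1 := ih (u ++ [(0, b)])
    have hc : cnt 2 (List.replicate n (Kind.crs b, 0) : Diag) = some 2 := by
      have : (List.replicate n (Kind.crs b, 0) : Diag) = bw (List.replicate n ((0 : Fin 1), b)) := by
        simp [bw]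
      rw [this]
      exact cnt_bw _
    have h2 := (tgl_snoc0 u b).right (List.replicate n (Kind.crs b, 0)) (by
      rw [cnt_app (cnt_tgl _), hc]
      exact Option.some_ne_none _)
    rw [List.append_assoc, List.singleton_append, ← List.replicate_succ] at h1
    rw [List.append_assoc, List.singleton_append, ← List.replicate_succ] at h2
    exact h1.trans h2

theorem tgl_w0 (u : List (Fin 2 × Bool)) (e : ℤ) : EqD 2 (tgl (u ++ wi 0 e)) (tgl u ++ ht e) :=
  tgl_rep0 _ _ u

end TWWaux

open TWWaux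

theorem t_TWW (h1 : STR_Stmt) (h2 : RTI_Stmt) (h3 : FCG_Stmt) : TWW_Stmt := by
  intro a ha
  obtain ⟨u, hu, hv⟩ := (main h1 h2 h3 a ha).2
  refine ⟨u, ?_, hv⟩
  have hca : cnt 2 a.dg = some 2 := h3.2.2.2.2.1 a
  have hcr : cnt 2 (rotD a.dg) = some 2 := (h3.2.2.2.1 a.dg hca).1
  exact (hu.widen 1).right [(.cap, 2)] (by
    change cnt 2 (rotD a.dg) ≠ none
    rw [hcr]
    exact Option.some_ne_none _)

theorem t_MTM (h1 : TWW_Stmt) (h2 : FCG_Stmt) : MTM_Stmt := by
  intro a b c e ha hb hc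
  obtain ⟨ua, hua, va⟩ := h1 a ha
  obtain ⟨ub, hub, vb⟩ := h1 b hb
  obtain ⟨uc, huc, vc⟩ := h1 c hc
  have cr : ∀ T : Tr, cnt 2 (rotD T.dg) = some 2 := fun T => (h2.2.2.2.1 T.dg (h2.2.2.2.2.1 T)).1
  have cM : cnt 2 (M3 a b c e).dg = some 2 := h2.2.2.2.2.1 _
  refine ⟨ua, ub, uc ++ wi 0 e, ?_, va, vb, ?_⟩
  · have s1 : EqD 2 (rotD c.dg ++ ht e) (tgl (uc ++ wi 0 e)) :=
      (h2.2.1 _ _ _ _ huc (EqD.refl _) (cr c) (cnt_ht e)).trans (tgl_w0 uc e).symm
    have c1 : cnt 2 (rotD c.dg ++ ht e) = some 2 := by rw [cnt_app (cr c), cnt_ht]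
    have s2 : EqD 2 (rotD b.dg ++ (rotD c.dg ++ ht e)) (tgl ub ++ tgl (uc ++ wi 0 e)) :=
      h2.2.1 _ _ _ _ hub s1 (cr b) c1
    have c2 : cnt 2 (rotD b.dg ++ (rotD c.dg ++ ht e)) = some 2 := by rw [cnt_app (cr b), c1]
    have s3 : EqD 2 (M3 a b c e).dg (tgl ua ++ (tgl ub ++ tgl (uc ++ wi 0 e))) :=
      h2.2.1 _ _ _ _ hua s2 (cr a) c2
    have s4 := (h2.1 _ _ s3 cM).2
    have e1 : mont [ua, ub, uc ++ wi 0 e] = cl (tgl ua ++ (tgl ub ++ tgl (uc ++ wi 0 e))) := by
      simp [mont, UA.cl]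
    rw [e1]
    exact s4
  · rw [tvec_app, tvec_w0]
    rcases vc with v | v
    · left
      rw [v]
      simp only [addv, Prod.mk.injEq]
      constructor <;> ring
    · right
      rw [v]
      simp only [addv, Prod.fst_neg, Prod.snd_neg, Prod.neg_mk, Prod.mk.injEq]
      constructor <;> ring

end Pool.Agent.TW
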